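import Pool.Agent.FRS.Fix

/-!
# FRS/Quo: passing to a quotient by an invariant normal subgroup

Port of `Pool/Agent/FRB/Quo.lean`.
-/

set_option autoImplicit false

namespace Pool.Agent.FRS

open Pool.Agent.FRB (Inv Eig LF SS Lam)

variable {p r k : ℕ} {X : Type*} [Group X] {a : MulAut X}

theorem qt_mk (H : Hyp p r a) (N : Subgroup X) [N.Normal] (hN : Inv a N) (x : X) :
    qt H N hN (x : X ⧸ N) = ((a x : X) : X ⧸ N) := rfl

theorem qt_pow (H : Hyp p r a) (N : Subgroup X) [N.Normal] (hN : Inv a N) (n : ℕ) (x : X) :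
    ((qt H N hN) ^ n) (x : X ⧸ N) = (((a ^ n) x : X) : X ⧸ N) := by
  induction n generalizing x with
  | zero => rw [pow_zero, pow_zero, MulAut.one_apply, MulAut.one_apply]
  | succ n ih => rw [pow_succ, pow_succ, MulAut.mul_apply, MulAut.mul_apply, qt_mk, ih]

private theorem fin_image {N : Subgroup X} [N.Normal] {s : Set X}
    (h : ((Subgroup.closure s : Subgroup X) : Set X).Finite) :
    ((Subgroup.closure ((QuotientGroup.mk' N) '' s) : Subgroup (X ⧸ N)) : Set (X ⧸ N)).Finite := by
  rw [← MonoidHom.map_closure, Subgroup.coe_map]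
  exact h.image _

theorem qt_hyp (H : Hyp p r a) (N : Subgroup X) [N.Normal] (hN : Inv a N) : Hyp p r (qt H N hN) := by
  refine ⟨H.pos, fun q => ?_, ?_, fun q hq => ?_, fun q q' => ?_, fun q => ?_⟩
  · induction q using QuotientGroup.induction_on with
    | H x =>
      obtain ⟨n, hn⟩ := H.tors x
      exact ⟨n, by rw [← QuotientGroup.mk_pow, hn]; rfl⟩
  · refine MulEquiv.ext fun q => ?_
    induction q using QuotientGroup.induction_on with
    | H x => rw [qt_pow, H.powp, MulAut.one_apply, MulAut.one_apply]
  · induction q using QuotientGroup.induction_on with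
    | H x =>
      rw [qt_mk] at hq
      exact (QuotientGroup.eq_one_iff x).2 (fix H hN (QuotientGroup.eq.1 hq.symm))
  · induction q using QuotientGroup.induction_on with
    | H x =>
      induction q' using QuotientGroup.induction_on with
      | H y =>
        have h := fin_image (N := N) (H.two x y)
        rw [Set.image_pair] at h
        exact h
  · induction q using QuotientGroup.induction_on with
    | H x =>
      have h := fin_image (N := N) (H.orb x)
      rw [← Set.range_comp] at h
      have h1 : (fun n : ℕ => ((qt H N hN) ^ n) (x : X ⧸ N)) =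
          (QuotientGroup.mk' N) ∘ fun n : ℕ => (a ^ n) x := by
        funext n
        exact qt_pow H N hN n x
      rw [h1]
      exact h

theorem qt_eig (H : Hyp p r a) (N : Subgroup X) [N.Normal] (hN : Inv a N) {i : ℕ} {x : X} (hx : Eig r k a i x) :
    Eig r k (qt H N hN) i (x : X ⧸ N) := by
  obtain ⟨n, h1, h2⟩ := hx
  refine ⟨n, ?_, ?_⟩
  · rw [← QuotientGroup.mk_pow, h1]
    rfl
  · rw [qt_mk, h2, QuotientGroup.mk_pow]

theorem qt_inv_comap (H : Hyp p r a) (N : Subgroup X) [N.Normal] (hN : Inv a N) {L : Subgroup (X ⧸ N)}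
    (hL : Inv (qt H N hN) L) : Inv a (L.comap (QuotientGroup.mk' N)) := by
  intro x hx
  exact hL (x : X ⧸ N) hx

end Pool.Agent.FRS
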