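import Pool.Agent.FRS.EigB

/-!
# FRS/Sub: restriction to an invariant subgroup
-/

set_option autoImplicit false

namespace Pool.Agent.FRS

open Pool.Agent.FRB (Inv Eig LF SS Lam)

variable {p r k : ℕ} {X : Type*} [Group X] {a : MulAut X}

@[simp] theorem rs_coe (H : Hyp p r a) (S : Subgroup X) (hS : Inv a S) (x : S) :
    ((rs H S hS x : S) : X) = a (x : X) := rfl

theorem rs_pow (H : Hyp p r a) (S : Subgroup X) (hS : Inv a S) (n : ℕ) (x : S) :
    ((((rs H S hS) ^ n) x : S) : X) = (a ^ n) (x : X) := by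
  induction n generalizing x with
  | zero => rfl
  | succ n ih =>
    rw [pow_succ, pow_succ, MulAut.mul_apply, MulAut.mul_apply, ih, rs_coe]

private theorem sub_fin (S : Subgroup X) (s : Set S)
    (h : ((Subgroup.closure (S.subtype '' s) : Subgroup X) : Set X).Finite) :
    ((Subgroup.closure s : Subgroup S) : Set S).Finite := by
  refine Set.Finite.of_finite_image (f := S.subtype) ?_ (S.subtype_injective.injOn)
  rw [← MonoidHom.map_closure] at h
  exact h

theorem rs_hyp (H : Hyp p r a) (S : Subgroup X) (hS : Inv a S) : Hyp p r (rs H S hS) := by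
  refine ⟨H.pos, fun x => ?_, ?_, fun x hx => ?_, fun x y => ?_, fun x => ?_⟩
  · obtain ⟨n, hn⟩ := H.tors (x : X)
    exact ⟨n, Subtype.ext hn⟩
  · ext x
    rw [rs_pow, H.powp]
    rfl
  · exact Subtype.ext (H.fpf x (congrArg Subtype.val hx))
  · apply sub_fin
    have h := H.two (x : X) (y : X)
    rw [Set.image_pair]
    exact h
  · apply sub_fin
    have h := H.orb (x : X)
    rw [← Set.range_comp]
    have e : (S.subtype ∘ fun n : ℕ => ((rs H S hS) ^ n) x) = fun n : ℕ => (a ^ n) (x : X) := by
      funext n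
      exact rs_pow H S hS n x
    rw [e]
    exact h

theorem rs_eig (H : Hyp p r a) (S : Subgroup X) (hS : Inv a S) {i : ℕ} {x : S} :
    Eig r k (rs H S hS) i x ↔ Eig r k a i (x : X) := by
  constructor
  · rintro ⟨N, h1, h2⟩
    exact ⟨N, congrArg Subtype.val h1, congrArg Subtype.val h2⟩
  · rintro ⟨N, h1, h2⟩
    exact ⟨N, Subtype.ext h1, Subtype.ext h2⟩

/-- finiteness of a closure in a subgroup and in the group -/
theorem fin_sub (S : Subgroup X) (s : Set S) :
    ((Subgroup.closure (S.subtype '' s) : Subgroup X) : Set X).Finite ↔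
      ((Subgroup.closure s : Subgroup S) : Set S).Finite := by
  refine ⟨sub_fin S s, fun h => ?_⟩
  rw [← MonoidHom.map_closure]
  exact h.image S.subtype

/-- an invariant subgroup of `S` is invariant for the restriction and conversely -/
theorem inv_map (H : Hyp p r a) (S : Subgroup X) (hS : Inv a S) {T : Subgroup S} :
    Inv (rs H S hS) T ↔ Inv a (T.map S.subtype) := by
  constructor
  · rintro h _ ⟨y, hy, rfl⟩
    exact ⟨rs H S hS y, h y hy, rfl⟩
  · intro h x hx
    obtain ⟨y, hy, he⟩ := h (x : X) ⟨x, hx, rfl⟩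
    have : y = rs H S hS x := Subtype.ext he
    rw [← this]
    exact hy

theorem inv_subgroupOf (H : Hyp p r a) (S : Subgroup X) (hS : Inv a S) {T : Subgroup X} (hT : Inv a T) :
    Inv (rs H S hS) (T.subgroupOf S) := by
  intro x hx
  rw [Subgroup.mem_subgroupOf] at hx ⊢
  exact hT _ hx

end Pool.Agent.FRS
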