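import Pool.Agent.FRS.ChC

/-!
# FRS/ChD: the index property and existence of `Str`
-/

set_option autoImplicit false

namespace Pool.Agent.FRS

open Pool.Agent.FRB (Inv Eig LF SS Lam)

universe u

variable {p r k : ℕ} {X : Type u} [Group X] {a : MulAut X}

/-- elements of `N ⊔ D` are products, `N` normalised by `D` -/
private theorem sup_dec {N D : Subgroup X} (hN : ∀ d ∈ D, ∀ x ∈ N, d⁻¹ * x * d ∈ N) {v : X} (hv : v ∈ N ⊔ D) :
    ∃ x ∈ N, ∃ y ∈ D, v = x * y := by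
  rw [Subgroup.sup_eq_closure] at hv
  induction hv using Subgroup.closure_induction with
  | mem v hv =>
    rcases hv with hv | hv
    · exact ⟨v, hv, 1, Subgroup.one_mem _, (mul_one v).symm⟩
    · exact ⟨1, Subgroup.one_mem _, v, hv, (one_mul v).symm⟩
  | one => exact ⟨1, Subgroup.one_mem _, 1, Subgroup.one_mem _, (mul_one 1).symm⟩
  | mul v w _ _ hv hw =>
    obtain ⟨x, hx, y, hy, rfl⟩ := hv
    obtain ⟨x', hx', y', hy', rfl⟩ := hw
    refine ⟨x * (y * x' * y⁻¹), Subgroup.mul_mem _ hx ?_, y * y', Subgroup.mul_mem _ hy hy', by group⟩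
    have h := hN y⁻¹ (Subgroup.inv_mem _ hy) x' hx'
    rwa [inv_inv] at h
  | inv v _ hv =>
    obtain ⟨x, hx, y, hy, rfl⟩ := hv
    exact ⟨y⁻¹ * x⁻¹ * y, hN y hy _ (Subgroup.inv_mem _ hx), y⁻¹, Subgroup.inv_mem _ hy, by group⟩

/-- the index of a proper subgroup of a finite `r`-group is at least `r` -/
private theorem idx_ge (hr : r.Prime) {A B : Subgroup X} (hB : (B : Set X).Finite)
    (hp : ∀ x ∈ B, ∃ n : ℕ, x ^ (r ^ n) = 1) (hAB : ¬ B ≤ A) : r ≤ A.relIndex B := by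
  have : Fact r.Prime := ⟨hr⟩
  have : Finite B := hB
  have h1 : IsPGroup r B := by
    rintro ⟨g, hg⟩
    obtain ⟨n, hn⟩ := hp g hg
    exact ⟨n, Subtype.ext hn⟩
  obtain ⟨n, hn⟩ := IsPGroup.iff_card.1 h1
  have h2 : A.relIndex B ∣ r ^ n := by
    rw [← hn]
    exact Subgroup.relIndex_dvd_card A B
  obtain ⟨j, _, hj⟩ := (Nat.dvd_prime_pow hr).1 h2
  rw [hj]
  have hj0 : j ≠ 0 := by
    rintro rfl
    rw [pow_zero, Subgroup.relIndex_eq_one] at hj
    exact hAB hj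
  calc r = r ^ 1 := (pow_one r).symm
    _ ≤ r ^ j := Nat.pow_le_pow_right hr.pos (Nat.one_le_iff_ne_zero.2 hj0)

theorem stc_idx (h : Root p r k) (H : Hyp p r a) {i j n : ℕ} {c u : X} {e : ℕ → X} (hS : StC r k a i j c u n e)
    {N : Subgroup X} (h1 : Fr r (Cj c u) ≤ N) (h2 : N ≤ Cj c u) (h3 : ∀ x ∈ N, u⁻¹ * x * u ∈ N) {m : ℕ} (hm : m < n)
    (hN : N.relIndex (Cj c u) ≤ r ^ (m + 1)) : e n ∈ N := by
  by_contra hen
  have hV : Nm (Cj c u) u := nm_cj c u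
  have hNn : ∀ d ∈ Cj c u, ∀ x ∈ N, d⁻¹ * x * d ∈ N := fun d hd x hx => fr_norm h1 h2 hd hx
  -- the step
  have step : ∀ l, Ch r (Cj c u) u l ≤ N ⊔ Ch r (Cj c u) u (l + 1) →
      Ch r (Cj c u) u (l + 1) ≤ N ⊔ Ch r (Cj c u) u (l + 2) := by
    intro l hl
    show Fr r (Cj c u) ⊔ Subgroup.closure {x | ∃ v ∈ Ch r (Cj c u) u l, x = v⁻¹ * u⁻¹ * v * u} ≤ _
    refine sup_le (h1.trans le_sup_left) ?_
    rw [Subgroup.closure_le]
    rintro w ⟨v, hv, rfl⟩
    obtain ⟨x, hx, y, hy, rfl⟩ := sup_dec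
      (fun d hd x hx => hNn d (ch_le hV _ hd) x hx) (hl hv)
    have e1 : (x * y)⁻¹ * u⁻¹ * (x * y) * u =
        y⁻¹ * (x⁻¹ * (u⁻¹ * x * u)) * y * (y⁻¹ * u⁻¹ * y * u) := by group
    show (x * y)⁻¹ * u⁻¹ * (x * y) * u ∈ _
    rw [e1]
    refine Subgroup.mul_mem _ ((le_sup_left : N ≤ _) ?_)
      ((le_sup_right : Ch r (Cj c u) u (l + 2) ≤ _) (ch_com (l + 1) hy))
    exact hNn y (ch_le hV _ hy) _ (Subgroup.mul_mem _ (Subgroup.inv_mem _ hx) (h3 x hx))
  -- all the inclusions are proper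
  have hne : ∀ l ≤ n, ¬ N ⊔ Ch r (Cj c u) u l ≤ N ⊔ Ch r (Cj c u) u (l + 1) := by
    intro l hl hle
    have h4 : ∀ s, Ch r (Cj c u) u (l + s) ≤ N ⊔ Ch r (Cj c u) u (l + s + 1) := by
      intro s
      induction s with
      | zero => exact le_sup_right.trans hle
      | succ s ih => exact step (l + s) ih
    have h5 := h4 (n - l)
    rw [Nat.add_sub_cancel' hl] at h5
    exact hen ((sup_le le_rfl (hS.bot.trans h1)) (h5 (hS.mem n le_rfl)))
  -- the indices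
  have hfin : ∀ l, ((N ⊔ Ch r (Cj c u) u l : Subgroup X) : Set X).Finite := fun l =>
    (cj_fin H c u).subset (sup_le h2 (ch_le hV l))
  have hidx : ∀ s ≤ n + 1, r ^ s ≤ N.relIndex (N ⊔ Ch r (Cj c u) u (n + 1 - s)) := by
    intro s
    induction s with
    | zero =>
      intro _
      rw [pow_zero, Nat.one_le_iff_ne_zero]
      have : Finite (N ⊔ Ch r (Cj c u) u (n + 1 - 0) : Subgroup X) := hfin _
      exact Subgroup.index_ne_zero_of_finite
    | succ s ih =>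
      intro hs
      have h6 := ih (by omega)
      have h7 : n + 1 - s = (n + 1 - (s + 1)) + 1 := by omega
      rw [h7] at h6
      have h8 := hne (n + 1 - (s + 1)) (by omega)
      have h9 : N ⊔ Ch r (Cj c u) u ((n + 1 - (s + 1)) + 1) ≤ N ⊔ Ch r (Cj c u) u (n + 1 - (s + 1)) :=
        sup_le_sup_left (ch_anti hV _) N
      rw [← Subgroup.relIndex_mul_relIndex N _ _ le_sup_left h9, pow_succ]
      exact Nat.mul_le_mul h6 (idx_ge h.prime (hfin _) (fun x _ => H.tors x) h8)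
  have h10 := hidx (n + 1) le_rfl
  rw [Nat.sub_self] at h10
  have h11 : N ⊔ Ch r (Cj c u) u 0 = Cj c u := sup_eq_right.2 h2
  rw [h11] at h10
  have h12 := (Nat.pow_le_pow_iff_right h.prime.one_lt).1 (h10.trans hN)
  omega

theorem str_exists (h : Root p r k) (H : Hyp p r a) {i j : ℕ} {c u : X} (hc : Eig r k a i c) (hu : Eig r k a j u) :
    ∃ (n : ℕ) (e : ℕ → X), Str r k a i j c u n e := by
  obtain ⟨n, e, hS⟩ := stc_exists h H hc hu
  exact ⟨n, e, hS.zero, hS.eig, fun l hl => ch_le (nm_cj c u) l (hS.mem l hl), stc_gen h H hS, stc_gent h H hS,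
    fun l hl => stc_ncomm h H hS hl, fun l hl h1 => stc_ne h H hS hl h1, stc_last hS,
    fun N h1 h2 h3 m hm hN => stc_idx h H hS h1 h2 h3 hm hN⟩

end Pool.Agent.FRS
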