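import Pool.Agent.FRS.LiftN

/-!
# FRS/Gen: invariant subgroups are generated by eigen-elements

Port of `Pool/Agent/FRB/Gen.lean` to a general prime `p`.

`comm_dec`: `A` a commutative group, `α : A →* A` with `α^p = 1` on `x` (as iterate), `x ^ (r^M) = 1`.  With
`E i = k^(i r^M)` put `e j = (prod_{t<p} (α^t x) ^ (E ((p - t) * j)))^f`, `p f = 1 (mod r^M)` (`Root.inv_p`).
Then `α (e j) = (e j)^(E j)` and `prod_{j<p} e j = x`, because `sum_{j<p} k^((p-t) j r^M) = 0 (mod r^M)` for
`0 < t < p` (`sum_root`).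

`center_dec`: apply this in the centre.  `gen_finite`: strong induction on `Nat.card X`, quotient by the centre,
`lift_quo`.  `gen`: apply `gen_finite` in the closure of the orbit of `x` (`H.orb`, `rs_hyp`, `rs_eig`, `orb_le`);
degrees are reduced modulo `p` (`eig_congr` with `i % p`; degree `0` is trivial by `eig_triv`).
-/

set_option autoImplicit false

namespace Pool.Agent.FRS

open Pool.Agent.FRB (Inv Eig LF SS Lam)

universe u

variable {p r k : ℕ}

private theorem inv_center {X : Type u} [Group X] (a : MulAut X) : Inv a (Subgroup.center X) := by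
  intro x hx
  rw [Subgroup.mem_center_iff] at hx ⊢
  intro g
  have h1 := congrArg a (hx (a⁻¹ g))
  rw [map_mul, map_mul, MulAut.apply_inv_self] at h1
  exact h1

private theorem pw {A : Type*} [Monoid A] {y : A} {n s t : ℕ} (hy : y ^ n = 1) (h : s ≡ t [MOD n]) :
    y ^ s = y ^ t := by
  rw [pow_eq_pow_mod s hy, pow_eq_pow_mod t hy, h]

theorem comm_dec {A : Type u} [CommGroup A] (α : A →* A) (h : Root p r k) (M : ℕ) {x : A} (hx : x ^ (r ^ M) = 1)
    (hp : (α^[p]) x = x) :
    ∃ e : ℕ → A, (∀ j, (e j) ^ (r ^ M) = 1 ∧ α (e j) = (e j) ^ (k ^ (j * r ^ M))) ∧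
      x = ∏ j ∈ Finset.range p, e j := by
  obtain ⟨f, hf⟩ := h.inv_p M
  have hp0 : 0 < p := h.pp.pos
  have p0 : ∀ t, ((α^[t]) x) ^ (r ^ M) = 1 := by
    intro t
    induction t with
    | zero => exact hx
    | succ t ih => rw [Function.iterate_succ_apply', ← map_pow, ih, map_one]
  have hEc : ∀ {i j : ℕ}, i ≡ j [MOD p] → k ^ (i * r ^ M) ≡ k ^ (j * r ^ M) [MOD r ^ M] := fun hij =>
    (h.congr_p hij M).of_dvd (pow_dvd_pow r (Nat.le_succ M))
  refine ⟨fun j => (∏ t ∈ Finset.range p, ((α^[t]) x) ^ (k ^ ((p - t) * j * r ^ M))) ^ f,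
    fun j => ⟨?_, ?_⟩, ?_⟩
  · show ((∏ t ∈ Finset.range p, ((α^[t]) x) ^ (k ^ ((p - t) * j * r ^ M))) ^ f) ^ (r ^ M) = 1
    rw [← pow_mul, mul_comm, pow_mul, ← Finset.prod_pow, Finset.prod_eq_one, one_pow]
    intro t _
    rw [← pow_mul, mul_comm, pow_mul, p0, one_pow]
  · show α ((∏ t ∈ Finset.range p, ((α^[t]) x) ^ (k ^ ((p - t) * j * r ^ M))) ^ f) =
      ((∏ t ∈ Finset.range p, ((α^[t]) x) ^ (k ^ ((p - t) * j * r ^ M))) ^ f) ^ (k ^ (j * r ^ M))
    rw [← pow_mul, mul_comm f, pow_mul, map_pow, map_prod]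
    congr 1
    rw [← Finset.prod_pow]
    have h1 : ∀ t ∈ Finset.range p, α (((α^[t]) x) ^ (k ^ ((p - t) * j * r ^ M))) =
        (fun t => ((α^[t]) x) ^ (k ^ ((p + 1 - t) * j * r ^ M))) (t + 1) := by
      intro t _
      show α (((α^[t]) x) ^ (k ^ ((p - t) * j * r ^ M))) =
        ((α^[t + 1]) x) ^ (k ^ ((p + 1 - (t + 1)) * j * r ^ M))
      rw [map_pow, Function.iterate_succ_apply', Nat.add_sub_add_right]
    have h2 : ∀ t ∈ Finset.range p, (((α^[t]) x) ^ (k ^ ((p - t) * j * r ^ M))) ^ (k ^ (j * r ^ M)) =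
        (fun t => ((α^[t]) x) ^ (k ^ ((p + 1 - t) * j * r ^ M))) t := by
      intro t ht
      show (((α^[t]) x) ^ (k ^ ((p - t) * j * r ^ M))) ^ (k ^ (j * r ^ M)) =
        ((α^[t]) x) ^ (k ^ ((p + 1 - t) * j * r ^ M))
      have h3 : p + 1 - t = (p - t) + 1 := by
        have := Finset.mem_range.1 ht
        omega
      rw [← pow_mul, ← pow_add, h3]
      congr 2
      ring
    rw [Finset.prod_congr rfl h1, Finset.prod_congr rfl h2]
    have h3 := Finset.prod_range_succ' (fun t => ((α^[t]) x) ^ (k ^ ((p + 1 - t) * j * r ^ M))) p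
    have h4 := Finset.prod_range_succ (fun t => ((α^[t]) x) ^ (k ^ ((p + 1 - t) * j * r ^ M))) p
    rw [h3] at h4
    have h5 : ((α^[0]) x) ^ (k ^ ((p + 1 - 0) * j * r ^ M)) =
        ((α^[p]) x) ^ (k ^ ((p + 1 - p) * j * r ^ M)) := by
      rw [hp, Function.iterate_zero_apply]
      refine pw hx (hEc ?_)
      rw [Nat.sub_zero, Nat.add_sub_cancel_left, Nat.add_mul]
      show (p * j + 1 * j) % p = (1 * j) % p
      rw [Nat.add_mod, Nat.mul_mod_right, Nat.zero_add, Nat.mod_mod]
    have h6 : (∏ t ∈ Finset.range p, (fun t => ((α^[t]) x) ^ (k ^ ((p + 1 - t) * j * r ^ M))) (t + 1)) *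
        ((α^[0]) x) ^ (k ^ ((p + 1 - 0) * j * r ^ M)) =
        (∏ t ∈ Finset.range p, (fun t => ((α^[t]) x) ^ (k ^ ((p + 1 - t) * j * r ^ M))) t) *
        ((α^[p]) x) ^ (k ^ ((p + 1 - p) * j * r ^ M)) := h4
    rw [h5] at h6
    exact mul_right_cancel h6
  · show x = ∏ j ∈ Finset.range p,
      (∏ t ∈ Finset.range p, ((α^[t]) x) ^ (k ^ ((p - t) * j * r ^ M))) ^ f
    rw [Finset.prod_pow, Finset.prod_comm]
    have h1 : ∀ t ∈ Finset.range p, ∏ j ∈ Finset.range p, ((α^[t]) x) ^ (k ^ ((p - t) * j * r ^ M)) =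
        if t = 0 then x ^ p else 1 := by
      intro t ht
      rw [Finset.prod_pow_eq_pow_sum]
      rcases Nat.eq_zero_or_pos t with rfl | ht0
      · rw [if_pos rfl, Function.iterate_zero_apply]
        refine pw hx ?_
        have h2 : (∑ j ∈ Finset.range p, k ^ ((p - 0) * j * r ^ M)) ≡ ∑ j ∈ Finset.range p, 1 [MOD r ^ M] := by
          refine Nat.ModEq.sum fun j _ => ?_
          have h3 : (p - 0) * j ≡ 0 [MOD p] := by
            rw [Nat.modEq_zero_iff_dvd, Nat.sub_zero]
            exact dvd_mul_right p j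
          have h4 := hEc h3
          rwa [Nat.zero_mul, pow_zero] at h4
        rw [Finset.sum_const, Finset.card_range, smul_eq_mul, mul_one] at h2
        exact h2
      · rw [if_neg ht0.ne']
        have h2 : ¬ p ∣ p - t := by
          intro h3
          have h4 := Finset.mem_range.1 ht
          have := Nat.le_of_dvd (by omega) h3
          omega
        rw [pw (p0 t) (sum_root h M h2), pow_zero]
    rw [Finset.prod_congr rfl h1, Finset.prod_ite_eq', if_pos (Finset.mem_range.2 hp0), ← pow_mul,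
      pw hx hf, pow_one]

theorem center_dec {X : Type u} [Group X] {a : MulAut X} (h : Root p r k) (H : Hyp p r a) {x : X}
    (hx : x ∈ Subgroup.center X) :
    x ∈ Subgroup.closure {e : X | e ∈ Subgroup.center X ∧ ∃ i, Eig r k a i e} := by
  obtain ⟨M, hM⟩ := H.tors x
  let _ : CommGroup (Subgroup.center X) :=
    { (inferInstance : Group (Subgroup.center X)) with
      mul_comm := fun a b => Subtype.ext (Subgroup.mem_center_iff.1 b.2 a) }
  let α : Subgroup.center X →* Subgroup.center X :=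
    ((a : X →* X).comp (Subgroup.center X).subtype).codRestrict (Subgroup.center X)
      (fun z => inv_center a z z.2)
  have hα : ∀ z : Subgroup.center X, ((α z : Subgroup.center X) : X) = a (z : X) := fun _ => rfl
  have hit : ∀ (t : ℕ) (z : Subgroup.center X), (((α^[t]) z : Subgroup.center X) : X) = (a ^ t) (z : X) := by
    intro t z
    induction t with
    | zero => simp
    | succ t ih => rw [Function.iterate_succ_apply', hα, ih, pow_succ', MulAut.mul_apply]
  obtain ⟨e, he, hprod⟩ := comm_dec α h M (x := ⟨x, hx⟩) (Subtype.ext hM)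
    (Subtype.ext (by rw [hit, H.powp]; rfl))
  have key : ∀ j, (e j : X) ∈ Subgroup.closure {e : X | e ∈ Subgroup.center X ∧ ∃ i, Eig r k a i e} := by
    intro j
    refine Subgroup.subset_closure ⟨(e j).2, j, M, ?_, ?_⟩
    · have := congrArg (fun z : Subgroup.center X => (z : X)) (he j).1
      simpa using this
    · exact congrArg (fun z : Subgroup.center X => (z : X)) (he j).2
  have hmem : ∀ s : Finset ℕ, ((∏ j ∈ s, e j : Subgroup.center X) : X) ∈
      Subgroup.closure {e : X | e ∈ Subgroup.center X ∧ ∃ i, Eig r k a i e} := by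
    intro s
    induction s using Finset.induction_on with
    | empty => rw [Finset.prod_empty]; exact one_mem _
    | insert j s hj ih =>
      rw [Finset.prod_insert hj]
      exact mul_mem (key j) ih
  have hx' : x = ((∏ j ∈ Finset.range p, e j : Subgroup.center X) : X) :=
    congrArg (fun z : Subgroup.center X => (z : X)) hprod
  rw [hx']
  exact hmem _

theorem gen_finite (h : Root p r k) (n : ℕ) : ∀ (X : Type u) [Group X] [Finite X] (a : MulAut X), Hyp p r a →
    Nat.card X = n → Subgroup.closure {e : X | ∃ i, Eig r k a i e} = ⊤ := by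
  induction n using Nat.strong_induction_on with
  | _ n ih =>
    intro X _ _ a H hn
    rcases subsingleton_or_nontrivial X with hs | hs
    · exact Subsingleton.elim _ _
    have hp : Fact r.Prime := ⟨h.prime⟩
    have hP : IsPGroup r X := H.tors
    have hZ : Nontrivial (Subgroup.center X) := hP.center_nontrivial
    have hcard : Nat.card (X ⧸ Subgroup.center X) < n := by
      have h1 := Subgroup.card_eq_card_quotient_mul_card_subgroup (Subgroup.center X)
      have h2 : 1 < Nat.card (Subgroup.center X) := Finite.one_lt_card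
      have h3 : 0 < Nat.card (X ⧸ Subgroup.center X) := Nat.card_pos
      rw [hn] at h1
      nlinarith
    have hq := ih _ hcard (X ⧸ Subgroup.center X) (qt H (Subgroup.center X) (inv_center a))
      (qt_hyp H _ (inv_center a)) rfl
    rw [eq_top_iff]
    intro x _
    have hx : (x : X ⧸ Subgroup.center X) ∈ Subgroup.map (QuotientGroup.mk' (Subgroup.center X))
        (Subgroup.closure {e : X | ∃ i, Eig r k a i e}) := by
      have h1 : (⊤ : Subgroup (X ⧸ Subgroup.center X)) ≤ Subgroup.map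
          (QuotientGroup.mk' (Subgroup.center X))
          (Subgroup.closure {e : X | ∃ i, Eig r k a i e}) := by
        rw [← hq, Subgroup.closure_le]
        rintro q ⟨i, hqi⟩
        obtain ⟨y, hy, hyi⟩ := lift_quo h H (Subgroup.center X) (inv_center a) hqi
        exact ⟨y, Subgroup.subset_closure ⟨i, hyi⟩, hy⟩
      exact h1 trivial
    obtain ⟨y, hy, hyx⟩ := hx
    have h2 : y⁻¹ * x ∈ Subgroup.center X := QuotientGroup.eq.1 hyx
    have h3 := mul_mem hy (Subgroup.closure_mono (fun e he => he.2) (center_dec h H h2))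
    rwa [mul_inv_cancel_left] at h3

theorem gen {X : Type u} [Group X] {a : MulAut X} (h : Root p r k) (H : Hyp p r a) {S : Subgroup X} (hS : Inv a S)
    {x : X} (hx : x ∈ S) : x ∈ Subgroup.closure {e : X | e ∈ S ∧ ∃ i, 1 ≤ i ∧ i < p ∧ Eig r k a i e} := by
  set O : Subgroup X := Subgroup.closure (Set.range fun n : ℕ => (a ^ n) x) with hO
  have hOf : Finite O := (H.orb x).to_subtype
  have hOi : Inv a O := inv_orb a x
  have hOS : O ≤ S := orb_le hS hx
  have hxO : x ∈ O := mem_orb a x
  have h1 := gen_finite h (Nat.card O) O (rs H O hOi) (rs_hyp H O hOi) rfl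
  have h2 : (⟨x, hxO⟩ : O) ∈ Subgroup.closure {e : O | ∃ i, Eig r k (rs H O hOi) i e} := by
    rw [h1]
    trivial
  have h3 : x ∈ Subgroup.map O.subtype
      (Subgroup.closure {e : O | ∃ i, Eig r k (rs H O hOi) i e}) := ⟨_, h2, rfl⟩
  rw [MonoidHom.map_closure] at h3
  refine (Subgroup.closure_le _).2 ?_ h3
  rintro _ ⟨e, ⟨i, he⟩, rfl⟩
  have he' : Eig r k a i (e : X) := (rs_eig H O hOi).1 he
  rcases Nat.eq_zero_or_pos (i % p) with h4 | h4
  · have h5 : (e : X) = 1 := eig_triv h H (Nat.dvd_of_mod_eq_zero h4) he'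
    show (e : X) ∈ _
    rw [h5]
    exact one_mem _
  · exact Subgroup.subset_closure ⟨hOS e.2, i % p, h4, Nat.mod_lt _ h.pp.pos,
      eig_congr h (Nat.mod_modEq i p).symm he'⟩

end Pool.Agent.FRS
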