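import Pool.Agent.FRS.Sub
import Pool.Agent.FRS.Quo

/-!
# FRS/Norm1: an eigen-element of nonzero degree normalising a cyclic invariant subgroup centralises it
-/

set_option autoImplicit false

namespace Pool.Agent.FRS

open Pool.Agent.FRB (Inv Eig LF SS Lam)

universe u

variable {p r k : ℕ} {X : Type u} [Group X] {a : MulAut X}

private theorem n1_up {x : X} {N M : ℕ} (hN : x ^ (r ^ N) = 1) (hle : N ≤ M) : x ^ (r ^ M) = 1 := by
  obtain ⟨d, rfl⟩ := Nat.exists_eq_add_of_le hle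
  rw [pow_add, pow_mul, hN, one_pow]

private theorem n1_rec {x : X} {N : ℕ} {α β q : ℤ} (hN : x ^ (r ^ N) = 1)
    (h : α * q + β * (r : ℤ) ^ N = 1) : (x ^ q) ^ α = x := by
  have h3 : x ^ ((r : ℤ) ^ N) = 1 := by
    rw [← Nat.cast_pow, zpow_natCast, hN]
  calc (x ^ q) ^ α = x ^ (q * α) := (zpow_mul x q α).symm
    _ = x ^ (q * α) * (x ^ ((r : ℤ) ^ N)) ^ β := by rw [h3, one_zpow, mul_one]
    _ = x ^ (α * q + β * (r : ℤ) ^ N) := by rw [← zpow_mul, ← zpow_add, mul_comm q α, mul_comm _ β]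
    _ = x := by rw [h, zpow_one]

theorem norm1 (h : Root p r k) (H : Hyp p r a) {i j : ℕ} {x u : X} (hx : Eig r k a i x) (hu : Eig r k a j u)
    (hj : ¬ p ∣ j) (hn : u⁻¹ * x * u ∈ Subgroup.zpowers x) : Commute x u := by
  obtain ⟨N1, hN1, -⟩ := id hx
  obtain ⟨N2, hN2, -⟩ := id hu
  obtain ⟨M, hM1, hM2⟩ : ∃ M, N1 ≤ M ∧ N2 ≤ M := ⟨max N1 N2, le_max_left _ _, le_max_right _ _⟩
  have hxM : x ^ (r ^ M) = 1 := n1_up hN1 hM1
  have huM : u ^ (r ^ M) = 1 := n1_up hN2 hM2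
  have hax := eig_at h hx hxM
  have hau := eig_at h hu huM
  obtain ⟨s, hs⟩ := Subgroup.mem_zpowers_iff.1 hn
  set m := k ^ (j * r ^ M) with hm
  set m' := k ^ (i * r ^ M) with hm'
  have e1 : (u ^ m)⁻¹ * x ^ m' * u ^ m = (x ^ m') ^ s := by
    rw [← hax, ← hau, ← map_inv, ← map_mul, ← map_mul, ← map_zpow, hs]
  have c1 : IsCoprime (m' : ℤ) ((r : ℤ) ^ M) := by
    have : Nat.Coprime m' (r ^ M) := Nat.Coprime.pow _ _ h.cop_k
    have := Nat.isCoprime_iff_coprime.2 this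
    rwa [Nat.cast_pow r M] at this
  obtain ⟨α, β, hαβ⟩ := c1
  have e2 : (u ^ m)⁻¹ * x * u ^ m = x ^ s := by
    have f1 : ((u ^ m)⁻¹ * x * u ^ m) ^ ((m' : ℕ) : ℤ) = (x ^ s) ^ ((m' : ℕ) : ℤ) := by
      have : ((u ^ m)⁻¹ * x * u ^ m) ^ m' = (u ^ m)⁻¹ * x ^ m' * u ^ m := by
        have := conj_pow (i := m') (a := (u ^ m)⁻¹) (b := x)
        rwa [inv_inv] at this
      rw [zpow_natCast, zpow_natCast, this, e1, ← zpow_natCast, ← zpow_natCast, ← zpow_mul, ← zpow_mul, mul_comm]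
    have f2 : ((u ^ m)⁻¹ * x * u ^ m) ^ (r ^ M) = 1 := by
      have := conj_pow (i := r ^ M) (a := (u ^ m)⁻¹) (b := x)
      rw [inv_inv, hxM] at this
      rw [this]
      simp
    have f3 : (x ^ s) ^ (r ^ M) = 1 := by
      rw [← zpow_natCast, ← zpow_mul, mul_comm, zpow_mul, zpow_natCast, hxM, one_zpow]
    rw [← n1_rec f2 hαβ, f1, n1_rec f3 hαβ]
  have e3 : (u ^ m)⁻¹ * x * u ^ m = u⁻¹ * x * u := by rw [e2, hs]
  have e4 : Commute x (u ^ ((m : ℤ) - 1)) := by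
    have : u ^ ((m : ℤ) - 1) = u ^ m * u⁻¹ := by rw [zpow_sub_one, zpow_natCast]
    rw [this]
    show x * (u ^ m * u⁻¹) = u ^ m * u⁻¹ * x
    calc x * (u ^ m * u⁻¹) = u ^ m * ((u ^ m)⁻¹ * x * u ^ m) * u⁻¹ := by group
      _ = u ^ m * u⁻¹ * x := by rw [e3]; group
  have c2 : IsCoprime ((m : ℤ) - 1) ((r : ℤ) ^ M) := by
    have hij : ¬ j ≡ 0 [MOD p] := fun h' => hj ((Nat.modEq_zero_iff_dvd).1 h')
    have := (h.cop hij M).pow_right (n := M)
    rw [zero_mul, pow_zero] at this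
    rw [hm]
    push_cast
    exact this
  obtain ⟨α', β', hαβ'⟩ := c2
  rw [← n1_rec huM hαβ']
  exact e4.zpow_right _

private theorem n1_conj {E : Subgroup X} {x : X} {N : ℕ} (hr : 0 < r) (hN : x ^ (r ^ N) = 1)
    (hE : ∀ e ∈ E, x⁻¹ * e * x ∈ E) : x ∈ Subgroup.normalizer (E : Set X) := by
  have h1 : ∀ n : ℕ, ∀ e ∈ E, (x ^ n)⁻¹ * e * x ^ n ∈ E := by
    intro n
    induction n with
    | zero => intro e he; simpa using he
    | succ n ih =>
      intro e he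
      have : (x ^ (n + 1))⁻¹ * e * x ^ (n + 1) = (x ^ n)⁻¹ * (x⁻¹ * e * x) * x ^ n := by
        rw [pow_succ']; group
      rw [this]
      exact ih _ (hE e he)
  have h2 : ∀ e ∈ E, x * e * x⁻¹ ∈ E := by
    intro e he
    have h3 : x ^ (r ^ N - 1) = x⁻¹ := by
      rw [eq_inv_iff_mul_eq_one, ← pow_succ, Nat.sub_add_cancel (Nat.one_le_iff_ne_zero.2 (pow_pos hr N).ne'), hN]
    have := h1 (r ^ N - 1) e he
    rwa [h3, inv_inv] at this
  rw [Subgroup.mem_normalizer_iff]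
  intro e
  constructor
  · exact h2 e
  · intro he
    have := hE _ he
    have e1 : x⁻¹ * (x * e * x⁻¹) * x = e := by group
    rwa [e1] at this

theorem norm1q (h : Root p r k) (H : Hyp p r a) {i j : ℕ} {x u : X} (hx : Eig r k a i x) (hu : Eig r k a j u)
    (hj : ¬ p ∣ j) {E : Subgroup X} (hE : Inv a E) (hEx : ∀ e ∈ E, x⁻¹ * e * x ∈ E) (hEu : ∀ e ∈ E, u⁻¹ * e * u ∈ E)
    (hn : u⁻¹ * x * u ∈ Subgroup.zpowers x ⊔ E) : x⁻¹ * (u⁻¹ * x * u) ∈ E := by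
  obtain ⟨N1, hN1, -⟩ := id hx
  obtain ⟨N2, hN2, -⟩ := id hu
  have hr : 0 < r := h.prime.pos
  set s : Set X := {x, u} ∪ (E : Set X) with hs
  set Y : Subgroup X := Subgroup.closure s with hY
  have hxY : x ∈ Y := Subgroup.subset_closure (Or.inl (Or.inl rfl))
  have huY : u ∈ Y := Subgroup.subset_closure (Or.inl (Or.inr rfl))
  have hEY : E ≤ Y := fun e he => Subgroup.subset_closure (Or.inr he)
  have hYi : Inv a Y := by
    refine FRB.inv_closure fun z hz => ?_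
    rcases hz with hz | hz
    · rcases hz with rfl | hz
      · exact (Subgroup.zpowers_le.2 hxY) (eig_mem hx)
      · rw [Set.mem_singleton_iff] at hz
        subst hz
        exact (Subgroup.zpowers_le.2 huY) (eig_mem hu)
    · exact hEY (hE z hz)
  have hYn : Y ≤ Subgroup.normalizer (E : Set X) := by
    rw [hY, Subgroup.closure_le]
    rintro z (hz | hz)
    · rcases hz with rfl | hz
      · exact n1_conj hr hN1 hEx
      · rw [Set.mem_singleton_iff] at hz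
        subst hz
        exact n1_conj hr hN2 hEu
    · exact Subgroup.le_normalizer hz
  haveI hnor : (E.subgroupOf Y).Normal := Subgroup.normal_subgroupOf_of_le_normalizer hYn
  have HY := rs_hyp H Y hYi
  have hEi : Inv (rs H Y hYi) (E.subgroupOf Y) := inv_subgroupOf H Y hYi hE
  have HQ := qt_hyp HY (E.subgroupOf Y) hEi
  set x' : Y := ⟨x, hxY⟩ with hx'
  set u' : Y := ⟨u, huY⟩ with hu'
  have ex : Eig r k (rs H Y hYi) i x' := (rs_eig H Y hYi).2 hx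
  have eu : Eig r k (rs H Y hYi) j u' := (rs_eig H Y hYi).2 hu
  have qx := qt_eig HY (E.subgroupOf Y) hEi ex
  have qu := qt_eig HY (E.subgroupOf Y) hEi eu
  have hK : (Subgroup.zpowers x ⊔ E : Subgroup X) ≤
      ((Subgroup.zpowers ((x' : Y) : Y ⧸ E.subgroupOf Y)).comap (QuotientGroup.mk' (E.subgroupOf Y))).map Y.subtype := by
    rw [sup_le_iff]
    constructor
    · rw [Subgroup.zpowers_le]
      exact ⟨x', Subgroup.mem_zpowers _, rfl⟩
    · intro e he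
      refine ⟨⟨e, hEY he⟩, ?_, rfl⟩
      show ((⟨e, hEY he⟩ : Y) : Y ⧸ E.subgroupOf Y) ∈ Subgroup.zpowers ((x' : Y) : Y ⧸ E.subgroupOf Y)
      rw [(QuotientGroup.eq_one_iff (N := E.subgroupOf Y) (⟨e, hEY he⟩ : Y)).2 (Subgroup.mem_subgroupOf.2 he)]
      exact Subgroup.one_mem _
  obtain ⟨y, hy1, hy2⟩ := hK hn
  have hy3 : y = u'⁻¹ * x' * u' := Subtype.ext hy2
  have hy4 : ((u' : Y) : Y ⧸ E.subgroupOf Y)⁻¹ * ((x' : Y) : Y ⧸ E.subgroupOf Y) * ((u' : Y) : Y ⧸ E.subgroupOf Y) ∈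
      Subgroup.zpowers ((x' : Y) : Y ⧸ E.subgroupOf Y) := by
    have : ((y : Y) : Y ⧸ E.subgroupOf Y) ∈ Subgroup.zpowers ((x' : Y) : Y ⧸ E.subgroupOf Y) := hy1
    rw [hy3] at this
    exact this
  have hc := norm1 h HQ qx qu hj hy4
  have hd : ((x'⁻¹ * (u'⁻¹ * x' * u') : Y) : Y ⧸ E.subgroupOf Y) = 1 := by
    show ((x' : Y) : Y ⧸ E.subgroupOf Y)⁻¹ * (((u' : Y) : Y ⧸ E.subgroupOf Y)⁻¹ * ((x' : Y) : Y ⧸ E.subgroupOf Y) *
      ((u' : Y) : Y ⧸ E.subgroupOf Y)) = 1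
    rw [mul_assoc (((u' : Y) : Y ⧸ E.subgroupOf Y)⁻¹), hc.eq, inv_mul_cancel_left, inv_mul_cancel]
  have := (QuotientGroup.eq_one_iff (N := E.subgroupOf Y) _).1 hd
  exact Subgroup.mem_subgroupOf.1 this

end Pool.Agent.FRS
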