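import Pool.Agent.FRS.ChD
import Pool.Agent.FRS.Norm1
import Pool.Agent.FRS.Gen

/-!
# FRS/RulA: rules about types

Elementary consequences of `str_exists`.  `Ty K i x`: `x` has degree `i` and commutes with `L_l`, `l ∈ K`.
-/

set_option autoImplicit false

namespace Pool.Agent.FRS

open Pool.Agent.FRB (Inv Eig LF SS Lam)

universe u

variable {p r k : ℕ} {X : Type u} [Group X] {a : MulAut X}

theorem ty_mono (h : Root p r k) (H : Hyp p r a) {K K' : Finset ℕ} {i : ℕ} {x : X} (hi : i ≤ p)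
    (hK : K' ⊆ insert (p - i) K) (hx : Ty r k a K i x) : Ty r k a K' i x := by
  refine ⟨hx.1, fun l hl y hy => ?_⟩
  rcases Finset.mem_insert.1 (hK hl) with h1 | h1
  · refine comm_opp h H ?_ hx.1 hy
    rw [h1, Nat.add_sub_cancel' hi]
  · exact hx.2 l h1 y hy

theorem tr_mono (h : Root p r k) (H : Hyp p r a) {K K' : Finset ℕ} {i : ℕ} (ht : Tr r k a K' i) (hi : i ≤ p)
    (hK : K' ⊆ insert (p - i) K) : Tr r k a K i := by
  intro x hx
  exact ht x (ty_mono h H hi hK hx)

theorem cm_mono (h : Root p r k) (H : Hyp p r a) {K K' : Finset ℕ} {i j : ℕ} (ht : Cm r k a K' i j) (hi : i ≤ p)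
    (hK : K' ⊆ insert (p - i) K) : Cm r k a K i j := by
  intro x hx
  exact ht x (ty_mono h H hi hK hx)

private theorem rula_ins {K : Finset ℕ} {i j : ℕ} {x : X} (hx : Ty r k a K i x)
    (hu : ∀ u : X, Eig r k a j u → Commute x u) : Ty r k a (insert j K) i x := by
  refine ⟨hx.1, fun l hl y hy => ?_⟩
  rcases Finset.mem_insert.1 hl with h1 | h1
  · rw [h1] at hy
    exact hu y hy
  · exact hx.2 l h1 y hy

private theorem rula_opp (h : Root p r k) (H : Hyp p r a) {K : Finset ℕ} {i : ℕ} {u : X}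
    (hi : i ≤ p) (hK : K ⊆ {p - i}) (hu : Eig r k a i u) : Ty r k a K i u := by
  refine ⟨hu, fun l hl y hy => ?_⟩
  refine comm_opp h H ?_ hu hy
  rw [Finset.mem_singleton.1 (hK hl), Nat.add_sub_cancel' hi]

theorem tr_cl (h : Root p r k) (H : Hyp p r a) {K K' : Finset ℕ} {i j : ℕ} (hc : Cm r k a K i j)
    (ht : Tr r k a K' i) (hi : i ≤ p) (hK : K' ⊆ insert (p - i) (insert j K)) : Tr r k a K i := by
  intro x hx
  exact ht x (ty_mono h H hi hK (rula_ins hx (hc x hx)))

theorem cm_cl (h : Root p r k) (H : Hyp p r a) {K K' : Finset ℕ} {i j l : ℕ} (hc : Cm r k a K i l)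
    (ht : Cm r k a K' i j) (hi : i ≤ p) (hK : K' ⊆ insert (p - i) (insert l K)) : Cm r k a K i j := by
  intro x hx
  exact ht x (ty_mono h H hi hK (rula_ins hx (hc x hx)))

theorem cm_in {K : Finset ℕ} {i j : ℕ} (hj : j ∈ K) : Cm r k a K i j := by
  intro x hx u hu
  exact hx.2 j hj u hu

theorem cm_opp (h : Root p r k) (H : Hyp p r a) {K : Finset ℕ} {i j : ℕ} (hj : p ∣ i + j) : Cm r k a K i j := by
  intro x hx u hu
  exact comm_opp h H hj hx.1 hu

theorem cm_tr (h : Root p r k) (H : Hyp p r a) {K K' : Finset ℕ} {i j : ℕ} (ht : Tr r k a K' i) (hi : i ≤ p)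
    (hK : K' ⊆ insert (p - i) K) : Cm r k a K i j := by
  intro x hx u _
  rw [ht x (ty_mono h H hi hK hx)]
  exact Commute.one_left u

theorem cm_lj (h : Root p r k) (H : Hyp p r a) {K K' : Finset ℕ} {i j : ℕ} (ht : Tr r k a K' j) (hj : j ≤ p)
    (hK : K' ⊆ {p - j}) : Cm r k a K i j := by
  intro x _ u hu
  rw [ht u (rula_opp h H hj hK hu)]
  exact Commute.one_right x

theorem cm_symm (h : Root p r k) (H : Hyp p r a) {K K' : Finset ℕ} {i j : ℕ} (ht : Cm r k a K' i j) (hi : i ≤ p)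
    (hK : K' ⊆ {p - i}) : Cm r k a K j i := by
  intro x hx u hu
  exact (ht u (rula_opp h H hi hK hu) x hx.1).symm

theorem cj_one (h : Root p r k) (H : Hyp p r a) {i j : ℕ} {c u : X} {e : ℕ → X} (hc : Eig r k a i c)
    (hu : Eig r k a j u) (hS : Str r k a i j c u 0 e) : Commute c u := by
  by_cases hj : p ∣ j
  · rw [eig_triv h H hj hu]
    exact Commute.one_right c
  · refine norm1 h H hc hu hj ?_
    have h1 : Cj c u ≤ Subgroup.zpowers c := by
      rw [hS.gen, Subgroup.closure_le]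
      rintro x ⟨l, hl, rfl⟩
      rw [Nat.le_zero.1 hl, hS.zero]
      exact Subgroup.mem_zpowers c
    exact h1 (cj_conj1 c u (cj_self c u))

theorem cm_len (h : Root p r k) (H : Hyp p r a) {K : Finset ℕ} {i j : ℕ} (hl : Len r k a K i j 0) :
    Cm r k a K i j := by
  intro x hx u hu
  obtain ⟨n, e, hS⟩ := str_exists h H hx.1 hu
  have h1 := hl x hx u hu n e hS
  rw [Nat.le_zero.1 h1] at hS
  exact cj_one h H hx.1 hu hS

theorem len_top (h : Root p r k) (H : Hyp p r a) {K : Finset ℕ} {i j m : ℕ} (hm : p ∣ i + (m + 1) * j) :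
    Len r k a K i j m := by
  intro c hc u hu n e hS
  by_contra hcon
  rw [not_le] at hcon
  exact hS.ne (m + 1) hcon (Nat.succ_le_succ (Nat.zero_le m))
    (eig_triv h H hm (hS.eig (m + 1) hcon))

theorem len_z (h : Root p r k) (H : Hyp p r a) {K N N' : Finset ℕ} {i j m t : ℕ}
    (hN : ∀ q ∈ N, VC r k a K i j q) (ht : Tr r k a N' t) (hti : (i + (m + 1) * j) % p = t % p) (htp : t ≤ p)
    (hN' : N' ⊆ insert (p - t) N) : Len r k a K i j m := by
  intro c hc u hu n e hS
  by_contra hcon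
  rw [not_le] at hcon
  apply hS.ne (m + 1) hcon (Nat.succ_le_succ (Nat.zero_le m))
  apply ht
  apply ty_mono h H htp hN'
  exact ⟨eig_congr h hti (hS.eig (m + 1) hcon), fun q hq y hy =>
    hN q hq c hc u hu y hy _ (hS.mem (m + 1) hcon)⟩

theorem len_c (h : Root p r k) (H : Hyp p r a) {K N N' : Finset ℕ} {i j m t : ℕ}
    (hN : ∀ q ∈ N, VC r k a K i j q) (ht : Cm r k a N' t j) (hti : (i + m * j) % p = t % p) (htp : t ≤ p)
    (hN' : N' ⊆ insert (p - t) N) : Len r k a K i j m := by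
  intro c hc u hu n e hS
  by_contra hcon
  rw [not_le] at hcon
  apply hS.ncomm m hcon
  refine ht _ (ty_mono h H htp hN' ?_) u hu
  exact ⟨eig_congr h hti (hS.eig m hcon.le), fun q hq y hy =>
    hN q hq c hc u hu y hy _ (hS.mem m hcon.le)⟩

theorem vc_str (h : Root p r k) (H : Hyp p r a) {K : Finset ℕ} {i j q b : ℕ} (hL : Len r k a ∅ q j b)
    (hK : ∀ l ∈ Finset.range (b + 1), (q + l * j) % p ∈ K) : VC r k a K i j q := by
  intro c hc u hu w hw x hx
  obtain ⟨n, e, hS⟩ := str_exists h H hw hu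
  have hn : n ≤ b := hL w ⟨hw, fun l hl => absurd hl (Finset.notMem_empty l)⟩ u hu n e hS
  have h1 : Cj w u ≤ Subgroup.centralizer ({c} : Set X) := by
    rw [hS.gen, Subgroup.closure_le]
    rintro y ⟨l, hl, rfl⟩
    rw [SetLike.mem_coe, Subgroup.mem_centralizer_singleton_iff]
    have h2 : (q + l * j) % p ∈ K := hK l (Finset.mem_range.2 (by omega))
    exact (hc.2 _ h2 _ (eig_congr h (Nat.mod_modEq _ _).symm (hS.eig l hl))).symm
  have h3 : ∀ t : ℤ, Commute (u ^ (-t) * c * u ^ t) w := by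
    intro t
    have h4 := h1 (cj_mem w u (-t))
    rw [Subgroup.mem_centralizer_singleton_iff, neg_neg] at h4
    change u ^ (-t) * c * u ^ t * w = w * (u ^ (-t) * c * u ^ t)
    calc u ^ (-t) * c * u ^ t * w = u ^ (-t) * (c * (u ^ t * w * u ^ (-t))) * u ^ t := by group
      _ = u ^ (-t) * ((u ^ t * w * u ^ (-t)) * c) * u ^ t := by rw [h4]
      _ = w * (u ^ (-t) * c * u ^ t) := by group
  unfold Cj at hx
  induction hx using Subgroup.closure_induction with
  | mem x hx =>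
    obtain ⟨t, rfl⟩ := hx
    exact h3 t
  | one => exact Commute.one_left w
  | mul x y _ _ hx hy => exact hx.mul_left hy
  | inv x _ hx => exact hx.inv_left

theorem tr_center (h : Root p r k) (H : Hyp p r a) (hSS : SS a (⊤ : Subgroup X)) {K : Finset ℕ} {i : ℕ} (hi : i ≤ p)
    (hK : ∀ s ∈ Finset.range p, 1 ≤ s → s ∈ insert (p - i) K) : Tr r k a K i := by
  intro x hx
  have h1 : ∀ s, 1 ≤ s → s < p → ∀ y : X, Eig r k a s y → Commute x y := by
    intro s h1 h2 y hy
    rcases Finset.mem_insert.1 (hK s (Finset.mem_range.2 h2) h1) with h3 | h3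
    · refine comm_opp h H ?_ hx.1 hy
      rw [h3, Nat.add_sub_cancel' hi]
    · exact hx.2 s h3 y hy
  have h2 : ∀ g : X, Commute x g := by
    intro g
    have h3 := gen h H (S := ⊤) (fun y _ => Subgroup.mem_top _) (Subgroup.mem_top g)
    induction h3 using Subgroup.closure_induction with
    | mem y hy =>
      obtain ⟨_, s, h4, h5, h6⟩ := hy
      exact h1 s h4 h5 y h6
    | one => exact Commute.one_right x
    | mul y z _ _ hy hz => exact hy.mul_right hz
    | inv y _ hy => exact hy.inv_right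
  have h3 : ∀ z ∈ Subgroup.zpowers x, ∀ g : X, Commute z g := by
    intro z hz g
    obtain ⟨n, rfl⟩ := Subgroup.mem_zpowers_iff.1 hz
    exact (h2 g).zpow_left n
  have h4 := hSS (Subgroup.zpowers x) le_top (inv_zpowers hx.1)
    (fun y _ z hz => by
      have h5 : y⁻¹ * z * y = z := by
        rw [mul_assoc, (h3 z hz y).eq, inv_mul_cancel_left]
      rw [h5]
      exact hz)
    (Pool.Agent.FRB.lf_comm (fun y hy z _ => h3 y hy z) fun z _ => by
      obtain ⟨n, hn⟩ := H.tors z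
      exact ⟨r ^ n, pow_pos h.prime.pos n, hn⟩)
  exact Subgroup.zpowers_eq_bot.1 h4

theorem tr_scale (h : Root p r k) {K K' : Finset ℕ} {i t : ℕ} (ht : Tr r (k ^ t) a K' i)
    (hK : ∀ s ∈ K', t * s % p ∈ K) : Tr r k a K (t * i % p) := by
  intro x hx
  apply ht
  refine ⟨?_, fun s hs y hy => ?_⟩
  · rw [Pool.Agent.FRB.eig_root]
    exact eig_congr h (Nat.mod_modEq _ _) hx.1
  · rw [Pool.Agent.FRB.eig_root] at hy
    exact hx.2 _ (hK s hs) y (eig_congr h (Nat.mod_modEq _ _).symm hy)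

theorem nt_tr (h : Root p r k) (H : Hyp p r a) {K K' : Finset ℕ} {i : ℕ} (hn : Nt r k a K i)
    (ht : Tr r k a K' i) (hi : i ≤ p) (hK : K' ⊆ insert (p - i) K) : False := by
  obtain ⟨x, hx, h1⟩ := hn
  exact hx (ht x (ty_mono h H hi hK h1))

theorem nt_mono {K K' : Finset ℕ} {i : ℕ} (hn : Nt r k a K i) (hK : K' ⊆ K) : Nt r k a K' i := by
  obtain ⟨x, hx, h1⟩ := hn
  exact ⟨x, hx, h1.1, fun l hl => h1.2 l (hK hl)⟩

/-- `c` of type `(K, i)` is nontrivial, but does not commute with `L_j`: the element `e 1` of a string. -/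
theorem nt_exact (h : Root p r k) (H : Hyp p r a) {K K' N N' : Finset ℕ} {i j t : ℕ} (hn : Nt r k a K i)
    (ht : Tr r k a K' i) (hi : i ≤ p) (hK : K' ⊆ insert (p - i) (insert j K)) (hN : ∀ q ∈ N, VC r k a K i j q)
    (hti : (i + j) % p = t % p) (htp : t ≤ p) (hN' : N' ⊆ insert (p - t) N) : Nt r k a N' t := by
  obtain ⟨c, hc1, hc⟩ := hn
  have h1 : ∃ u : X, Eig r k a j u ∧ ¬ Commute c u := by
    by_contra hcon
    push Not at hcon
    exact hc1 (ht c (ty_mono h H hi hK (rula_ins hc hcon)))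
  obtain ⟨u, hu, hcu⟩ := h1
  obtain ⟨n, e, hS⟩ := str_exists h H hc.1 hu
  have hn : 1 ≤ n := by
    by_contra hcon
    have h0 : n = 0 := by omega
    rw [h0] at hS
    exact hcu (cj_one h H hc.1 hu hS)
  refine ⟨e 1, hS.ne 1 hn (le_refl 1), ty_mono h H htp hN' ⟨?_, fun q hq y hy =>
    hN q hq c hc u hu y hy _ (hS.mem 1 hn)⟩⟩
  have h2 := hS.eig 1 hn
  rw [one_mul] at h2
  exact eig_congr h hti h2

end Pool.Agent.FRS
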