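import Pool.Agent.FRS.CjB

/-!
# FRS/Bil: the lower central series of a subgroup
-/

set_option autoImplicit false

namespace Pool.Agent.FRS

open Pool.Agent.FRB (Inv Eig LF SS Lam)

universe u

variable {p r k : ℕ} {X : Type u} [Group X] {a : MulAut X}

private theorem mem_succ {V : Subgroup X} {l : ℕ} {v w : X} (hv : v ∈ gm V l) (hw : w ∈ V) :
    v⁻¹ * w⁻¹ * v * w ∈ gm V (l + 1) :=
  Subgroup.subset_closure ⟨v, hv, w, hw, rfl⟩

open scoped commutatorElement in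
private theorem gm_eq (V : Subgroup X) (l : ℕ) : gm V l = V.lowerCentralSeries l := by
  induction l with
  | zero => rfl
  | succ l ih =>
    rw [Subgroup.lowerCentralSeries_succ, ← ih]
    apply le_antisymm
    · refine (Subgroup.closure_le _).2 ?_
      rintro x ⟨v, hv, w, hw, rfl⟩
      have h1 : v⁻¹ * w⁻¹ * v * w = ⁅v⁻¹, w⁻¹⁆ := by
        rw [commutatorElement_def, inv_inv, inv_inv]
      rw [h1]
      exact Subgroup.commutator_mem_commutator (Subgroup.inv_mem _ hv) (Subgroup.inv_mem _ hw)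
    · rw [Subgroup.commutator_le]
      intro v hv w hw
      have h1 := mem_succ (Subgroup.inv_mem _ hv) (Subgroup.inv_mem _ hw)
      rw [inv_inv, inv_inv] at h1
      exact h1

theorem gm_conj {V : Subgroup X} {g : X} (hg : ∀ v ∈ V, g⁻¹ * v * g ∈ V) (l : ℕ) {x : X} (hx : x ∈ gm V l) :
    g⁻¹ * x * g ∈ gm V l := by
  induction l generalizing x with
  | zero => exact hg x hx
  | succ l ih =>
    refine Subgroup.closure_induction (p := fun x _ => g⁻¹ * x * g ∈ gm V (l + 1)) ?_ ?_ ?_ ?_ hx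
    · rintro y ⟨v, hv, w, hw, rfl⟩
      have h1 := mem_succ (ih hv) (hg w hw)
      have h2 : (g⁻¹ * v * g)⁻¹ * (g⁻¹ * w * g)⁻¹ * (g⁻¹ * v * g) * (g⁻¹ * w * g) =
          g⁻¹ * (v⁻¹ * w⁻¹ * v * w) * g := by group
      rw [h2] at h1
      exact h1
    · have h1 : g⁻¹ * 1 * g = 1 := by group
      rw [h1]
      exact Subgroup.one_mem _
    · intro y z _ _ hy hz
      have h1 : g⁻¹ * (y * z) * g = (g⁻¹ * y * g) * (g⁻¹ * z * g) := by group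
      rw [h1]
      exact Subgroup.mul_mem _ hy hz
    · intro y _ hy
      have h1 : g⁻¹ * y⁻¹ * g = (g⁻¹ * y * g)⁻¹ := by group
      rw [h1]
      exact Subgroup.inv_mem _ hy

theorem gm_norm (V : Subgroup X) (l : ℕ) {g x : X} (hg : g ∈ V) (hx : x ∈ gm V l) : g⁻¹ * x * g ∈ gm V l :=
  gm_conj (fun _ hv => Subgroup.mul_mem _ (Subgroup.mul_mem _ (Subgroup.inv_mem _ hg) hv) hg) l hx

theorem gm_anti (V : Subgroup X) (l : ℕ) : gm V (l + 1) ≤ gm V l := by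
  rw [gm_eq, gm_eq]
  exact V.lowerCentralSeries_antitone (Nat.le_succ l)

theorem gm_le (V : Subgroup X) (l : ℕ) : gm V l ≤ V := by
  rw [gm_eq]
  exact V.lowerCentralSeries_le_self l

theorem gm_com {V : Subgroup X} (l : ℕ) {x y : X} (hx : x ∈ gm V l) (hy : y ∈ V) :
    x⁻¹ * y⁻¹ * x * y ∈ gm V (l + 1) := mem_succ hx hy

theorem gm_inv {V : Subgroup X} (hV : Inv a V) (l : ℕ) : Inv a (gm V l) := by
  induction l with
  | zero => exact hV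
  | succ l ih =>
    intro x hx
    refine Subgroup.closure_induction (p := fun x _ => a x ∈ gm V (l + 1)) ?_ ?_ ?_ ?_ hx
    · rintro y ⟨v, hv, w, hw, rfl⟩
      have h1 := mem_succ (ih v hv) (hV w hw)
      simp only [map_mul, map_inv]
      exact h1
    · rw [map_one]
      exact Subgroup.one_mem _
    · intro y z _ _ hy hz
      rw [map_mul]
      exact Subgroup.mul_mem _ hy hz
    · intro y _ hy
      rw [map_inv]
      exact Subgroup.inv_mem _ hy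

theorem gm_bot (hr : r.Prime) {V : Subgroup X} (hf : (V : Set X).Finite) (hp : ∀ x ∈ V, ∃ n : ℕ, x ^ (r ^ n) = 1) :
    ∃ l, gm V l = ⊥ := by
  have hfin : Finite V := hf
  have hfact : Fact r.Prime := ⟨hr⟩
  have hpg : IsPGroup r V := by
    rintro ⟨x, hx⟩
    obtain ⟨n, hn⟩ := hp x hx
    exact ⟨n, Subtype.ext hn⟩
  have hnil : Group.IsNilpotent V := hpg.isNilpotent
  obtain ⟨n, hn⟩ := (Subgroup.isNilpotent_iff_lowerCentralSeries V).1 hnil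
  exact ⟨n, by rw [gm_eq, hn]⟩

theorem gm_ab {V : Subgroup X} (l : ℕ) {x y : X} (hx : x ∈ gm V l) (hy : y ∈ gm V l) :
    x⁻¹ * y⁻¹ * x * y ∈ gm V (l + 1) := mem_succ hx (gm_le V l hy)

private theorem two_aux {G : Type u} [Group G] (n : ℕ) :
    ⁅(⊤ : Subgroup G).lowerCentralSeries n, (⊤ : Subgroup G).lowerCentralSeries 1⁆ ≤
      (⊤ : Subgroup G).lowerCentralSeries (n + 2) := by
  set N := (⊤ : Subgroup G).lowerCentralSeries (n + 2) with hN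
  have hf : Function.Surjective (QuotientGroup.mk' N) := QuotientGroup.mk'_surjective N
  have htop : (⊤ : Subgroup G).map (QuotientGroup.mk' N) = ⊤ := Subgroup.map_top_of_surjective _ hf
  have hbot : (⊤ : Subgroup (G ⧸ N)).lowerCentralSeries (n + 2) = ⊥ := by
    rw [← htop, ← Subgroup.map_lowerCentralSeries, ← hN, Subgroup.map_eq_bot_iff,
      QuotientGroup.ker_mk']
  have hbot' : ⁅⁅(⊤ : Subgroup (G ⧸ N)).lowerCentralSeries n, (⊤ : Subgroup (G ⧸ N))⁆,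
      (⊤ : Subgroup (G ⧸ N))⁆ = ⊥ := hbot
  have h3 : ⁅⁅(⊤ : Subgroup (G ⧸ N)), (⊤ : Subgroup (G ⧸ N))⁆,
      (⊤ : Subgroup (G ⧸ N)).lowerCentralSeries n⁆ = ⊥ := by
    refine Subgroup.commutator_commutator_eq_bot_of_rotate ?_ hbot'
    rw [Subgroup.commutator_comm (⊤ : Subgroup (G ⧸ N))
      ((⊤ : Subgroup (G ⧸ N)).lowerCentralSeries n)]
    exact hbot'
  have h4 : (⁅(⊤ : Subgroup G).lowerCentralSeries n, (⊤ : Subgroup G).lowerCentralSeries 1⁆).map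
      (QuotientGroup.mk' N) = ⊥ := by
    rw [Subgroup.map_commutator, Subgroup.map_lowerCentralSeries, Subgroup.map_lowerCentralSeries,
      htop, Subgroup.commutator_comm]
    exact h3
  rw [Subgroup.map_eq_bot_iff, QuotientGroup.ker_mk'] at h4
  exact h4

open scoped commutatorElement in
theorem gm_two {V : Subgroup X} (l : ℕ) {x y : X} (hx : x ∈ gm V l) (hy : y ∈ gm V 1) :
    x⁻¹ * y⁻¹ * x * y ∈ gm V (l + 2) := by
  have h1 : x⁻¹ * y⁻¹ * x * y = ⁅x⁻¹, y⁻¹⁆ := by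
    rw [commutatorElement_def, inv_inv, inv_inv]
  rw [h1]
  have h2 : ⁅gm V l, gm V 1⁆ ≤ gm V (l + 2) := by
    rw [gm_eq, gm_eq, gm_eq, ← Subgroup.top_subtype_lowerCentralSeries V l,
      ← Subgroup.top_subtype_lowerCentralSeries V 1,
      ← Subgroup.top_subtype_lowerCentralSeries V (l + 2), ← Subgroup.map_commutator]
    exact Subgroup.map_mono (two_aux l)
  exact h2 (Subgroup.commutator_mem_commutator (Subgroup.inv_mem _ hx) (Subgroup.inv_mem _ hy))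

/-- commutators with a fixed second entry, modulo `E` -/
theorem com_cl {V E : Subgroup X} {l : ℕ} (hE : gm V (l + 2) ≤ E) {S : Set X} (hS : S ⊆ gm V l) {x y : X} (hy : y ∈ V)
    (h : ∀ s ∈ S, s⁻¹ * y⁻¹ * s * y ∈ E) (hx : x ∈ Subgroup.closure S) : x⁻¹ * y⁻¹ * x * y ∈ E := by
  have hcl : Subgroup.closure S ≤ gm V l := (Subgroup.closure_le _).2 hS
  refine Subgroup.closure_induction (p := fun x _ => x⁻¹ * y⁻¹ * x * y ∈ E) h ?_ ?_ ?_ hx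
  · have h1 : (1 : X)⁻¹ * y⁻¹ * 1 * y = 1 := by group
    rw [h1]
    exact Subgroup.one_mem _
  · intro z w hz hw h1 h2
    have h3 : (z⁻¹ * y⁻¹ * z * y)⁻¹ * w⁻¹ * (z⁻¹ * y⁻¹ * z * y) * w ∈ gm V (l + 2) :=
      mem_succ (mem_succ (hcl hz) hy) (gm_le V l (hcl hw))
    have h4 : (z * w)⁻¹ * y⁻¹ * (z * w) * y = (z⁻¹ * y⁻¹ * z * y) *
        ((z⁻¹ * y⁻¹ * z * y)⁻¹ * w⁻¹ * (z⁻¹ * y⁻¹ * z * y) * w) * (w⁻¹ * y⁻¹ * w * y) := by group
    rw [h4]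
    exact Subgroup.mul_mem _ (Subgroup.mul_mem _ h1 (hE h3)) h2
  · intro z hz h1
    have h3 : ((z⁻¹ * y⁻¹ * z * y)⁻¹)⁻¹ * (z⁻¹)⁻¹ * (z⁻¹ * y⁻¹ * z * y)⁻¹ * z⁻¹ ∈ gm V (l + 2) :=
      mem_succ (Subgroup.inv_mem _ (mem_succ (hcl hz) hy)) (Subgroup.inv_mem _ (gm_le V l (hcl hz)))
    have h4 : (z⁻¹)⁻¹ * y⁻¹ * z⁻¹ * y = (z⁻¹ * y⁻¹ * z * y)⁻¹ *
        (((z⁻¹ * y⁻¹ * z * y)⁻¹)⁻¹ * (z⁻¹)⁻¹ * (z⁻¹ * y⁻¹ * z * y)⁻¹ * z⁻¹) := by group
    rw [h4]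
    exact Subgroup.mul_mem _ (Subgroup.inv_mem _ h1) (hE h3)

/-- commutators with a fixed first entry, modulo `E` -/
theorem com_cr {V E : Subgroup X} {l : ℕ} (hE : gm V (l + 2) ≤ E) {T : Set X} (hT : T ⊆ V) {x y : X} (hx : x ∈ gm V l)
    (h : ∀ t ∈ T, x⁻¹ * t⁻¹ * x * t ∈ E) (hy : y ∈ Subgroup.closure T) : x⁻¹ * y⁻¹ * x * y ∈ E := by
  have hcl : Subgroup.closure T ≤ V := (Subgroup.closure_le _).2 hT
  refine Subgroup.closure_induction (p := fun y _ => x⁻¹ * y⁻¹ * x * y ∈ E) h ?_ ?_ ?_ hy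
  · have h1 : x⁻¹ * (1 : X)⁻¹ * x * 1 = 1 := by group
    rw [h1]
    exact Subgroup.one_mem _
  · intro z w hz hw h1 h2
    have h3 : (x⁻¹ * z⁻¹ * x * z)⁻¹ * w⁻¹ * (x⁻¹ * z⁻¹ * x * z) * w ∈ gm V (l + 2) :=
      mem_succ (mem_succ hx (hcl hz)) (hcl hw)
    have h4 : x⁻¹ * (z * w)⁻¹ * x * (z * w) = (x⁻¹ * w⁻¹ * x * w) * ((x⁻¹ * z⁻¹ * x * z) *
        ((x⁻¹ * z⁻¹ * x * z)⁻¹ * w⁻¹ * (x⁻¹ * z⁻¹ * x * z) * w)) := by group
    rw [h4]
    exact Subgroup.mul_mem _ h2 (Subgroup.mul_mem _ h1 (hE h3))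
  · intro z hz h1
    have h3 : ((x⁻¹ * z⁻¹ * x * z)⁻¹)⁻¹ * (z⁻¹)⁻¹ * (x⁻¹ * z⁻¹ * x * z)⁻¹ * z⁻¹ ∈ gm V (l + 2) :=
      mem_succ (Subgroup.inv_mem _ (mem_succ hx (hcl hz))) (Subgroup.inv_mem _ (hcl hz))
    have h4 : x⁻¹ * (z⁻¹)⁻¹ * x * z⁻¹ = (x⁻¹ * z⁻¹ * x * z)⁻¹ *
        (((x⁻¹ * z⁻¹ * x * z)⁻¹)⁻¹ * (z⁻¹)⁻¹ * (x⁻¹ * z⁻¹ * x * z)⁻¹ * z⁻¹) := by group
    rw [h4]
    exact Subgroup.mul_mem _ (Subgroup.inv_mem _ h1) (hE h3)

theorem bil {V : Subgroup X} {l : ℕ} {S T : Set X} (hS : S ⊆ gm V l) (hSg : gm V l ≤ Subgroup.closure S ⊔ gm V (l + 1))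
    (hT : T ⊆ V) (hTg : V ≤ Subgroup.closure T ⊔ gm V 1) :
    gm V (l + 1) ≤ Subgroup.closure {x | ∃ s ∈ S, ∃ t ∈ T, x = s⁻¹ * t⁻¹ * s * t} ⊔ gm V (l + 2) := by
  set E := Subgroup.closure {x | ∃ s ∈ S, ∃ t ∈ T, x = s⁻¹ * t⁻¹ * s * t} ⊔ gm V (l + 2) with hEdef
  have hE : gm V (l + 2) ≤ E := le_sup_right
  have hgen : ∀ s ∈ S, ∀ t ∈ T, s⁻¹ * t⁻¹ * s * t ∈ E := fun s hs t ht =>
    Subgroup.mem_sup_left (Subgroup.subset_closure ⟨s, hs, t, ht, rfl⟩)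
  have step1 : ∀ s ∈ S, ∀ w ∈ V, s⁻¹ * w⁻¹ * s * w ∈ E := by
    intro s hs w hw
    refine com_cr (V := V) (l := l) hE (T := T ∪ (gm V 1 : Set X)) ?_ (hS hs) ?_ ?_
    · rintro z (hz | hz)
      · exact hT hz
      · exact gm_le V 1 hz
    · rintro z (hz | hz)
      · exact hgen s hs z hz
      · exact hE (gm_two l (hS hs) hz)
    · rw [Subgroup.closure_union, Subgroup.closure_eq]
      exact hTg hw
  refine (Subgroup.closure_le _).2 ?_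
  rintro z ⟨v, hv, w, hw, rfl⟩
  refine com_cl (V := V) (l := l) hE (S := S ∪ (gm V (l + 1) : Set X)) ?_ hw ?_ ?_
  · rintro z (hz | hz)
    · exact hS hz
    · exact gm_anti V l hz
  · rintro z (hz | hz)
    · exact step1 z hz w hw
    · exact hE (mem_succ hz hw)
  · rw [Subgroup.closure_union, Subgroup.closure_eq]
    exact hSg hv

end Pool.Agent.FRS
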