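import Pool.Agent.FRS.Comm
import Pool.Agent.FRS.Sub

/-!
# FRS/CjB: the subgroup `Cj c u` generated by the conjugates of `c` under the powers of `u`
-/

set_option autoImplicit false

namespace Pool.Agent.FRS

open Pool.Agent.FRB (Inv Eig LF SS Lam)

universe u

variable {p r k : ℕ} {X : Type u} [Group X] {a : MulAut X}

theorem cj_self (c u : X) : c ∈ Cj c u :=
  Subgroup.subset_closure ⟨0, by simp⟩

theorem cj_mem (c u : X) (t : ℤ) : u ^ (-t) * c * u ^ t ∈ Cj c u :=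
  Subgroup.subset_closure ⟨t, rfl⟩

theorem cj_sub {c u : X} {T : Subgroup X} (hc : c ∈ T) (h1 : ∀ x ∈ T, u⁻¹ * x * u ∈ T)
    (h2 : ∀ x ∈ T, u * x * u⁻¹ ∈ T) : Cj c u ≤ T := by
  unfold Cj
  rw [Subgroup.closure_le]
  rintro x ⟨t, rfl⟩
  show u ^ (-t) * c * u ^ t ∈ T
  induction t using Int.induction_on with
  | zero => simpa using hc
  | succ n ih =>
    have h := h1 _ ih
    have e : u⁻¹ * (u ^ (-(n : ℤ)) * c * u ^ (n : ℤ)) * u =
        u ^ (-((n : ℤ) + 1)) * c * u ^ ((n : ℤ) + 1) := by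
      rw [neg_add, zpow_add, zpow_add, zpow_neg_one, zpow_one, (Commute.zpow_self u _).inv_right.eq]
      group
    rwa [e] at h
  | pred n ih =>
    have h := h2 _ ih
    have e : u * (u ^ (-(-(n : ℤ))) * c * u ^ (-(n : ℤ))) * u⁻¹ =
        u ^ (-(-(n : ℤ) - 1)) * c * u ^ (-(n : ℤ) - 1) := by
      group
    rwa [e] at h

theorem cj_le (c u : X) : Cj c u ≤ Subgroup.closure {c, u} := by
  have hu : u ∈ Subgroup.closure ({c, u} : Set X) := Subgroup.subset_closure (by simp)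
  refine cj_sub (Subgroup.subset_closure (by simp)) (fun x hx => ?_) fun x hx => ?_
  · exact Subgroup.mul_mem _ (Subgroup.mul_mem _ (Subgroup.inv_mem _ hu) hx) hu
  · exact Subgroup.mul_mem _ (Subgroup.mul_mem _ hu hx) (Subgroup.inv_mem _ hu)

theorem cj_fin (H : Hyp p r a) (c u : X) : (Cj c u : Set X).Finite :=
  (H.two c u).subset (cj_le c u)

theorem cj_inv (H : Hyp p r a) {i j : ℕ} {c u : X} (hc : Eig r k a i c) (hu : Eig r k a j u) : Inv a (Cj c u) := by
  obtain ⟨n, -, hc⟩ := hc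
  obtain ⟨m, -, hu⟩ := hu
  intro x hx
  unfold Cj at hx
  induction hx using Subgroup.closure_induction with
  | mem x hx =>
    obtain ⟨t, rfl⟩ := hx
    rw [map_mul, map_mul, map_zpow, map_zpow, hc, hu]
    obtain ⟨K, hK⟩ : ∃ K : ℕ, K = k ^ (i * r ^ n) := ⟨_, rfl⟩
    obtain ⟨M, hM⟩ : ∃ M : ℕ, M = k ^ (j * r ^ m) := ⟨_, rfl⟩
    rw [← hK, ← hM]
    have h1 := Subgroup.pow_mem _ (cj_mem c u (M * t)) K
    have h2 : (u ^ (-((M : ℤ) * t)) * c * u ^ ((M : ℤ) * t)) ^ K =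
        (u ^ M) ^ (-t) * c ^ K * (u ^ M) ^ t := by
      have h3 : u ^ ((M : ℤ) * t) = (u ^ (-((M : ℤ) * t)))⁻¹ := by rw [← zpow_neg, neg_neg]
      rw [h3, conj_pow, ← h3, ← zpow_natCast u M, ← zpow_mul, ← zpow_mul, mul_neg]
    rw [h2] at h1
    exact h1
  | one => rw [map_one]; exact Subgroup.one_mem _
  | mul x y _ _ hx hy => rw [map_mul]; exact Subgroup.mul_mem _ hx hy
  | inv x _ hx => rw [map_inv]; exact Subgroup.inv_mem _ hx

theorem cj_conj (c u : X) (s : ℤ) {x : X} (hx : x ∈ Cj c u) : u ^ (-s) * x * u ^ s ∈ Cj c u := by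
  unfold Cj at hx
  induction hx using Subgroup.closure_induction with
  | mem x hx =>
    obtain ⟨t, rfl⟩ := hx
    have h := cj_mem c u (t + s)
    have e : u ^ (-(t + s)) * c * u ^ (t + s) = u ^ (-s) * (u ^ (-t) * c * u ^ t) * u ^ s := by
      group
    rwa [e] at h
  | one =>
    have e : u ^ (-s) * 1 * u ^ s = 1 := by group
    rw [e]
    exact Subgroup.one_mem _
  | mul x y _ _ hx hy =>
    have e : u ^ (-s) * (x * y) * u ^ s = u ^ (-s) * x * u ^ s * (u ^ (-s) * y * u ^ s) := by group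
    rw [e]
    exact Subgroup.mul_mem _ hx hy
  | inv x _ hx =>
    have e : u ^ (-s) * x⁻¹ * u ^ s = (u ^ (-s) * x * u ^ s)⁻¹ := by group
    rw [e]
    exact Subgroup.inv_mem _ hx

theorem cj_conj1 (c u : X) {x : X} (hx : x ∈ Cj c u) : u⁻¹ * x * u ∈ Cj c u := by
  have h := cj_conj c u 1 hx
  rwa [zpow_neg_one, zpow_one] at h

theorem cj_conj2 (c u : X) {x : X} (hx : x ∈ Cj c u) : u * x * u⁻¹ ∈ Cj c u := by
  have h := cj_conj c u (-1) hx
  rwa [neg_neg, zpow_neg_one, zpow_one] at h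

theorem cj_mono {c c' u : X} (hc : c' ∈ Cj c u) : Cj c' u ≤ Cj c u :=
  cj_sub hc (fun _ hx => cj_conj1 c u hx) fun _ hx => cj_conj2 c u hx

theorem cj_comm {c u w : X} (h1 : Commute c w) (h2 : Commute u w) {x : X} (hx : x ∈ Cj c u) : Commute x w := by
  unfold Cj at hx
  induction hx using Subgroup.closure_induction with
  | mem x hx =>
    obtain ⟨t, rfl⟩ := hx
    exact ((h2.zpow_left _).mul_left h1).mul_left (h2.zpow_left _)
  | one => exact Commute.one_left w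
  | mul x y _ _ hx hy => exact hx.mul_left hy
  | inv x _ hx => exact hx.inv_left

end Pool.Agent.FRS
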