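import Pool.Agent.FRS.FrB
import Pool.Agent.FRS.CjB

/-!
# FRS/ChA: the chain `Ch r V u l`
-/

set_option autoImplicit false

namespace Pool.Agent.FRS

open Pool.Agent.FRB (Inv Eig LF SS Lam)

universe u

variable {p r k : ℕ} {X : Type u} [Group X] {a : MulAut X}

/-- `u` normalises `V` -/
def Nm (V : Subgroup X) (u : X) : Prop := (∀ v ∈ V, u⁻¹ * v * u ∈ V) ∧ (∀ v ∈ V, u * v * u⁻¹ ∈ V)

theorem nm_cj (c u : X) : Nm (Cj c u) u := ⟨fun _ hv => cj_conj1 c u hv, fun _ hv => cj_conj2 c u hv⟩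

private theorem ca_fr_ch (V : Subgroup X) (u : X) (l : ℕ) : Fr r V ≤ Ch r V u l := by
  cases l with
  | zero => exact fr_le r V
  | succ l => exact le_sup_left

private theorem ca_zp {V : Subgroup X} {u : X} (hV : Nm V u) (t : ℤ) : ∀ v ∈ V, u ^ (-t) * v * u ^ t ∈ V := by
  induction t using Int.induction_on with
  | zero =>
    intro v hv
    simpa using hv
  | succ t ih =>
    intro v hv
    have h1 := hV.1 _ (ih v hv)
    have h2 : u⁻¹ * (u ^ (-(t : ℤ)) * v * u ^ (t : ℤ)) * u = u ^ (-((t : ℤ) + 1)) * v * u ^ ((t : ℤ) + 1) := by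
      group
    rwa [h2] at h1
  | pred t ih =>
    intro v hv
    have h1 := hV.2 _ (ih v hv)
    have h2 : u * (u ^ (-(-(t : ℤ))) * v * u ^ (-(t : ℤ))) * u⁻¹ =
        u ^ (-(-(t : ℤ) - 1)) * v * u ^ (-(t : ℤ) - 1) := by group
    rwa [h2] at h1

private theorem ca_cg {V : Subgroup X} {u g : X} (hg : ∀ v ∈ V, g⁻¹ * v * g ∈ V) (hgu : g * u = u * g)
    (l : ℕ) : ∀ x ∈ Ch r V u l, g⁻¹ * x * g ∈ Ch r V u l := by
  induction l with
  | zero => exact hg
  | succ l ih =>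
    obtain ⟨T, hT⟩ : ∃ T, T = Ch r V u (l + 1) := ⟨_, rfl⟩
    have h1 : Fr r V ⊔ Subgroup.closure {x | ∃ v ∈ Ch r V u l, x = v⁻¹ * u⁻¹ * v * u} ≤
        T.comap (MulAut.conj g⁻¹).toMonoidHom := by
      refine sup_le ?_ ((Subgroup.closure_le _).2 ?_)
      · intro x hx
        show g⁻¹ * x * (g⁻¹)⁻¹ ∈ T
        rw [inv_inv, hT]
        exact ca_fr_ch V u (l + 1) (fr_conj hg hx)
      · rintro x ⟨v, hv, rfl⟩
        show g⁻¹ * (v⁻¹ * u⁻¹ * v * u) * (g⁻¹)⁻¹ ∈ T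
        rw [inv_inv, hT]
        refine Subgroup.mem_sup_right (Subgroup.subset_closure ⟨g⁻¹ * v * g, ih v hv, ?_⟩)
        have h2 : u * g = g * u := hgu.symm
        have h3 : g * u⁻¹ * g⁻¹ = u⁻¹ := by
          rw [mul_inv_eq_iff_eq_mul, eq_inv_mul_iff_mul_eq, ← mul_assoc, h2, mul_assoc, mul_inv_cancel,
            mul_one]
        calc g⁻¹ * (v⁻¹ * u⁻¹ * v * u) * g = g⁻¹ * v⁻¹ * u⁻¹ * v * (u * g) := by group
          _ = g⁻¹ * v⁻¹ * (g * u⁻¹ * g⁻¹) * v * (g * u) := by rw [h2, h3]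
          _ = (g⁻¹ * v * g)⁻¹ * u⁻¹ * (g⁻¹ * v * g) * u := by group
    intro x hx
    have h2 : g⁻¹ * x * (g⁻¹)⁻¹ ∈ T := h1 hx
    rw [inv_inv, hT] at h2
    exact h2

private theorem ca_mono {V : Subgroup X} {u : X} {l m : ℕ} (h : Ch r V u l ≤ Ch r V u m) :
    Ch r V u (l + 1) ≤ Ch r V u (m + 1) := by
  refine sup_le_sup_left (Subgroup.closure_mono ?_) _
  rintro x ⟨v, hv, rfl⟩
  exact ⟨v, h hv, rfl⟩

theorem ch_le {V : Subgroup X} {u : X} (hV : Nm V u) (l : ℕ) : Ch r V u l ≤ V := by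
  induction l with
  | zero => exact le_refl V
  | succ l ih =>
    refine sup_le (fr_le r V) ((Subgroup.closure_le _).2 ?_)
    rintro x ⟨v, hv, rfl⟩
    have h1 := V.mul_mem (V.inv_mem (ih hv)) (hV.1 v (ih hv))
    have h2 : v⁻¹ * (u⁻¹ * v * u) = v⁻¹ * u⁻¹ * v * u := by group
    rw [h2] at h1
    exact h1

theorem fr_ch (V : Subgroup X) (u : X) (l : ℕ) : Fr r V ≤ Ch r V u l := ca_fr_ch V u l

theorem ch_anti {V : Subgroup X} {u : X} (hV : Nm V u) (l : ℕ) : Ch r V u (l + 1) ≤ Ch r V u l := by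
  induction l with
  | zero => exact ch_le hV 1
  | succ l ih => exact ca_mono ih

theorem ch_norm {V : Subgroup X} {u : X} (hV : Nm V u) (l : ℕ) {v x : X} (hv : v ∈ V) (hx : x ∈ Ch r V u l) :
    v⁻¹ * x * v ∈ Ch r V u l := fr_norm (fr_ch V u l) (ch_le hV l) hv hx

theorem ch_conj {V : Subgroup X} {u : X} (hV : Nm V u) (l : ℕ) {x : X} (hx : x ∈ Ch r V u l) (t : ℤ) :
    u ^ (-t) * x * u ^ t ∈ Ch r V u l := by
  have h1 : ∀ v ∈ V, (u ^ t)⁻¹ * v * u ^ t ∈ V := by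
    intro v hv
    rw [← zpow_neg]
    exact ca_zp hV t v hv
  have h2 := ca_cg h1 (((Commute.refl u).zpow_left t).eq) l x hx
  rwa [← zpow_neg] at h2

theorem ch_com {V : Subgroup X} {u : X} (l : ℕ) {x : X} (hx : x ∈ Ch r V u l) :
    x⁻¹ * u⁻¹ * x * u ∈ Ch r V u (l + 1) := Subgroup.mem_sup_right (Subgroup.subset_closure ⟨x, hx, rfl⟩)

theorem ch_compow {V : Subgroup X} {u : X} (hV : Nm V u) (l : ℕ) {x : X} (hx : x ∈ Ch r V u l) (t : ℤ) :
    x⁻¹ * (u ^ (-t) * x * u ^ t) ∈ Ch r V u (l + 1) := by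
  induction t using Int.induction_on with
  | zero =>
    have h1 : x⁻¹ * (u ^ (-(0 : ℤ)) * x * u ^ (0 : ℤ)) = 1 := by group
    rw [h1]
    exact Subgroup.one_mem _
  | succ t ih =>
    have h1 := Subgroup.mul_mem _ ih (ch_com l (ch_conj hV l hx (t : ℤ)))
    have h2 : x⁻¹ * (u ^ (-(t : ℤ)) * x * u ^ (t : ℤ)) * ((u ^ (-(t : ℤ)) * x * u ^ (t : ℤ))⁻¹ * u⁻¹ *
        (u ^ (-(t : ℤ)) * x * u ^ (t : ℤ)) * u) =
        x⁻¹ * (u ^ (-((t : ℤ) + 1)) * x * u ^ ((t : ℤ) + 1)) := by group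
    rwa [h2] at h1
  | pred t ih =>
    have h1 := Subgroup.mul_mem _ ih (Subgroup.inv_mem _ (ch_com l (ch_conj hV l hx (-(t : ℤ) - 1))))
    have h2 : x⁻¹ * (u ^ (-(-(t : ℤ))) * x * u ^ (-(t : ℤ))) *
        ((u ^ (-(-(t : ℤ) - 1)) * x * u ^ (-(t : ℤ) - 1))⁻¹ * u⁻¹ *
        (u ^ (-(-(t : ℤ) - 1)) * x * u ^ (-(t : ℤ) - 1)) * u)⁻¹ =
        x⁻¹ * (u ^ (-(-(t : ℤ) - 1)) * x * u ^ (-(t : ℤ) - 1)) := by group
    rwa [h2] at h1

theorem ch_inv {V : Subgroup X} {u : X} (hV : Nm V u) (hVa : Inv a V) (hu : a u ∈ Subgroup.zpowers u) (l : ℕ) :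
    Inv a (Ch r V u l) := by
  induction l with
  | zero => exact hVa
  | succ l ih =>
    obtain ⟨T, hT⟩ : ∃ T, T = Ch r V u (l + 1) := ⟨_, rfl⟩
    have h1 : Fr r V ⊔ Subgroup.closure {x | ∃ v ∈ Ch r V u l, x = v⁻¹ * u⁻¹ * v * u} ≤
        T.comap a.toMonoidHom := by
      refine sup_le ?_ ((Subgroup.closure_le _).2 ?_)
      · intro x hx
        show a x ∈ T
        rw [hT]
        exact fr_ch V u (l + 1) (fr_inv hVa x hx)
      · rintro x ⟨v, hv, rfl⟩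
        show a (v⁻¹ * u⁻¹ * v * u) ∈ T
        obtain ⟨t, ht⟩ := Subgroup.mem_zpowers_iff.1 hu
        have h2 := ch_compow hV l (ih v hv) t
        have h3 : a (v⁻¹ * u⁻¹ * v * u) = (a v)⁻¹ * (u ^ (-t) * a v * u ^ t) := by
          rw [map_mul, map_mul, map_mul, map_inv, map_inv, ← ht]
          group
        rw [h3, hT]
        exact h2
    intro x hx
    have h2 : a x ∈ T := h1 hx
    rw [hT] at h2
    exact h2

theorem ch_stab {V : Subgroup X} {u : X} {l : ℕ} (hl : Ch r V u l ≤ Ch r V u (l + 1)) (s : ℕ) :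
    Ch r V u l ≤ Ch r V u (l + s) := by
  induction s with
  | zero => exact le_refl _
  | succ s ih => exact le_trans hl (ca_mono ih)

theorem ch_bot (h : Root p r k) (H : Hyp p r a) (c u : X) : ∃ l, Ch r (Cj c u) u l ≤ Fr r (Cj c u) := by
  have hV := nm_cj c u
  obtain ⟨V, hVd⟩ : ∃ V, V = Cj c u := ⟨_, rfl⟩
  have hcV : c ∈ V := by
    rw [hVd]
    exact cj_self c u
  have hVK : V ≤ Subgroup.closure {c, u} := by
    rw [hVd]
    exact cj_le c u
  rw [← hVd] at hV ⊢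
  have hfin := H.two c u
  obtain ⟨K, hK⟩ : ∃ K, K = Subgroup.closure ({c, u} : Set X) := ⟨_, rfl⟩
  have hP : ∀ g ∈ K, ∀ x ∈ Fr r V, g⁻¹ * x * g ∈ Fr r V ∧ g * x * g⁻¹ ∈ Fr r V := by
    intro g hg
    rw [hK] at hg
    induction hg using Subgroup.closure_induction with
    | mem g hg =>
      intro x hx
      rcases hg with hg | hg
      · rw [hg]
        refine ⟨fr_norm (le_refl _) (fr_le r V) hcV hx, ?_⟩
        have h1 := fr_norm (le_refl _) (fr_le r V) (V.inv_mem hcV) hx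
        rwa [inv_inv] at h1
      · rw [Set.mem_singleton_iff] at hg
        rw [hg]
        refine ⟨fr_conj hV.1 hx, ?_⟩
        have h1 : ∀ v ∈ V, (u⁻¹)⁻¹ * v * u⁻¹ ∈ V := by
          intro v hv
          rw [inv_inv]
          exact hV.2 v hv
        have h2 := fr_conj h1 hx
        rwa [inv_inv] at h2
    | one =>
      intro x hx
      simpa using hx
    | mul g g' _ _ h1 h2 =>
      intro x hx
      have h3 := (h2 _ (h1 x hx).1).1
      have h4 := (h1 _ (h2 x hx).2).2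
      have h5 : g'⁻¹ * (g⁻¹ * x * g) * g' = (g * g')⁻¹ * x * (g * g') := by group
      have h6 : g * (g' * x * g'⁻¹) * g⁻¹ = (g * g') * x * (g * g')⁻¹ := by group
      rw [h5] at h3
      rw [h6] at h4
      exact ⟨h3, h4⟩
    | inv g _ h1 =>
      intro x hx
      rw [inv_inv]
      exact ⟨(h1 x hx).2, (h1 x hx).1⟩
  rw [← hK] at hVK hfin
  have hcK : c ∈ K := hVK hcV
  have huK : u ∈ K := by
    rw [hK]
    exact Subgroup.subset_closure (by simp)
  have : Finite K := hfin.to_subtype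
  have : Fact r.Prime := ⟨h.prime⟩
  have hpK : IsPGroup r K := by
    intro g
    obtain ⟨n, hn⟩ := H.tors (g : X)
    refine ⟨n, Subtype.ext ?_⟩
    rw [Subgroup.coe_pow]
    exact hn
  have : Group.IsNilpotent K := hpK.isNilpotent
  have hFn : ((Fr r V).subgroupOf K).Normal := by
    refine ⟨fun n hn g => ?_⟩
    rw [Subgroup.mem_subgroupOf] at hn ⊢
    exact (hP g g.2 n hn).2
  obtain ⟨n, hn⟩ := Subgroup.nilpotent_iff_lowerCentralSeries.1
    (inferInstance : Group.IsNilpotent (K ⧸ (Fr r V).subgroupOf K))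
  have hC : ∀ l, ∀ v ∈ Ch r V u l, ∃ hv : v ∈ K,
      QuotientGroup.mk' ((Fr r V).subgroupOf K) ⟨v, hv⟩ ∈
        Subgroup.lowerCentralSeries (⊤ : Subgroup (K ⧸ (Fr r V).subgroupOf K)) l := by
    intro l
    induction l with
    | zero =>
      intro v hv
      exact ⟨hVK hv, Subgroup.mem_top _⟩
    | succ l ih =>
      obtain ⟨T, hT⟩ : ∃ T, T = ((Subgroup.lowerCentralSeries (⊤ : Subgroup (K ⧸ (Fr r V).subgroupOf K)) (l + 1)).comap
        (QuotientGroup.mk' ((Fr r V).subgroupOf K))).map K.subtype := ⟨_, rfl⟩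
      have h1 : Fr r V ⊔ Subgroup.closure {x | ∃ v ∈ Ch r V u l, x = v⁻¹ * u⁻¹ * v * u} ≤ T := by
        refine sup_le ?_ ((Subgroup.closure_le _).2 ?_)
        · intro x hx
          have hxK : x ∈ K := hVK (fr_le r V hx)
          rw [hT]
          refine ⟨⟨x, hxK⟩, ?_, rfl⟩
          have h2 : (QuotientGroup.mk' ((Fr r V).subgroupOf K)) ⟨x, hxK⟩ = 1 := by
            rw [QuotientGroup.mk'_apply, QuotientGroup.eq_one_iff]
            exact hx
          rw [SetLike.mem_coe, Subgroup.mem_comap]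
          rw [h2]
          exact Subgroup.one_mem _
        · rintro x ⟨v, hv, rfl⟩
          obtain ⟨hvK, hv'⟩ := ih v hv
          rw [hT]
          refine ⟨⟨v, hvK⟩⁻¹ * ⟨u, huK⟩⁻¹ * ⟨v, hvK⟩ * ⟨u, huK⟩, ?_, rfl⟩
          rw [SetLike.mem_coe, Subgroup.mem_comap, map_mul, map_mul, map_mul, map_inv, map_inv]
          have h2 := Subgroup.commutator_mem_commutator (Subgroup.inv_mem _ hv')
            (Subgroup.inv_mem _ (Subgroup.mem_top
              ((QuotientGroup.mk' ((Fr r V).subgroupOf K)) ⟨u, huK⟩)))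
          rw [commutatorElement_def, inv_inv, inv_inv] at h2
          exact h2
      intro v hv
      have h2 : v ∈ T := h1 hv
      rw [hT] at h2
      obtain ⟨w, hw, hwv⟩ := h2
      have h3 : (w : X) = v := hwv
      have hvK : v ∈ K := by
        rw [← h3]
        exact w.2
      refine ⟨hvK, ?_⟩
      have h4 : w = ⟨v, hvK⟩ := Subtype.ext h3
      rw [← h4]
      exact hw
  refine ⟨n, fun v hv => ?_⟩
  obtain ⟨hvK, h1⟩ := hC n v hv
  rw [hn, Subgroup.mem_bot, QuotientGroup.mk'_apply, QuotientGroup.eq_one_iff] at h1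
  exact h1

theorem ch_stab_bot (h : Root p r k) (H : Hyp p r a) {c u : X} {l : ℕ}
    (hl : Ch r (Cj c u) u l ≤ Ch r (Cj c u) u (l + 1)) : Ch r (Cj c u) u l ≤ Fr r (Cj c u) := by
  obtain ⟨m, hm⟩ := ch_bot h H c u
  refine le_trans (ch_stab hl m) (le_trans ?_ hm)
  exact antitone_nat_of_succ_le (f := fun l => Ch r (Cj c u) u l) (fun l => ch_anti (nm_cj c u) l)
    (Nat.le_add_left m l)

end Pool.Agent.FRS
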