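import Pool.Agent.FRS.Lift
import Pool.Agent.FRS.Sub

/-!
# FRS/LiftN: eigen-elements lift modulo invariant subgroups

`lift_fin`: `X` finite, `N` normal and invariant.  Strong induction on `Nat.card X`.  If `N = ⊥`: take `n = 1`, `eig_of`
style (`⟨M, hx, _⟩`).  Otherwise `Z = N ⊓ center X` is nontrivial (`X` is a finite `r`-group by `H.tors`; Mathlib:
`IsPGroup` ... a nontrivial normal subgroup of a finite `p`-group meets the centre; e.g. `IsPGroup.bot_lt_center`-type
lemmas or `Subgroup.Normal` + `IsPGroup.card_modEq_card_fixedPoints` for the conjugation action on `N`; or: nilpotent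
groups), normal and invariant.  By induction for the group `X ⧸ Z` (`qt_hyp`), the subgroup `N.map (mk' Z)` and the image
of `x` there is `n ∈ N` such that the image of `x n` is an eigen-element of degree `i`.  Then `y = x n` satisfies
`y ^ (r ^ M') = 1` for some `M' ≥ M` and `(y ^ (k ^ (i r^M')))⁻¹ * a y ∈ Z` (`eig_at` in the quotient), so
`lift_central` applies with `Z` instead of `N`.

`lift_el`: `x` normalises `N`; let `O` be the closure of the orbit of `x`, a finite invariant subgroup.  `a x` is in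
`zpowers x ⊔ N`, so all `(a ^ t) x` normalise `N` (induction on `t`; `a` maps `N` onto `N` by `inv_symm`), hence `O`
normalises `N`.  Apply `lift_fin` in the group `O` (`rs H O`) to `N.subgroupOf O`, which is normal there.

`lift_quo`: `q = mk x`; from `Eig ... q` and `eig_at` get the hypothesis of `lift_el` for `x`.
-/

set_option autoImplicit false

namespace Pool.Agent.FRS

open Pool.Agent.FRB (Inv Eig LF SS Lam)

universe u

variable {p r k : ℕ}

private theorem ln_meet {X : Type u} [Group X] [Finite X] (hr : r.Prime) (hP : IsPGroup r X) {N : Subgroup X}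
    (hN : N.Normal) (h : N ≠ ⊥) : N ⊓ Subgroup.center X ≠ ⊥ := by
  have hp : Fact r.Prime := ⟨hr⟩
  have hnt : Nontrivial N := (Subgroup.nontrivial_iff_ne_bot N).2 h
  have hd : r ∣ Nat.card N := by
    obtain ⟨n, hn0, hn⟩ := (hP.to_subgroup N).nontrivial_iff_card.mp inferInstance
    exact hn.symm ▸ dvd_pow_self _ (ne_of_gt hn0)
  have h1 : (1 : N) ∈ MulAction.fixedPoints (ConjAct X) N := fun g => smul_one g
  obtain ⟨b, hb, hb1⟩ := (hP.of_equiv ConjAct.toConjAct).exists_fixed_point_of_prime_dvd_card_of_fixed_point N hd h1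
  intro hbot
  refine hb1 (Subtype.ext ?_)
  have h2 : (b : X) ∈ N ⊓ Subgroup.center X := by
    refine ⟨b.2, Subgroup.mem_center_iff.2 fun g => ?_⟩
    have h3 := congrArg (Subtype.val) (hb (ConjAct.toConjAct g))
    rw [ConjAct.Subgroup.val_conj_smul, ConjAct.smul_def, ConjAct.ofConjAct_toConjAct] at h3
    rw [← h3]
    rw [h3]
    exact mul_inv_eq_iff_eq_mul.1 h3
  rw [hbot, Subgroup.mem_bot] at h2
  exact h2.symm

private theorem ln_pow_map {A B : Type*} [Group A] [Group B] (f : A →* B) (x : A) (n : ℕ) : f x ^ n = f (x ^ n) :=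
  (map_pow f x n).symm

theorem lift_fin (h : Root p r k) {i : ℕ} (m : ℕ) : ∀ (X : Type u) [Group X] [Finite X] (a : MulAut X),
    Hyp p r a → Nat.card X = m → ∀ (N : Subgroup X), N.Normal → Inv a N → ∀ (M : ℕ) (x : X), x ^ (r ^ M) = 1 →
      (x ^ (k ^ (i * r ^ M)))⁻¹ * a x ∈ N → ∃ n ∈ N, Eig r k a i (x * n) := by
  induction m using Nat.strong_induction_on with
  | _ m ih =>
    intro X _ _ a H hm N hNn hN M x hx hax
    by_cases hbot : N = ⊥
    · refine ⟨1, N.one_mem, M, ?_, ?_⟩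
      · rw [mul_one, hx]
      · rw [hbot, Subgroup.mem_bot, inv_mul_eq_one] at hax
        rw [mul_one]
        exact hax.symm
    have hZ0 := ln_meet h.prime (H.tors : IsPGroup r X) hNn hbot
    set Z : Subgroup X := N ⊓ Subgroup.center X with hZdef
    have hZn : Z.Normal := by
      rw [hZdef]
      infer_instance
    have hZi : Inv a Z := by
      intro z hz
      refine ⟨hN z hz.1, Subgroup.mem_center_iff.2 fun g => ?_⟩
      have h1 := Subgroup.mem_center_iff.1 hz.2 (a⁻¹ g)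
      have h2 := congrArg a h1
      rw [map_mul, map_mul, MulAut.apply_inv_self] at h2
      exact h2
    have hcard : Nat.card (X ⧸ Z) < m := by
      have h1 := Subgroup.card_eq_card_quotient_mul_card_subgroup Z
      have hnt : Nontrivial Z := (Subgroup.nontrivial_iff_ne_bot Z).2 hZ0
      have h2 : 1 < Nat.card Z := Finite.one_lt_card
      have h3 : 0 < Nat.card (X ⧸ Z) := Nat.card_pos
      rw [hm] at h1
      nlinarith
    have hN'n : (N.map (QuotientGroup.mk' Z)).Normal := hNn.map _ (QuotientGroup.mk'_surjective Z)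
    have hN'i : Inv (qt H Z hZi) (N.map (QuotientGroup.mk' Z)) := by
      rintro _ ⟨n, hn, rfl⟩
      exact ⟨a n, hN n hn, rfl⟩
    obtain ⟨n', ⟨n, hn, rfl⟩, hE⟩ := ih _ hcard (X ⧸ Z) (qt H Z hZi) (qt_hyp H Z hZi) rfl
      (N.map (QuotientGroup.mk' Z)) hN'n hN'i M (QuotientGroup.mk' Z x)
      (by rw [ln_pow_map, hx, map_one])
      ⟨_, hax, by rw [map_mul, map_inv, map_pow]; rfl⟩
    rw [← map_mul] at hE
    obtain ⟨M', hM'⟩ := H.tors (x * n)
    have h1 := eig_at h hE (M := M') (by rw [ln_pow_map, hM', map_one])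
    have h2 : (QuotientGroup.mk' Z) (a (x * n)) = (QuotientGroup.mk' Z) ((x * n) ^ (k ^ (i * r ^ M'))) := by
      rw [map_pow]
      exact h1
    have h3 : ((x * n) ^ (k ^ (i * r ^ M')))⁻¹ * a (x * n) ∈ Z := by
      rw [← QuotientGroup.eq]
      exact h2.symm
    obtain ⟨z, hz, hEz⟩ := lift_central h H hZi (i := i) (M := M') (x := x * n)
      (fun z hz => (Subgroup.mem_center_iff.1 hz.2 (x * n)).symm)
      (fun z hz w _ => (Subgroup.mem_center_iff.1 hz.2 w).symm) hM' h3
    exact ⟨n * z, N.mul_mem hn hz.1, by rw [← mul_assoc]; exact hEz⟩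

private theorem ln_norm_orb {X : Type u} [Group X] {a : MulAut X} (H : Hyp p r a) {N : Subgroup X}
    (hN : Inv a N) {x : X} (hxN : ∀ n ∈ N, x⁻¹ * n * x ∈ N) (t : ℕ) :
    ∀ n ∈ N, ((a ^ t) x)⁻¹ * n * (a ^ t) x ∈ N := by
  induction t with
  | zero => simpa using hxN
  | succ t ih =>
    intro n hn
    have h1 : a⁻¹ n ∈ N := inv_symm H hN n hn
    have h2 := hN _ (ih _ h1)
    rw [map_mul, map_mul, map_inv, MulAut.apply_inv_self] at h2
    have h3 : (a ^ (t + 1)) x = a ((a ^ t) x) := by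
      rw [pow_succ']
      rfl
    rw [h3]
    exact h2

private theorem ln_norm_closure {X : Type u} [Group X] {N : Subgroup X} {s : Set X}
    (ht : ∀ y : X, ∃ n : ℕ, 0 < n ∧ y ^ n = 1)
    (hs : ∀ y ∈ s, ∀ n ∈ N, y⁻¹ * n * y ∈ N) :
    ∀ y ∈ Subgroup.closure s, ∀ n ∈ N, y⁻¹ * n * y ∈ N := by
  have hpow : ∀ y : X, (∀ n ∈ N, y⁻¹ * n * y ∈ N) → ∀ j : ℕ, ∀ n ∈ N, (y ^ j)⁻¹ * n * y ^ j ∈ N := by
    intro y hy j
    induction j with
    | zero => intro n hn; simpa using hn
    | succ j ih =>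
      intro n hn
      have h1 : (y ^ (j + 1))⁻¹ * n * y ^ (j + 1) = y⁻¹ * ((y ^ j)⁻¹ * n * y ^ j) * y := by
        rw [pow_succ]; group
      rw [h1]
      exact hy _ (ih _ hn)
  intro y hy
  induction hy using Subgroup.closure_induction with
  | mem y hy => exact hs y hy
  | one => intro n hn; simpa using hn
  | mul p q _ _ hp hq =>
    intro n hn
    have h1 : (p * q)⁻¹ * n * (p * q) = q⁻¹ * (p⁻¹ * n * p) * q := by group
    rw [h1]
    exact hq _ (hp _ hn)
  | inv p _ hp =>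
    obtain ⟨n, hn, hpn⟩ := ht p
    have h1 : p⁻¹ = p ^ (n - 1) := by
      rw [inv_eq_iff_mul_eq_one, ← pow_succ', Nat.sub_add_cancel hn, hpn]
    rw [h1]
    exact hpow p hp (n - 1)

theorem lift_el {X : Type u} [Group X] {a : MulAut X} (h : Root p r k) (H : Hyp p r a) {N : Subgroup X}
    (hN : Inv a N) {i M : ℕ} {x : X} (hxN : ∀ n ∈ N, x⁻¹ * n * x ∈ N) (hx : x ^ (r ^ M) = 1)
    (hax : (x ^ (k ^ (i * r ^ M)))⁻¹ * a x ∈ N) : ∃ n ∈ N, Eig r k a i (x * n) := by
  set O : Subgroup X := Subgroup.closure (Set.range fun n : ℕ => (a ^ n) x) with hO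
  have hOf : Finite O := (H.orb x).to_subtype
  have hOi : Inv a O := inv_orb a x
  have hxO : x ∈ O := mem_orb a x
  have hnorm : ∀ y ∈ O, ∀ n ∈ N, y⁻¹ * n * y ∈ N := by
    refine ln_norm_closure (fun y => ?_) ?_
    · obtain ⟨n, hn⟩ := H.tors y
      exact ⟨r ^ n, pow_pos h.prime.pos _, hn⟩
    · rintro _ ⟨t, rfl⟩
      exact ln_norm_orb H hN hxN t
  have hNn : (N.subgroupOf O).Normal := by
    refine ⟨fun n hn g => ?_⟩
    rw [Subgroup.mem_subgroupOf] at hn ⊢
    have h1 := hnorm (g⁻¹ : O) (g⁻¹ : O).2 _ hn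
    simpa using h1
  obtain ⟨n, hn, hE⟩ := lift_fin h (i := i) (Nat.card O) O (rs H O hOi) (rs_hyp H O hOi) rfl (N.subgroupOf O) hNn
    (inv_subgroupOf H O hOi hN) M ⟨x, hxO⟩ (Subtype.ext (by simpa using hx))
    (by rw [Subgroup.mem_subgroupOf]; simpa using hax)
  refine ⟨n, Subgroup.mem_subgroupOf.1 hn, ?_⟩
  exact (rs_eig H O hOi).1 hE

theorem lift_quo {X : Type u} [Group X] {a : MulAut X} (h : Root p r k) (H : Hyp p r a) (N : Subgroup X) [N.Normal]
    (hN : Inv a N) {i : ℕ} {q : X ⧸ N} (hq : Eig r k (qt H N hN) i q) :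
    ∃ x : X, (x : X ⧸ N) = q ∧ Eig r k a i x := by
  obtain ⟨x, rfl⟩ := QuotientGroup.mk_surjective q
  obtain ⟨M, hM⟩ := H.tors x
  have h1 := eig_at h hq (M := M) (by rw [← QuotientGroup.mk_pow, hM]; rfl)
  have h3 : (x ^ (k ^ (i * r ^ M)))⁻¹ * a x ∈ N := by
    rw [← QuotientGroup.eq]
    rw [qt_mk, ← QuotientGroup.mk_pow] at h1
    exact h1.symm
  obtain ⟨n, hn, hE⟩ := lift_el h H hN (i := i) (M := M) (x := x)
    (fun n hn => by simpa using (inferInstance : N.Normal).conj_mem n hn x⁻¹) hM h3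
  refine ⟨x * n, ?_, hE⟩
  rw [QuotientGroup.eq]
  simpa using hn

end Pool.Agent.FRS
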