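import Pool.Agent.FRS.ChA
import Pool.Agent.FRS.LiftN

/-!
# FRS/ChB: existence of the strings in chain form
-/

set_option autoImplicit false

namespace Pool.Agent.FRS

open Pool.Agent.FRB (Inv Eig LF SS Lam)

universe u

variable {p r k : ℕ} {X : Type u} [Group X] {a : MulAut X}

private def cb_d (c u : X) : ℕ → X
  | 0 => c
  | l + 1 => (cb_d c u l)⁻¹ * u⁻¹ * cb_d c u l * u

/-- congruence modulo `N` -/
private def cb_e (N : Subgroup X) (x y : X) : Prop := x⁻¹ * y ∈ N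

private theorem cb_refl (N : Subgroup X) (x : X) : cb_e N x x := by
  unfold cb_e
  rw [inv_mul_cancel]
  exact N.one_mem

private theorem cb_symm {N : Subgroup X} {x y : X} (h : cb_e N x y) : cb_e N y x := by
  have h1 := N.inv_mem h
  rwa [mul_inv_rev, inv_inv] at h1

private theorem cb_trans {N : Subgroup X} {x y z : X} (h : cb_e N x y) (h' : cb_e N y z) : cb_e N x z := by
  have h1 := N.mul_mem h h'
  rwa [mul_assoc, mul_inv_cancel_left] at h1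

private theorem cb_mono {N N' : Subgroup X} (hN : N ≤ N') {x y : X} (h : cb_e N x y) : cb_e N' x y := hN h

private theorem cb_mulE {N : Subgroup X} {x x' y y' : X} (hN : ∀ n ∈ N, y⁻¹ * n * y ∈ N) (h : cb_e N x x')
    (h' : cb_e N y y') : cb_e N (x * y) (x' * y') := by
  have h1 := N.mul_mem (hN _ h) h'
  have h2 : y⁻¹ * (x⁻¹ * x') * y * (y⁻¹ * y') = (x * y)⁻¹ * (x' * y') := by group
  rw [h2] at h1
  exact h1

private theorem cb_powE {N : Subgroup X} {x y : X} (hN : ∀ n ∈ N, x⁻¹ * n * x ∈ N) (h : cb_e N x y) (s : ℕ) :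
    cb_e N (x ^ s) (y ^ s) := by
  induction s with
  | zero =>
    rw [pow_zero, pow_zero]
    exact cb_refl N 1
  | succ s ih =>
    rw [pow_succ, pow_succ]
    exact cb_mulE hN ih h

private theorem cb_kV {V : Subgroup X} {u : X} (hV : Nm V u) {v : X} (hv : v ∈ V) : v⁻¹ * u⁻¹ * v * u ∈ V := by
  have h1 := V.mul_mem (V.inv_mem hv) (hV.1 v hv)
  have h2 : v⁻¹ * (u⁻¹ * v * u) = v⁻¹ * u⁻¹ * v * u := by group
  rwa [h2] at h1

private theorem cb_kmul {V : Subgroup X} {u : X} (hV : Nm V u) {v w : X} (hv : v ∈ V) (hw : w ∈ V) :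
    cb_e (Fr r V) ((v⁻¹ * u⁻¹ * v * u) * (w⁻¹ * u⁻¹ * w * u)) ((v * w)⁻¹ * u⁻¹ * (v * w) * u) := by
  have h1 : (v⁻¹ * u⁻¹ * v * u)⁻¹ * w⁻¹ * (v⁻¹ * u⁻¹ * v * u) * w ∈ Fr r V := fr_com (cb_kV hV hv) hw
  have h2 := fr_norm (le_refl (Fr r V)) (fr_le r V) (cb_kV hV hw) h1
  have h3 : (w⁻¹ * u⁻¹ * w * u)⁻¹ * ((v⁻¹ * u⁻¹ * v * u)⁻¹ * w⁻¹ * (v⁻¹ * u⁻¹ * v * u) * w) *
      (w⁻¹ * u⁻¹ * w * u) = ((v⁻¹ * u⁻¹ * v * u) * (w⁻¹ * u⁻¹ * w * u))⁻¹ *
      ((v * w)⁻¹ * u⁻¹ * (v * w) * u) := by group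
  rw [h3] at h2
  exact h2

private theorem cb_kpow {V : Subgroup X} {u : X} (hV : Nm V u) {v : X} (hv : v ∈ V) (s : ℕ) :
    cb_e (Fr r V) ((v⁻¹ * u⁻¹ * v * u) ^ s) ((v ^ s)⁻¹ * u⁻¹ * v ^ s * u) := by
  induction s with
  | zero =>
    have h1 : ((v ^ 0)⁻¹ * u⁻¹ * v ^ 0 * u) = 1 := by group
    rw [h1, pow_zero]
    exact cb_refl _ 1
  | succ s ih =>
    rw [pow_succ, pow_succ v]
    refine cb_trans (cb_mulE (fun n hn => fr_norm (le_refl (Fr r V)) (fr_le r V) (cb_kV hV hv) hn) ih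
      (cb_refl _ _)) ?_
    exact cb_kmul hV (V.pow_mem hv s) hv

private theorem cb_um {V : Subgroup X} {u : X} (hV : Nm V u) (l : ℕ) {x : X} (hx : x ∈ Ch r V u l) (m : ℕ) :
    cb_e (Ch r V u (l + 2)) ((x⁻¹ * u⁻¹ * x * u) ^ m) (x⁻¹ * (u ^ m)⁻¹ * x * u ^ m) := by
  induction m with
  | zero =>
    have h1 : (x⁻¹ * (u ^ 0)⁻¹ * x * u ^ 0) = 1 := by group
    rw [h1, pow_zero]
    exact cb_refl _ 1
  | succ m ih =>
    have h1 := ch_compow hV l hx (m : ℤ)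
    rw [zpow_neg, zpow_natCast] at h1
    have h2 : x⁻¹ * ((u ^ m)⁻¹ * x * u ^ m) = x⁻¹ * (u ^ m)⁻¹ * x * u ^ m := by
      simp only [mul_assoc]
    rw [h2] at h1
    have h3 := ch_com (l + 1) h1
    have h4 := (Ch r V u (l + 2)).mul_mem ih h3
    unfold cb_e
    rw [pow_succ', pow_succ u]
    obtain ⟨q, hq⟩ : ∃ q, q = (x⁻¹ * u⁻¹ * x * u) ^ m := ⟨_, rfl⟩
    obtain ⟨U, hU⟩ : ∃ U, U = u ^ m := ⟨_, rfl⟩
    rw [← hq, ← hU] at h4 ⊢
    have h5 : (x⁻¹ * u⁻¹ * x * u * q)⁻¹ * (x⁻¹ * (U * u)⁻¹ * x * (U * u)) =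
        q⁻¹ * (x⁻¹ * U⁻¹ * x * U) * ((x⁻¹ * U⁻¹ * x * U)⁻¹ * u⁻¹ * (x⁻¹ * U⁻¹ * x * U) * u) := by
      group
    rw [h5]
    exact h4

private theorem cb_dmem {V : Subgroup X} {c u : X} (hc : c ∈ V) (l : ℕ) : cb_d c u l ∈ Ch r V u l := by
  induction l with
  | zero => exact hc
  | succ l ih => exact ch_com l ih

private theorem cb_dup {c u : X} (l : ℕ) :
    Ch r (Cj c u) u l ≤ Subgroup.zpowers (cb_d c u l) ⊔ Ch r (Cj c u) u (l + 1) := by
  induction l with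
  | zero =>
    show Cj c u ≤ Subgroup.zpowers c ⊔ Ch r (Cj c u) u 1
    have h0 : Cj c u = Subgroup.closure {x | ∃ t : ℤ, x = u ^ (-t) * c * u ^ t} := rfl
    obtain ⟨T, hT⟩ : ∃ T, T = Subgroup.zpowers c ⊔ Ch r (Cj c u) u 1 := ⟨_, rfl⟩
    rw [← hT, h0]
    refine (Subgroup.closure_le _).2 ?_
    rintro x ⟨t, rfl⟩
    have h1 : c⁻¹ * (u ^ (-t) * c * u ^ t) ∈ Ch r (Cj c u) u (0 + 1) :=
      ch_compow (nm_cj c u) 0 (cj_self c u) t
    have h2 : u ^ (-t) * c * u ^ t = c * (c⁻¹ * (u ^ (-t) * c * u ^ t)) := by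
      rw [mul_inv_cancel_left]
    rw [h2, hT]
    exact Subgroup.mul_mem _ (Subgroup.mem_sup_left (Subgroup.mem_zpowers c)) (Subgroup.mem_sup_right h1)
  | succ l ih =>
    obtain ⟨V, hVd⟩ : ∃ V, V = Cj c u := ⟨_, rfl⟩
    have hV : Nm V u := by
      rw [hVd]
      exact nm_cj c u
    have hcV : c ∈ V := by
      rw [hVd]
      exact cj_self c u
    rw [← hVd] at ih ⊢
    obtain ⟨T, hT⟩ : ∃ T, T = Subgroup.zpowers (cb_d c u (l + 1)) ⊔ Ch r V u (l + 1 + 1) := ⟨_, rfl⟩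
    have hCT : Ch r V u (l + 2) ≤ T := by
      rw [hT]
      exact le_sup_right
    have hFT : Fr r V ≤ T := le_trans (fr_ch V u (l + 2)) hCT
    have hP : ∀ v ∈ Subgroup.closure ({cb_d c u l} ∪ (Ch r V u (l + 1) : Set X)),
        v ∈ V ∧ v⁻¹ * u⁻¹ * v * u ∈ T := by
      intro v hv
      induction hv using Subgroup.closure_induction with
      | mem x hx =>
        rcases hx with hx | hx
        · rw [Set.mem_singleton_iff] at hx
          rw [hx]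
          refine ⟨ch_le (r := r) hV l (cb_dmem hcV l), ?_⟩
          rw [hT]
          exact Subgroup.mem_sup_left (Subgroup.mem_zpowers _)
        · exact ⟨ch_le hV (l + 1) hx, hCT (ch_com (l + 1) hx)⟩
      | one =>
        refine ⟨V.one_mem, ?_⟩
        have h1 : (1 : X)⁻¹ * u⁻¹ * 1 * u = 1 := by group
        rw [h1]
        exact T.one_mem
      | mul x y _ _ hx hy =>
        refine ⟨V.mul_mem hx.1 hy.1, ?_⟩
        have h1 := hFT (cb_kmul (r := r) hV hx.1 hy.1)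
        have h2 := T.mul_mem (T.mul_mem hx.2 hy.2) h1
        rwa [mul_inv_cancel_left] at h2
      | inv x _ hx =>
        refine ⟨V.inv_mem hx.1, ?_⟩
        have h1 : ((x⁻¹ * u⁻¹ * x * u)⁻¹)⁻¹ * (x⁻¹)⁻¹ * (x⁻¹ * u⁻¹ * x * u)⁻¹ * x⁻¹ ∈ Fr r V :=
          fr_com (V.inv_mem (cb_kV hV hx.1)) (V.inv_mem hx.1)
        have h2 := T.mul_mem (T.inv_mem hx.2) (hFT h1)
        have h3 : (x⁻¹ * u⁻¹ * x * u)⁻¹ * (((x⁻¹ * u⁻¹ * x * u)⁻¹)⁻¹ * (x⁻¹)⁻¹ *
            (x⁻¹ * u⁻¹ * x * u)⁻¹ * x⁻¹) = (x⁻¹)⁻¹ * u⁻¹ * x⁻¹ * u := by group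
        rwa [h3] at h2
    rw [← hT]
    have h0 : Ch r V u (l + 1) = Fr r V ⊔ Subgroup.closure {x | ∃ v ∈ Ch r V u l,
      x = v⁻¹ * u⁻¹ * v * u} := rfl
    rw [h0]
    refine sup_le hFT ((Subgroup.closure_le _).2 ?_)
    rintro x ⟨v, hv, rfl⟩
    refine (hP v ?_).2
    have h1 := ih hv
    rwa [Subgroup.zpowers_eq_closure, ← Subgroup.closure_eq (Ch r V u (l + 1)),
      ← Subgroup.closure_union] at h1

private theorem cb_app (h : Root p r k) (H : Hyp p r a) {i j : ℕ} {c u : X} (hc : Eig r k a i c) (hu : Eig r k a j u) {M : ℕ}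
    (hcM : c ^ (r ^ M) = 1) (huM : u ^ (r ^ M) = 1) (l : ℕ) :
    (cb_d c u l ^ (k ^ ((i + l * j) * r ^ M)))⁻¹ * a (cb_d c u l) ∈ Ch r (Cj c u) u (l + 1) := by
  have hV := nm_cj c u
  have hcV := cj_self c u
  induction l with
  | zero =>
    have h1 : (cb_d c u 0 ^ (k ^ ((i + 0 * j) * r ^ M)))⁻¹ * a (cb_d c u 0) = 1 := by
      show (c ^ (k ^ ((i + 0 * j) * r ^ M)))⁻¹ * a c = 1
      rw [zero_mul, add_zero, eig_at h hc hcM, inv_mul_cancel]
    rw [h1]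
    exact Subgroup.one_mem _
  | succ l ih =>
    have hVa := cj_inv H hc hu
    have hd := cb_dmem (r := r) (u := u) hcV l
    have hd' : (cb_d c u l)⁻¹ * u⁻¹ * cb_d c u l * u ∈ Cj c u := cb_kV hV (ch_le hV l hd)
    have had : a (cb_d c u l) ∈ Ch r (Cj c u) u l := ch_inv hV hVa (eig_mem hu) l _ hd
    have e1 : k ^ ((i + (l + 1) * j) * r ^ M) = k ^ ((i + l * j) * r ^ M) * k ^ (j * r ^ M) := by
      rw [← pow_add]
      congr 1
      ring
    have e2 : cb_d c u (l + 1) = (cb_d c u l)⁻¹ * u⁻¹ * cb_d c u l * u := rfl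
    rw [e1, e2, map_mul, map_mul, map_mul, map_inv, map_inv, eig_at h hu huM, pow_mul]
    obtain ⟨D, hD⟩ : ∃ D, D = cb_d c u l := ⟨_, rfl⟩
    obtain ⟨s, hs⟩ : ∃ s, s = k ^ ((i + l * j) * r ^ M) := ⟨_, rfl⟩
    obtain ⟨m, hm⟩ : ∃ m, m = k ^ (j * r ^ M) := ⟨_, rfl⟩
    rw [← hD, ← hs] at ih
    rw [← hD] at hd hd' had
    rw [← hD, ← hs, ← hm]
    have nrm : ∀ x ∈ Cj c u, ∀ n ∈ Ch r (Cj c u) u (l + 2), x⁻¹ * n * x ∈ Ch r (Cj c u) u (l + 2) :=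
      fun x hx n hn => ch_norm hV (l + 2) hx hn
    have hDV : D ∈ Cj c u := ch_le hV l hd
    have hvV : (D ^ s)⁻¹ * a D ∈ Cj c u := ch_le hV (l + 1) ih
    have h1 := cb_mono (fr_ch (Cj c u) u (l + 2)) (cb_kpow (r := r) hV hDV s)
    have h2 := cb_mono (fr_ch (Cj c u) u (l + 2)) (cb_kmul (r := r) hV ((Cj c u).pow_mem hDV s) hvV)
    rw [mul_inv_cancel_left] at h2
    have h3 : cb_e (Ch r (Cj c u) u (l + 2)) ((D ^ s)⁻¹ * u⁻¹ * D ^ s * u)
        (((D ^ s)⁻¹ * u⁻¹ * D ^ s * u) * (((D ^ s)⁻¹ * a D)⁻¹ * u⁻¹ * ((D ^ s)⁻¹ * a D) * u)) := by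
      unfold cb_e
      rw [inv_mul_cancel_left]
      exact ch_com (l + 1) ih
    have h4 := cb_trans h1 (cb_trans h3 h2)
    have h5 := cb_powE (nrm _ ((Cj c u).pow_mem hd' s)) h4 m
    exact cb_trans h5 (cb_um hV l had m)

private theorem cb_tors {x : X} {n : ℕ} (hx : x ^ (r ^ n) = 1) (t : ℕ) : x ^ (r ^ (n + t)) = 1 := by
  rw [pow_add, pow_mul, hx, one_pow]

private theorem cb_lift (h : Root p r k) (H : Hyp p r a) {i j : ℕ} {c u : X} (hc : Eig r k a i c)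
    (hu : Eig r k a j u) (l : ℕ) :
    ∃ n ∈ Ch r (Cj c u) u (l + 1), Eig r k a (i + l * j) (cb_d c u l * n) ∧ (l = 0 → n = 1) := by
  have hV := nm_cj c u
  by_cases hl : l = 0
  · refine ⟨1, Subgroup.one_mem _, ?_, fun _ => rfl⟩
    rw [hl, zero_mul, add_zero, mul_one]
    exact hc
  · obtain ⟨M1, h1⟩ := H.tors c
    obtain ⟨M2, h2⟩ := H.tors u
    obtain ⟨M3, h3⟩ := H.tors (cb_d c u l)
    have hd := cb_dmem (r := r) (u := u) (cj_self c u) l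
    obtain ⟨M, hM⟩ : ∃ M, M = M1 + M2 + M3 := ⟨_, rfl⟩
    have g1 : c ^ (r ^ M) = 1 := by
      have : M = M1 + (M2 + M3) := by omega
      rw [this]
      exact cb_tors h1 _
    have g2 : u ^ (r ^ M) = 1 := by
      have : M = M2 + (M1 + M3) := by omega
      rw [this]
      exact cb_tors h2 _
    have g3 : cb_d c u l ^ (r ^ M) = 1 := by
      have : M = M3 + (M1 + M2) := by omega
      rw [this]
      exact cb_tors h3 _
    obtain ⟨n, hn, hn'⟩ := lift_el h H (ch_inv hV (cj_inv H hc hu) (eig_mem hu) (l + 1))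
      (fun n hn => ch_norm hV (l + 1) (ch_le hV l hd) hn) g3 (cb_app h H hc hu g1 g2 l)
    exact ⟨n, hn, hn', fun h' => absurd h' hl⟩

theorem stc_exists (h : Root p r k) (H : Hyp p r a) {i j : ℕ} {c u : X} (hc : Eig r k a i c) (hu : Eig r k a j u) :
    ∃ (n : ℕ) (e : ℕ → X), StC r k a i j c u n e := by
  classical
  have hV := nm_cj c u
  have hcV := cj_self c u
  have hex : ∃ n, Ch r (Cj c u) u (n + 1) ≤ Fr r (Cj c u) := by
    obtain ⟨l, hl⟩ := ch_bot h H c u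
    exact ⟨l, le_trans (ch_anti hV l) hl⟩
  choose n hn he h0 using cb_lift h H hc hu
  have hd : ∀ l, cb_d c u l ∈ Ch r (Cj c u) u l := fun l => cb_dmem hcV l
  refine ⟨Nat.find hex, fun l => cb_d c u l * n l, ?_, fun l _ => he l, fun l _ => ?_, fun l _ => ?_,
    Nat.find_spec hex, fun l hl h1 => ?_, fun l _ => ?_⟩
  · show c * n 0 = c
    rw [h0 0 rfl, mul_one]
  · exact Subgroup.mul_mem _ (hd l) (ch_anti hV l (hn l))
  · refine le_trans (cb_dup l) (sup_le ?_ le_sup_right)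
    rw [Subgroup.zpowers_le]
    have h1 : cb_d c u l = (cb_d c u l * n l) * (n l)⁻¹ := by rw [mul_inv_cancel_right]
    rw [h1]
    refine Subgroup.mul_mem _ (Subgroup.mem_sup_left ?_) (Subgroup.mem_sup_right
      (Subgroup.inv_mem _ (hn l)))
    rw [← h1]
    exact Subgroup.mem_zpowers _
  · obtain ⟨q, rfl⟩ : ∃ q, l = q + 1 := ⟨l - 1, by omega⟩
    exact Nat.find_min hex (show q < Nat.find hex by omega)
  · show ∃ f ∈ Ch r (Cj c u) u (l + 2), (cb_d c u l * n l)⁻¹ * (u⁻¹ * (cb_d c u l * n l) * u) =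
      (cb_d c u (l + 1) * n (l + 1)) * f
    have hDV : cb_d c u l ∈ Cj c u := ch_le hV l (hd l)
    have hnV : n l ∈ Cj c u := ch_le hV (l + 1) (hn l)
    have h1 := cb_mono (fr_ch (Cj c u) u (l + 2)) (cb_kmul (r := r) hV hDV hnV)
    have h3 : cb_e (Ch r (Cj c u) u (l + 2)) (cb_d c u (l + 1))
        (cb_d c u (l + 1) * ((n l)⁻¹ * u⁻¹ * n l * u)) := by
      unfold cb_e
      rw [inv_mul_cancel_left]
      exact ch_com (l + 1) (hn l)
    have h4 : cb_e (Ch r (Cj c u) u (l + 2)) (cb_d c u (l + 1) * n (l + 1)) (cb_d c u (l + 1)) := by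
      refine cb_symm ?_
      unfold cb_e
      rw [inv_mul_cancel_left]
      exact hn (l + 1)
    have h5 := cb_trans h4 (cb_trans h3 h1)
    refine ⟨_, h5, ?_⟩
    rw [mul_inv_cancel_left]
    simp only [mul_assoc]

theorem stc_lt (h : Root p r k) (H : Hyp p r a) {i j n : ℕ} {c u : X} {e : ℕ → X} (hS : StC r k a i j c u n e)
    {l : ℕ} (hl : l ≤ n) (hc : c ≠ 1) : ¬ Ch r (Cj c u) u l ≤ Ch r (Cj c u) u (l + 1) := by
  intro hle
  have h1 := ch_stab_bot h H hle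
  rcases Nat.eq_zero_or_pos l with h0 | h0
  · rw [h0] at h1
    refine fr_lt h.prime (cj_fin H c u) (fun x _ => H.tors x) ?_ h1
    intro hbot
    apply hc
    have h2 := cj_self c u
    rw [hbot] at h2
    exact Subgroup.mem_bot.1 h2
  · exact hS.nbot l hl h0 h1

end Pool.Agent.FRS
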