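import Pool.Agent.FRS.ChB

/-!
# FRS/ChC: from the chain form to `Str`

Let `hS : StC ...`, `V = Cj c u`, `C l = Ch r V u l`.

`stc_gen`: `V = C 0 ≤ closure {e l : l ≤ n} ⊔ C (n+1) ≤ closure {e l} ⊔ Fr r V` (`up`, `bot`), then `fr_gen`.
`stc_gent`: for `l ≤ n` the element `e l` lies in `T ⊔ C (l+1)` where `T = closure {u^(-t) c u^t : t ≤ n}`; more precisely
show by induction on `l ≤ n` that there is `d l` in `closure {u^(-t) c u^t : t ≤ l}` with `e l ∈ d l * C (l+1)`,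
`(e l)⁻¹... ` (`d (l+1) = (d l)⁻¹ * (u⁻¹ * d l * u)`, `nxt`).  Then `V ≤ T ⊔ Fr r V` by descending induction and
`fr_gen` gives `V ≤ T`.
`stc_ncomm`: if `e l` commutes with `u`, `l < n`, then by `nxt` `e (l+1) ∈ C (l+2)`, so `C (l+1) ≤ C (l+2)` by `up`, and
`C (l+1) ≤ Fr r V` (`ch_stab_bot`), against `nbot`.
`stc_ne`: if `e l = 1`, `1 ≤ l ≤ n`, then `C l ≤ C (l+1)` by `up`, so `C l ≤ Fr r V`, against `nbot`.
`stc_last`: `nxt` for `l = n - 1` and `bot`.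
-/

set_option autoImplicit false

namespace Pool.Agent.FRS

open Pool.Agent.FRB (Inv Eig LF SS Lam)

universe u

variable {p r k : ℕ} {X : Type u} [Group X] {a : MulAut X}

private theorem stc_desc {i j n : ℕ} {c u : X} {e : ℕ → X} (hS : StC r k a i j c u n e) {T : Subgroup X}
    (hT : ∀ l ≤ n, e l ∈ T ⊔ Ch r (Cj c u) u (l + 1)) : ∀ l ≤ n + 1, Cj c u ≤ T ⊔ Ch r (Cj c u) u l := by
  intro l
  induction l with
  | zero =>
    intro _
    exact le_sup_of_le_right (le_of_eq rfl)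
  | succ l ih =>
    intro hl
    have hl' : l ≤ n := by omega
    refine (ih (by omega)).trans (sup_le le_sup_left ?_)
    refine (hS.up l hl').trans (sup_le ?_ le_sup_right)
    rw [Subgroup.zpowers_le]
    exact hT l hl'

private theorem stc_desc' {i j n : ℕ} (h : Root p r k) (H : Hyp p r a) {c u : X} {e : ℕ → X}
    (hS : StC r k a i j c u n e) {T : Subgroup X} (hTV : T ≤ Cj c u)
    (hT : ∀ l ≤ n, e l ∈ T ⊔ Ch r (Cj c u) u (l + 1)) : Cj c u ≤ T := by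
  refine fr_gen h.prime (cj_fin H c u) (fun x _ => H.tors x) hTV ?_
  exact (stc_desc hS hT (n + 1) le_rfl).trans (sup_le_sup_left hS.bot T)

theorem stc_gen (h : Root p r k) (H : Hyp p r a) {i j n : ℕ} {c u : X} {e : ℕ → X} (hS : StC r k a i j c u n e) :
    Cj c u = Subgroup.closure {x | ∃ l ≤ n, x = e l} := by
  have hTV : Subgroup.closure {x | ∃ l ≤ n, x = e l} ≤ Cj c u := by
    rw [Subgroup.closure_le]
    rintro x ⟨l, hl, rfl⟩
    exact ch_le (nm_cj c u) l (hS.mem l hl)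
  refine le_antisymm (stc_desc' h H hS hTV ?_) hTV
  intro l hl
  exact Subgroup.mem_sup_left (Subgroup.subset_closure ⟨l, hl, rfl⟩)

private def TT (c u : X) (l : ℕ) : Subgroup X :=
  Subgroup.closure {x | ∃ t : ℕ, t ≤ l ∧ x = u ^ (-(t : ℤ)) * c * u ^ (t : ℤ)}

private theorem tt_mono (c u : X) {l m : ℕ} (hlm : l ≤ m) : TT c u l ≤ TT c u m := by
  apply Subgroup.closure_mono
  rintro x ⟨t, ht, rfl⟩
  exact ⟨t, ht.trans hlm, rfl⟩

private theorem tt_conj (c u : X) (l : ℕ) {x : X} (hx : x ∈ TT c u l) : u⁻¹ * x * u ∈ TT c u (l + 1) := by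
  unfold TT at hx
  induction hx using Subgroup.closure_induction with
  | mem x hx =>
    obtain ⟨t, ht, rfl⟩ := hx
    refine Subgroup.subset_closure ⟨t + 1, by omega, ?_⟩
    have h1 : u ^ (-((t + 1 : ℕ) : ℤ)) = u⁻¹ * u ^ (-(t : ℤ)) := by
      rw [← zpow_neg_one, ← zpow_add]
      congr 1
      push_cast
      ring
    have h2 : u ^ (((t + 1 : ℕ) : ℤ)) = u ^ (t : ℤ) * u := by
      rw [← zpow_add_one]
      congr 1
    rw [h1, h2]
    group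
  | one => simp
  | mul x y _ _ ihx ihy =>
    have : u⁻¹ * (x * y) * u = (u⁻¹ * x * u) * (u⁻¹ * y * u) := by group
    rw [this]
    exact mul_mem ihx ihy
  | inv x _ ihx =>
    have : u⁻¹ * x⁻¹ * u = (u⁻¹ * x * u)⁻¹ := by group
    rw [this]
    exact inv_mem ihx

private theorem tt_le (c u : X) (l : ℕ) : TT c u l ≤ Cj c u := by
  unfold TT
  rw [Subgroup.closure_le]
  rintro x ⟨t, _, rfl⟩
  exact cj_mem c u t

private theorem stc_tt {i j n : ℕ} {c u : X} {e : ℕ → X} (hS : StC r k a i j c u n e) :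
    ∀ l ≤ n, ∃ d ∈ TT c u l, d⁻¹ * e l ∈ Ch r (Cj c u) u (l + 1) := by
  intro l
  induction l with
  | zero =>
    intro _
    refine ⟨c, Subgroup.subset_closure ⟨0, le_rfl, by simp⟩, ?_⟩
    rw [hS.zero, inv_mul_cancel]
    exact one_mem _
  | succ l ih =>
    intro hl
    obtain ⟨d, hd, hx⟩ := ih (by omega)
    obtain ⟨f, hf, hn⟩ := hS.nxt l (by omega)
    have hV := nm_cj c u
    have hdV : d ∈ Cj c u := tt_le c u l hd
    have hd1 : d ∈ TT c u (l + 1) := tt_mono c u (Nat.le_succ l) hd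
    have hd'T : d⁻¹ * (u⁻¹ * d * u) ∈ TT c u (l + 1) := mul_mem (inv_mem hd1) (tt_conj c u l hd)
    have hd'V : d⁻¹ * (u⁻¹ * d * u) ∈ Cj c u := tt_le c u (l + 1) hd'T
    refine ⟨d⁻¹ * (u⁻¹ * d * u), hd'T, ?_⟩
    have hxV : d⁻¹ * e l ∈ Cj c u := ch_le hV (l + 1) hx
    have hb1 : (d⁻¹ * (u⁻¹ * d * u))⁻¹ * (d⁻¹ * e l)⁻¹ * (d⁻¹ * (u⁻¹ * d * u)) * (d⁻¹ * e l) ∈
        Ch r (Cj c u) u (l + 1 + 1) := fr_ch (Cj c u) u (l + 1 + 1) (fr_com hd'V hxV)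
    have hb2 : (d⁻¹ * e l)⁻¹ * u⁻¹ * (d⁻¹ * e l) * u ∈ Ch r (Cj c u) u (l + 1 + 1) := ch_com (l + 1) hx
    have hkey : (d⁻¹ * (u⁻¹ * d * u))⁻¹ * e (l + 1) =
        ((d⁻¹ * (u⁻¹ * d * u))⁻¹ * (d⁻¹ * e l)⁻¹ * (d⁻¹ * (u⁻¹ * d * u)) * (d⁻¹ * e l)) *
        ((d⁻¹ * e l)⁻¹ * u⁻¹ * (d⁻¹ * e l) * u) * f⁻¹ := by
      have h1 : e (l + 1) = (e l)⁻¹ * (u⁻¹ * e l * u) * f⁻¹ := by rw [hn]; group
      rw [h1]
      group
    rw [hkey]
    exact mul_mem (mul_mem hb1 hb2) (inv_mem hf)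

theorem stc_gent (h : Root p r k) (H : Hyp p r a) {i j n : ℕ} {c u : X} {e : ℕ → X} (hS : StC r k a i j c u n e) :
    Cj c u = Subgroup.closure {x | ∃ t : ℕ, t ≤ n ∧ x = u ^ (-(t : ℤ)) * c * u ^ (t : ℤ)} := by
  refine le_antisymm (stc_desc' h H hS (T := TT c u n) (tt_le c u n) ?_) (tt_le c u n)
  intro l hl
  obtain ⟨d, hd, hx⟩ := stc_tt hS l hl
  have : e l = d * (d⁻¹ * e l) := by group
  rw [this]
  exact mul_mem (Subgroup.mem_sup_left (tt_mono c u hl hd)) (Subgroup.mem_sup_right hx)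

private theorem stc_not {i j n : ℕ} (h : Root p r k) (H : Hyp p r a) {c u : X} {e : ℕ → X}
    (hS : StC r k a i j c u n e) {l : ℕ} (hl : l ≤ n) (h1 : 1 ≤ l) (he : e l ∈ Ch r (Cj c u) u (l + 1)) : False := by
  refine hS.nbot l hl h1 (ch_stab_bot h H ?_)
  refine (hS.up l hl).trans (sup_le ?_ le_rfl)
  rw [Subgroup.zpowers_le]
  exact he

theorem stc_ncomm (h : Root p r k) (H : Hyp p r a) {i j n : ℕ} {c u : X} {e : ℕ → X} (hS : StC r k a i j c u n e)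
    {l : ℕ} (hl : l < n) : ¬ Commute (e l) u := by
  intro hc
  obtain ⟨f, hf, hn⟩ := hS.nxt l hl
  have h1 : (e l)⁻¹ * (u⁻¹ * e l * u) = 1 := by
    have : u⁻¹ * e l * u = e l := by
      rw [mul_assoc, hc.eq]
      group
    rw [this, inv_mul_cancel]
  rw [h1] at hn
  have h2 : e (l + 1) = f⁻¹ := (eq_inv_of_mul_eq_one_left hn.symm)
  refine stc_not h H hS (l := l + 1) (by omega) (by omega) ?_
  rw [h2]
  exact inv_mem hf

theorem stc_ne (h : Root p r k) (H : Hyp p r a) {i j n : ℕ} {c u : X} {e : ℕ → X} (hS : StC r k a i j c u n e)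
    {l : ℕ} (hl : l ≤ n) (h1 : 1 ≤ l) : e l ≠ 1 := by
  intro he
  refine stc_not h H hS hl h1 ?_
  rw [he]
  exact one_mem _

theorem stc_last {i j n : ℕ} {c u : X} {e : ℕ → X} (hS : StC r k a i j c u n e) (hn : 1 ≤ n) :
    ∃ f ∈ Fr r (Cj c u), e n = (e (n - 1))⁻¹ * (u⁻¹ * e (n - 1) * u) * f := by
  obtain ⟨f, hf, hx⟩ := hS.nxt (n - 1) (by omega)
  have h1 : n - 1 + 2 = n + 1 := by omega
  have h2 : n - 1 + 1 = n := by omega
  rw [h1] at hf
  rw [h2] at hx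
  refine ⟨f⁻¹, inv_mem (hS.bot hf), ?_⟩
  rw [hx]
  group

end Pool.Agent.FRS
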