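import Pool.Agent.FRS.Sub
import Pool.Agent.FRS.Quo

/-!
# FRS/Comm: eigen-elements of opposite degrees commute; commutators
-/

set_option autoImplicit false

namespace Pool.Agent.FRS

open Pool.Agent.FRB (Inv Eig LF SS Lam)

universe u

variable {p r k : ℕ} {X : Type u} [Group X] {a : MulAut X}

theorem comm_eig (h : Root p r k) (H : Hyp p r a) {i j : ℕ} {x y c : X} (hx : Eig r k a i x) (hy : Eig r k a j y)
    (hc : c = x⁻¹ * y⁻¹ * x * y) (hcx : Commute c x) (hcy : Commute c y) : Eig r k a (i + j) c := by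
  obtain ⟨N1, h1⟩ := H.tors x
  obtain ⟨N2, h2⟩ := H.tors y
  obtain ⟨N3, h3⟩ := H.tors c
  obtain ⟨M, hM⟩ : ∃ M, M = max N1 (max N2 N3) := ⟨_, rfl⟩
  have up : ∀ (g : X) (N : ℕ), N ≤ M → g ^ (r ^ N) = 1 → g ^ (r ^ M) = 1 := by
    intro g N hN hg
    obtain ⟨d, hd⟩ := pow_dvd_pow r hN
    rw [hd, pow_mul, hg, one_pow]
  have h1' := up x N1 (hM ▸ le_max_left _ _) h1
  have h2' := up y N2 (hM ▸ (le_max_left _ _).trans (le_max_right _ _)) h2
  have h3' := up c N3 (hM ▸ (le_max_right _ _).trans (le_max_right _ _)) h3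
  refine ⟨M, h3', ?_⟩
  have h4 : a c = (x ^ (k ^ (i * r ^ M)))⁻¹ * (y ^ (k ^ (j * r ^ M)))⁻¹ *
      x ^ (k ^ (i * r ^ M)) * y ^ (k ^ (j * r ^ M)) := by
    rw [hc, map_mul, map_mul, map_mul, map_inv, map_inv, eig_at h hx h1', eig_at h hy h2']
  rw [h4, Pool.Agent.FRB.comm_pow_pow hc.symm hcx hcy, ← pow_add, ← add_mul]

private theorem fin_opp (h : Root p r k) {i j : ℕ} (hij : p ∣ i + j) (n : ℕ) :
    ∀ (X : Type u) [Group X] [Finite X] (a : MulAut X), Hyp p r a → Nat.card X = n →
      ∀ x y : X, Eig r k a i x → Eig r k a j y → Commute x y := by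
  induction n using Nat.strong_induction_on with
  | _ n ih =>
    intro X _ _ a H hcard x y hx hy
    rcases subsingleton_or_nontrivial X with hs | hs
    · exact Subsingleton.elim _ _
    have : Fact r.Prime := ⟨h.prime⟩
    have hp : IsPGroup r X := H.tors
    have hZ : Nontrivial (Subgroup.center X) := hp.center_nontrivial
    have hlt : Nat.card (X ⧸ Subgroup.center X) < n := by
      have h1 : Nat.card X = Nat.card (X ⧸ Subgroup.center X) * Nat.card (Subgroup.center X) :=
        Subgroup.card_eq_card_quotient_mul_card_subgroup _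
      have h2 : 1 < Nat.card (Subgroup.center X) := Finite.one_lt_card
      have h3 : 0 < Nat.card (X ⧸ Subgroup.center X) := Nat.card_pos
      rw [← hcard, h1]
      exact lt_mul_of_one_lt_right h3 h2
    have hq := ih _ hlt (X ⧸ Subgroup.center X)
      (qt H (Subgroup.center X) (Pool.Agent.FRB.inv_center a))
      (qt_hyp H _ (Pool.Agent.FRB.inv_center a)) rfl
      (x : X ⧸ Subgroup.center X) (y : X ⧸ Subgroup.center X)
      (qt_eig H _ (Pool.Agent.FRB.inv_center a) hx) (qt_eig H _ (Pool.Agent.FRB.inv_center a) hy)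
    obtain ⟨c, hc⟩ : ∃ c, c = x⁻¹ * y⁻¹ * x * y := ⟨_, rfl⟩
    have hcZ : c ∈ Subgroup.center X := by
      have h1 : ((y * x : X) : X ⧸ Subgroup.center X) = ((x * y : X) : X ⧸ Subgroup.center X) :=
        hq.eq.symm
      rw [QuotientGroup.eq] at h1
      have h2 : c = (y * x)⁻¹ * (x * y) := by
        rw [hc]
        group
      rw [h2]
      exact h1
    have hcom : ∀ g : X, Commute c g := fun g => (Subgroup.mem_center_iff.1 hcZ g).symm
    have hE := comm_eig h H hx hy hc (hcom x) (hcom y)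
    have hc1 := eig_triv h H hij hE
    rw [hc1] at hc
    change x * y = y * x
    have h10 : x * y = y * x * (x⁻¹ * y⁻¹ * x * y) := by group
    rw [h10, ← hc, mul_one]

theorem comm_opp (h : Root p r k) (H : Hyp p r a) {i j : ℕ} (hij : p ∣ i + j) {x y : X} (hx : Eig r k a i x)
    (hy : Eig r k a j y) : Commute x y := by
  have hS := inv_pair hx hy
  have hfin : Finite (Subgroup.closure ({x, y} : Set X)) := (H.two x y).to_subtype
  have hxm : x ∈ Subgroup.closure ({x, y} : Set X) := Subgroup.subset_closure (by simp)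
  have hym : y ∈ Subgroup.closure ({x, y} : Set X) := Subgroup.subset_closure (by simp)
  have h1 := fin_opp h hij _ (Subgroup.closure ({x, y} : Set X))
    (rs H (Subgroup.closure ({x, y} : Set X)) hS) (rs_hyp H _ hS) rfl ⟨x, hxm⟩ ⟨y, hym⟩
    ((rs_eig H _ hS).2 hx) ((rs_eig H _ hS).2 hy)
  exact congrArg Subtype.val h1.eq

end Pool.Agent.FRS
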