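import Pool.Agent.FRB.Rad

/-!
# FRS: binary finite Frobenius groups with complement of prime order `p ≥ 5` (definitions)

`r` is a prime with `r = 1 (mod p)`, `k` a primitive `p`-th root of unity modulo `r`; `X` is a group, all elements
have `r`-power order, `a` an automorphism of `X` with `a ^ p = 1`.  `Eig r k a i x` (`FRB/Defs`) means that
`a x` is the power `zeta ^ i` of `x`; we write `L_i` for the set of these elements.
-/

set_option autoImplicit false

namespace Pool.Agent.FRS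

open Pool.Agent.FRB (Inv Eig LF SS Lam)

universe u

/-- `k` is a primitive `p`-th root of unity modulo the prime `r`, `r = 1 (mod p)`. -/
structure Root (p r k : ℕ) : Prop where
  pp : p.Prime
  five : 5 ≤ p
  prime : r.Prime
  modp : r % p = 1
  powp : k ^ p ≡ 1 [MOD r]
  ne1 : ¬ k ≡ 1 [MOD r]

/-- The standing hypotheses on `X` and `a`. -/
structure Hyp (p r : ℕ) {X : Type*} [Group X] (a : MulAut X) : Prop where
  pos : 0 < p
  tors : ∀ x : X, ∃ n : ℕ, x ^ (r ^ n) = 1
  powp : a ^ p = 1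
  fpf : ∀ x : X, a x = x → x = 1
  two : ∀ x y : X, ((Subgroup.closure ({x, y} : Set X) : Subgroup X) : Set X).Finite
  orb : ∀ x : X, ((Subgroup.closure (Set.range fun n : ℕ => (a ^ n) x) : Subgroup X) : Set X).Finite

theorem inv_symm {p r : ℕ} {X : Type*} [Group X] {a : MulAut X} (H : Hyp p r a) {S : Subgroup X} (hS : Inv a S) :
    Inv a⁻¹ S := by
  have h1 : ∀ n : ℕ, ∀ x ∈ S, (a ^ n) x ∈ S := by
    intro n
    induction n with
    | zero => intro x hx; simpa using hx
    | succ n ih =>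
      intro x hx
      rw [pow_succ, MulAut.mul_apply]
      exact ih _ (hS x hx)
  have h2 : a⁻¹ = a ^ (p - 1) := by
    have h3 : a ^ (p - 1) * a = 1 := by
      rw [← pow_succ, Nat.sub_add_cancel H.pos, H.powp]
    exact (eq_inv_of_mul_eq_one_left h3).symm
  intro x hx
  rw [h2]
  exact h1 _ x hx

/-- The restriction of `a` to an invariant subgroup. -/
def rs {p r : ℕ} {X : Type*} [Group X] {a : MulAut X} (H : Hyp p r a) (S : Subgroup X) (hS : Inv a S) : MulAut S where
  toFun x := ⟨a x, hS x x.2⟩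
  invFun x := ⟨a⁻¹ x, inv_symm H hS x x.2⟩
  left_inv x := Subtype.ext (by simp)
  right_inv x := Subtype.ext (by simp)
  map_mul' x y := Subtype.ext (map_mul a (x : X) (y : X))

/-- The automorphism induced by `a` on a quotient by an invariant normal subgroup. -/
def qt {p r : ℕ} {X : Type*} [Group X] {a : MulAut X} (H : Hyp p r a) (N : Subgroup X) [N.Normal] (hN : Inv a N) :
    MulAut (X ⧸ N) :=
  MonoidHom.toMulEquiv
    (QuotientGroup.map N N (a : X →* X) (fun x hx => hN x hx))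
    (QuotientGroup.map N N ((a⁻¹ : MulAut X) : X →* X) (fun x hx => inv_symm H hN x hx))
    (by
      ext x
      exact congrArg (QuotientGroup.mk (s := N)) (MulAut.inv_apply_self X a x))
    (by
      ext x
      exact congrArg (QuotientGroup.mk (s := N)) (MulAut.apply_inv_self X a x))

/-- The subgroup generated by the conjugates of `c` under the powers of `u`. -/
def Cj {X : Type*} [Group X] (c u : X) : Subgroup X := Subgroup.closure {x | ∃ t : ℤ, x = u ^ (-t) * c * u ^ t}

/-- The subgroup generated by the `r`-th powers and the commutators of `V`. -/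
def Fr (r : ℕ) {X : Type*} [Group X] (V : Subgroup X) : Subgroup X :=
  Subgroup.closure ({x | ∃ v ∈ V, x = v ^ r} ∪ {x | ∃ v ∈ V, ∃ w ∈ V, x = v⁻¹ * w⁻¹ * v * w})

/-- The chain `V, Fr V [V,u], Fr V [V,u,u], ...`. -/
def Ch (r : ℕ) {X : Type*} [Group X] (V : Subgroup X) (u : X) : ℕ → Subgroup X
  | 0 => V
  | l + 1 => Fr r V ⊔ Subgroup.closure {x | ∃ v ∈ Ch r V u l, x = v⁻¹ * u⁻¹ * v * u}

/-- The lower central series `V, [V,V], [V,V,V], ...` of a subgroup. -/
def gm {X : Type*} [Group X] (V : Subgroup X) : ℕ → Subgroup X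
  | 0 => V
  | l + 1 => Subgroup.closure {x | ∃ v ∈ gm V l, ∃ w ∈ V, x = v⁻¹ * w⁻¹ * v * w}

/-- `c` has degree `i`, `u` has degree `j`: the subgroup `V = Cj c u` is generated by the eigen-elements
`e 0 = c, e 1, ..., e n` of degrees `i, i + j, ..., i + n j`. -/
structure Str (r k : ℕ) {X : Type*} [Group X] (a : MulAut X) (i j : ℕ) (c u : X) (n : ℕ) (e : ℕ → X) : Prop where
  zero : e 0 = c
  eig : ∀ l ≤ n, Eig r k a (i + l * j) (e l)
  mem : ∀ l ≤ n, e l ∈ Cj c u
  gen : Cj c u = Subgroup.closure {x | ∃ l ≤ n, x = e l}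
  gent : Cj c u = Subgroup.closure {x | ∃ t : ℕ, t ≤ n ∧ x = u ^ (-(t : ℤ)) * c * u ^ (t : ℤ)}
  ncomm : ∀ l < n, ¬ Commute (e l) u
  ne : ∀ l ≤ n, 1 ≤ l → e l ≠ 1
  last : 1 ≤ n → ∃ f ∈ Fr r (Cj c u), e n = (e (n - 1))⁻¹ * (u⁻¹ * e (n - 1) * u) * f
  idx : ∀ N : Subgroup X, Fr r (Cj c u) ≤ N → N ≤ Cj c u → (∀ x ∈ N, u⁻¹ * x * u ∈ N) →
    ∀ m < n, N.relIndex (Cj c u) ≤ r ^ (m + 1) → e n ∈ N

/-- The chain form of `Str`, from which `Str` follows. -/
structure StC (r k : ℕ) {X : Type*} [Group X] (a : MulAut X) (i j : ℕ) (c u : X) (n : ℕ) (e : ℕ → X) : Prop where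
  zero : e 0 = c
  eig : ∀ l ≤ n, Eig r k a (i + l * j) (e l)
  mem : ∀ l ≤ n, e l ∈ Ch r (Cj c u) u l
  up : ∀ l ≤ n, Ch r (Cj c u) u l ≤ Subgroup.zpowers (e l) ⊔ Ch r (Cj c u) u (l + 1)
  bot : Ch r (Cj c u) u (n + 1) ≤ Fr r (Cj c u)
  nbot : ∀ l ≤ n, 1 ≤ l → ¬ Ch r (Cj c u) u l ≤ Fr r (Cj c u)
  nxt : ∀ l < n, ∃ f ∈ Ch r (Cj c u) u (l + 2), (e l)⁻¹ * (u⁻¹ * e l * u) = e (l + 1) * f

/-- `x` has degree `i` and commutes with all eigen-elements of degrees `l ∈ K`. -/
def Ty (r k : ℕ) {X : Type*} [Group X] (a : MulAut X) (K : Finset ℕ) (i : ℕ) (x : X) : Prop :=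
  Eig r k a i x ∧ ∀ l ∈ K, ∀ y : X, Eig r k a l y → Commute x y

/-- only the trivial element has type `(K, i)` -/
def Tr (r k : ℕ) {X : Type*} [Group X] (a : MulAut X) (K : Finset ℕ) (i : ℕ) : Prop :=
  ∀ x : X, Ty r k a K i x → x = 1

/-- there is a nontrivial element of type `(K, i)` -/
def Nt (r k : ℕ) {X : Type*} [Group X] (a : MulAut X) (K : Finset ℕ) (i : ℕ) : Prop :=
  ∃ x : X, x ≠ 1 ∧ Ty r k a K i x

/-- elements of type `(K, i)` commute with eigen-elements of degree `j` -/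
def Cm (r k : ℕ) {X : Type*} [Group X] (a : MulAut X) (K : Finset ℕ) (i j : ℕ) : Prop :=
  ∀ x : X, Ty r k a K i x → ∀ u : X, Eig r k a j u → Commute x u

/-- for `c` of type `(K, i)` and `u` of degree `j` the subgroup `Cj c u` commutes with `L_q` -/
def VC (r k : ℕ) {X : Type*} [Group X] (a : MulAut X) (K : Finset ℕ) (i j q : ℕ) : Prop :=
  ∀ c : X, Ty r k a K i c → ∀ u : X, Eig r k a j u → ∀ w : X, Eig r k a q w → ∀ x ∈ Cj c u, Commute x w

/-- for `c` of type `(K, i)` and `u` of degree `j` the length of every string is at most `m` -/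
def Len (r k : ℕ) {X : Type*} [Group X] (a : MulAut X) (K : Finset ℕ) (i j m : ℕ) : Prop :=
  ∀ c : X, Ty r k a K i c → ∀ u : X, Eig r k a j u → ∀ (n : ℕ) (e : ℕ → X), Str r k a i j c u n e → n ≤ m

/-- `X` is prime: no nontrivial locally finite normal invariant subgroup, and of two commuting normal invariant
subgroups one is trivial. -/
structure Prm {X : Type*} [Group X] (a : MulAut X) : Prop where
  ss : SS a (⊤ : Subgroup X)
  prime : ∀ M N : Subgroup X, M.Normal → N.Normal → Inv a M → Inv a N → (∀ x ∈ M, ∀ y ∈ N, Commute x y) →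
    M = ⊥ ∨ N = ⊥

/-- the context of the rules -/
structure Ct (p r k : ℕ) {X : Type*} [Group X] (a : MulAut X) : Prop where
  root : Root p r k
  hyp : Hyp p r a
  prm : Prm a

/-- products of eigen-elements of `S` of prescribed degrees, in the prescribed order -/
def Pr (r k : ℕ) {X : Type*} [Group X] (a : MulAut X) (S : Subgroup X) : List ℕ → X → Prop
  | [], g => g = 1
  | i :: l, g => ∃ x y : X, x ∈ S ∧ Eig r k a i x ∧ Pr r k a S l y ∧ g = x * y

/-- `g` lies in the subgroup generated by the elements whose type is in the list `A` (a type is a pair `(i, K)`) -/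
def Cov (r k : ℕ) {X : Type*} [Group X] (a : MulAut X) (A : List (ℕ × Finset ℕ)) (g : X) : Prop :=
  g ∈ Subgroup.closure {x : X | ∃ σ ∈ A, Ty r k a σ.2 σ.1 x}

/-- conjugates of elements of type `σ` by eigen-elements of degree `d` are covered by `B` -/
def Stp1 (r k : ℕ) {X : Type*} [Group X] (a : MulAut X) (σ : ℕ × Finset ℕ) (d : ℕ) (B : List (ℕ × Finset ℕ)) : Prop :=
  ∀ c : X, Ty r k a σ.2 σ.1 c → ∀ u : X, Eig r k a d u → Cov r k a B (u⁻¹ * c * u)

/-- `Stp1` for all types in `A` -/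
def Stp (r k : ℕ) {X : Type*} [Group X] (a : MulAut X) (A : List (ℕ × Finset ℕ)) (d : ℕ)
    (B : List (ℕ × Finset ℕ)) : Prop := ∀ σ ∈ A, Stp1 r k a σ d B

/-- a chain of steps -/
def Chn (r k : ℕ) {X : Type*} [Group X] (a : MulAut X) (A : List (ℕ × Finset ℕ)) : List ℕ → List (ℕ × Finset ℕ) → Prop
  | [], B => A = B
  | d :: D, B => ∃ A' : List (ℕ × Finset ℕ), Stp r k a A d A' ∧ Chn r k a A' D B

/-- all elements of types `σ` and `τ` commute -/
def Cc (r k : ℕ) {X : Type*} [Group X] (a : MulAut X) (σ τ : ℕ × Finset ℕ) : Prop :=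
  ∀ x y : X, Ty r k a σ.2 σ.1 x → Ty r k a τ.2 τ.1 y → Commute x y

/-- The statement that the case of semisimple groups is settled: an element of degree 1 commuting with all
eigen-elements of some degree `j`, `2 ≤ j ≤ p - 2`, is trivial. -/
def S2 (p : ℕ) : Prop :=
  ∀ (r k : ℕ) (X : Type u) [Group X] (a : MulAut X), Root p r k → Hyp p r a → SS a (⊤ : Subgroup X) →
    ∀ j : ℕ, 2 ≤ j → j + 2 ≤ p → Tr r k a {j} 1

/-- the subgroup generated by the eigen-elements of degrees `1` and `-1` -/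
def Bb (p r k : ℕ) {X : Type*} [Group X] (a : MulAut X) : Subgroup X :=
  Subgroup.closure {x | Eig r k a 1 x ∨ Eig r k a (p - 1) x}

end Pool.Agent.FRS
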