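import Pool.Agent.FRS.Quo
import Pool.Agent.FRS.Sub

/-!
# FRS/Dir: in abelian sections the eigenspaces are independent

`dir_comm`: `A` a commutative group, `α : A →* A`, `T t x = (α^[t]) x`.  With `E i = k^(i r^M)` and `p f = 1 (mod r^M)`
the homomorphism `π x = (prod_{t<p} (α^[t] x) ^ (E ((p - t) * s)))^f` satisfies: if `x^(r^M) = 1` and `α x = x^(E d)` then
`π x = x ^ (f * sum_{t<p} E (t d + (p - t) s))`, which is `1` if `d ≢ s (mod p)` (`sum_root`, `congr_p`) and `x` if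
`d ≡ s`.

`dir`: work in the group `C`, its normal invariant subgroup `E.subgroupOf C`, and the quotient `A`, which is commutative
by `hcom`.  All elements of the finite set of factors involved in the membership `e ∈ closure (...)` have order
dividing `r^M` for one `M` (or: prove by closure induction the statement that for every `x` in the closure there is `M₀`
such that for all `M ≥ M₀` the projection `π_M` kills the image of `x`).  The image of `e` is fixed by `π` and killed by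
`π`, so `e ∈ E`.
-/

set_option autoImplicit false

namespace Pool.Agent.FRS

open Pool.Agent.FRB (Inv Eig LF SS Lam)

universe u

variable {p r k : ℕ} {X : Type u} [Group X] {a : MulAut X}

private theorem pw {A : Type*} [Monoid A] {y : A} {n s t : ℕ} (hy : y ^ n = 1) (h : s ≡ t [MOD n]) :
    y ^ s = y ^ t := by
  rw [pow_eq_pow_mod s hy, pow_eq_pow_mod t hy, h]

private theorem aut_pow {A : Type*} [CommGroup A] {b : MulAut A} (h : Root p r k) {d M : ℕ} {x : A}
    (hM : x ^ (r ^ M) = 1) (hb : b x = x ^ (k ^ (d * r ^ M))) (t : ℕ) :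
    (b ^ t) x = x ^ (k ^ (t * d * r ^ M)) := by
  induction t with
  | zero => simp
  | succ t ih =>
    rw [pow_succ', MulAut.mul_apply, ih, map_pow, hb, ← pow_mul, ← pow_add]
    congr 2
    ring

private theorem proj_pow {A : Type*} [CommGroup A] {b : MulAut A} (h : Root p r k) {d s M : ℕ} {x : A}
    (hM : x ^ (r ^ M) = 1) (hb : b x = x ^ (k ^ (d * r ^ M))) :
    ∏ t ∈ Finset.range p, ((b ^ t) x) ^ (k ^ ((p - t) * s * r ^ M)) =
      x ^ (∑ t ∈ Finset.range p, k ^ ((t * d + (p - t) * s) * r ^ M)) := by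
  rw [← Finset.prod_pow_eq_pow_sum]
  refine Finset.prod_congr rfl fun t _ => ?_
  rw [aut_pow h hM hb t, ← pow_mul, ← pow_add, ← Nat.add_mul]

private theorem proj_kill {A : Type*} [CommGroup A] {b : MulAut A} (h : Root p r k) {s : ℕ} {x : A}
    (hx : x ∈ Subgroup.closure {x : A | ∃ d, ¬ d ≡ s [MOD p] ∧ Eig r k b d x}) :
    ∃ M₀, ∀ M, M₀ ≤ M → x ^ (r ^ M) = 1 ∧
      ∏ t ∈ Finset.range p, ((b ^ t) x) ^ (k ^ ((p - t) * s * r ^ M)) = 1 := by
  have hp0 : 0 < p := h.pp.pos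
  induction hx using Subgroup.closure_induction with
  | mem x hx =>
    obtain ⟨d, hd, hxe⟩ := hx
    obtain ⟨M₀, hM₀, -⟩ := id hxe
    refine ⟨M₀, fun M hM => ?_⟩
    have h1 : x ^ (r ^ M) = 1 := by
      obtain ⟨c, rfl⟩ := Nat.exists_eq_add_of_le hM
      rw [pow_add, pow_mul, hM₀, one_pow]
    refine ⟨h1, ?_⟩
    rw [proj_pow h h1 (eig_at h hxe h1)]
    have h2 : ¬ p ∣ d + (p - 1) * s := by
      intro h3
      apply hd
      have h4 : d + (p - 1) * s ≡ 0 [MOD p] := (Nat.modEq_zero_iff_dvd).2 h3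
      have h5 : d + (p - 1) * s + s ≡ 0 + s [MOD p] := h4.add_right s
      have h6 : d + (p - 1) * s + s = d + p * s := by
        obtain ⟨q, hq⟩ : ∃ q, p = q + 1 := ⟨p - 1, by omega⟩
        rw [hq, Nat.add_sub_cancel]
        ring
      rw [h6, Nat.zero_add] at h5
      have h7 : d + p * s ≡ d + 0 [MOD p] :=
        Nat.ModEq.add_left d ((Nat.modEq_zero_iff_dvd).2 (dvd_mul_right p s))
      rw [Nat.add_zero] at h7
      exact h7.symm.trans h5
    have h3 : (∑ t ∈ Finset.range p, k ^ ((t * d + (p - t) * s) * r ^ M)) ≡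
        ∑ t ∈ Finset.range p, k ^ ((d + (p - 1) * s) * t * r ^ M) [MOD r ^ M] := by
      refine Nat.ModEq.sum fun t ht => ?_
      refine (h.congr_p (i := t * d + (p - t) * s) (j := (d + (p - 1) * s) * t) ?_ M).of_dvd
        (pow_dvd_pow r (Nat.le_succ M))
      have h4 : (d + (p - 1) * s) * t + p * s = t * d + (p - t) * s + p * (s * t) := by
        have h5 := Finset.mem_range.1 ht
        obtain ⟨q, hq⟩ : ∃ q, p = q + t := ⟨p - t, by omega⟩
        rcases Nat.eq_zero_or_pos t with rfl | ht0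
        · simp
        · have h6 : q + t - 1 = q + (t - 1) := by omega
          have h7 : t = (t - 1) + 1 := by omega
          rw [hq, Nat.add_sub_cancel, h6]
          obtain ⟨v, rfl⟩ : ∃ v, t = v + 1 := ⟨t - 1, h7⟩
          rw [Nat.add_sub_cancel]
          ring
      have h5 : (d + (p - 1) * s) * t + p * s ≡ (d + (p - 1) * s) * t + 0 [MOD p] :=
        Nat.ModEq.add_left _ ((Nat.modEq_zero_iff_dvd).2 (dvd_mul_right p s))
      have h6 : t * d + (p - t) * s + p * (s * t) ≡ t * d + (p - t) * s + 0 [MOD p] :=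
        Nat.ModEq.add_left _ ((Nat.modEq_zero_iff_dvd).2 (dvd_mul_right p (s * t)))
      rw [Nat.add_zero] at h5 h6
      rw [h4] at h5
      exact h6.symm.trans h5
    rw [pw h1 (h3.trans (sum_root h M h2)), pow_zero]
  | one =>
    refine ⟨0, fun M _ => ⟨one_pow _, ?_⟩⟩
    refine Finset.prod_eq_one fun t _ => ?_
    rw [map_one, one_pow]
  | mul x y _ _ hx hy =>
    obtain ⟨M₁, h1⟩ := hx
    obtain ⟨M₂, h2⟩ := hy
    refine ⟨max M₁ M₂, fun M hM => ?_⟩
    obtain ⟨a1, a2⟩ := h1 M (le_trans (le_max_left _ _) hM)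
    obtain ⟨b1, b2⟩ := h2 M (le_trans (le_max_right _ _) hM)
    refine ⟨by rw [mul_pow, a1, b1, one_mul], ?_⟩
    have h3 : ∏ t ∈ Finset.range p, ((b ^ t) (x * y)) ^ (k ^ ((p - t) * s * r ^ M)) =
        (∏ t ∈ Finset.range p, ((b ^ t) x) ^ (k ^ ((p - t) * s * r ^ M))) *
          ∏ t ∈ Finset.range p, ((b ^ t) y) ^ (k ^ ((p - t) * s * r ^ M)) := by
      rw [← Finset.prod_mul_distrib]
      refine Finset.prod_congr rfl fun t _ => ?_
      rw [map_mul, mul_pow]
    rw [h3, a2, b2, one_mul]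
  | inv x _ hx =>
    obtain ⟨M₁, h1⟩ := hx
    refine ⟨M₁, fun M hM => ?_⟩
    obtain ⟨a1, a2⟩ := h1 M hM
    refine ⟨by rw [inv_pow, a1, inv_one], ?_⟩
    have h3 : ∏ t ∈ Finset.range p, ((b ^ t) x⁻¹) ^ (k ^ ((p - t) * s * r ^ M)) =
        (∏ t ∈ Finset.range p, ((b ^ t) x) ^ (k ^ ((p - t) * s * r ^ M)))⁻¹ := by
      rw [← Finset.prod_inv_distrib]
      refine Finset.prod_congr rfl fun t _ => ?_
      rw [map_inv, inv_pow]
    rw [h3, a2, inv_one]

private theorem comm_case {A : Type*} [CommGroup A] {b : MulAut A} (h : Root p r k) {s : ℕ} {x : A}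
    (hxs : Eig r k b s x)
    (hx : x ∈ Subgroup.closure {x : A | ∃ d, ¬ d ≡ s [MOD p] ∧ Eig r k b d x}) : x = 1 := by
  obtain ⟨M, hM⟩ := proj_kill h hx
  obtain ⟨h1, h2⟩ := hM M (le_refl M)
  rw [proj_pow h h1 (eig_at h hxs h1)] at h2
  have h3 : (∑ t ∈ Finset.range p, k ^ ((t * s + (p - t) * s) * r ^ M)) ≡
      ∑ t ∈ Finset.range p, 1 [MOD r ^ M] := by
    refine Nat.ModEq.sum fun t ht => ?_
    have h4 : t * s + (p - t) * s = p * s := by
      have h5 := Finset.mem_range.1 ht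
      rw [← Nat.add_mul]
      congr 1
      omega
    rw [h4]
    have h5 := h.congr_p (i := p * s) (j := 0) ((Nat.modEq_zero_iff_dvd).2 (dvd_mul_right p s)) M
    rw [Nat.zero_mul, pow_zero] at h5
    exact h5.of_dvd (pow_dvd_pow r (Nat.le_succ M))
  rw [Finset.sum_const, Finset.card_range, smul_eq_mul, mul_one] at h3
  rw [pw h1 h3] at h2
  have h4 : orderOf x ∣ p := orderOf_dvd_of_pow_eq_one h2
  have h5 : orderOf x ∣ r ^ M := orderOf_dvd_of_pow_eq_one h1
  have h6 : Nat.Coprime p (r ^ M) := h.cop_p.pow_right M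
  have h7 : orderOf x ∣ 1 := by
    have := Nat.dvd_gcd h4 h5
    rwa [h6] at this
  exact orderOf_eq_one_iff.1 (Nat.dvd_one.1 h7)

theorem dir (h : Root p r k) (H : Hyp p r a) {C E : Subgroup X} (hC : Inv a C) (hE : Inv a E) (hEC : E ≤ C)
    (hcom : ∀ x ∈ C, ∀ y ∈ C, x⁻¹ * y⁻¹ * x * y ∈ E) {s : ℕ} {e : X} (he : Eig r k a s e) (heC : e ∈ C)
    (hcl : e ∈ Subgroup.closure ((E : Set X) ∪ {x | x ∈ C ∧ ∃ d, ¬ d ≡ s [MOD p] ∧ Eig r k a d x})) : e ∈ E := by
  have hN : (E.subgroupOf C).Normal := by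
    refine ⟨fun n hn g => ?_⟩
    rw [Subgroup.mem_subgroupOf] at hn ⊢
    have h1 := hcom (n : X) n.2 ((g : X)⁻¹) (C.inv_mem g.2)
    have h2 := E.mul_mem hn h1
    rw [inv_inv] at h2
    have h3 : (n : X) * ((n : X)⁻¹ * (g : X) * (n : X) * (g : X)⁻¹) = ((g * n * g⁻¹ : C) : X) := by
      rw [Subgroup.coe_mul, Subgroup.coe_mul, Subgroup.coe_inv]
      group
    rwa [h3] at h2
  have hEi : Inv (rs H C hC) (E.subgroupOf C) := inv_subgroupOf H C hC hE
  have HC := rs_hyp H C hC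
  have hcomm : ∀ x y : C ⧸ E.subgroupOf C, x * y = y * x := by
    intro x y
    induction x using QuotientGroup.induction_on with
    | H x =>
      induction y using QuotientGroup.induction_on with
      | H y =>
        rw [← QuotientGroup.mk_mul, ← QuotientGroup.mk_mul, QuotientGroup.eq, Subgroup.mem_subgroupOf]
        have h1 := hcom (y : X) y.2 (x : X) x.2
        have h2 : (((x * y)⁻¹ * (y * x) : C) : X) = (y : X)⁻¹ * (x : X)⁻¹ * (y : X) * (x : X) := by
          rw [Subgroup.coe_mul, Subgroup.coe_inv, Subgroup.coe_mul, Subgroup.coe_mul]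
          group
        rwa [h2]
  let _ : CommGroup (C ⧸ E.subgroupOf C) :=
    { (inferInstance : Group (C ⧸ E.subgroupOf C)) with mul_comm := hcomm }
  have h1 : Eig r k (qt HC (E.subgroupOf C) hEi) s (((⟨e, heC⟩ : C) : C ⧸ E.subgroupOf C)) :=
    qt_eig HC (E.subgroupOf C) hEi ((rs_eig H C hC).2 he)
  have h2 : ∀ (x : X) (hxc : x ∈ Subgroup.closure ((E : Set X) ∪
      {x | x ∈ C ∧ ∃ d, ¬ d ≡ s [MOD p] ∧ Eig r k a d x})),
      ∃ hx : x ∈ C, ((⟨x, hx⟩ : C) : C ⧸ E.subgroupOf C) ∈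
        Subgroup.closure {x : C ⧸ E.subgroupOf C | ∃ d, ¬ d ≡ s [MOD p] ∧
          Eig r k (qt HC (E.subgroupOf C) hEi) d x} := by
    intro x hxc
    induction hxc using Subgroup.closure_induction with
    | mem x hx =>
      rcases hx with hx | ⟨hx, d, hd, hxe⟩
      · refine ⟨hEC hx, ?_⟩
        have h3 : ((⟨x, hEC hx⟩ : C) : C ⧸ E.subgroupOf C) = 1 := by
          rw [QuotientGroup.eq_one_iff, Subgroup.mem_subgroupOf]
          exact hx
        rw [h3]
        exact one_mem _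
      · refine ⟨hx, Subgroup.subset_closure ⟨d, hd, ?_⟩⟩
        exact qt_eig HC (E.subgroupOf C) hEi ((rs_eig H C hC).2 hxe)
    | one => exact ⟨C.one_mem, one_mem _⟩
    | mul x y _ _ hx hy =>
      obtain ⟨hx1, hx2⟩ := hx
      obtain ⟨hy1, hy2⟩ := hy
      exact ⟨C.mul_mem hx1 hy1, mul_mem hx2 hy2⟩
    | inv x _ hx =>
      obtain ⟨hx1, hx2⟩ := hx
      exact ⟨C.inv_mem hx1, inv_mem hx2⟩
  obtain ⟨hc', h3⟩ := h2 e hcl
  have h4 := comm_case h h1 h3
  rw [QuotientGroup.eq_one_iff, Subgroup.mem_subgroupOf] at h4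
  exact h4

end Pool.Agent.FRS
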