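import Pool.Agent.FRS.Num

/-!
# FRS/EigB: elementary properties of eigen-elements
-/

set_option autoImplicit false

namespace Pool.Agent.FRS

open Pool.Agent.FRB (Inv Eig LF SS Lam)

variable {p r k : ℕ} {X : Type*} [Group X] {a : MulAut X}

private theorem eb_pw {x : X} {N u v : ℕ} (hx : x ^ (r ^ N) = 1) (huv : u ≡ v [MOD r ^ (N + 1)]) :
    x ^ u = x ^ v := by
  rw [pow_eq_pow_iff_modEq]
  exact huv.of_dvd ((orderOf_dvd_of_pow_eq_one hx).trans (pow_dvd_pow r (Nat.le_succ N)))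

private theorem eb_up {x : X} {N M : ℕ} (hN : x ^ (r ^ N) = 1) (hle : N ≤ M) : x ^ (r ^ M) = 1 := by
  obtain ⟨d, rfl⟩ := Nat.exists_eq_add_of_le hle
  rw [pow_add, pow_mul, hN, one_pow]

theorem eig_at (h : Root p r k) {i : ℕ} {x : X} (hx : Eig r k a i x) {M : ℕ} (hM : x ^ (r ^ M) = 1) :
    a x = x ^ (k ^ (i * r ^ M)) := by
  obtain ⟨N, hN, hx⟩ := hx
  rw [hx]
  rcases le_total N M with hle | hle
  · exact (eb_pw hN (h.stable hle i)).symm
  · exact eb_pw hM (h.stable hle i)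

theorem eig_one (r k : ℕ) (a : MulAut X) (i : ℕ) : Eig r k a i (1 : X) := by
  exact ⟨0, one_pow _, by rw [map_one, one_pow]⟩

theorem eig_pow (h : Root p r k) {i : ℕ} {x : X} (hx : Eig r k a i x) (n : ℕ) : Eig r k a i (x ^ n) := by
  obtain ⟨N, hN, hx⟩ := hx
  refine ⟨N, ?_, ?_⟩
  · rw [← pow_mul, mul_comm, pow_mul, hN, one_pow]
  · rw [map_pow, hx, ← pow_mul, ← pow_mul, mul_comm]

theorem eig_inv (h : Root p r k) {i : ℕ} {x : X} (hx : Eig r k a i x) : Eig r k a i x⁻¹ := by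
  obtain ⟨N, hN, hx⟩ := hx
  refine ⟨N, ?_, ?_⟩
  · rw [inv_pow, hN, inv_one]
  · rw [map_inv, hx, inv_pow]

theorem eig_zpow (h : Root p r k) {i : ℕ} {x : X} (hx : Eig r k a i x) (n : ℤ) : Eig r k a i (x ^ n) := by
  obtain ⟨m, rfl | rfl⟩ := n.eq_nat_or_neg
  · rw [zpow_natCast]
    exact eig_pow h hx m
  · rw [zpow_neg, zpow_natCast]
    exact eig_inv h (eig_pow h hx m)

theorem eig_mul (h : Root p r k) {i : ℕ} {x y : X} (hx : Eig r k a i x) (hy : Eig r k a i y)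
    (hxy : Commute x y) : Eig r k a i (x * y) := by
  obtain ⟨N, hN, hx'⟩ := id hx
  obtain ⟨M, hM, hy'⟩ := id hy
  have h1 : x ^ (r ^ max N M) = 1 := eb_up hN (le_max_left _ _)
  have h2 : y ^ (r ^ max N M) = 1 := eb_up hM (le_max_right _ _)
  refine ⟨max N M, ?_, ?_⟩
  · rw [hxy.mul_pow, h1, h2, one_mul]
  · rw [map_mul, eig_at h hx h1, eig_at h hy h2, hxy.mul_pow]

theorem eig_app (h : Root p r k) {i : ℕ} {x : X} (hx : Eig r k a i x) : Eig r k a i (a x) := by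
  obtain ⟨N, _, hx'⟩ := id hx
  rw [hx']
  exact eig_pow h hx _

theorem eig_congr (h : Root p r k) {i j : ℕ} {x : X} (hij : i ≡ j [MOD p]) (hx : Eig r k a i x) :
    Eig r k a j x := by
  obtain ⟨N, hN, hx'⟩ := hx
  refine ⟨N, hN, ?_⟩
  rw [hx']
  exact eb_pw hN (h.congr_p hij N)

theorem eig_triv (h : Root p r k) (H : Hyp p r a) {i : ℕ} {x : X} (hi : p ∣ i) (hx : Eig r k a i x) : x = 1 := by
  have h0 : i ≡ 0 [MOD p] := (Nat.modEq_zero_iff_dvd).2 hi
  obtain ⟨N, _, hx'⟩ := eig_congr h h0 hx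
  refine H.fpf x ?_
  rw [hx', zero_mul, pow_zero, pow_one]

theorem eig_disj (h : Root p r k) {i j : ℕ} {x : X} (hij : ¬ i ≡ j [MOD p]) (hi : Eig r k a i x)
    (hj : Eig r k a j x) : x = 1 := by
  obtain ⟨N, hN, _⟩ := id hi
  have h1 : x ^ (k ^ (i * r ^ N)) = x ^ (k ^ (j * r ^ N)) := by
    rw [← eig_at h hi hN, ← eig_at h hj hN]
  have h2 : x ^ ((k : ℤ) ^ (i * r ^ N) - (k : ℤ) ^ (j * r ^ N)) = 1 := by
    rw [zpow_sub, mul_inv_eq_one]
    have e1 : x ^ ((k : ℤ) ^ (i * r ^ N)) = x ^ (k ^ (i * r ^ N)) := by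
      rw [← zpow_natCast, Nat.cast_pow]
    have e2 : x ^ ((k : ℤ) ^ (j * r ^ N)) = x ^ (k ^ (j * r ^ N)) := by
      rw [← zpow_natCast, Nat.cast_pow]
    rw [e1, e2, h1]
  have h3 : x ^ ((r : ℤ) ^ N) = 1 := by
    rw [← Nat.cast_pow, zpow_natCast, hN]
  obtain ⟨u, v, huv⟩ := (h.cop hij N).pow_right (n := N)
  calc x = x ^ (1 : ℤ) := (zpow_one x).symm
    _ = x ^ (u * ((k : ℤ) ^ (i * r ^ N) - (k : ℤ) ^ (j * r ^ N)) + v * (r : ℤ) ^ N) := by rw [huv]
    _ = 1 := by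
      rw [zpow_add, mul_comm u, mul_comm v, zpow_mul, zpow_mul, h2, h3, one_zpow, one_zpow, one_mul]

theorem eig_mem {i : ℕ} {x : X} (hx : Eig r k a i x) : a x ∈ Subgroup.zpowers x := by
  obtain ⟨N, _, hx'⟩ := hx
  rw [hx']
  exact Subgroup.pow_mem _ (Subgroup.mem_zpowers x) _

theorem eig_mem' (h : Root p r k) {i : ℕ} {x : X} (hx : Eig r k a i x) : x ∈ Subgroup.zpowers (a x) := by
  obtain ⟨N, hN, hx'⟩ := hx
  rw [hx']
  have h1 : Nat.Coprime (k ^ (i * r ^ N)) (r ^ N) :=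
    Nat.Coprime.pow _ _ h.cop_k
  have h2 : Nat.Coprime (k ^ (i * r ^ N)) (orderOf x) :=
    h1.coprime_dvd_right (orderOf_dvd_of_pow_eq_one hN)
  obtain ⟨m, hm⟩ := exists_pow_eq_self_of_coprime h2
  rw [Subgroup.mem_zpowers_iff]
  exact ⟨m, by rw [zpow_natCast, hm]⟩

theorem cent_app (h : Root p r k) {i : ℕ} {c x : X} (hc : Eig r k a i c) (hx : Commute c x) : Commute c (a x) := by
  obtain ⟨m, hm⟩ := Subgroup.mem_zpowers_iff.1 (eig_mem' h hc)
  have h1 : Commute (a c) (a x) := by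
    show a c * a x = a x * a c
    rw [← map_mul, ← map_mul, hx.eq]
  rw [← hm]
  exact h1.zpow_left m

theorem inv_cent (h : Root p r k) {i : ℕ} {c : X} (hc : Eig r k a i c) {V : Subgroup X} (hV : Inv a V) :
    Inv a (V ⊓ Subgroup.centralizer ({c} : Set X)) := by
  intro x hx
  rw [Subgroup.mem_inf, Subgroup.mem_centralizer_singleton_iff] at hx ⊢
  refine ⟨hV x hx.1, ?_⟩
  have h1 : Commute c x := hx.2.symm
  exact (cent_app h hc h1).symm.eq

theorem inv_pair {i j : ℕ} {x y : X} (hx : Eig r k a i x) (hy : Eig r k a j y) :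
    Inv a (Subgroup.closure ({x, y} : Set X)) := by
  refine FRB.inv_closure fun z hz => ?_
  rcases hz with rfl | hz
  · exact (Subgroup.zpowers_le.2 (Subgroup.subset_closure (Set.mem_insert _ _))) (eig_mem hx)
  · rw [Set.mem_singleton_iff] at hz
    subst hz
    exact (Subgroup.zpowers_le.2 (Subgroup.subset_closure
      (Set.mem_insert_of_mem _ (Set.mem_singleton _)))) (eig_mem hy)

theorem inv_zpowers {i : ℕ} {x : X} (hx : Eig r k a i x) : Inv a (Subgroup.zpowers x) := by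
  intro y hy
  obtain ⟨m, rfl⟩ := Subgroup.mem_zpowers_iff.1 hy
  rw [map_zpow]
  exact Subgroup.zpow_mem _ (eig_mem hx) m

theorem inv_orb (a : MulAut X) (x : X) : Inv a (Subgroup.closure (Set.range fun n : ℕ => (a ^ n) x)) := by
  refine FRB.inv_closure fun z hz => ?_
  obtain ⟨n, rfl⟩ := hz
  refine Subgroup.subset_closure ⟨n + 1, ?_⟩
  show (a ^ (n + 1)) x = a ((a ^ n) x)
  rw [pow_succ', MulAut.mul_apply]

theorem orb_le {S : Subgroup X} (hS : Inv a S) {x : X} (hx : x ∈ S) :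
    Subgroup.closure (Set.range fun n : ℕ => (a ^ n) x) ≤ S := by
  rw [Subgroup.closure_le]
  rintro z ⟨n, rfl⟩
  show (a ^ n) x ∈ S
  induction n with
  | zero => rw [pow_zero, MulAut.one_apply]; exact hx
  | succ n ih =>
    rw [pow_succ', MulAut.mul_apply]
    exact hS _ ih

theorem mem_orb (a : MulAut X) (x : X) : x ∈ Subgroup.closure (Set.range fun n : ℕ => (a ^ n) x) := by
  exact Subgroup.subset_closure ⟨0, by simp⟩

end Pool.Agent.FRS
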