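import Pool.Agent.FRS.RulA
import Pool.Agent.FRS.Dir

/-!
# FRS/FA: semisimple groups under `S2 p`: eigen-elements of the same degree commute

`fa_s2`: scaling of `S2`: choose the root `k^i` (`Root.pow`, `FRB.eig_root`); `x` has degree 1 for it.  Let `j'` be with
`i j' ≡ j (mod p)`, `j' < p` (`p` prime, `p ∤ i`); `j' ≠ 0, 1, p-1` by the hypotheses, so `2 ≤ j'`, `j' + 2 ≤ p`.

`fa_same`: if `p ∣ i` then `x = 1` (`eig_triv`).  Let `Str i i x y n e` (`str_exists`).  If `n ≥ 1`: `e 1 ≠ 1` has degree `i + i` and lies in `Cj x y`; it commutes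
with all `z` of degree `(p - 1) * i` (`comm_opp` for `x` and `y`, `cj_comm`).  `fa_s2` for `2 i` and `(p-1) i` gives
`e 1 = 1` (`p ∤ 2i`, `p ∤ (p-1) i`, `p ∤ 2 i + (p-1) i`, `2 i ≢ (p-1) i` because `p ∤ 3 i`), a contradiction.  So
`n = 0` and `cj_one` applies.

`bb_comm`: `L_1` and `L_(p-1)` consist of commuting elements (`fa_same`, `comm_opp`); closure of commuting generators.
`bb_dec`: in the commutative group `Bb` the products `x y`, `x ∈ L_1`, `y ∈ L_(p-1)` form a subgroup (`eig_mul`).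
`bb_inv`: `FRB.inv_closure`, `eig_mem`.
`bb_eig`: `b = x y` has degree `s`; the elements `b, x, y` commute.  If `s ≢ 1, p-1`: use `dir` or directly: apply
`a` and compare, e.g. `dir` with `C = Bb`, `E = ⊥`.  `bb_one`: if `b ∈ Bb` has degree `1` then clear, so nothing to do.
-/

set_option autoImplicit false

namespace Pool.Agent.FRS

open Pool.Agent.FRB (Inv Eig LF SS Lam)

universe u

variable {p r k : ℕ} {X : Type u} [Group X] {a : MulAut X}

theorem fa_s2 (hS2 : S2.{u} p) (h : Root p r k) (H : Hyp p r a) (hSS : SS a (⊤ : Subgroup X)) {i j : ℕ}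
    (hi : ¬ p ∣ i) (hj : ¬ p ∣ j) (hij : ¬ p ∣ i + j) (hne : ¬ i ≡ j [MOD p]) {x : X} (hx : Eig r k a i x)
    (hc : ∀ y : X, Eig r k a j y → Commute x y) : x = 1 := by
  obtain ⟨m, hm, hmm⟩ := Nat.exists_mul_mod_eq_of_coprime (k := p) (n := i) j
    ((h.pp.coprime_iff_not_dvd.2 hi).symm) h.pp.ne_zero
  have hmod : i * m ≡ j [MOD p] := hmm
  have h0 : m ≠ 0 := by
    rintro rfl
    rw [mul_zero] at hmod
    exact hj ((Nat.modEq_zero_iff_dvd).1 hmod.symm)
  have h1 : m ≠ 1 := by
    rintro rfl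
    rw [mul_one] at hmod
    exact hne hmod
  have h2 : m ≠ p - 1 := by
    rintro rfl
    have h3 : i * (p - 1) + i = i * p := by
      have := h.pp.one_lt
      rw [← Nat.mul_succ]
      congr 1
      omega
    have h4 : i * (p - 1) + i ≡ j + i [MOD p] := Nat.ModEq.add_right i hmod
    rw [h3] at h4
    have h5 : p ∣ j + i := (Nat.modEq_zero_iff_dvd).1 (h4.symm.trans ((Nat.modEq_zero_iff_dvd).2 (Dvd.intro_left i rfl)))
    exact hij (by rwa [add_comm] at h5)
  refine hS2 r (k ^ i) X a (h.pow hi) H hSS m (by omega) (by omega) x ⟨?_, ?_⟩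
  · rw [Pool.Agent.FRB.eig_root, mul_one]
    exact hx
  · intro l hl y hy
    rw [Finset.mem_singleton.1 hl, Pool.Agent.FRB.eig_root] at hy
    exact hc y (eig_congr h hmod hy)

theorem fa_same (hS2 : S2.{u} p) (h : Root p r k) (H : Hyp p r a) (hSS : SS a (⊤ : Subgroup X)) {i : ℕ} {x y : X}
    (hx : Eig r k a i x) (hy : Eig r k a i y) : Commute x y := by
  by_cases hi : p ∣ i
  · rw [eig_triv h H hi hx]
    exact Commute.one_left y
  obtain ⟨n, e, hS⟩ := str_exists h H hx hy
  rcases Nat.eq_zero_or_pos n with hn | hn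
  · subst hn
    exact cj_one h H hx hy hS
  exfalso
  have h5 := h.five
  have hp := h.pp
  have hz : p ∣ i + (p - 1) * i := by
    refine ⟨i, ?_⟩
    have h6 : p = (p - 1) + 1 := by omega
    calc i + (p - 1) * i = ((p - 1) + 1) * i := by ring
      _ = p * i := by rw [← h6]
  have h2 : ¬ p ∣ 2 := fun hd => by
    have := Nat.le_of_dvd (by norm_num) hd
    omega
  have h3 : ¬ p ∣ 3 := fun hd => by
    have := Nat.le_of_dvd (by norm_num) hd
    omega
  have e1 : Eig r k a (i + i) (e 1) := by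
    have := hS.eig 1 hn
    rwa [one_mul] at this
  have d1 : ¬ p ∣ i + i := fun hd => by
    rw [← two_mul] at hd
    rcases hp.dvd_mul.1 hd with h6 | h6
    · exact h2 h6
    · exact hi h6
  have d2 : ¬ p ∣ (p - 1) * i := fun hd => hi ((Nat.dvd_add_left hd).1 hz)
  have d3 : ¬ p ∣ i + i + (p - 1) * i := fun hd => by
    rw [add_assoc] at hd
    exact hi ((Nat.dvd_add_left hz).1 hd)
  have d4 : ¬ i + i ≡ (p - 1) * i [MOD p] := fun hd => by
    have h6 : i + (i + i) ≡ i + (p - 1) * i [MOD p] := Nat.ModEq.add_left i hd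
    have h7 : p ∣ i + (i + i) := (Nat.modEq_zero_iff_dvd).1 (h6.trans ((Nat.modEq_zero_iff_dvd).2 hz))
    have h8 : i + (i + i) = 3 * i := by ring
    rw [h8] at h7
    rcases hp.dvd_mul.1 h7 with h9 | h9
    · exact h3 h9
    · exact hi h9
  refine hS.ne 1 hn (le_refl 1) (fa_s2 hS2 h H hSS d1 d2 d3 d4 e1 fun z hzz => ?_)
  exact cj_comm (comm_opp h H hz hx hzz) (comm_opp h H hz hy hzz) (hS.mem 1 hn)

theorem bb_comm (hS2 : S2.{u} p) (h : Root p r k) (H : Hyp p r a) (hSS : SS a (⊤ : Subgroup X)) {x y : X}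
    (hx : x ∈ Bb p r k a) (hy : y ∈ Bb p r k a) : Commute x y := by
  have hg : ∀ u ∈ {x : X | Eig r k a 1 x ∨ Eig r k a (p - 1) x}, ∀ v ∈ {x : X | Eig r k a 1 x ∨ Eig r k a (p - 1) x},
      Commute u v := by
    have h5 := h.five
    rintro u (hu | hu) v (hv | hv)
    · exact fa_same hS2 h H hSS hu hv
    · refine comm_opp h H ?_ hu hv
      rw [Nat.add_sub_cancel' (by omega)]
    · refine comm_opp h H ?_ hu hv
      rw [Nat.sub_add_cancel (by omega)]
    · exact fa_same hS2 h H hSS hu hv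
  unfold Bb at hx hy
  have h1 : ∀ u ∈ {x : X | Eig r k a 1 x ∨ Eig r k a (p - 1) x}, Commute u y := by
    intro u hu
    induction hy using Subgroup.closure_induction with
    | mem v hv => exact hg u hu v hv
    | one => exact Commute.one_right u
    | mul v w _ _ hv hw => exact hv.mul_right hw
    | inv v _ hv => exact hv.inv_right
  induction hx using Subgroup.closure_induction with
  | mem u hu => exact h1 u hu
  | one => exact Commute.one_left y
  | mul v w _ _ hv hw => exact hv.mul_left hw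
  | inv v _ hv => exact hv.inv_left

theorem bb_inv (p r k : ℕ) (a : MulAut X) : Inv a (Bb p r k a) := by
  refine Pool.Agent.FRB.inv_closure fun x hx => ?_
  have h1 : Subgroup.zpowers x ≤ Subgroup.closure {x : X | Eig r k a 1 x ∨ Eig r k a (p - 1) x} := by
    rw [Subgroup.zpowers_le]
    exact Subgroup.subset_closure hx
  rcases hx with hx | hx
  · exact h1 (eig_mem hx)
  · exact h1 (eig_mem hx)

theorem bb_eig (hS2 : S2.{u} p) (h : Root p r k) (H : Hyp p r a) (hSS : SS a (⊤ : Subgroup X)) {s : ℕ} {x : X}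
    (hx : x ∈ Bb p r k a) (hs : Eig r k a s x) (h1 : ¬ s ≡ 1 [MOD p]) (h2 : ¬ s ≡ p - 1 [MOD p]) : x = 1 := by
  have hb : Inv a (⊥ : Subgroup X) := by
    intro z hz
    rw [Subgroup.mem_bot] at hz ⊢
    rw [hz, map_one]
  refine Subgroup.mem_bot.1 (dir h H (C := Bb p r k a) (E := ⊥) (bb_inv p r k a) hb bot_le ?_ hs hx ?_)
  · intro u hu v hv
    rw [Subgroup.mem_bot]
    have hc : u * v = v * u := bb_comm hS2 h H hSS hu hv
    rw [mul_assoc, hc]
    group
  · refine Subgroup.closure_mono ?_ hx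
    intro y hy
    refine Or.inr ⟨Subgroup.subset_closure hy, ?_⟩
    rcases hy with hy | hy
    · exact ⟨1, fun hd => h1 hd.symm, hy⟩
    · exact ⟨p - 1, fun hd => h2 hd.symm, hy⟩

end Pool.Agent.FRS
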