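import Pool.Agent.FRS.FA
import Pool.Agent.FRS.Gen

/-!
# FRS/FB: `Bb` is self-normalising
-/

set_option autoImplicit false

namespace Pool.Agent.FRS

open Pool.Agent.FRB (Inv Eig LF SS Lam)

universe u

variable {p r k : ℕ} {X : Type u} [Group X] {a : MulAut X}

private theorem fb_comm (hS2 : S2.{u} p) (h : Root p r k) (H : Hyp p r a) (hSS : SS a (⊤ : Subgroup X))
    {t s : ℕ} {x z : X} (hxB : x ∈ Bb p r k a) (hx : Eig r k a t x) (hz : Eig r k a s z)
    (h1 : ∀ b ∈ Bb p r k a, z⁻¹ * b * z ∈ Bb p r k a)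
    (h2 : ∀ b ∈ Bb p r k a, z * b * z⁻¹ ∈ Bb p r k a)
    (h3 : ¬ t + 1 * s ≡ 1 [MOD p]) (h4 : ¬ t + 1 * s ≡ p - 1 [MOD p]) : Commute x z := by
  obtain ⟨n, e, hS⟩ := str_exists h H hx hz
  have hB : Cj x z ≤ Bb p r k a := cj_sub hxB h1 h2
  rcases Nat.eq_zero_or_pos n with h5 | h5
  · subst h5
    exact cj_one h H hx hz hS
  · exfalso
    exact hS.ne 1 h5 le_rfl (bb_eig hS2 h H hSS (hB (hS.mem 1 h5)) (hS.eig 1 h5) h3 h4)

theorem bb_norm (hS2 : S2.{u} p) (h : Root p r k) (H : Hyp p r a) (hSS : SS a (⊤ : Subgroup X)) {M : Subgroup X}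
    (hM : Inv a M) (hn : ∀ m ∈ M, ∀ b ∈ Bb p r k a, m⁻¹ * b * m ∈ Bb p r k a) : M ≤ Bb p r k a := by
  have hp5 := h.five
  intro m hm
  refine (Subgroup.closure_le _).2 ?_ (gen h H hM hm)
  rintro z ⟨hzM, s, hs1, hsp, hz⟩
  by_cases hs : s = 1
  · rw [hs] at hz
    exact Subgroup.subset_closure (Or.inl hz)
  by_cases hs' : s = p - 1
  · rw [hs'] at hz
    exact Subgroup.subset_closure (Or.inr hz)
  have n1 : ∀ b ∈ Bb p r k a, z⁻¹ * b * z ∈ Bb p r k a := hn z hzM
  have n2 : ∀ b ∈ Bb p r k a, z * b * z⁻¹ ∈ Bb p r k a := by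
    intro b hb
    have h1 := hn z⁻¹ (M.inv_mem hzM) b hb
    rwa [inv_inv] at h1
  have nd : ∀ i, 1 ≤ i → i < p → ¬ p ∣ i := by
    intro i hi hip hd
    have := Nat.le_of_dvd hi hd
    omega
  have ne : ∀ i j, i < p → j < p → i ≠ j → ¬ i ≡ j [MOD p] := by
    intro i j hi hj hij h1
    exact hij (Nat.ModEq.eq_of_lt_of_lt h1 hi hj)
  have hz1 : z = 1 := by
    by_cases hs2 : s = p - 2
    · have e1 : (p - 1) + 1 * s ≡ p - 3 [MOD p] := by
        have e2 : (p - 1) + 1 * s = (p - 3) + p := by omega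
        rw [e2]
        unfold Nat.ModEq
        rw [Nat.add_mod_right]
      have hc : ∀ y : X, Eig r k a (p - 1) y → Commute z y := by
        intro y hy
        refine (fb_comm hS2 h H hSS (Subgroup.subset_closure (Or.inr hy)) hy hz n1 n2 ?_ ?_).symm
        · intro h1
          exact ne (p - 3) 1 (by omega) (by omega) (by omega) (e1.symm.trans h1)
        · intro h1
          exact ne (p - 3) (p - 1) (by omega) (by omega) (by omega) (e1.symm.trans h1)
      refine fa_s2 hS2 h H hSS (i := s) (j := p - 1) (nd s hs1 hsp) (nd _ (by omega) (by omega)) ?_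
        (ne _ _ hsp (by omega) hs') hz hc
      intro hd
      have e2 : s + (p - 1) = (p - 3) + p := by omega
      rw [e2] at hd
      exact nd (p - 3) (by omega) (by omega) ((Nat.dvd_add_left (dvd_refl p)).1 hd)
    · have hc : ∀ y : X, Eig r k a 1 y → Commute z y := by
        intro y hy
        refine (fb_comm hS2 h H hSS (Subgroup.subset_closure (Or.inl hy)) hy hz n1 n2 ?_ ?_).symm
        · exact ne _ _ (by omega) (by omega) (by omega)
        · exact ne _ _ (by omega) (by omega) (by omega)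
      exact fa_s2 hS2 h H hSS (i := s) (j := 1) (nd s hs1 hsp) (nd _ le_rfl (by omega))
        (nd _ (by omega) (by omega)) (ne _ _ hsp (by omega) hs) hz hc
  rw [hz1]
  exact Subgroup.one_mem _

end Pool.Agent.FRS
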