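import Pool.Agent.FRS.FM3
import Pool.Agent.FRS.FB

/-!
# FRS/FC: centralisers of elements of degree 1 are not locally finite
-/

set_option autoImplicit false

namespace Pool.Agent.FRS

open Pool.Agent.FRB (Inv Eig LF SS Lam)

universe u

variable {p r k : ℕ} {X : Type u} [Group X] {a : MulAut X}

theorem cent_nlf (hS2 : S2.{u} p) (h : Root p r k) (H : Hyp p r a) (hSS : SS a (⊤ : Subgroup X)) {y : X}
    (hy : Eig r k a 1 y) (hy1 : y ≠ 1) : ¬ LF (Subgroup.centralizer ({y} : Set X)) := by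
  intro hLF
  have hyB : y ∈ Bb p r k a := Subgroup.subset_closure (Or.inl hy)
  have hBi : Inv a (Bb p r k a) := bb_inv p r k a
  -- the centraliser is contained in `B`
  have hCi : Inv a (Subgroup.centralizer ({y} : Set X)) := by
    have h1 := inv_cent h hy (V := ⊤) (fun x _ => Subgroup.mem_top _)
    rwa [top_inf_eq] at h1
  have hBC : Bb p r k a ≤ Subgroup.centralizer ({y} : Set X) := by
    intro x hx
    rw [Subgroup.mem_centralizer_singleton_iff]
    exact (bb_comm hS2 h H hSS hx hyB).eq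
  have hCB : ∀ x : X, Commute x y → x ∈ Bb p r k a := by
    intro x hx
    refine bb_max hS2 h H hSS hCi hLF hBC ?_
    rw [Subgroup.mem_centralizer_singleton_iff]
    exact hx.eq
  -- `B` is not everything
  have hBt : ∃ x : X, x ∉ Bb p r k a := by
    by_contra hcon
    push Not at hcon
    have hlf : LF (⊤ : Subgroup X) := by
      refine Pool.Agent.FRB.lf_comm (fun x _ z _ => bb_comm hS2 h H hSS (hcon x) (hcon z))
        (fun x _ => ?_)
      obtain ⟨n, hn⟩ := H.tors x
      exact ⟨r ^ n, pow_pos h.prime.pos n, hn⟩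
    have h1 := hSS ⊤ le_rfl (fun x _ => Subgroup.mem_top _) (fun _ _ _ _ => Subgroup.mem_top _) hlf
    have h2 : y ∈ (⊤ : Subgroup X) := Subgroup.mem_top y
    rw [h1, Subgroup.mem_bot] at h2
    exact hy1 h2
  obtain ⟨x, hx⟩ := hBt
  have hfin : Finite (Subgroup.closure ({x, y} : Set X)) := (H.two x y).to_subtype
  have hxm : x ∈ Subgroup.closure ({x, y} : Set X) := Subgroup.subset_closure (by simp)
  have hym : y ∈ Subgroup.closure ({x, y} : Set X) := Subgroup.subset_closure (by simp)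
  have : Fact r.Prime := ⟨h.prime⟩
  have hP : IsPGroup r (Subgroup.closure ({x, y} : Set X)) := by
    intro z
    obtain ⟨n, hn⟩ := H.tors (z : X)
    exact ⟨n, Subtype.ext hn⟩
  have hnil : Group.IsNilpotent (Subgroup.closure ({x, y} : Set X)) := hP.isNilpotent
  have hnc := Group.normalizerCondition_of_isNilpotent
    (G := Subgroup.closure ({x, y} : Set X))
  have hlt : (Bb p r k a).subgroupOf (Subgroup.closure ({x, y} : Set X)) < ⊤ := by
    rw [lt_top_iff_ne_top]
    intro h1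
    have h2 : (⟨x, hxm⟩ : Subgroup.closure ({x, y} : Set X)) ∈
        (Bb p r k a).subgroupOf (Subgroup.closure ({x, y} : Set X)) := by
      rw [h1]
      exact Subgroup.mem_top _
    rw [Subgroup.mem_subgroupOf] at h2
    exact hx h2
  have hlt2 := hnc _ hlt
  obtain ⟨g, hgN, hgD⟩ := SetLike.exists_of_lt hlt2
  rw [Subgroup.mem_subgroupOf] at hgD
  have hyD : (⟨y, hym⟩ : Subgroup.closure ({x, y} : Set X)) ∈
      (Bb p r k a).subgroupOf (Subgroup.closure ({x, y} : Set X)) := by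
    rw [Subgroup.mem_subgroupOf]
    exact hyB
  have hg1 : (g : X) * y * (g : X)⁻¹ ∈ Bb p r k a := by
    have h1 := (Subgroup.mem_normalizer_iff.1 hgN _).1 hyD
    rw [Subgroup.mem_subgroupOf] at h1
    exact h1
  have hg2 : (g : X)⁻¹ * y * (g : X) ∈ Bb p r k a := by
    have h1 := (Subgroup.mem_normalizer_iff''.1 hgN _).1 hyD
    rw [Subgroup.mem_subgroupOf] at h1
    exact h1
  -- `g` normalises `B`
  have hc1 : ∀ b ∈ Bb p r k a, (g : X) * b * (g : X)⁻¹ ∈ Bb p r k a := by
    intro b hb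
    refine hCB _ ?_
    have h1 := (bb_comm hS2 h H hSS hb hg2).eq
    have h2 : (g : X) * (b * ((g : X)⁻¹ * y * (g : X))) * (g : X)⁻¹ =
        (g : X) * (((g : X)⁻¹ * y * (g : X)) * b) * (g : X)⁻¹ := by rw [h1]
    change (g : X) * b * (g : X)⁻¹ * y = y * ((g : X) * b * (g : X)⁻¹)
    calc (g : X) * b * (g : X)⁻¹ * y =
        (g : X) * (b * ((g : X)⁻¹ * y * (g : X))) * (g : X)⁻¹ := by group
      _ = (g : X) * (((g : X)⁻¹ * y * (g : X)) * b) * (g : X)⁻¹ := h2
      _ = y * ((g : X) * b * (g : X)⁻¹) := by group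
  have hc2 : ∀ b ∈ Bb p r k a, (g : X)⁻¹ * b * (g : X) ∈ Bb p r k a := by
    intro b hb
    refine hCB _ ?_
    have h1 := (bb_comm hS2 h H hSS hb hg1).eq
    have h2 : (g : X)⁻¹ * (b * ((g : X) * y * (g : X)⁻¹)) * (g : X) =
        (g : X)⁻¹ * (((g : X) * y * (g : X)⁻¹) * b) * (g : X) := by rw [h1]
    change (g : X)⁻¹ * b * (g : X) * y = y * ((g : X)⁻¹ * b * (g : X))
    calc (g : X)⁻¹ * b * (g : X) * y =
        (g : X)⁻¹ * (b * ((g : X) * y * (g : X)⁻¹)) * (g : X) := by group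
      _ = (g : X)⁻¹ * (((g : X) * y * (g : X)⁻¹) * b) * (g : X) := h2
      _ = y * ((g : X)⁻¹ * b * (g : X)) := by group
  have hgM : (g : X) ∈ Subgroup.normalizer ((Bb p r k a : Subgroup X) : Set X) := by
    rw [Subgroup.mem_normalizer_iff]
    intro b
    refine ⟨fun hb => hc1 b hb, fun hb => ?_⟩
    have h1 := hc2 _ hb
    have h2 : (g : X)⁻¹ * ((g : X) * b * (g : X)⁻¹) * (g : X) = b := by group
    rwa [h2] at h1
  have hMi : Inv a (Subgroup.normalizer ((Bb p r k a : Subgroup X) : Set X)) := by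
    intro m hm
    rw [Subgroup.mem_normalizer_iff] at hm ⊢
    intro b
    have e : ∀ b : X, a m * b * (a m)⁻¹ = a (m * (a⁻¹ b) * m⁻¹) := by
      intro b
      rw [map_mul, map_mul, map_inv, MulAut.apply_inv_self]
    have hi : ∀ z : X, z ∈ Bb p r k a ↔ a z ∈ Bb p r k a := by
      intro z
      refine ⟨fun hz => hBi z hz, fun hz => ?_⟩
      have h1 := inv_symm H hBi _ hz
      rwa [MulAut.inv_apply_self] at h1
    rw [e, ← hi, ← hm, hi (a⁻¹ b), MulAut.apply_inv_self]
  have hMB := bb_norm hS2 h H hSS hMi (fun m hm b hb =>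
    (Subgroup.mem_normalizer_iff''.1 hm b).1 hb)
  exact hgD (hMB hgM)

end Pool.Agent.FRS
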