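import Pool.Agent.FRS.LiftN

/-!
# FRS/Sec: semisimple sections

`sec_top`: `FRB.rad a` is the largest normal invariant locally finite subgroup (`FRB.rad_normal`, `FRB.rad_inv`,
`FRB.rad_lf`, `FRB.rad_max`); `Y = X ⧸ rad a`, `b = qt H (rad a) _`.  `SS b ⊤`: let `L` be a normal invariant locally
finite subgroup of `Y` (the condition in `SS` for `Y = ⊤` is normality); its preimage `M` is normal, invariant
(`qt_inv_comap`) and locally finite: this is the private lemma `lf_comap` of `FRB/Rad.lean` (copy it with the private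
lemmas it uses; or `FRB.lf_ext`); so `M ≤ rad a` and `L = ⊥`.  `Nontrivial Y`: otherwise `rad a = ⊤` is locally finite.
Eigen-elements lift by `lift_quo`.

`sec`: `S` invariant, not locally finite.  Apply `sec_top` to the group `S` with `rs H S hS` (`rs_hyp`); `LF (⊤ : Subgroup S)`
implies `LF S` (private lemma `lf_of_coe` of `FRB/Rad.lean`).  `rs_eig`.
-/

set_option autoImplicit false

namespace Pool.Agent.FRS

open Pool.Agent.FRB (Inv Eig LF SS Lam)

universe u

variable {p r : ℕ} {X : Type u} [Group X] {a : MulAut X}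

private theorem clos_inj {G H : Type*} [Group G] [Group H] (f : G →* H) (hf : Function.Injective f)
    (s : Set G) (h : ((Subgroup.closure (f '' s) : Subgroup H) : Set H).Finite) :
    ((Subgroup.closure s : Subgroup G) : Set G).Finite := by
  rw [← MonoidHom.map_closure, Subgroup.coe_map] at h
  exact Set.Finite.of_finite_image h hf.injOn

private theorem clos_map {G H : Type*} [Group G] [Group H] (f : G →* H) (s : Set G)
    (h : ((Subgroup.closure s : Subgroup G) : Set G).Finite) :
    ((Subgroup.closure (f '' s) : Subgroup H) : Set H).Finite := by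
  rw [← MonoidHom.map_closure, Subgroup.coe_map]
  exact h.image f

theorem lf_coe {S : Subgroup X} : LF (⊤ : Subgroup S) ↔ LF S := by
  classical
  constructor
  · intro h s hs
    have h1 : (s : Set X) = S.subtype '' ((s.subtype (fun x => x ∈ S) : Finset S) : Set S) := by
      ext x
      constructor
      · intro hx
        exact ⟨⟨x, hs hx⟩, by simpa using hx, rfl⟩
      · rintro ⟨y, hy, rfl⟩
        simpa using hy
    rw [h1]
    exact clos_map S.subtype _ (h _ (by intro x _; exact Subgroup.mem_top x))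
  · intro h t _
    apply clos_inj S.subtype S.subtype_injective
    have h1 : S.subtype '' (t : Set S) = ((t.image S.subtype : Finset X) : Set X) := by
      rw [Finset.coe_image]
    rw [h1]
    apply h
    intro x hx
    rw [Finset.coe_image] at hx
    obtain ⟨y, _, rfl⟩ := hx
    exact y.2

private theorem lf_comap (N : Subgroup X) [N.Normal] (hN : LF N) (L : Subgroup (X ⧸ N)) (hL : LF L) :
    LF (L.comap (QuotientGroup.mk' N)) := by
  classical
  apply lf_coe.1
  set S : Subgroup X := L.comap (QuotientGroup.mk' N) with hS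
  have hNS : (N.subgroupOf S).Normal := Subgroup.normal_subgroupOf
  refine Pool.Agent.FRB.lf_ext (N.subgroupOf S) ?_ ?_
  · intro t ht
    apply clos_inj S.subtype S.subtype_injective
    have h1 : S.subtype '' (t : Set S) = ((t.image S.subtype : Finset X) : Set X) := by
      rw [Finset.coe_image]
    rw [h1]
    apply hN
    intro x hx
    rw [Finset.coe_image] at hx
    obtain ⟨y, hy, rfl⟩ := hx
    exact ht hy
  · intro t
    have hle : N.subgroupOf S ≤ N.comap S.subtype := le_refl _
    set φ : (S ⧸ N.subgroupOf S) →* (X ⧸ N) := QuotientGroup.map (N.subgroupOf S) N S.subtype hle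
      with hφ
    have hφi : Function.Injective φ := by
      rw [injective_iff_map_eq_one]
      intro q
      induction q using QuotientGroup.induction_on with
      | H x =>
        intro hx
        rw [hφ, QuotientGroup.map_mk, QuotientGroup.eq_one_iff] at hx
        rw [QuotientGroup.eq_one_iff]
        exact hx
    apply clos_inj φ hφi
    have h1 : φ '' (t : Set (S ⧸ N.subgroupOf S)) = ((t.image φ : Finset (X ⧸ N)) : Set (X ⧸ N)) := by
      rw [Finset.coe_image]
    rw [h1]
    apply hL
    intro x hx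
    rw [Finset.coe_image] at hx
    obtain ⟨q, hq, rfl⟩ := hx
    induction q using QuotientGroup.induction_on with
    | H y =>
      rw [hφ, QuotientGroup.map_mk]
      exact y.2

theorem sec_top (H : Hyp p r a) (hL : ¬ LF (⊤ : Subgroup X)) :
    ∃ (Y : Type u) (_ : Group Y) (b : MulAut Y) (π : X →* Y), Function.Surjective π ∧ Hyp p r b ∧
      SS b (⊤ : Subgroup Y) ∧ Nontrivial Y ∧ (∀ (k i : ℕ) (x : X), Eig r k a i x → Eig r k b i (π x)) ∧
      (∀ (k i : ℕ) (q : Y), Root p r k → Eig r k b i q → ∃ x : X, Eig r k a i x ∧ π x = q) := by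
  have hn : (Pool.Agent.FRB.rad a).Normal := Pool.Agent.FRB.rad_normal a
  have hi : Inv a (Pool.Agent.FRB.rad a) := Pool.Agent.FRB.rad_inv a
  refine ⟨X ⧸ Pool.Agent.FRB.rad a, inferInstance, qt H (Pool.Agent.FRB.rad a) hi,
    QuotientGroup.mk' (Pool.Agent.FRB.rad a), QuotientGroup.mk'_surjective _, qt_hyp H _ hi, ?_, ?_,
    fun k i x hx => qt_eig H _ hi hx, ?_⟩
  · intro L _ hLi hLn hLf
    have h1 : (L.comap (QuotientGroup.mk' (Pool.Agent.FRB.rad a))).Normal := by
      refine ⟨fun n hn' g => ?_⟩
      rw [Subgroup.mem_comap] at hn' ⊢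
      have h2 := hLn (QuotientGroup.mk' (Pool.Agent.FRB.rad a) g⁻¹) (Subgroup.mem_top _) _ hn'
      rw [← map_inv, inv_inv] at h2
      rw [map_mul, map_mul]
      exact h2
    have h2 : Inv a (L.comap (QuotientGroup.mk' (Pool.Agent.FRB.rad a))) := qt_inv_comap H _ hi hLi
    have h3 : LF (L.comap (QuotientGroup.mk' (Pool.Agent.FRB.rad a))) :=
      lf_comap (Pool.Agent.FRB.rad a) (Pool.Agent.FRB.rad_lf a) L hLf
    have h4 := Pool.Agent.FRB.rad_max h1 h2 h3
    rw [Subgroup.eq_bot_iff_forall]
    intro q hq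
    induction q using QuotientGroup.induction_on with
    | H x =>
      rw [QuotientGroup.eq_one_iff]
      exact h4 hq
  · by_contra h0
    rw [not_nontrivial_iff_subsingleton] at h0
    apply hL
    have h5 : Pool.Agent.FRB.rad a = ⊤ := by
      rw [Subgroup.eq_top_iff']
      intro x
      rw [← QuotientGroup.eq_one_iff]
      exact Subsingleton.elim _ _
    rw [← h5]
    exact Pool.Agent.FRB.rad_lf a
  · intro k i q hk hq
    obtain ⟨x, hx1, hx2⟩ := lift_quo hk H _ hi hq
    exact ⟨x, hx2, hx1⟩

theorem sec (H : Hyp p r a) {S : Subgroup X} (hS : Inv a S) (hL : ¬ LF S) :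
    ∃ (Y : Type u) (_ : Group Y) (b : MulAut Y) (π : S →* Y), Function.Surjective π ∧ Hyp p r b ∧
      SS b (⊤ : Subgroup Y) ∧ Nontrivial Y ∧ (∀ (k i : ℕ) (x : S), Eig r k a i (x : X) → Eig r k b i (π x)) ∧
      (∀ (k i : ℕ) (q : Y), Root p r k → Eig r k b i q → ∃ x : S, Eig r k a i (x : X) ∧ π x = q) := by
  obtain ⟨Y, hY, b, π, h1, h2, h3, h4, h5, h6⟩ := sec_top (rs_hyp H S hS) (fun h => hL (lf_coe.1 h))
  refine ⟨Y, hY, b, π, h1, h2, h3, h4, fun k i x hx => h5 k i x ((rs_eig H S hS).2 hx), ?_⟩
  intro k i q hk hq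
  obtain ⟨x, hx, hxq⟩ := h6 k i q hk hq
  exact ⟨x, (rs_eig H S hS).1 hx, hxq⟩

end Pool.Agent.FRS
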