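import Pool.Agent.FRS.FC
import Pool.Agent.FRS.Sec

/-!
# FRS/FD: semisimple groups are trivial under `S2 p`

`fd_nz`: `X` nontrivial semisimple; every degree `i`, `p ∤ i`, occurs.  Suppose `L_i` is trivial, `p ∤ i`.  If `p ∤ j`,
`j ≢ i, -i`, then `L_j` is trivial (`fa_s2` for `j` and `i`, the commuting condition is vacuous).  As `p ≥ 5` there is such
a `j` (`j = 2 i`), and then all `L_s` with `s ≢ j, -j`, `p ∤ s`, are trivial; together all `L_s` are trivial, and `X` is
trivial by `gen` (`S = ⊤`).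

`fd_cent`: `ȳ ≠ 1` of degree 2 in a semisimple group `Y` (with `S2 p`), then there is a nontrivial element of degree 1
commuting with `ȳ`.  By `cent_nlf` for the root `k^2` (`Root.pow`, `FRB.eig_root`) the centraliser `C` of `ȳ` is not
locally finite; it is invariant (`inv_cent`).  By `sec` for `C` and `fd_nz` the semisimple nontrivial section of `C` has a
nontrivial element of degree 1, which lifts to an element of degree 1 of `C`.

`ss_trivial`: suppose `X` is nontrivial.  Let `y ≠ 1` have degree 2 (`fd_nz`), `B = Bb p r k a`, `J = B ⊔ zpowers y`,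
invariant.  `J` is not locally finite: otherwise `y ∈ J ≤ B` by `bb_max`, and `y = 1` by `bb_eig`.  Let `π : J → Y` be as in
`sec`.  `ȳ = π y`.  If `ȳ = 1` then `Y = π B` is commutative and torsion, so locally finite, so trivial by `SS`, a
contradiction.  So `ȳ ≠ 1` and by `fd_cent` there is `q ≠ 1` in `Y` of degree 1 commuting with `ȳ`.  It lifts to `x ∈ J`
of degree 1; `x ∈ B` commutes with `B`, so `q` commutes with `π B` and with `ȳ`, hence with `Y` (`π` is surjective, `J` is
generated by `B` and `y`).  So `zpowers q` is a normal invariant locally finite subgroup of `Y` and `q = 1`,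
a contradiction.

`lf_hyp`: if `⊤` is not locally finite then `sec_top` gives a nontrivial semisimple group with `Hyp`, a contradiction to
`ss_trivial`.
-/

set_option autoImplicit false

namespace Pool.Agent.FRS

open Pool.Agent.FRB (Inv Eig LF SS Lam)

universe u

variable {p r k : ℕ} {X : Type u} [Group X] {a : MulAut X}

private theorem p_two (h : Root p r k) : ¬ p ∣ 2 := fun hd => by
  have h1 := Nat.le_of_dvd (by norm_num) hd
  have h2 := h.five
  omega

private theorem p_three (h : Root p r k) : ¬ p ∣ 3 := fun hd => by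
  have h1 := Nat.le_of_dvd (by norm_num) hd
  have h2 := h.five
  omega

private theorem inv_top (a : MulAut X) : Inv a (⊤ : Subgroup X) := fun _ _ => Subgroup.mem_top _

private theorem inv_sup {S T : Subgroup X} (hS : Inv a S) (hT : Inv a T) : Inv a (S ⊔ T) := by
  have h1 : S ⊔ T ≤ (S ⊔ T).comap (a : X →* X) :=
    sup_le (fun x hx => (le_sup_left : S ≤ S ⊔ T) (hS x hx)) (fun x hx => (le_sup_right : T ≤ S ⊔ T) (hT x hx))
  exact fun x hx => h1 hx

/-- a subgroup of a quotient of `B ⊔ zpowers y` containing the images of `B` and `y` is everything -/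
private theorem all_mem {Y : Type*} [Group Y] {B : Subgroup X} {y : X}
    (π : (B ⊔ Subgroup.zpowers y : Subgroup X) →* Y) (hπ : Function.Surjective π) (T : Subgroup Y)
    (hB : ∀ z : (B ⊔ Subgroup.zpowers y : Subgroup X), (z : X) ∈ B → π z ∈ T)
    (hy : ∀ z : (B ⊔ Subgroup.zpowers y : Subgroup X), (z : X) = y → π z ∈ T) (q : Y) : q ∈ T := by
  obtain ⟨z, rfl⟩ := hπ q
  have h1 : B ⊔ Subgroup.zpowers y ≤ (T.comap π).map (B ⊔ Subgroup.zpowers y).subtype := by
    refine sup_le (fun x hx => ?_) ?_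
    · exact ⟨⟨x, (le_sup_left : B ≤ B ⊔ Subgroup.zpowers y) hx⟩, hB _ hx, rfl⟩
    · rw [Subgroup.zpowers_le]
      exact ⟨⟨y, (le_sup_right : Subgroup.zpowers y ≤ B ⊔ Subgroup.zpowers y) (Subgroup.mem_zpowers y)⟩, hy _ rfl, rfl⟩
  obtain ⟨z', hz', hzz⟩ := h1 z.2
  have h2 : z' = z := Subtype.ext hzz
  rw [← h2]
  exact hz'

private theorem lf_of_comm (h : Root p r k) (H : Hyp p r a) {S : Subgroup X} (hc : ∀ x ∈ S, ∀ y ∈ S, Commute x y) : LF S :=
  FRB.lf_comm hc fun x _ => by
    obtain ⟨n, hn⟩ := H.tors x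
    exact ⟨r ^ n, pow_pos h.prime.pos n, hn⟩

theorem fd_nz (hS2 : S2.{u} p) (h : Root p r k) (H : Hyp p r a) (hSS : SS a (⊤ : Subgroup X)) {g : X} (hg : g ≠ 1)
    {i : ℕ} (hi : ¬ p ∣ i) : ∃ x : X, x ≠ 1 ∧ Eig r k a i x := by
  by_contra hcon
  have h0 : ∀ x : X, Eig r k a i x → x = 1 := fun x hx => by
    by_contra h1
    exact hcon ⟨x, h1, hx⟩
  have key : ∀ j : ℕ, ¬ p ∣ j → (∀ x : X, Eig r k a j x → x = 1) → ∀ s : ℕ, ¬ p ∣ s → ¬ p ∣ s + j → ¬ s ≡ j [MOD p] →
      ∀ x : X, Eig r k a s x → x = 1 := by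
    intro j hj hL s hs hsj hne x hx
    refine fa_s2 hS2 h H hSS hs hj hsj hne hx fun y hy => ?_
    rw [hL y hy]
    exact Commute.one_right x
  have hp := h.pp
  have h2i : ¬ p ∣ 2 * i := fun hd => (hp.dvd_mul.1 hd).elim (p_two h) hi
  have h3i : ¬ p ∣ 3 * i := fun hd => (hp.dvd_mul.1 hd).elim (p_three h) hi
  have h2 : ∀ x : X, Eig r k a (2 * i) x → x = 1 := by
    refine key i hi h0 (2 * i) h2i ?_ ?_
    · rwa [show 2 * i + i = 3 * i by ring]
    · intro hc
      have h1 : 2 * i ≡ i [MOD p] := hc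
      have h3 : i + i ≡ 0 + i [MOD p] := by rwa [zero_add, ← two_mul]
      have h4 := Nat.ModEq.add_right_cancel' i h3
      exact hi ((Nat.modEq_zero_iff_dvd).1 h4)
  have hall : ∀ s : ℕ, ¬ p ∣ s → ∀ x : X, Eig r k a s x → x = 1 := by
    intro s hs x hx
    by_cases h4 : s ≡ i [MOD p]
    · exact h0 x (eig_congr h h4 hx)
    · by_cases h5 : p ∣ s + i
      · refine key (2 * i) h2i h2 s hs ?_ ?_ x hx
        · intro h6
          have h7 : p ∣ (s + 2 * i) - (s + i) := Nat.dvd_sub h6 h5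
          rw [show (s + 2 * i) - (s + i) = i by omega] at h7
          exact hi h7
        · intro h6
          have h7 : s + i ≡ 2 * i + i [MOD p] := h6.add_right i
          have h8 : 3 * i ≡ 0 [MOD p] := by
            rw [show 3 * i = 2 * i + i by ring]
            exact h7.symm.trans ((Nat.modEq_zero_iff_dvd).2 h5)
          exact h3i ((Nat.modEq_zero_iff_dvd).1 h8)
      · exact key i hi h0 s hs h5 h4 x hx
  have h6 := gen h H (inv_top a) (Subgroup.mem_top g)
  have h7 : Subgroup.closure {e : X | e ∈ (⊤ : Subgroup X) ∧ ∃ i, 1 ≤ i ∧ i < p ∧ Eig r k a i e} ≤ ⊥ := by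
    rw [Subgroup.closure_le]
    rintro e ⟨_, s, hs1, hs2, he⟩
    rw [SetLike.mem_coe, Subgroup.mem_bot]
    refine hall s (fun hd => ?_) e he
    have := Nat.le_of_dvd hs1 hd
    omega
  exact hg ((Subgroup.mem_bot).1 (h7 h6))

theorem fd_cent (hS2 : S2.{u} p) (h : Root p r k) (H : Hyp p r a) (hSS : SS a (⊤ : Subgroup X)) {y : X}
    (hy : Eig r k a 2 y) (hy1 : y ≠ 1) : ∃ x : X, x ≠ 1 ∧ Eig r k a 1 x ∧ Commute x y := by
  have hnl : ¬ LF (Subgroup.centralizer ({y} : Set X)) :=
    cent_nlf hS2 (h.pow (p_two h)) H hSS ((FRB.eig_root 2 1 y).2 hy) hy1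
  have hC : Inv a (Subgroup.centralizer ({y} : Set X)) := by
    have h1 := inv_cent h hy (inv_top a)
    rwa [top_inf_eq] at h1
  obtain ⟨Y, _, b, π, _, Hb, hb, hY, _, hlift⟩ := sec H hC hnl
  obtain ⟨g, hg⟩ := exists_ne (1 : Y)
  obtain ⟨q, hq1, hq⟩ := fd_nz hS2 h Hb hb hg (i := 1) (fun hd => h.pp.one_lt.ne' (Nat.dvd_one.1 hd))
  obtain ⟨x, hx, hxq⟩ := hlift k 1 q h hq
  refine ⟨x, fun h1 => ?_, hx, ?_⟩
  · apply hq1
    rw [← hxq, show x = 1 from Subtype.ext h1, map_one]
  · exact ((Subgroup.mem_centralizer_singleton_iff).1 x.2)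

theorem ss_trivial (hS2 : S2.{u} p) (h : Root p r k) (H : Hyp p r a) (hSS : SS a (⊤ : Subgroup X)) (x : X) :
    x = 1 := by
  by_contra hx1
  obtain ⟨y, hy1, hy⟩ := fd_nz hS2 h H hSS hx1 (p_two h)
  have hJ : Inv a (Bb p r k a ⊔ Subgroup.zpowers y) := inv_sup (bb_inv p r k a) (inv_zpowers hy)
  have hyJ : y ∈ Bb p r k a ⊔ Subgroup.zpowers y :=
    (le_sup_right : Subgroup.zpowers y ≤ Bb p r k a ⊔ Subgroup.zpowers y) (Subgroup.mem_zpowers y)
  have hp5 := h.five
  have hnl : ¬ LF (Bb p r k a ⊔ Subgroup.zpowers y) := by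
    intro hlf
    have h1 := bb_max hS2 h H hSS hJ hlf le_sup_left hyJ
    refine hy1 (bb_eig hS2 h H hSS h1 hy ?_ ?_)
    · intro h2
      have h3 : 2 % p = 1 % p := h2
      rw [Nat.mod_eq_of_lt (by omega), Nat.mod_eq_of_lt (by omega)] at h3
      omega
    · intro h2
      have h3 : 2 % p = (p - 1) % p := h2
      rw [Nat.mod_eq_of_lt (by omega), Nat.mod_eq_of_lt (by omega)] at h3
      omega
  obtain ⟨Y, _, b, π, hπ, Hb, hb, hY, hmap, hlift⟩ := sec H hJ hnl
  have hyb : Eig r k b 2 (π ⟨y, hyJ⟩) := hmap k 2 ⟨y, hyJ⟩ hy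
  by_cases hc : π ⟨y, hyJ⟩ = 1
  · have h1 : ∀ z : (Bb p r k a ⊔ Subgroup.zpowers y : Subgroup X), (z : X) ∈ Bb p r k a → ∀ q : Y, Commute q (π z) := by
      intro z hz q
      refine (Subgroup.mem_centralizer_singleton_iff).1 (all_mem π hπ (Subgroup.centralizer {π z}) ?_ ?_ q)
      · intro w hw
        rw [Subgroup.mem_centralizer_singleton_iff]
        have h2 : w * z = z * w := Subtype.ext (bb_comm hS2 h H hSS hw hz)
        rw [← map_mul, h2, map_mul]
      · intro w hw
        rw [show w = ⟨y, hyJ⟩ from Subtype.ext hw, hc]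
        exact Subgroup.one_mem _
    have h2 : ∀ q q' : Y, Commute q q' := by
      intro q q'
      refine ((Subgroup.mem_centralizer_singleton_iff).1 (all_mem π hπ (Subgroup.centralizer {q'}) ?_ ?_ q))
      · intro w hw
        rw [Subgroup.mem_centralizer_singleton_iff]
        exact (h1 w hw q').symm
      · intro w hw
        rw [show w = ⟨y, hyJ⟩ from Subtype.ext hw, hc]
        exact Subgroup.one_mem _
    have h3 : LF (⊤ : Subgroup Y) := lf_of_comm h Hb fun q _ q' _ => h2 q q'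
    have h4 := hb ⊤ le_rfl (inv_top b) (fun _ _ _ _ => Subgroup.mem_top _) h3
    obtain ⟨g, hg⟩ := exists_ne (1 : Y)
    have h5 : g ∈ (⊤ : Subgroup Y) := Subgroup.mem_top g
    rw [h4] at h5
    exact hg ((Subgroup.mem_bot).1 h5)
  · obtain ⟨q, hq1, hq, hqc⟩ := fd_cent hS2 h Hb hb hyb hc
    obtain ⟨x, hx, hxq⟩ := hlift k 1 q h hq
    have hxB : (x : X) ∈ Bb p r k a := Subgroup.subset_closure (Or.inl hx)
    have h1 : ∀ w : Y, Commute w q := by
      intro w
      refine (Subgroup.mem_centralizer_singleton_iff).1 (all_mem π hπ (Subgroup.centralizer {q}) ?_ ?_ w)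
      · intro z hz
        rw [Subgroup.mem_centralizer_singleton_iff, ← hxq]
        have h2 : z * x = x * z := Subtype.ext (bb_comm hS2 h H hSS hz hxB)
        rw [← map_mul, h2, map_mul]
      · intro z hz
        rw [show z = ⟨y, hyJ⟩ from Subtype.ext hz, Subgroup.mem_centralizer_singleton_iff]
        exact hqc.symm
    have h3 : LF (Subgroup.zpowers q) := by
      refine lf_of_comm h Hb ?_
      rintro _ ⟨m, rfl⟩ w _
      exact ((h1 w).zpow_right m).symm
    have h4 := hb (Subgroup.zpowers q) le_top (inv_zpowers hq) (by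
      intro w _ z hz
      have h5 : Commute w z := by
        obtain ⟨m, rfl⟩ := hz
        exact (h1 w).zpow_right m
      rw [mul_assoc, ← h5.eq, ← mul_assoc, inv_mul_cancel, one_mul]
      exact hz) h3
    exact hq1 ((Subgroup.zpowers_eq_bot).1 h4)

theorem lf_hyp (hS2 : S2.{u} p) (h : Root p r k) (H : Hyp p r a) : LF (⊤ : Subgroup X) := by
  by_contra hL
  obtain ⟨Y, _, b, π, _, Hb, hb, hY, _, _⟩ := sec_top H hL
  obtain ⟨g, hg⟩ := exists_ne (1 : Y)
  exact hg (ss_trivial hS2 h Hb hb g)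

end Pool.Agent.FRS
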