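import Pool.Agent.FRS.Bil
import Pool.Agent.FRS.LiftN

/-! # FRS/Lay: degrees of commutators modulo the next term of the lower central series -/

set_option autoImplicit false

namespace Pool.Agent.FRS

open Pool.Agent.FRB (Inv Eig LF SS Lam)

universe u

variable {p r k : ℕ} {X : Type u} [Group X] {a : MulAut X}

private theorem lay_pw {G : Type*} [Group G] {x y z : G} (hz : x * y = y * (x * z)) (hzx : Commute x z)
    (hzy : Commute z y) (m n : ℕ) : x ^ m * y ^ n = y ^ n * (x ^ m * z ^ (m * n)) := by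
  have h1 : x ^ m * y = y * (x ^ m * z ^ m) := by
    have h2 : SemiconjBy y (x * z) x := hz.symm
    have h3 := (h2.pow_right m).eq
    rw [hzx.mul_pow] at h3
    exact h3.symm
  induction n with
  | zero => rw [pow_zero, mul_zero, pow_zero, mul_one, one_mul]
  | succ n ih =>
    have h4 : z ^ (m * n) * y = y * z ^ (m * n) := (hzy.pow_left (m * n)).eq
    calc x ^ m * y ^ (n + 1) = x ^ m * y ^ n * y := by rw [pow_succ, mul_assoc]
      _ = y ^ n * (x ^ m * (z ^ (m * n) * y)) := by rw [ih]; simp only [mul_assoc]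
      _ = y ^ n * ((x ^ m * y) * z ^ (m * n)) := by rw [h4]; simp only [mul_assoc]
      _ = y ^ n * (y * (x ^ m * (z ^ m * z ^ (m * n)))) := by rw [h1]; simp only [mul_assoc]
      _ = y ^ (n + 1) * (x ^ m * z ^ (m * (n + 1))) := by
        rw [← pow_add, pow_succ, mul_assoc, Nat.mul_succ, Nat.add_comm m (m * n)]

theorem lay_eig (h : Root p r k) (H : Hyp p r a) {V : Subgroup X} (hV : Inv a V) {l s t : ℕ} {x y : X}
    (hx : x ∈ gm V l) (hy : y ∈ V) (hxs : Eig r k a s x) (hyt : Eig r k a t y) :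
    ∃ n ∈ gm V (l + 2), Eig r k a (s + t) (x⁻¹ * y⁻¹ * x * y * n) := by
  obtain ⟨z, hz⟩ : ∃ z : X, z = x⁻¹ * y⁻¹ * x * y := ⟨_, rfl⟩
  rw [← hz]
  have hxV : x ∈ V := gm_le V l hx
  have hz1 : z ∈ gm V (l + 1) := by rw [hz]; exact gm_com l hx hy
  have hzV : z ∈ V := gm_le V (l + 1) hz1
  have up : ∀ {w : X} {A B : ℕ}, w ^ (r ^ A) = 1 → A ≤ B → w ^ (r ^ B) = 1 := by
    intro w A B hA hAB
    obtain ⟨C, rfl⟩ := Nat.exists_eq_add_of_le hAB
    rw [pow_add, pow_mul, hA, one_pow]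
  obtain ⟨M, hx0, hy0, hz0⟩ : ∃ M : ℕ, x ^ (r ^ M) = 1 ∧ y ^ (r ^ M) = 1 ∧ z ^ (r ^ M) = 1 := by
    obtain ⟨M1, hM1⟩ := H.tors x
    obtain ⟨M2, hM2⟩ := H.tors y
    obtain ⟨M3, hM3⟩ := H.tors z
    exact ⟨M1 + M2 + M3, up hM1 (by omega), up hM2 (by omega), up hM3 (by omega)⟩
  have ex := eig_at h hxs hx0
  have ey := eig_at h hyt hy0
  refine lift_el h H (gm_inv hV (l + 2)) (fun n hn => gm_norm V (l + 2) hzV hn) hz0 ?_
  have hK : k ^ ((s + t) * r ^ M) = k ^ (s * r ^ M) * k ^ (t * r ^ M) := by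
    rw [add_mul, pow_add]
  rw [hK]
  generalize k ^ (s * r ^ M) = m at ex
  generalize k ^ (t * r ^ M) = n at ey
  have hNn : ((gm V (l + 2)).subgroupOf V).Normal := by
    refine ⟨fun n hn g => ?_⟩
    have h1 := gm_norm V (l + 2) (V.inv_mem g.2) (Subgroup.mem_subgroupOf.1 hn)
    rw [inv_inv] at h1
    exact Subgroup.mem_subgroupOf.2 h1
  have key : ∀ v w : V, (QuotientGroup.mk' ((gm V (l + 2)).subgroupOf V)) v =
      (QuotientGroup.mk' ((gm V (l + 2)).subgroupOf V)) w ↔ (v : X)⁻¹ * (w : X) ∈ gm V (l + 2) :=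
    fun v w => QuotientGroup.eq
  generalize QuotientGroup.mk' ((gm V (l + 2)).subgroupOf V) = q at key
  have haz : a z = (x ^ m)⁻¹ * (y ^ n)⁻¹ * x ^ m * y ^ n := by
    rw [hz, map_mul, map_mul, map_mul, map_inv, map_inv, ex, ey]
  have c1 : Commute (q ⟨x, hxV⟩) (q ⟨z, hzV⟩) := by
    show q ⟨x, hxV⟩ * q ⟨z, hzV⟩ = q ⟨z, hzV⟩ * q ⟨x, hxV⟩
    rw [← map_mul, ← map_mul]
    refine (key _ _).2 ?_
    have h1 := gm_com (l + 1) hz1 hxV
    show (x * z)⁻¹ * (z * x) ∈ _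
    have h2 : (x * z)⁻¹ * (z * x) = z⁻¹ * x⁻¹ * z * x := by group
    rw [h2]
    exact h1
  have c2 : Commute (q ⟨z, hzV⟩) (q ⟨y, hy⟩) := by
    refine Commute.symm ?_
    show q ⟨y, hy⟩ * q ⟨z, hzV⟩ = q ⟨z, hzV⟩ * q ⟨y, hy⟩
    rw [← map_mul, ← map_mul]
    refine (key _ _).2 ?_
    have h1 := gm_com (l + 1) hz1 hy
    show (y * z)⁻¹ * (z * y) ∈ _
    have h2 : (y * z)⁻¹ * (z * y) = z⁻¹ * y⁻¹ * z * y := by group
    rw [h2]
    exact h1
  have c3 : q ⟨x, hxV⟩ * q ⟨y, hy⟩ = q ⟨y, hy⟩ * (q ⟨x, hxV⟩ * q ⟨z, hzV⟩) := by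
    rw [← map_mul, ← map_mul, ← map_mul]
    refine congrArg q (Subtype.ext ?_)
    show x * y = y * (x * z)
    rw [hz]
    group
  have c4 := lay_pw c3 c1 c2 m n
  have c5 : q (⟨z, hzV⟩ ^ (m * n)) = q ((⟨x, hxV⟩ ^ m)⁻¹ * (⟨y, hy⟩ ^ n)⁻¹ * ⟨x, hxV⟩ ^ m * ⟨y, hy⟩ ^ n) := by
    rw [mul_assoc, map_mul, map_mul, map_mul, map_inv, map_inv, map_pow, map_pow, map_pow, c4, mul_assoc,
      inv_mul_cancel_left, inv_mul_cancel_left]
  have c6 := (key _ _).1 c5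
  rw [haz]
  exact c6

end Pool.Agent.FRS
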