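import Pool.Agent.FRS.JA
import Pool.Agent.FRS.Lay
import Pool.Agent.FRS.Dir
import Pool.Agent.FRS.Gen

/-!
# FRS/FM1: a finite subgroup generated by conjugates of an element of degree 2

`x, y, z` have degrees `2, 1, p - 1`, `y` and `z` commute (`comm_opp`), `V = Wj x y z` is generated by the conjugates of
`x` under the `y^s z^t`; it is finite if `closure {x, y, z}` is, invariant, normalised by `y` and `z`.  `hab`:
elements of degree 1 commute.

`wj_gen`: `Cj x z` is generated by `x` and an element `f` of degree 1 (`Str 2 (p-1) x z n e`: `e 1` has degree `p + 1`, `e 2`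
would have degree `2 p`, so `n ≤ 1`).  So `z^(-t) x z^t ∈ closure {x, f}` and `y^(-s) z^(-t) x z^t y^s ∈
closure {y^(-s) x y^s, f}` (`f` commutes with `y` by `hab`; `f ∈ Cj x z ≤ V`).

`wj_lay`: `E = closure (gm V (l+2) ∪ {g ∈ gm V (l+1) of a degree d ≢ 2})`.  Apply `bil` with `S` = the eigen-elements of
`gm V l` (`gen`) and `T = {y^(-s) x y^s} ∪ {t ∈ V of degree 1}` (`wj_gen`).  For `v ∈ gm V l` of degree `s'`,
`1 ≤ s' < p`, and `t ∈ V` of degree 1: `[v, t] = 1` if `s' = 1` (`hab`), otherwise `[v, t] n` has degree `s' + 1 ≢ 2`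
(`lay_eig`).  For `t = y^(-s) x y^s`: `[v, t] = y^(-s) [v', x] y^s` with `v' = y^s v y^(-s) ∈ gm V l`; by `gen` and
`com_cl` (for the subgroup `{g | y^(-s) g y^s ∈ E}`, which contains `gm V (l+2)`) it is enough to treat `v'` of degree `s'`,
`1 ≤ s' < p`: `c' = [v', x] n` has degree `s' + 2`; if `s' + 2 < p` then `Cj c' y` involves only degrees `s' + 2, ..., p - 1`
(`ja_up` with `G = gm V (l+1)`), all `≥ 3`; if `s' + 2 = p` then `c' = 1`; if `s' + 2 = p + 1` then `c'` has degree 1 and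
commutes with `y` (`hab`).

`wj_two`: `w ∈ gm V 1` of degree 2: by `wj_lay` and `dir` (`C = gm V (l+1)`, `E = gm V (l+2)`, `gm_ab`) if `w ∈ gm V (l+1)`
then `w ∈ gm V (l+2)`; by `gm_bot` `w = 1`.
-/

set_option autoImplicit false

namespace Pool.Agent.FRS

open Pool.Agent.FRB (Inv Eig LF SS Lam)

universe u

variable {p r k : ℕ} {X : Type u} [Group X] {a : MulAut X}

/-- the subgroup generated by the conjugates of `x` under `y^s z^t` -/
def Wj (x y z : X) : Subgroup X :=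
  Subgroup.closure {w | ∃ s t : ℤ, w = (y ^ s * z ^ t)⁻¹ * x * (y ^ s * z ^ t)}

/-- conjugates of elements of a closure -/
private theorem fm_conj {S : Set X} {T : Subgroup X} {g : X} (h : ∀ w ∈ S, g⁻¹ * w * g ∈ T) {v : X}
    (hv : v ∈ Subgroup.closure S) : g⁻¹ * v * g ∈ T := by
  induction hv using Subgroup.closure_induction with
  | mem w hw => exact h w hw
  | one => rw [mul_one, inv_mul_cancel]; exact T.one_mem
  | mul u w _ _ hu hw =>
    have e : g⁻¹ * (u * w) * g = (g⁻¹ * u * g) * (g⁻¹ * w * g) := by group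
    rw [e]
    exact T.mul_mem hu hw
  | inv u _ hu =>
    have e : g⁻¹ * u⁻¹ * g = (g⁻¹ * u * g)⁻¹ := by group
    rw [e]
    exact T.inv_mem hu

theorem wj_le (x y z : X) : Wj x y z ≤ Subgroup.closure {x, y, z} := by
  have hx : x ∈ Subgroup.closure ({x, y, z} : Set X) := Subgroup.subset_closure (by simp)
  have hy : y ∈ Subgroup.closure ({x, y, z} : Set X) := Subgroup.subset_closure (by simp)
  have hz : z ∈ Subgroup.closure ({x, y, z} : Set X) := Subgroup.subset_closure (by simp)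
  unfold Wj
  rw [Subgroup.closure_le]
  rintro w ⟨s, t, rfl⟩
  have h1 : y ^ s * z ^ t ∈ Subgroup.closure ({x, y, z} : Set X) :=
    Subgroup.mul_mem _ (Subgroup.zpow_mem _ hy s) (Subgroup.zpow_mem _ hz t)
  exact Subgroup.mul_mem _ (Subgroup.mul_mem _ (Subgroup.inv_mem _ h1) hx) h1

theorem wj_self (x y z : X) : x ∈ Wj x y z :=
  Subgroup.subset_closure ⟨0, 0, by simp⟩

theorem wj_y {x y z : X} (hyz : Commute y z) {v : X} (hv : v ∈ Wj x y z) (s : ℤ) :
    y ^ (-s) * v * y ^ s ∈ Wj x y z := by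
  rw [zpow_neg]
  refine fm_conj ?_ hv
  rintro w ⟨s', t, rfl⟩
  refine Subgroup.subset_closure ⟨s' + s, t, ?_⟩
  have h1 : y ^ (s' + s) * z ^ t = y ^ s' * z ^ t * y ^ s := by
    rw [zpow_add, mul_assoc, mul_assoc, (hyz.zpow_zpow s t).eq]
  rw [h1, mul_inv_rev (y ^ s' * z ^ t) (y ^ s)]
  simp only [mul_assoc]

theorem wj_z {x y z : X} (hyz : Commute y z) {v : X} (hv : v ∈ Wj x y z) (s : ℤ) :
    z ^ (-s) * v * z ^ s ∈ Wj x y z := by
  rw [zpow_neg]
  refine fm_conj ?_ hv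
  rintro w ⟨s', t, rfl⟩
  refine Subgroup.subset_closure ⟨s', t + s, ?_⟩
  have h1 : y ^ s' * z ^ (t + s) = y ^ s' * z ^ t * z ^ s := by
    rw [zpow_add, mul_assoc]
  rw [h1, mul_inv_rev (y ^ s' * z ^ t) (z ^ s)]
  simp only [mul_assoc]

theorem wj_inv (h : Root p r k) (H : Hyp p r a) {x y z : X} (hx : Eig r k a 2 x) (hy : Eig r k a 1 y)
    (hz : Eig r k a (p - 1) z) : Inv a (Wj x y z) := by
  obtain ⟨m, hm⟩ := Subgroup.mem_zpowers_iff.1 (eig_mem hx)
  obtain ⟨i, hi⟩ := Subgroup.mem_zpowers_iff.1 (eig_mem hy)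
  obtain ⟨j, hj⟩ := Subgroup.mem_zpowers_iff.1 (eig_mem hz)
  intro v hv
  have h1 : Wj x y z ≤ (Wj x y z).comap (a : X →* X) := by
    conv_lhs => unfold Wj
    rw [Subgroup.closure_le]
    rintro w ⟨s, t, rfl⟩
    show a ((y ^ s * z ^ t)⁻¹ * x * (y ^ s * z ^ t)) ∈ Wj x y z
    have h2 : a ((y ^ s * z ^ t)⁻¹ * x * (y ^ s * z ^ t)) =
        ((y ^ (i * s) * z ^ (j * t))⁻¹ * x * (y ^ (i * s) * z ^ (j * t))) ^ m := by
      have e1 : a (y ^ s * z ^ t) = y ^ (i * s) * z ^ (j * t) := by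
        rw [map_mul, map_zpow, map_zpow, ← hi, ← hj, ← zpow_mul, ← zpow_mul]
      rw [map_mul, map_mul, map_inv, e1, ← hm]
      have e2 := conj_zpow (i := m) (a := (y ^ (i * s) * z ^ (j * t))⁻¹) (b := x)
      rw [inv_inv] at e2
      exact e2.symm
    rw [h2]
    have h3 : (y ^ (i * s) * z ^ (j * t))⁻¹ * x * (y ^ (i * s) * z ^ (j * t)) ∈ Wj x y z :=
      Subgroup.subset_closure ⟨i * s, j * t, rfl⟩
    exact Subgroup.zpow_mem _ h3 m
  exact h1 hv

private theorem fm_cjz {x y z : X} (hyz : Commute y z) : Cj x z ≤ Wj x y z := by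
  refine cj_sub (wj_self x y z) (fun v hv => ?_) (fun v hv => ?_)
  · have h1 := wj_z hyz hv 1
    rwa [zpow_neg_one, zpow_one] at h1
  · have h1 := wj_z hyz hv (-1)
    rwa [neg_neg, zpow_one, zpow_neg_one] at h1

private theorem fm_comm (h : Root p r k) (H : Hyp p r a) {y z : X} (hy : Eig r k a 1 y)
    (hz : Eig r k a (p - 1) z) : Commute y z := by
  have h5 := h.five
  have h1 : p ∣ 1 + (p - 1) := Dvd.intro 1 (by omega)
  exact comm_opp h H h1 hy hz

theorem wj_gen (h : Root p r k) (H : Hyp p r a) (hab : ∀ v w : X, Eig r k a 1 v → Eig r k a 1 w → Commute v w)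
    {x y z : X} (hx : Eig r k a 2 x) (hy : Eig r k a 1 y) (hz : Eig r k a (p - 1) z) :
    Wj x y z = Subgroup.closure ({w | ∃ s : ℤ, w = y ^ (-s) * x * y ^ s} ∪ {w | w ∈ Wj x y z ∧ Eig r k a 1 w}) := by
  have hyz := fm_comm h H hy hz
  have h5 := h.five
  apply le_antisymm
  · conv_lhs => unfold Wj
    rw [Subgroup.closure_le]
    rintro w ⟨s, t, rfl⟩
    have h1 : (y ^ s * z ^ t)⁻¹ * x * (y ^ s * z ^ t) = (y ^ s)⁻¹ * (z ^ (-t) * x * z ^ t) * y ^ s := by
      rw [(hyz.zpow_zpow s t).eq, mul_inv_rev, zpow_neg]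
      simp only [mul_assoc]
    rw [h1]
    have h2 : z ^ (-t) * x * z ^ t ∈ Cj x z := cj_mem x z t
    obtain ⟨n, e, hS⟩ := str_exists h H hx hz
    have hn : n ≤ 1 := by
      by_contra hcon
      have h3 := hS.eig 2 (by omega)
      refine hS.ne 2 (by omega) (by omega) (eig_triv h H ?_ h3)
      exact ⟨2, by omega⟩
    rw [hS.gen] at h2
    refine fm_conj ?_ h2
    rintro w ⟨l, hl, rfl⟩
    have hl2 : l = 0 ∨ l = 1 := by omega
    rcases hl2 with rfl | rfl
    · rw [hS.zero]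
      refine Subgroup.subset_closure (Or.inl ⟨s, by rw [zpow_neg]⟩)
    · have h3 : Eig r k a 1 (e 1) := by
        refine eig_congr h ?_ (hS.eig 1 hl)
        have h4 : 2 + 1 * (p - 1) = 1 + p := by omega
        rw [h4]
        exact Nat.add_modEq_right
      have h4 : Commute (y ^ s) (e 1) := (hab y (e 1) hy h3).zpow_left s
      have h6 : (y ^ s)⁻¹ * e 1 * y ^ s = e 1 := by
        rw [mul_assoc, ← h4.eq, inv_mul_cancel_left]
      rw [h6]
      exact Subgroup.subset_closure (Or.inr ⟨fm_cjz hyz (hS.mem 1 hl), h3⟩)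
  · rw [Subgroup.closure_le]
    rintro w (⟨s, rfl⟩ | ⟨hw, -⟩)
    · exact wj_y hyz (wj_self x y z) s
    · exact hw

theorem wj_lay (h : Root p r k) (H : Hyp p r a) (hab : ∀ v w : X, Eig r k a 1 v → Eig r k a 1 w → Commute v w)
    {x y z : X} (hx : Eig r k a 2 x) (hy : Eig r k a 1 y) (hz : Eig r k a (p - 1) z) (l : ℕ) :
    gm (Wj x y z) (l + 1) ≤ Subgroup.closure ((gm (Wj x y z) (l + 2) : Set X) ∪
      {g | g ∈ gm (Wj x y z) (l + 1) ∧ ∃ d, ¬ d ≡ 2 [MOD p] ∧ Eig r k a d g}) := by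
  have hyz := fm_comm h H hy hz
  have h5 := h.five
  obtain ⟨V, hV⟩ : ∃ V, V = Wj x y z := ⟨_, rfl⟩
  have hVi : Inv a V := by
    rw [hV]
    exact wj_inv h H hx hy hz
  have hVg := wj_gen h H hab hx hy hz
  have hVy : ∀ (s : ℤ), ∀ v ∈ V, (y ^ s)⁻¹ * v * y ^ s ∈ V := by
    intro s v hv
    rw [hV] at hv ⊢
    have h1 := wj_y hyz hv s
    rwa [zpow_neg] at h1
  have hxV : x ∈ V := by
    rw [hV]
    exact wj_self x y z
  rw [← hV] at hVg ⊢
  obtain ⟨E, hE⟩ : ∃ E, E = Subgroup.closure ((gm V (l + 2) : Set X) ∪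
      {g | g ∈ gm V (l + 1) ∧ ∃ d, ¬ d ≡ 2 [MOD p] ∧ Eig r k a d g}) := ⟨_, rfl⟩
  rw [← hE]
  have hEg : gm V (l + 2) ≤ E := by
    rw [hE]
    exact fun g hg => Subgroup.subset_closure (Or.inl hg)
  have hEd : ∀ g ∈ gm V (l + 1), ∀ d, ¬ d ≡ 2 [MOD p] → Eig r k a d g → g ∈ E := by
    intro g hg d hd hgd
    rw [hE]
    exact Subgroup.subset_closure (Or.inr ⟨hg, d, hd, hgd⟩)
  have hmod : ∀ d, d < p → d ≠ 2 → ¬ d ≡ 2 [MOD p] := by
    intro d hd hd2 hcon
    apply hd2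
    have h1 : d % p = 2 % p := hcon
    rwa [Nat.mod_eq_of_lt hd, Nat.mod_eq_of_lt (by omega)] at h1
  -- products with an element of `E`
  have hcan : ∀ c n : X, n ∈ gm V (l + 2) → c * n ∈ E → c ∈ E := by
    intro c n hn hcn
    have h1 : c = c * n * n⁻¹ := by group
    rw [h1]
    exact E.mul_mem hcn (E.inv_mem (hEg hn))
  have hmem : ∀ c n : X, c ∈ gm V (l + 1) → n ∈ gm V (l + 2) → c * n ∈ gm V (l + 1) :=
    fun c n hc hn => Subgroup.mul_mem _ hc (gm_anti V (l + 1) hn)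
  obtain ⟨S, hS⟩ : ∃ S : Set X, S = {e : X | e ∈ gm V l ∧ ∃ i, 1 ≤ i ∧ i < p ∧ Eig r k a i e} := ⟨_, rfl⟩
  have hSsub : S ⊆ gm V l := by
    rw [hS]
    exact fun e he => he.1
  have hSgen : gm V l ≤ Subgroup.closure S := by
    intro e he
    rw [hS]
    exact gen h H (gm_inv hVi l) he
  refine (bil (S := S) (T := {w | ∃ s : ℤ, w = y ^ (-s) * x * y ^ s} ∪ {w | w ∈ V ∧ Eig r k a 1 w}) hSsub
    (hSgen.trans le_sup_left) ?_ ?_).trans ?_
  · rintro w (⟨s, rfl⟩ | ⟨hw, -⟩)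
    · have h1 := hVy s x hxV
      rw [← zpow_neg] at h1
      exact h1
    · exact hw
  · rw [← hVg]
    exact le_sup_left
  · refine sup_le ?_ hEg
    rw [Subgroup.closure_le]
    rintro c ⟨s, hs, t, ht, rfl⟩
    have hsl : s ∈ gm V l := hSsub hs
    rcases ht with ⟨τ, rfl⟩ | ⟨htV, ht1⟩
    · -- conjugates of `x`
      obtain ⟨v, hv⟩ : ∃ v, v = y ^ τ * s * y ^ (-τ) := ⟨_, rfl⟩
      have hvl : v ∈ gm V l := by
        have h1 := gm_conj (V := V) (g := y ^ (-τ)) (fun v hv => hVy (-τ) v hv) l hsl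
        rw [← zpow_neg, neg_neg] at h1
        rw [hv]
        exact h1
      have h1 : s⁻¹ * (y ^ (-τ) * x * y ^ τ)⁻¹ * s * (y ^ (-τ) * x * y ^ τ) =
          (y ^ τ)⁻¹ * (v⁻¹ * x⁻¹ * v * x) * y ^ τ := by
        rw [hv]
        group
      show s⁻¹ * (y ^ (-τ) * x * y ^ τ)⁻¹ * s * (y ^ (-τ) * x * y ^ τ) ∈ E
      rw [h1]
      obtain ⟨E', hE'⟩ : ∃ E' : Subgroup X, ∀ g, g ∈ E' ↔ (y ^ τ)⁻¹ * g * y ^ τ ∈ E := by
        refine ⟨E.comap (MulAut.conj (y ^ τ)⁻¹ : X ≃* X).toMonoidHom, fun g => ?_⟩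
        rw [Subgroup.mem_comap]
        show (MulAut.conj (y ^ τ)⁻¹) g ∈ E ↔ _
        rw [MulAut.conj_apply, inv_inv]
      rw [← hE']
      refine com_cl (V := V) (l := l) (E := E') ?_ hSsub hxV ?_ (hSgen hvl)
      · intro g hg
        rw [hE']
        exact hEg (gm_conj (fun v hv => hVy τ v hv) (l + 2) hg)
      · intro e he
        rw [hE']
        rw [hS] at he
        obtain ⟨hel, d, hd1, hdp, hed⟩ := he
        obtain ⟨n, hn, hc⟩ := lay_eig h H hVi hel hxV hed hx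
        obtain ⟨c, hcdef⟩ : ∃ c, c = e⁻¹ * x⁻¹ * e * x * n := ⟨_, rfl⟩
        rw [← hcdef] at hc
        have hcl : c ∈ gm V (l + 1) := by
          rw [hcdef]
          exact hmem _ _ (gm_com l hel hxV) hn
        have h2 : (y ^ τ)⁻¹ * (e⁻¹ * x⁻¹ * e * x) * y ^ τ = ((y ^ τ)⁻¹ * c * y ^ τ) *
            ((y ^ τ)⁻¹ * n * y ^ τ)⁻¹ := by
          rw [hcdef]
          group
        rw [h2]
        refine E.mul_mem ?_ (E.inv_mem (hEg (gm_conj (fun v hv => hVy τ v hv) (l + 2) hn)))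
        have h6 : d + 2 < p ∨ d + 2 = p ∨ d + 2 = p + 1 := by omega
        rcases h6 with h6 | h6 | h6
        · have h7 := ja_up h H hc (by omega) h6 hy (G := gm V (l + 1))
            (fun g hg => by
              have h8 := gm_conj (V := V) (g := y ^ (1 : ℤ)) (fun v hv => hVy 1 v hv) (l + 1) hg
              rwa [zpow_one] at h8)
            (fun g hg => by
              have h8 := gm_conj (V := V) (g := y ^ (-1 : ℤ)) (fun v hv => hVy (-1) v hv) (l + 1) hg
              rwa [zpow_neg_one, inv_inv] at h8) hcl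
          have h8 := h7 (cj_mem c y τ)
          rw [zpow_neg] at h8
          have h9 : Subgroup.closure ({c} ∪ {g | g ∈ gm V (l + 1) ∧ ∃ d', d + 2 < d' ∧ d' < p ∧
              Eig r k a d' g}) ≤ E := by
            rw [Subgroup.closure_le]
            rintro g (hg | ⟨hg, d', hd', hdp', hgd⟩)
            · rw [Set.mem_singleton_iff.1 hg]
              exact hEd c hcl _ (hmod _ h6 (by omega)) hc
            · exact hEd g hg _ (hmod _ hdp' (by omega)) hgd
          exact h9 h8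
        · have h7 : c = 1 := eig_triv h H (by rw [h6]) hc
          rw [h7, mul_one, inv_mul_cancel]
          exact E.one_mem
        · have h7 : Eig r k a 1 c := by
            refine eig_congr h ?_ hc
            rw [h6, add_comm p 1]
            exact Nat.add_modEq_right
          have h8 : Commute (y ^ τ) c := (hab y c hy h7).zpow_left τ
          have h9 : (y ^ τ)⁻¹ * c * y ^ τ = c := by
            rw [mul_assoc, ← h8.eq, inv_mul_cancel_left]
          rw [h9]
          exact hEd c hcl 1 (hmod 1 (by omega) (by omega)) h7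
    · -- elements of degree 1
      show s⁻¹ * t⁻¹ * s * t ∈ E
      rw [hS] at hs
      obtain ⟨hsl', d, hd1, hdp, hsd⟩ := hs
      by_cases hd : d = 1
      · rw [hd] at hsd
        have h1 : s⁻¹ * t⁻¹ * s * t = 1 := by
          have h2 := (hab s t hsd ht1).eq
          rw [mul_assoc, h2]
          group
        rw [h1]
        exact E.one_mem
      · obtain ⟨n, hn, hc⟩ := lay_eig h H hVi hsl' htV hsd ht1
        refine hcan _ n hn (hEd _ (hmem _ _ (gm_com l hsl' htV) hn) (d + 1) ?_ hc)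
        intro hcon
        have h1 : d ≡ 1 [MOD p] := Nat.ModEq.add_right_cancel' 1 hcon
        apply hd
        have h2 : d % p = 1 % p := h1
        rwa [Nat.mod_eq_of_lt hdp, Nat.mod_eq_of_lt (by omega)] at h2

theorem wj_two (h : Root p r k) (H : Hyp p r a) (hab : ∀ v w : X, Eig r k a 1 v → Eig r k a 1 w → Commute v w)
    {x y z : X} (hx : Eig r k a 2 x) (hy : Eig r k a 1 y) (hz : Eig r k a (p - 1) z)
    (hf : ((Subgroup.closure ({x, y, z} : Set X) : Subgroup X) : Set X).Finite) {w : X}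
    (hw : w ∈ gm (Wj x y z) 1) (hw2 : Eig r k a 2 w) : w = 1 := by
  have hVi : Inv a (Wj x y z) := wj_inv h H hx hy hz
  have key : ∀ l, w ∈ gm (Wj x y z) (l + 1) := by
    intro l
    induction l with
    | zero => exact hw
    | succ l ih =>
      exact dir h H (gm_inv hVi (l + 1)) (gm_inv hVi (l + 2)) (gm_anti _ (l + 1))
        (fun u hu v hv => gm_ab (l + 1) hu hv) hw2 ih (wj_lay h H hab hx hy hz l ih)
  obtain ⟨l, hl⟩ := gm_bot h.prime (V := Wj x y z) (hf.subset (wj_le x y z)) (fun v _ => H.tors v)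
  have h1 := gm_anti _ l (key l)
  rw [hl] at h1
  exact Subgroup.mem_bot.1 h1

end Pool.Agent.FRS
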