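import Pool.Agent.FRS.FM1
import Pool.Agent.FRS.RulA

/-!
# FRS/FM2: the elements of degree 3 of `Cj x y` commute with `z`

Notation of `FRS/FM1`: `V = Wj x y z`, `G = gm V 1`, `x^g = g⁻¹ x g`.

`fm_x`: `E₁ = closure {g ∈ V of degree 1} ⊔ G` is invariant, normal in `V` (it contains `G ≥ [V,V]`), normalised by `z`
(elements of degree 1 commute with `z`, `G` is normalised by `z`: `gm_conj`).  `x^z ∈ Cj x z ≤ zpowers x ⊔ E₁`
(`Str 2 (p-1) x z n e`, `n ≤ 1`, `e 1` of degree `p + 1`, i.e. 1), so `x⁻¹ x^z ∈ E₁` by `norm1q`.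
`fm_g`: for `g ∈ E₁`: `g⁻¹ g^y ∈ G` (true for `g ∈ V` of degree 1 by `hab`, and for `g ∈ G`; the set of such `g ∈ V` is a
subgroup because `V` modulo `G` is commutative).
`P = {v ∈ V | v⁻¹ v^z ∈ G}` is a subgroup containing `G` (so normal in `V`), normalised by `y` (`y, z` commute), and
invariant (`a z = z^m`, `z` is a power of `z^m`).
`fm_p`: `[x, y] = x⁻¹ x^y ∈ P`: `x^z = x g`, `g ∈ E₁`, so `(x⁻¹ x^y)^z = (x^z)⁻¹ (x^z)^y = g⁻¹ x⁻¹ x^y g^y ≡ x⁻¹ x^y (g⁻¹ g^y)`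
modulo `G`, and `g⁻¹ g^y ∈ G`.
`fm_e`: `e ∈ Cj x y` of degree 3 is in `P`: `x⁻¹ (y^(-s) x y^s) ∈ P` for all `s` (`P` is normalised by `y` and normal in `V`),
so `Cj x y ≤ closure ({x} ∪ P)`, `x` has degree 2, and `dir` with `C = V`, `E = P` applies.
`fm_d`: `e` has degree 3 and `e⁻¹ e^z ∈ G`.  `Str 3 (p-1) e z n e'`; if `n ≥ 1` then `e' 1 ≠ 1` has degree `3 + (p-1)`, i.e.
2, and lies in `Cj e z ≤ closure (G ∪ {e})` (`e^(z^t) ∈ e G`), so `e' 1 ∈ G` by `dir` (`C = V`, `E = G`), so `e' 1 = 1` by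
`wj_two`, a contradiction.  So `n = 0` and `e` commutes with `z` (`cj_one`).
-/

set_option autoImplicit false

namespace Pool.Agent.FRS

open Pool.Agent.FRB (Inv Eig LF SS Lam)

universe u

variable {p r k : ℕ} {X : Type u} [Group X] {a : MulAut X}

/-! ### the elements whose commutator with `u` lies in `G` -/

private def SU (G : Subgroup X) (u : X) : Subgroup X where
  carrier := {w | (∀ g ∈ G, w⁻¹ * g * w ∈ G) ∧ (∀ g ∈ G, w * g * w⁻¹ ∈ G) ∧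
    u⁻¹ * w⁻¹ * u * w ∈ G}
  one_mem' := by
    refine ⟨fun g hg => ?_, fun g hg => ?_, ?_⟩
    · simpa using hg
    · simpa using hg
    · simp
  mul_mem' := by
    rintro v w ⟨v1, v2, v3⟩ ⟨w1, w2, w3⟩
    refine ⟨fun g hg => ?_, fun g hg => ?_, ?_⟩
    · have : (v * w)⁻¹ * g * (v * w) = w⁻¹ * (v⁻¹ * g * v) * w := by group
      rw [this]
      exact w1 _ (v1 _ hg)
    · have : (v * w) * g * (v * w)⁻¹ = v * (w * g * w⁻¹) * v⁻¹ := by group
      rw [this]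
      exact v2 _ (w2 _ hg)
    · have : u⁻¹ * (v * w)⁻¹ * u * (v * w) =
          (u⁻¹ * w⁻¹ * u * w) * (w⁻¹ * (u⁻¹ * v⁻¹ * u * v) * w) := by group
      rw [this]
      exact G.mul_mem w3 (w1 _ v3)
  inv_mem' := by
    rintro w ⟨w1, w2, w3⟩
    refine ⟨fun g hg => ?_, fun g hg => ?_, ?_⟩
    · have : (w⁻¹)⁻¹ * g * w⁻¹ = w * g * w⁻¹ := by group
      rw [this]
      exact w2 _ hg
    · have : w⁻¹ * g * (w⁻¹)⁻¹ = w⁻¹ * g * w := by group
      rw [this]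
      exact w1 _ hg
    · have : u⁻¹ * (w⁻¹)⁻¹ * u * w⁻¹ = w * (u⁻¹ * w⁻¹ * u * w)⁻¹ * w⁻¹ := by group
      rw [this]
      exact w2 _ (G.inv_mem w3)

private theorem mem_SU {G : Subgroup X} {u w : X} : w ∈ SU G u ↔ (∀ g ∈ G, w⁻¹ * g * w ∈ G) ∧
    (∀ g ∈ G, w * g * w⁻¹ ∈ G) ∧ u⁻¹ * w⁻¹ * u * w ∈ G := Iff.rfl

private theorem SU_zpow {G : Subgroup X} {u w : X} (h1 : ∀ g ∈ G, w⁻¹ * g * w ∈ G)
    (h2 : ∀ g ∈ G, w * g * w⁻¹ ∈ G) (h3 : u⁻¹ * w⁻¹ * u * w ∈ G) (t : ℤ) :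
    u⁻¹ * (w ^ (-t) * u * w ^ t) ∈ G := by
  have h4 : w ^ t ∈ SU G u := (SU G u).zpow_mem (mem_SU.2 ⟨h1, h2, h3⟩) t
  have h5 := (mem_SU.1 h4).2.2
  have h6 : u⁻¹ * (w ^ (-t) * u * w ^ t) = u⁻¹ * (w ^ t)⁻¹ * u * w ^ t := by
    rw [zpow_neg]
    group
  rw [h6]
  exact h5

/-! ### the subgroup of the elements of `V` commuting with `w` modulo `gm V 1` -/

private def PW (V : Subgroup X) (w : X) : Subgroup X where
  carrier := {v | v ∈ V ∧ v⁻¹ * (w⁻¹ * v * w) ∈ gm V 1}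
  one_mem' := ⟨V.one_mem, by
    have : (1 : X)⁻¹ * (w⁻¹ * 1 * w) = 1 := by group
    rw [this]
    exact Subgroup.one_mem _⟩
  mul_mem' := by
    rintro u v ⟨hu, hu'⟩ ⟨hv, hv'⟩
    refine ⟨V.mul_mem hu hv, ?_⟩
    have : (u * v)⁻¹ * (w⁻¹ * (u * v) * w) =
        (v⁻¹ * (u⁻¹ * (w⁻¹ * u * w)) * v) * (v⁻¹ * (w⁻¹ * v * w)) := by group
    rw [this]
    exact Subgroup.mul_mem _ (gm_norm V 1 hv hu') hv'
  inv_mem' := by
    rintro v ⟨hv, hv'⟩
    refine ⟨V.inv_mem hv, ?_⟩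
    have : (v⁻¹)⁻¹ * (w⁻¹ * v⁻¹ * w) = (v⁻¹)⁻¹ * (v⁻¹ * (w⁻¹ * v * w))⁻¹ * v⁻¹ := by group
    rw [this]
    exact gm_norm V 1 (V.inv_mem hv) (Subgroup.inv_mem _ hv')

private theorem mem_PW {V : Subgroup X} {w v : X} :
    v ∈ PW V w ↔ v ∈ V ∧ v⁻¹ * (w⁻¹ * v * w) ∈ gm V 1 := Iff.rfl

private theorem gm_PW {V : Subgroup X} {w : X} (hw : ∀ v ∈ V, w⁻¹ * v * w ∈ V) : gm V 1 ≤ PW V w :=
  fun _ hg => mem_PW.2 ⟨gm_le V 1 hg,
    Subgroup.mul_mem _ (Subgroup.inv_mem _ hg) (gm_conj hw 1 hg)⟩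

private theorem com_gm {V : Subgroup X} {u v : X} (hu : u ∈ V) (hv : v ∈ V) :
    u⁻¹ * v⁻¹ * u * v ∈ gm V 1 := gm_com 0 hu hv

/-! ### `y` and `z` normalise `V` -/

private theorem w_y1 {x y z : X} (hyz : Commute y z) : ∀ v ∈ Wj x y z, y⁻¹ * v * y ∈ Wj x y z :=
  fun v hv => by
    have := wj_y hyz hv 1
    rwa [zpow_neg, zpow_one] at this

private theorem w_y2 {x y z : X} (hyz : Commute y z) : ∀ v ∈ Wj x y z, y * v * y⁻¹ ∈ Wj x y z :=
  fun v hv => by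
    have := wj_y hyz hv (-1)
    rwa [neg_neg, zpow_neg, zpow_one] at this

private theorem w_z1 {x y z : X} (hyz : Commute y z) : ∀ v ∈ Wj x y z, z⁻¹ * v * z ∈ Wj x y z :=
  fun v hv => by
    have := wj_z hyz hv 1
    rwa [zpow_neg, zpow_one] at this

private theorem w_z2 {x y z : X} (hyz : Commute y z) : ∀ v ∈ Wj x y z, z * v * z⁻¹ ∈ Wj x y z :=
  fun v hv => by
    have := wj_z hyz hv (-1)
    rwa [neg_neg, zpow_neg, zpow_one] at this

private theorem gm_conj' {V : Subgroup X} {g : X} (hg : ∀ v ∈ V, g * v * g⁻¹ ∈ V) (l : ℕ) {x : X}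
    (hx : x ∈ gm V l) : g * x * g⁻¹ ∈ gm V l := by
  have h1 : ∀ v ∈ V, (g⁻¹)⁻¹ * v * g⁻¹ ∈ V := by
    intro v hv
    rw [inv_inv]
    exact hg v hv
  have := gm_conj h1 l hx
  rwa [inv_inv] at this

private theorem fm_yz (h : Root p r k) (H : Hyp p r a) {y z : X} (hy : Eig r k a 1 y)
    (hz : Eig r k a (p - 1) z) : Commute y z :=
  comm_opp h H (by
    have := h.five
    rw [show 1 + (p - 1) = p by omega]) hy hz

private theorem cjx_le {x y z : X} (hyz : Commute y z) {e : X} (he : e ∈ Wj x y z) :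
    Cj e z ≤ Wj x y z := by
  refine (Subgroup.closure_le _).2 ?_
  rintro v ⟨t, rfl⟩
  exact wj_z hyz he t

private theorem cjy_le {x y z : X} (hyz : Commute y z) {e : X} (he : e ∈ Wj x y z) :
    Cj e y ≤ Wj x y z := by
  refine (Subgroup.closure_le _).2 ?_
  rintro v ⟨t, rfl⟩
  exact wj_y hyz he t

/-- the subgroup generated by `gm V 1` and the elements of degree 1 -/
private def EO (r k : ℕ) (a : MulAut X) (V : Subgroup X) : Subgroup X :=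
  Subgroup.closure ({g | g ∈ V ∧ Eig r k a 1 g} ∪ (gm V 1 : Set X))

private theorem EO_le (V : Subgroup X) : EO r k a V ≤ V := by
  refine (Subgroup.closure_le _).2 ?_
  rintro g (hg | hg)
  · exact hg.1
  · exact gm_le V 1 hg

private theorem gm_EO (V : Subgroup X) : gm V 1 ≤ EO r k a V := fun _ hg =>
  Subgroup.subset_closure (Or.inr hg)

private theorem fm_x (h : Root p r k) (H : Hyp p r a)
    {x y z : X} (hx : Eig r k a 2 x) (hy : Eig r k a 1 y) (hz : Eig r k a (p - 1) z) :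
    x⁻¹ * (z⁻¹ * x * z) ∈ EO r k a (Wj x y z) := by
  have hp5 := h.five
  have hyz := fm_yz h H hy hz
  obtain ⟨n, e, hS⟩ := str_exists h H hx hz
  have hn : n ≤ 1 := by
    by_contra hcon
    have h2 : Eig r k a (2 + 2 * (p - 1)) (e 2) := hS.eig 2 (by omega)
    exact hS.ne 2 (by omega) (by norm_num) (eig_triv h H ⟨2, by omega⟩ h2)
  have hle : Cj x z ≤ Subgroup.zpowers x ⊔ EO r k a (Wj x y z) := by
    rw [hS.gen]
    refine (Subgroup.closure_le _).2 ?_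
    rintro v ⟨l, hl, rfl⟩
    have hl2 : l = 0 ∨ l = 1 := by omega
    rcases hl2 with rfl | rfl
    · rw [hS.zero]
      exact Subgroup.mem_sup_left (Subgroup.mem_zpowers x)
    · refine Subgroup.mem_sup_right (Subgroup.subset_closure (Or.inl ⟨?_, ?_⟩))
      · exact cjx_le hyz (wj_self x y z) (hS.mem 1 hl)
      · refine eig_congr h (i := 2 + 1 * (p - 1)) ?_ (hS.eig 1 hl)
        have e1 : 2 + 1 * (p - 1) = 1 + p := by omega
        rw [e1]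
        exact Nat.add_modEq_right
  have hzx : z⁻¹ * x * z ∈ Cj x z := cj_conj1 x z (cj_self x z)
  refine norm1q h H hx hz ?_ ?_ ?_ ?_ (hle hzx)
  · intro hd
    have := Nat.le_of_dvd (by omega) hd
    omega
  · refine Pool.Agent.FRB.inv_closure ?_
    rintro g (hg | hg)
    · exact Subgroup.subset_closure (Or.inl ⟨wj_inv h H hx hy hz g hg.1, eig_app h hg.2⟩)
    · exact Subgroup.subset_closure (Or.inr (gm_inv (wj_inv h H hx hy hz) 1 g hg))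
  · intro g hg
    have e1 : x⁻¹ * g * x = g * (g⁻¹ * x⁻¹ * g * x) := by group
    rw [e1]
    exact Subgroup.mul_mem _ hg (gm_EO _ (com_gm (EO_le _ hg) (wj_self x y z)))
  · intro g hg
    unfold EO at hg
    induction hg using Subgroup.closure_induction with
    | mem g hg =>
      rcases hg with hg | hg
      · have hgz := fm_yz h H hg.2 hz
        have e1 : z⁻¹ * g * z = g := by
          rw [mul_assoc, hgz.eq]
          group
        rw [e1]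
        exact Subgroup.subset_closure (Or.inl hg)
      · exact gm_EO _ (gm_conj (w_z1 hyz) 1 hg)
    | one =>
      have : z⁻¹ * 1 * z = 1 := by group
      rw [this]
      exact Subgroup.one_mem _
    | mul u v _ _ hu hv =>
      have : z⁻¹ * (u * v) * z = (z⁻¹ * u * z) * (z⁻¹ * v * z) := by group
      rw [this]
      exact Subgroup.mul_mem _ hu hv
    | inv u _ hu =>
      have : z⁻¹ * u⁻¹ * z = (z⁻¹ * u * z)⁻¹ := by group
      rw [this]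
      exact Subgroup.inv_mem _ hu

private theorem fm_g (h : Root p r k) (H : Hyp p r a)
    (hab : ∀ v w : X, Eig r k a 1 v → Eig r k a 1 w → Commute v w)
    {x y z : X} (hy : Eig r k a 1 y) (hz : Eig r k a (p - 1) z) :
    EO r k a (Wj x y z) ≤ PW (Wj x y z) y := by
  have hyz := fm_yz h H hy hz
  refine (Subgroup.closure_le _).2 ?_
  rintro g (hg | hg)
  · refine mem_PW.2 ⟨hg.1, ?_⟩
    have hgy := hab g y hg.2 hy
    have e1 : g⁻¹ * (y⁻¹ * g * y) = 1 := by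
      rw [mul_assoc y⁻¹, hgy.eq]
      group
    rw [e1]
    exact Subgroup.one_mem _
  · exact gm_PW (w_y1 hyz) hg

theorem fm_p (h : Root p r k) (H : Hyp p r a) (hab : ∀ v w : X, Eig r k a 1 v → Eig r k a 1 w → Commute v w)
    {x y z : X} (hx : Eig r k a 2 x) (hy : Eig r k a 1 y) (hz : Eig r k a (p - 1) z) :
    (x⁻¹ * (y⁻¹ * x * y))⁻¹ * (z⁻¹ * (x⁻¹ * (y⁻¹ * x * y)) * z) ∈ gm (Wj x y z) 1 := by
  have hyz := fm_yz h H hy hz
  have hg := fm_x h H hx hy hz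
  obtain ⟨g, hgd⟩ : ∃ g, g = x⁻¹ * (z⁻¹ * x * z) := ⟨_, rfl⟩
  rw [← hgd] at hg
  have hgV : g ∈ Wj x y z := EO_le _ hg
  have hgP := (mem_PW.1 (fm_g h H hab hy hz hg)).2
  have hxV := wj_self x y z
  obtain ⟨d, hd⟩ : ∃ d, d = x⁻¹ * (y⁻¹ * x * y) := ⟨_, rfl⟩
  have hdV : d ∈ Wj x y z := by
    rw [hd]
    exact Subgroup.mul_mem _ (Subgroup.inv_mem _ hxV) (w_y1 hyz x hxV)
  rw [← hd]
  have hxz : z⁻¹ * x * z = x * g := by rw [hgd]; group
  have e1 : z⁻¹ * d * z = g⁻¹ * d * (y⁻¹ * g * y) := by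
    have e2 : z⁻¹ * d * z = (z⁻¹ * x * z)⁻¹ * (z⁻¹ * (y⁻¹ * x * y) * z) := by
      rw [hd]; group
    have e3 : z⁻¹ * (y⁻¹ * x * y) * z = y⁻¹ * (z⁻¹ * x * z) * y := by
      have c1 : z⁻¹ * y⁻¹ = y⁻¹ * z⁻¹ := by
        rw [← mul_inv_rev, ← mul_inv_rev, hyz.eq]
      calc z⁻¹ * (y⁻¹ * x * y) * z = (z⁻¹ * y⁻¹) * x * (y * z) := by group
        _ = (y⁻¹ * z⁻¹) * x * (z * y) := by rw [c1, hyz.eq]
        _ = y⁻¹ * (z⁻¹ * x * z) * y := by group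
    rw [e2, e3, hxz, hd]
    group
  rw [e1]
  have e4 : d⁻¹ * (g⁻¹ * d * (y⁻¹ * g * y)) = (d⁻¹ * g⁻¹ * d * g) * (g⁻¹ * (y⁻¹ * g * y)) := by
    group
  rw [e4]
  exact Subgroup.mul_mem _ (com_gm hdV hgV) hgP

private theorem PW_conj {x y z : X} (hyz : Commute y z) {v : X} (hv : v ∈ PW (Wj x y z) z) :
    y⁻¹ * v * y ∈ PW (Wj x y z) z ∧ y * v * y⁻¹ ∈ PW (Wj x y z) z := by
  have c1 : z⁻¹ * y⁻¹ = y⁻¹ * z⁻¹ := by
    rw [← mul_inv_rev, ← mul_inv_rev, hyz.eq]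
  have c2 : z⁻¹ * y = y * z⁻¹ := by
    have := hyz.inv_right.eq
    exact this.symm
  have c3 : y⁻¹ * z = z * y⁻¹ := hyz.inv_left.eq
  refine ⟨mem_PW.2 ⟨w_y1 hyz v hv.1, ?_⟩, mem_PW.2 ⟨w_y2 hyz v hv.1, ?_⟩⟩
  · have e1 : (y⁻¹ * v * y)⁻¹ * (z⁻¹ * (y⁻¹ * v * y) * z) = y⁻¹ * (v⁻¹ * (z⁻¹ * v * z)) * y := by
      calc (y⁻¹ * v * y)⁻¹ * (z⁻¹ * (y⁻¹ * v * y) * z)
          = y⁻¹ * v⁻¹ * y * ((z⁻¹ * y⁻¹) * v * (y * z)) := by group
        _ = y⁻¹ * v⁻¹ * y * ((y⁻¹ * z⁻¹) * v * (z * y)) := by rw [c1, hyz.eq]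
        _ = y⁻¹ * (v⁻¹ * (z⁻¹ * v * z)) * y := by group
    rw [e1]
    exact gm_conj (w_y1 hyz) 1 hv.2
  · have e1 : (y * v * y⁻¹)⁻¹ * (z⁻¹ * (y * v * y⁻¹) * z) = y * (v⁻¹ * (z⁻¹ * v * z)) * y⁻¹ := by
      calc (y * v * y⁻¹)⁻¹ * (z⁻¹ * (y * v * y⁻¹) * z)
          = y * v⁻¹ * y⁻¹ * ((z⁻¹ * y) * v * (y⁻¹ * z)) := by group
        _ = y * v⁻¹ * y⁻¹ * ((y * z⁻¹) * v * (z * y⁻¹)) := by rw [c2, c3]
        _ = y * (v⁻¹ * (z⁻¹ * v * z)) * y⁻¹ := by group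
    rw [e1]
    exact gm_conj' (w_y2 hyz) 1 hv.2

private theorem PW_inv (h : Root p r k) (H : Hyp p r a)
    {x y z : X} (hx : Eig r k a 2 x) (hy : Eig r k a 1 y) (hz : Eig r k a (p - 1) z) :
    Inv a (PW (Wj x y z) z) := by
  have hyz := fm_yz h H hy hz
  have hVi := wj_inv h H hx hy hz
  intro v hv
  have hav : a v ∈ Wj x y z := hVi v hv.1
  refine mem_PW.2 ⟨hav, ?_⟩
  have h1 := gm_inv hVi 1 _ hv.2
  have e1 : a (v⁻¹ * (z⁻¹ * v * z)) = (a v)⁻¹ * (a z)⁻¹ * a v * a z := by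
    rw [map_mul, map_mul, map_mul, map_inv, map_inv]
    group
  rw [e1] at h1
  obtain ⟨m, hm⟩ := Subgroup.mem_zpowers_iff.1 (eig_mem hz)
  have haz1 : ∀ g ∈ gm (Wj x y z) 1, (a z)⁻¹ * g * a z ∈ gm (Wj x y z) 1 := by
    intro g hg
    refine gm_conj (g := a z) (fun u hu => ?_) 1 hg
    have := wj_z hyz hu m
    rw [zpow_neg, hm] at this
    exact this
  have haz2 : ∀ g ∈ gm (Wj x y z) 1, a z * g * (a z)⁻¹ ∈ gm (Wj x y z) 1 := by
    intro g hg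
    refine gm_conj' (g := a z) (fun u hu => ?_) 1 hg
    have := wj_z hyz hu (-m)
    rw [neg_neg, zpow_neg, hm] at this
    exact this
  obtain ⟨q, hq⟩ := Subgroup.mem_zpowers_iff.1 (eig_mem' h hz)
  have h2 := SU_zpow haz1 haz2 h1 q
  rw [zpow_neg, hq] at h2
  exact h2

theorem fm_e (h : Root p r k) (H : Hyp p r a) (hab : ∀ v w : X, Eig r k a 1 v → Eig r k a 1 w → Commute v w)
    {x y z : X} (hx : Eig r k a 2 x) (hy : Eig r k a 1 y) (hz : Eig r k a (p - 1) z) {e : X} (he : e ∈ Cj x y)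
    (he3 : Eig r k a 3 e) : e⁻¹ * (z⁻¹ * e * z) ∈ gm (Wj x y z) 1 := by
  have hp5 := h.five
  have hyz := fm_yz h H hy hz
  have hxV := wj_self x y z
  have hVi := wj_inv h H hx hy hz
  have hGP : gm (Wj x y z) 1 ≤ PW (Wj x y z) z := gm_PW (w_z1 hyz)
  have hdP : x⁻¹ * (y⁻¹ * x * y) ∈ PW (Wj x y z) z :=
    mem_PW.2 ⟨Subgroup.mul_mem _ (Subgroup.inv_mem _ hxV) (w_y1 hyz x hxV), fm_p h H hab hx hy hz⟩
  have hs : ∀ s : ℤ, x⁻¹ * (y ^ (-s) * x * y ^ s) ∈ PW (Wj x y z) z := by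
    refine SU_zpow (fun g hg => (PW_conj hyz hg).1) (fun g hg => (PW_conj hyz hg).2) ?_
    have e1 : x⁻¹ * y⁻¹ * x * y = x⁻¹ * (y⁻¹ * x * y) := by group
    rw [e1]
    exact hdP
  have heP : e ∈ PW (Wj x y z) z := by
    refine dir h H hVi (PW_inv h H hx hy hz) (fun v hv => hv.1)
      (fun u hu v hv => hGP (com_gm hu hv)) he3 (cjy_le hyz hxV he) ?_
    refine (?_ : Cj x y ≤ _) he
    refine (Subgroup.closure_le _).2 ?_
    rintro v ⟨t, rfl⟩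
    have e1 : y ^ (-t) * x * y ^ t = x * (x⁻¹ * (y ^ (-t) * x * y ^ t)) := by group
    rw [e1]
    refine Subgroup.mul_mem _ (Subgroup.subset_closure (Or.inr ⟨hxV, 2, ?_, hx⟩))
      (Subgroup.subset_closure (Or.inl (hs t)))
    intro hmod
    have := Nat.ModEq.eq_of_lt_of_lt hmod (by omega) (by omega)
    omega
  exact heP.2

theorem fm_d (h : Root p r k) (H : Hyp p r a) (hab : ∀ v w : X, Eig r k a 1 v → Eig r k a 1 w → Commute v w)
    {x y z : X} (hx : Eig r k a 2 x) (hy : Eig r k a 1 y) (hz : Eig r k a (p - 1) z)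
    (hf : ((Subgroup.closure ({x, y, z} : Set X) : Subgroup X) : Set X).Finite) {e : X} (he : e ∈ Cj x y)
    (he3 : Eig r k a 3 e) : Commute e z := by
  have hp5 := h.five
  have hyz := fm_yz h H hy hz
  have hxV := wj_self x y z
  have hVi := wj_inv h H hx hy hz
  have heV : e ∈ Wj x y z := cjy_le hyz hxV he
  have heG := fm_e h H hab hx hy hz he he3
  obtain ⟨n, e', hS⟩ := str_exists h H he3 hz
  rcases Nat.eq_zero_or_pos n with rfl | hn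
  · exact cj_one h H he3 hz hS
  · exfalso
    have h2 : Eig r k a 2 (e' 1) := by
      refine eig_congr h (i := 3 + 1 * (p - 1)) ?_ (hS.eig 1 hn)
      have e1 : 3 + 1 * (p - 1) = 2 + p := by omega
      rw [e1]
      exact Nat.add_modEq_right
    have h3 : e' 1 ∈ Cj e z := hS.mem 1 hn
    have h4 : e' 1 ∈ gm (Wj x y z) 1 := by
      refine dir h H hVi (gm_inv hVi 1) (gm_le _ 1) (fun u hu v hv => com_gm hu hv) h2
        (cjx_le hyz heV h3) ?_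
      refine (?_ : Cj e z ≤ _) h3
      refine (Subgroup.closure_le _).2 ?_
      rintro v ⟨t, rfl⟩
      have e1 : z ^ (-t) * e * z ^ t = e * (e⁻¹ * (z ^ (-t) * e * z ^ t)) := by group
      rw [e1]
      refine Subgroup.mul_mem _ (Subgroup.subset_closure (Or.inr ⟨heV, 3, ?_, he3⟩))
        (Subgroup.subset_closure (Or.inl ?_))
      · intro hmod
        have := Nat.ModEq.eq_of_lt_of_lt hmod (by omega) (by omega)
        omega
      · refine SU_zpow (fun g hg => gm_conj (w_z1 hyz) 1 hg) (fun g hg => gm_conj' (w_z2 hyz) 1 hg)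
          ?_ t
        have e2 : e⁻¹ * z⁻¹ * e * z = e⁻¹ * (z⁻¹ * e * z) := by group
        rw [e2]
        exact heG
    exact hS.ne 1 hn le_rfl (wj_two h H hab hx hy hz hf h4 h2)

end Pool.Agent.FRS
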