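import Pool.Agent.FRS.FM2
import Pool.Agent.FRS.FA

/-!
# FRS/FM3: `Bb` is a maximal locally finite invariant subgroup
-/

set_option autoImplicit false

namespace Pool.Agent.FRS

open Pool.Agent.FRB (Inv Eig LF SS Lam)

universe u

variable {p r k : ℕ} {X : Type u} [Group X] {a : MulAut X}

private theorem nd {p n : ℕ} (h0 : 0 < n) (h1 : n < p) : ¬ p ∣ n := fun h => by
  have := Nat.le_of_dvd h0 h
  omega

private theorem nmod {p i j : ℕ} (hi : i < p) (hj : j < p) (hij : i ≠ j) : ¬ i ≡ j [MOD p] := fun h => by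
  have h1 : i % p = j % p := h
  rw [Nat.mod_eq_of_lt hi, Nat.mod_eq_of_lt hj] at h1
  exact hij h1

theorem fm_two (hS2 : S2.{u} p) (h : Root p r k) (H : Hyp p r a) (hSS : SS a (⊤ : Subgroup X)) {M : Subgroup X}
    (hMf : LF M) (hB : Bb p r k a ≤ M) {x : X} (hx : x ∈ M) (hx2 : Eig r k a 2 x) : x = 1 := by
  have h5 := h.five
  have hab : ∀ v w : X, Eig r k a 1 v → Eig r k a 1 w → Commute v w := fun v w hv hw =>
    fa_same hS2 h H hSS hv hw
  refine fa_s2 hS2 h H hSS (i := 2) (j := 1) (nd (by norm_num) (by omega)) (nd (by norm_num) (by omega))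
    (nd (by norm_num) (by omega)) (nmod (by omega) (by omega) (by norm_num)) hx2 fun y hy => ?_
  obtain ⟨n, e, hS⟩ := str_exists h H hx2 hy
  rcases Nat.eq_zero_or_pos n with hn | hn
  · rw [hn] at hS
    exact cj_one h H hx2 hy hS
  · exfalso
    refine hS.ne 1 hn le_rfl ?_
    have he3 : Eig r k a 3 (e 1) := hS.eig 1 hn
    have hyM : y ∈ M := hB (Subgroup.subset_closure (Or.inl hy))
    refine fa_s2 hS2 h H hSS (i := 3) (j := p - 1) (nd (by norm_num) (by omega)) (nd (by omega) (by omega))
      ?_ (nmod (by omega) (by omega) (by omega)) he3 fun z hz => ?_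
    · intro hd
      have h6 : 3 + (p - 1) = 2 + p := by omega
      rw [h6] at hd
      exact nd (by norm_num) (by omega) ((Nat.dvd_add_left (dvd_refl p)).1 hd)
    · have hzM : z ∈ M := hB (Subgroup.subset_closure (Or.inr hz))
      have hf : ((Subgroup.closure ({x, y, z} : Set X) : Subgroup X) : Set X).Finite := by
        classical
        have h7 := hMf {x, y, z} (by
          intro w hw
          simp only [Finset.coe_insert, Finset.coe_singleton, Set.mem_insert_iff,
            Set.mem_singleton_iff] at hw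
          rcases hw with rfl | rfl | rfl
          · exact hx
          · exact hyM
          · exact hzM)
        simpa only [Finset.coe_insert, Finset.coe_singleton] using h7
      exact fm_d h H hab hx2 hy hz hf (hS.mem 1 hn) he3

theorem fm_all (hS2 : S2.{u} p) (h : Root p r k) (H : Hyp p r a) (hSS : SS a (⊤ : Subgroup X)) {M : Subgroup X}
    (hMf : LF M) (hB : Bb p r k a ≤ M) (s : ℕ) (hs : 2 ≤ s) : s + 2 ≤ p → ∀ x ∈ M, Eig r k a s x → x = 1 := by
  have h5 := h.five
  induction s, hs using Nat.le_induction with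
  | base => exact fun _ x hx hx2 => fm_two hS2 h H hSS hMf hB hx hx2
  | succ s hs ih =>
    intro hsp x hx hxs
    refine fa_s2 hS2 h H hSS (i := s + 1) (j := p - 1) (nd (by omega) (by omega))
      (nd (by omega) (by omega)) ?_ (nmod (by omega) (by omega) (by omega)) hxs fun z hz => ?_
    · intro hd
      have h6 : s + 1 + (p - 1) = s + p := by omega
      rw [h6] at hd
      exact nd (by omega) (by omega) ((Nat.dvd_add_left (dvd_refl p)).1 hd)
    · obtain ⟨n, e, hS⟩ := str_exists h H hxs hz
      rcases Nat.eq_zero_or_pos n with hn | hn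
      · rw [hn] at hS
        exact cj_one h H hxs hz hS
      · exfalso
        have hzM : z ∈ M := hB (Subgroup.subset_closure (Or.inr hz))
        refine hS.ne 1 hn le_rfl (ih (by omega) (e 1) ?_ ?_)
        · refine cj_sub hx (fun w hw => ?_) (fun w hw => ?_) (hS.mem 1 hn)
          · exact Subgroup.mul_mem _ (Subgroup.mul_mem _ (Subgroup.inv_mem _ hzM) hw) hzM
          · exact Subgroup.mul_mem _ (Subgroup.mul_mem _ hzM hw) (Subgroup.inv_mem _ hzM)
        · refine eig_congr h ?_ (hS.eig 1 hn)
          have h6 : s + 1 + 1 * (p - 1) = s + p := by omega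
          rw [h6]
          show (s + p) % p = s % p
          exact Nat.add_mod_right s p

theorem bb_max (hS2 : S2.{u} p) (h : Root p r k) (H : Hyp p r a) (hSS : SS a (⊤ : Subgroup X)) {M : Subgroup X}
    (hM : Inv a M) (hMf : LF M) (hB : Bb p r k a ≤ M) : M ≤ Bb p r k a := by
  intro x hx
  refine (Subgroup.closure_le _).2 ?_ (gen h H hM hx)
  rintro y ⟨hy, i, hi1, hip, hi⟩
  by_cases h1 : i = 1
  · rw [h1] at hi
    exact Subgroup.subset_closure (Or.inl hi)
  by_cases h2 : i = p - 1
  · rw [h2] at hi
    exact Subgroup.subset_closure (Or.inr hi)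
  rw [fm_all hS2 h H hSS hMf hB i (by omega) (by omega) y hy hi]
  exact Subgroup.one_mem _

end Pool.Agent.FRS
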