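import Pool.Agent.FRS.EigB

/-!
# FRS/FrB: the subgroup `Fr r V` generated by the `r`-th powers and commutators of `V`

`fr_gen` is the Burnside basis theorem: every maximal subgroup of a finite `r`-group is normal, with a cyclic quotient
of order `r`.
-/

set_option autoImplicit false

namespace Pool.Agent.FRS

open Pool.Agent.FRB (Inv Eig LF SS Lam)

universe u

variable {p r k : ℕ} {X : Type u} [Group X] {a : MulAut X}

theorem fr_le (r : ℕ) (V : Subgroup X) : Fr r V ≤ V := by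
  unfold Fr
  rw [Subgroup.closure_le]
  rintro x (⟨v, hv, rfl⟩ | ⟨v, hv, w, hw, rfl⟩)
  · exact V.pow_mem hv r
  · exact V.mul_mem (V.mul_mem (V.mul_mem (V.inv_mem hv) (V.inv_mem hw)) hv) hw

theorem fr_pow {V : Subgroup X} {v : X} (hv : v ∈ V) : v ^ r ∈ Fr r V :=
  Subgroup.subset_closure (Or.inl ⟨v, hv, rfl⟩)

theorem fr_com {V : Subgroup X} {v w : X} (hv : v ∈ V) (hw : w ∈ V) : v⁻¹ * w⁻¹ * v * w ∈ Fr r V :=
  Subgroup.subset_closure (Or.inr ⟨v, hv, w, hw, rfl⟩)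

theorem fr_conj {V : Subgroup X} {g : X} (hg : ∀ v ∈ V, g⁻¹ * v * g ∈ V) {x : X} (hx : x ∈ Fr r V) :
    g⁻¹ * x * g ∈ Fr r V := by
  unfold Fr at hx
  induction hx using Subgroup.closure_induction with
  | mem x hx =>
    rcases hx with ⟨v, hv, rfl⟩ | ⟨v, hv, w, hw, rfl⟩
    · have h1 : g⁻¹ * v ^ r * g = (g⁻¹ * v * g) ^ r := by
        have h2 := conj_pow (a := g⁻¹) (b := v) (i := r)
        rw [inv_inv] at h2
        exact h2.symm
      rw [h1]
      exact fr_pow (hg v hv)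
    · have h1 : g⁻¹ * (v⁻¹ * w⁻¹ * v * w) * g
          = (g⁻¹ * v * g)⁻¹ * (g⁻¹ * w * g)⁻¹ * (g⁻¹ * v * g) * (g⁻¹ * w * g) := by group
      rw [h1]
      exact fr_com (hg v hv) (hg w hw)
  | one =>
    rw [mul_one, inv_mul_cancel]
    exact (Fr r V).one_mem
  | mul x y _ _ ihx ihy =>
    have h1 : g⁻¹ * (x * y) * g = (g⁻¹ * x * g) * (g⁻¹ * y * g) := by group
    rw [h1]
    exact (Fr r V).mul_mem ihx ihy
  | inv x _ ih =>
    have h1 : g⁻¹ * x⁻¹ * g = (g⁻¹ * x * g)⁻¹ := by group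
    rw [h1]
    exact (Fr r V).inv_mem ih

/-- `Fr r V` is normal in `V`; every subgroup between `Fr r V` and `V` is normal in `V`. -/
theorem fr_norm {V N : Subgroup X} (hN : Fr r V ≤ N) (hNV : N ≤ V) {v x : X} (hv : v ∈ V) (hx : x ∈ N) :
    v⁻¹ * x * v ∈ N := by
  have h1 : v⁻¹ * x * v = x * (x⁻¹ * v⁻¹ * x * v) := by group
  rw [h1]
  exact N.mul_mem hx (hN (fr_com (hNV hx) hv))

theorem fr_inv {V : Subgroup X} (hV : Inv a V) : Inv a (Fr r V) := by
  unfold Fr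
  refine Pool.Agent.FRB.inv_closure ?_
  rintro x (⟨v, hv, rfl⟩ | ⟨v, hv, w, hw, rfl⟩)
  · rw [map_pow]
    exact Subgroup.subset_closure (Or.inl ⟨a v, hV v hv, rfl⟩)
  · rw [map_mul, map_mul, map_mul, map_inv, map_inv]
    exact Subgroup.subset_closure (Or.inr ⟨a v, hV v hv, a w, hV w hw, rfl⟩)

/-- A maximal subgroup of a finite `r`-group contains the `r`-th powers and the commutators. -/
private theorem frb_coatom {G : Type u} [Group G] [Finite G] (hr : r.Prime) (hG : IsPGroup r G) {M : Subgroup G}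
    (hM : IsCoatom M) : (∀ v : G, v ^ r ∈ M) ∧ ∀ v w : G, v⁻¹ * w⁻¹ * v * w ∈ M := by
  have : Fact r.Prime := ⟨hr⟩
  have : Group.IsNilpotent G := hG.isNilpotent
  have hn : M.Normal := Subgroup.NormalizerCondition.normal_of_coatom M Group.normalizerCondition_of_isNilpotent hM
  have := hn
  have hnt : Nontrivial (G ⧸ M) := by
    rw [QuotientGroup.nontrivial_iff]
    exact hM.1
  have hs : IsSimpleGroup (G ⧸ M) := by
    refine ⟨fun N _ => ?_⟩
    have h1 : M ≤ N.comap (QuotientGroup.mk' M) := by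
      intro x hx
      rw [Subgroup.mem_comap]
      have h2 : (QuotientGroup.mk' M) x = 1 := (QuotientGroup.eq_one_iff x).2 hx
      rw [h2]
      exact N.one_mem
    have h3 : N = (N.comap (QuotientGroup.mk' M)).map (QuotientGroup.mk' M) :=
      (Subgroup.map_comap_eq_self_of_surjective (QuotientGroup.mk'_surjective M) N).symm
    rcases h1.eq_or_lt with h4 | h4
    · left
      rw [h3, ← h4, QuotientGroup.map_mk'_self]
    · right
      rw [h3, hM.2 _ h4, Subgroup.map_top_of_surjective _ (QuotientGroup.mk'_surjective M)]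
  have hQ : IsPGroup r (G ⧸ M) := hG.to_quotient M
  have : Group.IsNilpotent (G ⧸ M) := hQ.isNilpotent
  have hcom : ∀ x y : G ⧸ M, x * y = y * x := by
    intro x y
    exact (IsSimpleGroup.comm_iff_isSolvable.mpr inferInstance : ∀ a b : G ⧸ M, a * b = b * a) x y
  have hcard : Nat.card (G ⧸ M) = r := by
    let _ : CommGroup (G ⧸ M) := ⟨hcom⟩
    have h5 : (Nat.card (G ⧸ M)).Prime := IsSimpleGroup.prime_card
    obtain ⟨n, hn⟩ := IsPGroup.iff_card.1 hQ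
    have h6 : Nat.card (G ⧸ M) ∣ r ^ n := by rw [hn]
    exact (Nat.prime_dvd_prime_iff_eq h5 hr).1 (h5.dvd_of_dvd_pow h6)
  constructor
  · intro v
    rw [← QuotientGroup.eq_one_iff, QuotientGroup.mk_pow, ← hcard]
    exact pow_card_eq_one'
  · intro v w
    rw [← QuotientGroup.eq_one_iff, QuotientGroup.mk_mul, QuotientGroup.mk_mul, QuotientGroup.mk_mul,
      QuotientGroup.mk_inv, QuotientGroup.mk_inv, hcom ((v : G ⧸ M))⁻¹, mul_assoc, mul_assoc, inv_mul_cancel_left,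
      inv_mul_cancel]

theorem fr_gen (hr : r.Prime) {V S : Subgroup X} (hf : (V : Set X).Finite) (hp : ∀ x ∈ V, ∃ n : ℕ, x ^ (r ^ n) = 1)
    (hS : S ≤ V) (h : V ≤ S ⊔ Fr r V) : V ≤ S := by
  have : Finite V := hf
  have hV : IsPGroup r V := by
    rintro ⟨x, hx⟩
    obtain ⟨n, hn⟩ := hp x hx
    exact ⟨n, Subtype.ext hn⟩
  by_contra hcon
  have h1 : S.subgroupOf V ≠ ⊤ := fun h2 => hcon (Subgroup.subgroupOf_eq_top.1 h2)
  obtain ⟨M, hM, hSM⟩ := (eq_top_or_exists_le_coatom (S.subgroupOf V)).resolve_left h1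
  obtain ⟨h3, h4⟩ := frb_coatom hr hV hM
  have h5 : S ≤ M.map V.subtype := by
    intro x hx
    exact ⟨⟨x, hS hx⟩, hSM (Subgroup.mem_subgroupOf.2 hx), rfl⟩
  have h6 : Fr r V ≤ M.map V.subtype := by
    unfold Fr
    rw [Subgroup.closure_le]
    rintro x (⟨v, hv, rfl⟩ | ⟨v, hv, w, hw, rfl⟩)
    · exact ⟨⟨v, hv⟩ ^ r, h3 ⟨v, hv⟩, rfl⟩
    · exact ⟨(⟨v, hv⟩ : V)⁻¹ * (⟨w, hw⟩ : V)⁻¹ * ⟨v, hv⟩ * ⟨w, hw⟩, h4 ⟨v, hv⟩ ⟨w, hw⟩, rfl⟩
  refine hM.1 (eq_top_iff.2 fun x _ => ?_)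
  obtain ⟨y, hy, hyx⟩ := (h.trans (sup_le h5 h6)) x.2
  have h7 : y = x := Subtype.ext hyx
  rw [← h7]
  exact hy

theorem fr_lt (hr : r.Prime) {V : Subgroup X} (hf : (V : Set X).Finite) (hp : ∀ x ∈ V, ∃ n : ℕ, x ^ (r ^ n) = 1)
    (hV : V ≠ ⊥) : ¬ V ≤ Fr r V := by
  intro h
  refine hV (eq_bot_iff.2 (fr_gen hr hf hp bot_le ?_))
  rw [bot_sup_eq]
  exact h

end Pool.Agent.FRS
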