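import Pool.Agent.FRS.Lay
import Pool.Agent.FRS.Dir
import Pool.Agent.FRS.ChD

/-!
# FRS/JA: first part of the J-lemma
-/

set_option autoImplicit false

namespace Pool.Agent.FRS

open Pool.Agent.FRB (Inv Eig LF SS Lam)

universe u

variable {p r k : ℕ} {X : Type u} [Group X] {a : MulAut X}

theorem ja_gen (h : Root p r k) (H : Hyp p r a) {q b : ℕ} {w u : X} {e : ℕ → X} (hS : Str r k a q 1 w u b e)
    (hb : 1 ≤ b) : Cj w u = Subgroup.closure ({x | ∃ l < b, x = e l} ∪ {u⁻¹ * e (b - 1) * u}) := by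
  have hT : Subgroup.closure ({x | ∃ l < b, x = e l} ∪ {u⁻¹ * e (b - 1) * u}) ≤ Cj w u := by
    rw [Subgroup.closure_le]
    rintro x (⟨l, hl, rfl⟩ | hx)
    · exact hS.mem l hl.le
    · rw [Set.mem_singleton_iff] at hx
      rw [hx]
      exact cj_conj1 w u (hS.mem (b - 1) (by omega))
  refine le_antisymm ?_ hT
  refine fr_gen h.prime (cj_fin H w u) (fun x _ => H.tors x) hT ?_
  have hmem : ∀ l < b, e l ∈ Subgroup.closure ({x | ∃ l < b, x = e l} ∪ {u⁻¹ * e (b - 1) * u}) :=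
    fun l hl => Subgroup.subset_closure (Or.inl ⟨l, hl, rfl⟩)
  have h1 : Subgroup.closure {x | ∃ l ≤ b, x = e l} ≤
      Subgroup.closure ({x | ∃ l < b, x = e l} ∪ {u⁻¹ * e (b - 1) * u}) ⊔ Fr r (Cj w u) := by
    rw [Subgroup.closure_le]
    rintro x ⟨l, hl, rfl⟩
    rcases lt_or_eq_of_le hl with hl' | rfl
    · exact Subgroup.mem_sup_left (hmem l hl')
    · obtain ⟨f, hf, he⟩ := hS.last hb
      rw [SetLike.mem_coe, he]
      refine mul_mem (Subgroup.mem_sup_left (mul_mem (inv_mem (hmem _ (by omega))) ?_))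
        (Subgroup.mem_sup_right hf)
      exact Subgroup.subset_closure (Or.inr rfl)
  rw [← hS.gen] at h1
  exact h1

theorem ja_f (h : Root p r k) (H : Hyp p r a) {q b : ℕ} {w u : X} {e : ℕ → X} (hu : Eig r k a 1 u)
    (hS : Str r k a q 1 w u b e) (hb : 1 ≤ b) (hq : q + b + 1 = p) :
    ∃ f ∈ Cj w u, Eig r k a (p - 1) f ∧ u⁻¹ * e (b - 1) * u ∈ Subgroup.closure {e (b - 1), f} := by
  have he := hS.eig (b - 1) (by omega)
  have hm := hS.mem (b - 1) (by omega)
  obtain ⟨n, e', hS'⟩ := str_exists h H he hu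
  have hn : n ≤ 1 := by
    by_contra hn
    have h2 : 2 ≤ n := by omega
    refine hS'.ne 2 h2 (by omega) (eig_triv h H ?_ (hS'.eig 2 h2))
    have : q + (b - 1) * 1 + 2 * 1 = p := by omega
    rw [this]
  have hc := cj_conj1 (e (b - 1)) u (cj_self (e (b - 1)) u)
  rw [hS'.gen] at hc
  rcases Nat.lt_or_ge n 1 with hn0 | hn1
  · refine ⟨1, one_mem _, eig_one r k a _, ?_⟩
    refine (Subgroup.closure_le _).2 ?_ hc
    rintro x ⟨l, hl, rfl⟩
    have hl0 : l = 0 := by omega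
    rw [hl0, hS'.zero]
    exact Subgroup.subset_closure (by simp)
  · have hd := hS'.eig 1 hn1
    have hd1 : q + (b - 1) * 1 + 1 * 1 = p - 1 := by omega
    rw [hd1] at hd
    refine ⟨e' 1, cj_mono hm (hS'.mem 1 hn1), hd, ?_⟩
    refine (Subgroup.closure_le _).2 ?_ hc
    rintro x ⟨l, hl, rfl⟩
    rcases Nat.lt_or_ge l 1 with hl0 | hl1
    · have hl0 : l = 0 := by omega
      rw [hl0, hS'.zero]
      exact Subgroup.subset_closure (by simp)
    · have hl0 : l = 1 := by omega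
      rw [hl0]
      exact Subgroup.subset_closure (by simp)

/-- Conjugates of elements of degree `d` under powers of an element of degree 1 involve only degrees `d, ..., p-1`. -/
theorem ja_up (h : Root p r k) (H : Hyp p r a) {d : ℕ} {x u : X} (hx : Eig r k a d x) (hd : 1 ≤ d) (hdp : d < p)
    (hu : Eig r k a 1 u) {G : Subgroup X} (hG1 : ∀ g ∈ G, u⁻¹ * g * u ∈ G) (hG2 : ∀ g ∈ G, u * g * u⁻¹ ∈ G)
    (hxG : x ∈ G) : Cj x u ≤ Subgroup.closure ({x} ∪ {g | g ∈ G ∧ ∃ d', d < d' ∧ d' < p ∧ Eig r k a d' g}) := by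
  obtain ⟨n, e, hS⟩ := str_exists h H hx hu
  have hn : d + n < p := by
    by_contra hn
    have h1 : p - d ≤ n := by omega
    refine hS.ne (p - d) h1 (by omega) (eig_triv h H ?_ (hS.eig (p - d) h1))
    have : d + (p - d) * 1 = p := by omega
    rw [this]
  have hG := cj_sub hxG hG1 hG2
  have h1 : Subgroup.closure {y | ∃ l ≤ n, y = e l} ≤
      Subgroup.closure ({x} ∪ {g | g ∈ G ∧ ∃ d', d < d' ∧ d' < p ∧ Eig r k a d' g}) := by
    rw [Subgroup.closure_le]
    rintro y ⟨l, hl, rfl⟩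
    rcases Nat.eq_zero_or_pos l with rfl | hl0
    · rw [hS.zero]
      exact Subgroup.subset_closure (Or.inl rfl)
    · refine Subgroup.subset_closure (Or.inr ⟨hG (hS.mem l hl), d + l, by omega, by omega, ?_⟩)
      have h2 := hS.eig l hl
      rwa [mul_one] at h2
  rw [← hS.gen] at h1
  exact h1

end Pool.Agent.FRS
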