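import Pool.Agent.FRS.JA
import Pool.Agent.FRS.Comm

/-!
# FRS/JB: the degree 2 case of the J-lemma
-/

set_option autoImplicit false

namespace Pool.Agent.FRS

open Pool.Agent.FRB (Inv Eig LF SS Lam)

universe u

variable {p r k : ℕ} {X : Type u} [Group X] {a : MulAut X}

private theorem jb_split {N : Subgroup X} {c z : X} (hn : ∀ g ∈ N, c⁻¹ * g * c ∈ N) (hn' : ∀ g ∈ N, c * g * c⁻¹ ∈ N)
    (hz : z ∈ Subgroup.zpowers c ⊔ N) : ∃ c₁ ∈ Subgroup.zpowers c, ∃ g ∈ N, z = c₁ * g := by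
  have h1 : Subgroup.zpowers c ≤ Subgroup.normalizer (N : Set X) := by
    rw [Subgroup.zpowers_le, Subgroup.mem_normalizer_iff]
    intro g
    refine ⟨hn' g, fun hg => ?_⟩
    have h2 := hn _ hg
    have h3 : c⁻¹ * (c * g * c⁻¹) * c = g := by group
    rwa [h3] at h2
  have h2 : z ∈ ((Subgroup.zpowers c ⊔ N : Subgroup X) : Set X) := hz
  rw [Subgroup.coe_mul_of_left_le_normalizer_right _ _ h1] at h2
  obtain ⟨x, hx, y, hy, rfl⟩ := h2
  exact ⟨x, hx, y, hy, rfl⟩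

private theorem jb_commE {E : Subgroup X} {x y : X} (h : Commute x y) : x⁻¹ * y⁻¹ * x * y ∈ E := by
  have h1 : x⁻¹ * y⁻¹ * x * y = 1 := by
    have h2 : x * y = y * x := h
    calc x⁻¹ * y⁻¹ * x * y = x⁻¹ * y⁻¹ * (x * y) := by group
      _ = x⁻¹ * y⁻¹ * (y * x) := by rw [h2]
      _ = 1 := by group
  rw [h1]
  exact E.one_mem

private theorem inv_sup {S T : Subgroup X} (hS : Inv a S) (hT : Inv a T) : Inv a (S ⊔ T) := by
  have h1 : S ⊔ T ≤ (S ⊔ T).comap (a : X →* X) :=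
    sup_le (fun x hx => Subgroup.mem_comap.2 (Subgroup.mem_sup_left (hS x hx)))
      (fun x hx => Subgroup.mem_comap.2 (Subgroup.mem_sup_right (hT x hx)))
  exact fun x hx => Subgroup.mem_comap.1 (h1 hx)

theorem jb (h : Root p r k) (H : Hyp p r a) {c u w : X} (hca : ∀ x : X, Commute c x → Commute c (a x))
    (hcK : ∀ s, 2 ≤ s → s + 2 ≤ p → ∀ x : X, Eig r k a s x → Commute c x) (hu : Eig r k a 1 u) {q b : ℕ}
    (hw : Eig r k a q w) (hq : 2 ≤ q) (hqb : q + b + 1 = p) (hb : 1 ≤ b) {e : ℕ → X}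
    (hS : Str r k a q 1 w u b e) (l : ℕ) {x : X} (hx : x ∈ gm (Cj w u) l) (hx2 : Eig r k a 2 x) :
    x⁻¹ * (u⁻¹ * e (b - 1) * u)⁻¹ * x * (u⁻¹ * e (b - 1) * u) ∈
      (Subgroup.centralizer ({c} : Set X) ⊓ gm (Cj w u) (l + 1)) ⊔ gm (Cj w u) (l + 2) := by
  have hp5 := h.five
  have hV : Inv a (Cj w u) := cj_inv H hw hu
  have hbb : b - 1 ≤ b := by omega
  have hy : Eig r k a (q + (b - 1) * 1) (e (b - 1)) := hS.eig (b - 1) hbb
  have hyV : e (b - 1) ∈ Cj w u := hS.mem (b - 1) hbb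
  set y : X := e (b - 1) with hy0
  have hdy : q + (b - 1) * 1 = p - 2 := by omega
  rw [hdy] at hy
  set Z : Subgroup X := Subgroup.centralizer ({c} : Set X) with hZ
  set G : Subgroup X := gm (Cj w u) (l + 1) with hG
  set G' : Subgroup X := gm (Cj w u) (l + 2) with hG'
  have memZ : ∀ x : X, Commute c x → x ∈ Z := by
    intro x hx
    rw [hZ, Subgroup.mem_centralizer_singleton_iff]
    exact hx.symm
  have hZinv : Inv a Z := by
    intro x hx
    rw [hZ, Subgroup.mem_centralizer_singleton_iff] at hx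
    exact memZ _ (hca x hx.symm)
  have hGinv : Inv a G := gm_inv hV (l + 1)
  have hG'inv : Inv a G' := gm_inv hV (l + 2)
  have hG'G : G' ≤ G := gm_anti (Cj w u) (l + 1)
  have hVu : ∀ v ∈ Cj w u, u⁻¹ * v * u ∈ Cj w u := fun v hv => cj_conj1 w u hv
  have hVu' : ∀ v ∈ Cj w u, u * v * u⁻¹ ∈ Cj w u := fun v hv => cj_conj2 w u hv
  have hVui : ∀ v ∈ Cj w u, (u⁻¹)⁻¹ * v * u⁻¹ ∈ Cj w u := by
    intro v hv
    rw [inv_inv]
    exact hVu' v hv
  have hnu : ∀ m : ℕ, ∀ g ∈ gm (Cj w u) m, u⁻¹ * g * u ∈ gm (Cj w u) m := fun m g hg => gm_conj hVu m hg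
  have hnu' : ∀ m : ℕ, ∀ g ∈ gm (Cj w u) m, u * g * u⁻¹ ∈ gm (Cj w u) m := by
    intro m g hg
    have h1 := gm_conj hVui m hg
    rwa [inv_inv] at h1
  have hnV : ∀ m : ℕ, ∀ v ∈ Cj w u, ∀ g ∈ gm (Cj w u) m, v⁻¹ * g * v ∈ gm (Cj w u) m := fun m v hv g hg =>
    gm_norm (Cj w u) m hv hg
  have hnV' : ∀ m : ℕ, ∀ v ∈ Cj w u, ∀ g ∈ gm (Cj w u) m, v * g * v⁻¹ ∈ gm (Cj w u) m := by
    intro m v hv g hg
    have h1 := gm_norm (Cj w u) m ((Cj w u).inv_mem hv) hg
    rwa [inv_inv] at h1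
  set E : Subgroup X := (Z ⊓ G) ⊔ G' with hE
  have hG'E : G' ≤ E := le_sup_right
  have hEG : E ≤ G := sup_le inf_le_right hG'G
  have hEinv : Inv a E := inv_sup (fun x hx => ⟨hZinv x hx.1, hGinv x hx.2⟩) hG'inv
  have hcy : Commute c y := hcK (p - 2) (by omega) (by omega) y hy
  -- step (i)
  have hxy : Commute x y := comm_opp h H (i := 2) (j := p - 2) ⟨1, by omega⟩ hx2 hy
  obtain ⟨f, hfV, hf, hyf⟩ := ja_f h H hu hS hb hqb
  obtain ⟨n, hn, hc'⟩ := lay_eig h H hV hx hfV hx2 hf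
  set c' : X := x⁻¹ * f⁻¹ * x * f * n with hc'0
  have hc'1 : Eig r k a 1 c' := by
    refine eig_congr h ?_ hc'
    have h1 : 2 + (p - 1) = 1 + p := by omega
    rw [h1]
    exact Nat.add_modEq_right
  have hxfG : x⁻¹ * f⁻¹ * x * f ∈ G := gm_com l hx hfV
  have hc'G : c' ∈ G := G.mul_mem hxfG (hG'G hn)
  have hc'V : c' ∈ Cj w u := gm_le _ _ hc'G
  set z : X := x⁻¹ * (u⁻¹ * y * u)⁻¹ * x * (u⁻¹ * y * u) with hz
  have hz1 : z ∈ Subgroup.zpowers c' ⊔ G' := by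
    refine com_cr (l := l) (V := Cj w u) (E := Subgroup.zpowers c' ⊔ G') (T := {y, f}) le_sup_right ?_ hx ?_ hyf
    · intro t ht
      rcases ht with rfl | ht
      · exact hyV
      · rw [Set.mem_singleton_iff] at ht
        rw [ht]
        exact hfV
    · intro t ht
      rcases ht with rfl | ht
      · exact jb_commE hxy
      · rw [Set.mem_singleton_iff] at ht
        rw [ht]
        have h1 : x⁻¹ * f⁻¹ * x * f = c' * n⁻¹ := by
          rw [hc'0]
          group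
        rw [h1]
        exact Subgroup.mul_mem _ (Subgroup.mem_sup_left (Subgroup.mem_zpowers c'))
          (Subgroup.mem_sup_right (G'.inv_mem hn))
  obtain ⟨c₁, hc₁, g', hg', hzc⟩ := jb_split (hnV (l + 2) c' hc'V) (hnV' (l + 2) c' hc'V) hz1
  have hc₁G : c₁ ∈ G := by
    have h1 : Subgroup.zpowers c' ≤ G := by
      rw [Subgroup.zpowers_le]
      exact hc'G
    exact h1 hc₁
  have hc₁1 : Eig r k a 1 c₁ := by
    obtain ⟨m, hm⟩ := Subgroup.mem_zpowers_iff.1 hc₁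
    rw [← hm]
    exact eig_zpow h hc'1 m
  -- step (ii)
  set E₁ : Subgroup X := Subgroup.closure ((E : Set X) ∪ {x | x ∈ G ∧ ∃ d, ¬ d ≡ 1 [MOD p] ∧ Eig r k a d x}) with hE₁
  have hEE₁ : E ≤ E₁ := fun g hg => Subgroup.subset_closure (Or.inl hg)
  have hdE₁ : ∀ g ∈ G, ∀ d, 2 ≤ d → d < p → Eig r k a d g → g ∈ E₁ := by
    intro g hg d hd2 hdp hgd
    refine Subgroup.subset_closure (Or.inr ⟨hg, d, ?_, hgd⟩)
    intro h1
    have h2 : d % p = 1 % p := h1
    rw [Nat.mod_eq_of_lt hdp, Nat.mod_eq_of_lt (by omega)] at h2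
    omega
  set E₂ : Subgroup X := E₁.comap (MulAut.conj u⁻¹).toMonoidHom with hE₂
  have memE₂ : ∀ g : X, g ∈ E₂ ↔ u⁻¹ * g * u ∈ E₁ := by
    intro g
    rw [hE₂, Subgroup.mem_comap]
    have h1 : (MulAut.conj u⁻¹).toMonoidHom g = u⁻¹ * g * u := by
      change u⁻¹ * g * (u⁻¹)⁻¹ = _
      rw [inv_inv]
    rw [h1]
  have hG'E₂ : G' ≤ E₂ := fun g hg => (memE₂ g).2 (hEE₁ (hG'E (hnu (l + 2) g hg)))
  have hup := ja_up h H (d := 2) hx2 (by omega) (by omega) hu (hnu l) (hnu' l) hx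
  have hxu : u * x * u⁻¹ ∈ Cj x u := cj_conj2 x u (cj_self x u)
  have hz2 : (u * x * u⁻¹)⁻¹ * y⁻¹ * (u * x * u⁻¹) * y ∈ E₂ := by
    refine com_cl (l := l) (V := Cj w u) hG'E₂ ?_ hyV ?_ (hup hxu)
    · intro s hs
      rcases hs with hs | hs
      · rw [Set.mem_singleton_iff] at hs
        rw [hs]
        exact hx
      · exact hs.1
    · intro s hs
      rcases hs with hs | hs
      · rw [Set.mem_singleton_iff] at hs
        rw [hs]
        exact jb_commE hxy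
      · obtain ⟨hsl, d', hd2, hdp, hsd⟩ := hs
        obtain ⟨n', hn', hc''⟩ := lay_eig h H hV hsl hyV hsd hy
        set c'' : X := s⁻¹ * y⁻¹ * s * y * n' with hc''0
        have hsy : s⁻¹ * y⁻¹ * s * y ∈ G := gm_com l hsl hyV
        have hc''G : c'' ∈ G := G.mul_mem hsy (hG'G hn')
        have hc''d : Eig r k a (d' - 2) c'' := by
          refine eig_congr h ?_ hc''
          have h1 : d' + (p - 2) = (d' - 2) + p := by omega
          rw [h1]
          exact Nat.add_modEq_right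
        have hup' := ja_up h H (d := d' - 2) hc''d (by omega) (by omega) hu (hnu (l + 1)) (hnu' (l + 1)) hc''G
        have hc''u : u⁻¹ * c'' * u ∈ Cj c'' u := cj_conj1 c'' u (cj_self c'' u)
        have hc''E₁ : c'' ∈ E₁ := by
          rcases Nat.lt_or_ge d' 4 with hd4 | hd4
          · have hd3 : d' = 3 := by omega
            subst hd3
            have hcs : Commute c s := hcK 3 (by omega) (by omega) s hsd
            have h1 : s⁻¹ * y⁻¹ * s * y ∈ Z :=
              memZ _ (((hcs.inv_right.mul_right hcy.inv_right).mul_right hcs).mul_right hcy)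
            exact hEE₁ (E.mul_mem (Subgroup.mem_sup_left ⟨h1, hsy⟩) (hG'E hn'))
          · exact hdE₁ c'' hc''G (d' - 2) (by omega) (by omega) hc''d
        have hcl : Subgroup.closure ({c''} ∪ {g | g ∈ gm (Cj w u) (l + 1) ∧ ∃ d, d' - 2 < d ∧ d < p ∧ Eig r k a d g})
            ≤ E₁ := by
          rw [Subgroup.closure_le]
          intro g hg
          rcases hg with hg | hg
          · rw [Set.mem_singleton_iff] at hg
            rw [hg]
            exact hc''E₁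
          · obtain ⟨hgG, d, hd1, hd2', hgd⟩ := hg
            exact hdE₁ g hgG d (by omega) hd2' hgd
        have hc''E₂ : c'' ∈ E₂ := (memE₂ c'').2 (hcl (hup' hc''u))
        have h1 : s⁻¹ * y⁻¹ * s * y = c'' * n'⁻¹ := by
          rw [hc''0]
          group
        rw [h1]
        exact E₂.mul_mem hc''E₂ (E₂.inv_mem (hG'E₂ hn'))
  have hz3 : z ∈ E₁ := by
    have h1 := (memE₂ _).1 hz2
    have h2 : u⁻¹ * ((u * x * u⁻¹)⁻¹ * y⁻¹ * (u * x * u⁻¹) * y) * u = z := by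
      rw [hz]
      group
    rwa [h2] at h1
  -- step (iii)
  have hc₁E₁ : c₁ ∈ E₁ := by
    have h1 : c₁ = z * g'⁻¹ := by
      rw [hzc]
      group
    rw [h1]
    exact E₁.mul_mem hz3 (E₁.inv_mem (hEE₁ (hG'E hg')))
  have hc₁E : c₁ ∈ E :=
    dir h H hGinv hEinv hEG (fun x hx y hy => hG'E (gm_ab (l + 1) hx hy)) hc₁1 hc₁G hc₁E₁
  rw [hzc]
  exact E.mul_mem hc₁E (hG'E hg')

end Pool.Agent.FRS
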