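import Pool.Agent.FRS.JB
import Pool.Agent.FRS.Gen

/-!
# FRS/JC: the commutator subgroup of `Cj w u` commutes with `c`
-/

set_option autoImplicit false

namespace Pool.Agent.FRS

open Pool.Agent.FRB (Inv Eig LF SS Lam)

universe u

variable {p r k : ℕ} {X : Type u} [Group X] {a : MulAut X}

private theorem e_deg {q b : ℕ} {w u : X} {e : ℕ → X} (hS : Str r k a q 1 w u b e) {m : ℕ} (hm : m ≤ b) :
    Eig r k a (q + m) (e m) := by
  have := hS.eig m hm
  rwa [mul_one] at this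

private theorem mem_E {V : Subgroup X} {c z : X} {l : ℕ} (h1 : Commute c z) (h2 : z ∈ gm V (l + 1)) :
    z ∈ (Subgroup.centralizer ({c} : Set X) ⊓ gm V (l + 1)) ⊔ gm V (l + 2) := by
  refine Subgroup.mem_sup_left ⟨?_, h2⟩
  exact Subgroup.mem_centralizer_singleton_iff.2 h1.symm.eq

private theorem comm_com {c x t : X} (h1 : Commute c x) (h2 : Commute c t) :
    Commute c (x⁻¹ * t⁻¹ * x * t) :=
  ((h1.inv_right.mul_right h2.inv_right).mul_right h1).mul_right h2

theorem jc_x (h : Root p r k) (H : Hyp p r a) {c u w : X} (hca : ∀ x : X, Commute c x → Commute c (a x))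
    (hcK : ∀ s, 2 ≤ s → s + 2 ≤ p → ∀ x : X, Eig r k a s x → Commute c x) (hu : Eig r k a 1 u) {q b : ℕ}
    (hw : Eig r k a q w) (hq : 2 ≤ q) (hqb : q + b + 1 = p) (hb : 1 ≤ b) {e : ℕ → X}
    (hS : Str r k a q 1 w u b e) (l : ℕ) {s : ℕ} {x : X} (hx : x ∈ gm (Cj w u) l) (hs1 : 1 ≤ s) (hs2 : s < p)
    (hxs : Eig r k a s x) (hcx : Commute c x) {t : X} (ht : t ∈ {x | ∃ l < b, x = e l} ∪ {u⁻¹ * e (b - 1) * u}) :
    x⁻¹ * t⁻¹ * x * t ∈
      (Subgroup.centralizer ({c} : Set X) ⊓ gm (Cj w u) (l + 1)) ⊔ gm (Cj w u) (l + 2) := by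
  have hce : ∀ m, m < b → Commute c (e m) := fun m hm =>
    hcK (q + m) (by omega) (by omega) _ (e_deg hS hm.le)
  have hee : ∀ m, m < b → x⁻¹ * (e m)⁻¹ * x * e m ∈
      (Subgroup.centralizer ({c} : Set X) ⊓ gm (Cj w u) (l + 1)) ⊔ gm (Cj w u) (l + 2) := fun m hm =>
    mem_E (comm_com hcx (hce m hm)) (gm_com l hx (hS.mem m hm.le))
  rcases ht with ⟨m, hm, rfl⟩ | ht
  · exact hee m hm
  · rw [Set.mem_singleton_iff] at ht
    subst ht
    by_cases hs : s = 2
    · subst hs
      exact jb h H hca hcK hu hw hq hqb hb hS l hx hxs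
    · obtain ⟨f, hfV, hf, hyf⟩ := ja_f h H hu hS hb hqb
      have hy : e (b - 1) ∈ Cj w u := hS.mem _ (by omega)
      refine com_cr (V := Cj w u) (l := l) le_sup_right (T := {e (b - 1), f}) ?_ hx ?_ hyf
      · rintro z (rfl | rfl)
        · exact hy
        · exact hfV
      · rintro z (rfl | rfl)
        · exact hee (b - 1) (by omega)
        · by_cases hs' : s = 1
          · subst hs'
            have hc1 : Commute x z := comm_opp h H ⟨1, by omega⟩ hxs hf
            have h1 : x⁻¹ * z⁻¹ * x * z = 1 := by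
              rw [mul_assoc, hc1.eq]
              group
            rw [h1]
            exact Subgroup.one_mem _
          · obtain ⟨n, hn, hz⟩ := lay_eig h H (cj_inv H hw hu) hx hfV hxs hf
            have hz' : Eig r k a (s - 1) (x⁻¹ * z⁻¹ * x * z * n) := by
              refine eig_congr h ?_ hz
              have h1 : s + (p - 1) = (s - 1) + p := by omega
              rw [h1]
              exact Nat.add_modEq_right
            have hcz : Commute c (x⁻¹ * z⁻¹ * x * z * n) := hcK (s - 1) (by omega) (by omega) _ hz'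
            have hmem : x⁻¹ * z⁻¹ * x * z * n ∈ gm (Cj w u) (l + 1) :=
              Subgroup.mul_mem _ (gm_com l hx hfV) (gm_anti _ _ hn)
            have h2 : x⁻¹ * z⁻¹ * x * z = x⁻¹ * z⁻¹ * x * z * n * n⁻¹ := by group
            rw [h2]
            exact Subgroup.mul_mem _ (mem_E hcz hmem) (Subgroup.mem_sup_right (Subgroup.inv_mem _ hn))

theorem jc_step (h : Root p r k) (H : Hyp p r a) {c u w : X} (hca : ∀ x : X, Commute c x → Commute c (a x))
    (hcK : ∀ s, 2 ≤ s → s + 2 ≤ p → ∀ x : X, Eig r k a s x → Commute c x) (hu : Eig r k a 1 u) {q b : ℕ}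
    (hw : Eig r k a q w) (hq : 2 ≤ q) (hqb : q + b + 1 = p) (hb : 1 ≤ b) {e : ℕ → X}
    (hS : Str r k a q 1 w u b e) (l : ℕ) : gm (Cj w u) (l + 1) ≤
      (Subgroup.centralizer ({c} : Set X) ⊓ gm (Cj w u) (l + 1)) ⊔ gm (Cj w u) (l + 2) := by
  have hgen := ja_gen h H hS hb
  have hTV : ({x | ∃ l < b, x = e l} ∪ {u⁻¹ * e (b - 1) * u} : Set X) ⊆ Cj w u := by
    rintro z (⟨m, hm, rfl⟩ | hz)
    · exact hS.mem m hm.le
    · rw [Set.mem_singleton_iff] at hz
      subst hz
      exact cj_conj1 _ _ (hS.mem _ (by omega))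
  have hTg : Cj w u ≤ Subgroup.closure ({x | ∃ l < b, x = e l} ∪ {u⁻¹ * e (b - 1) * u}) ⊔ gm (Cj w u) 1 := by
    refine le_trans (le_of_eq hgen) le_sup_left
  induction l with
  | zero =>
    refine le_trans (bil (l := 0) (S := {x | ∃ l < b, x = e l} ∪ {u⁻¹ * e (b - 1) * u})
      (T := {x | ∃ l < b, x = e l} ∪ {u⁻¹ * e (b - 1) * u}) hTV hTg hTV hTg) ?_
    refine sup_le ?_ le_sup_right
    rw [Subgroup.closure_le]
    rintro z ⟨s, hs, t, ht, rfl⟩
    have hem : ∀ m, m < b → ∀ t ∈ ({x | ∃ l < b, x = e l} ∪ {u⁻¹ * e (b - 1) * u} : Set X),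
        (e m)⁻¹ * t⁻¹ * e m * t ∈
        (Subgroup.centralizer ({c} : Set X) ⊓ gm (Cj w u) (0 + 1)) ⊔ gm (Cj w u) (0 + 2) := by
      intro m hm t ht
      exact jc_x h H hca hcK hu hw hq hqb hb hS 0 (s := q + m) (hS.mem m hm.le) (by omega) (by omega)
        (e_deg hS hm.le) (hcK (q + m) (by omega) (by omega) _ (e_deg hS hm.le)) ht
    rcases hs with ⟨m, hm, rfl⟩ | hs
    · exact hem m hm t ht
    · rw [Set.mem_singleton_iff] at hs
      rcases ht with ⟨m, hm, rfl⟩ | ht
      · have h1 := Subgroup.inv_mem _ (hem m hm s (Or.inr hs))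
        have h2 : ((e m)⁻¹ * s⁻¹ * e m * s)⁻¹ = s⁻¹ * (e m)⁻¹ * s * e m := by group
        rw [h2] at h1
        exact h1
      · rw [Set.mem_singleton_iff] at ht
        rw [hs, ht]
        have h1 : (u⁻¹ * e (b - 1) * u)⁻¹ * (u⁻¹ * e (b - 1) * u)⁻¹ * (u⁻¹ * e (b - 1) * u) *
            (u⁻¹ * e (b - 1) * u) = 1 := by group
        rw [h1]
        exact Subgroup.one_mem _
  | succ l ih =>
    have hVi : Inv a (Cj w u) := cj_inv H hw hu
    have hZi : Inv a (Subgroup.centralizer ({c} : Set X) ⊓ gm (Cj w u) (l + 1)) := by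
      rintro z ⟨hz1, hz2⟩
      refine ⟨?_, gm_inv hVi (l + 1) z hz2⟩
      have h1 : Commute c z := (Subgroup.mem_centralizer_singleton_iff.1 hz1).symm
      exact Subgroup.mem_centralizer_singleton_iff.2 (hca z h1).symm.eq
    refine le_trans (bil (l := l + 1)
      (S := {x | x ∈ Subgroup.centralizer ({c} : Set X) ⊓ gm (Cj w u) (l + 1) ∧
        ∃ i, 1 ≤ i ∧ i < p ∧ Eig r k a i x})
      (T := {x | ∃ l < b, x = e l} ∪ {u⁻¹ * e (b - 1) * u}) ?_ ?_ hTV hTg) ?_
    · rintro z ⟨hz, _⟩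
      exact hz.2
    · refine le_trans ih (sup_le_sup_right ?_ _)
      intro z hz
      exact gen h H hZi hz
    · refine sup_le ?_ le_sup_right
      rw [Subgroup.closure_le]
      rintro z ⟨s, ⟨hs, i, hi1, hi2, hi⟩, t, ht, rfl⟩
      exact jc_x h H hca hcK hu hw hq hqb hb hS (l + 1) (s := i) hs.2 hi1 hi2 hi
        (Subgroup.mem_centralizer_singleton_iff.1 hs.1).symm ht

theorem jc (h : Root p r k) (H : Hyp p r a) {c u w : X} (hca : ∀ x : X, Commute c x → Commute c (a x))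
    (hcK : ∀ s, 2 ≤ s → s + 2 ≤ p → ∀ x : X, Eig r k a s x → Commute c x) (hu : Eig r k a 1 u) {q b : ℕ}
    (hw : Eig r k a q w) (hq : 2 ≤ q) (hqb : q + b + 1 = p) (hb : 1 ≤ b) {e : ℕ → X}
    (hS : Str r k a q 1 w u b e) : ∀ x ∈ gm (Cj w u) 1, Commute c x := by
  obtain ⟨m, hm⟩ := gm_bot h.prime (cj_fin H w u) (fun x _ => H.tors x)
  have hanti : ∀ d l, gm (Cj w u) (l + d) ≤ gm (Cj w u) l := by
    intro d
    induction d with
    | zero => intro l; exact le_rfl
    | succ d ih => intro l; exact le_trans (gm_anti _ _) (ih l)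
  have hmain : ∀ n l, m ≤ l + n → gm (Cj w u) (l + 1) ≤ Subgroup.centralizer ({c} : Set X) := by
    intro n
    induction n with
    | zero =>
      intro l hl
      have h1 := hanti (l + 1 - m) m
      rw [show m + (l + 1 - m) = l + 1 by omega, hm] at h1
      exact le_trans h1 bot_le
    | succ n ih =>
      intro l hl
      refine le_trans (jc_step h H hca hcK hu hw hq hqb hb hS l) (sup_le inf_le_left ?_)
      exact ih (l + 1) (by omega)
  intro x hx
  exact (Subgroup.mem_centralizer_singleton_iff.1 (hmain m 0 (by omega) hx)).symm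

end Pool.Agent.FRS
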