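import Pool.Agent.FRS.CjB
import Pool.Agent.FRS.FrB
import Pool.Agent.FRS.Bil

/-!
# FRS/JI: indices, powers and centralisers (for the J-lemma)
-/

set_option autoImplicit false

namespace Pool.Agent.FRS

open Pool.Agent.FRB (Inv Eig LF SS Lam)

universe u

variable {p r k : ℕ} {X : Type u} [Group X] {a : MulAut X}

private theorem sup_form {V U : Subgroup X} (hU : Fr r V ≤ U) (hUV : U ≤ V) {x : X} (hx : x ∈ V)
    {v : X} (hv : v ∈ Subgroup.zpowers x ⊔ U) : ∃ n : ℤ, ∃ y ∈ U, v = x ^ n * y := by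
  let T : Subgroup X :=
    { carrier := {g | ∃ n : ℤ, ∃ y ∈ U, g = x ^ n * y}
      one_mem' := ⟨0, 1, U.one_mem, by rw [zpow_zero, mul_one]⟩
      mul_mem' := by
        rintro g g' ⟨n, y, hy, rfl⟩ ⟨m, y', hy', rfl⟩
        refine ⟨n + m, (x ^ m)⁻¹ * y * x ^ m * y',
          U.mul_mem (fr_norm hU hUV (V.zpow_mem hx m) hy) hy', ?_⟩
        rw [zpow_add]
        group
      inv_mem' := by
        rintro g ⟨n, y, hy, rfl⟩
        refine ⟨-n, (x ^ (-n))⁻¹ * y⁻¹ * x ^ (-n),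
          fr_norm hU hUV (V.zpow_mem hx (-n)) (U.inv_mem hy), ?_⟩
        group }
  have h1 : Subgroup.zpowers x ⊔ U ≤ T := by
    refine sup_le ?_ ?_
    · rw [Subgroup.zpowers_le]
      exact ⟨1, 1, U.one_mem, by rw [zpow_one, mul_one]⟩
    · intro y hy
      exact ⟨0, y, hy, by rw [zpow_zero, one_mul]⟩
  exact h1 hv

theorem idx_cyc (hr : r.Prime) {V U : Subgroup X} (hU : Fr r V ≤ U) (hUV : U ≤ V) {x : X} (hx : x ∈ V)
    (hg : V ≤ Subgroup.zpowers x ⊔ U) : U.relIndex V ≤ r := by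
  have hxr : x ^ r ∈ U := hU (fr_pow hx)
  have hsurj : Function.Surjective
      (fun t : Fin r => ((⟨x ^ (t : ℕ), V.pow_mem hx t⟩ : V) : V ⧸ U.subgroupOf V)) := by
    intro q
    obtain ⟨v, rfl⟩ := QuotientGroup.mk_surjective q
    obtain ⟨n, y, hy, hv⟩ := sup_form hU hUV hx (hg v.2)
    have hr0 : (0 : ℤ) < r := by exact_mod_cast hr.pos
    obtain ⟨t, ht⟩ := Int.eq_ofNat_of_zero_le (Int.emod_nonneg n hr0.ne')
    have htr : t < r := by
      have h1 := Int.emod_lt_of_pos n hr0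
      rw [ht] at h1
      exact_mod_cast h1
    refine ⟨⟨t, htr⟩, ?_⟩
    dsimp only
    rw [QuotientGroup.eq, Subgroup.mem_subgroupOf]
    have h2 : (((⟨x ^ t, V.pow_mem hx t⟩ : V)⁻¹ * v : V) : X) = (x ^ r) ^ (n / r) * y := by
      rw [Subgroup.coe_mul, Subgroup.coe_inv, hv]
      have h3 : x ^ n = x ^ t * (x ^ r) ^ (n / r) := by
        have h4 : n = (t : ℤ) + r * (n / r) := by
          have h5 := Int.emod_add_mul_ediv n r
          rw [ht] at h5
          exact h5.symm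
        have h6 : (x ^ r) ^ (n / (r : ℤ)) = x ^ ((r : ℤ) * (n / r)) := by
          rw [zpow_mul, zpow_natCast]
        rw [h6, ← zpow_natCast x t, ← zpow_add, ← h4]
      rw [h3, mul_assoc, inv_mul_cancel_left]
    rw [h2]
    exact U.mul_mem (U.zpow_mem hxr _) hy
  have h7 := Nat.card_le_card_of_surjective _ hsurj
  rw [Nat.card_fin] at h7
  exact h7

/-- finite intersections -/
private def inter (U : ℕ → Subgroup X) : ℕ → Subgroup X
  | 0 => U 0
  | m + 1 => inter U m ⊓ U (m + 1)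

private theorem inter_mem {U : ℕ → Subgroup X} {m : ℕ} {x : X} (hx : x ∈ inter U m) :
    ∀ t ≤ m, x ∈ U t := by
  induction m with
  | zero =>
    intro t ht
    rw [Nat.le_zero.1 ht]
    exact hx
  | succ m ih =>
    intro t ht
    rcases Nat.lt_or_ge m t with h | h
    · have h1 : t = m + 1 := by omega
      rw [h1]
      exact hx.2
    · exact ih hx.1 t h

private theorem inter_idx {V : Subgroup X} (U : ℕ → Subgroup X) (m : ℕ)
    (hU : ∀ t ≤ m, (U t).relIndex V ≤ r) : (inter U m).relIndex V ≤ r ^ (m + 1) := by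
  induction m with
  | zero =>
    rw [zero_add, pow_one]
    exact hU 0 le_rfl
  | succ m ih =>
    rw [pow_succ]
    refine (Subgroup.relIndex_inf_le).trans ?_
    exact Nat.mul_le_mul (ih fun t ht => hU t (by omega)) (hU _ le_rfl)

theorem idx_inf (hr : r.Prime) {V : Subgroup X} (hf : (V : Set X).Finite) (U : ℕ → Subgroup X) (m : ℕ)
    (hU : ∀ t ≤ m, (U t).relIndex V ≤ r) {N : Subgroup X} (hN : ∀ x ∈ V, (∀ t ≤ m, x ∈ U t) → x ∈ N) :
    N.relIndex V ≤ r ^ (m + 1) := by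
  have h1 := inter_idx U m hU
  have hfin : Finite V := hf.to_subtype
  have h2 : (inter U m ⊓ V).relIndex V ≠ 0 := Subgroup.index_ne_zero_of_finite
  have h3 : inter U m ⊓ V ≤ N := fun x hx => hN x hx.2 (inter_mem hx.1)
  have h4 := Subgroup.relIndex_le_of_le_left h3 h2
  rw [Subgroup.inf_relIndex_right] at h4
  exact h4.trans h1

/-- powers of products modulo the commutators -/
private theorem mul_pow_gm {V : Subgroup X} {v v' : X} (hv : v ∈ V) (hv' : v' ∈ V) (n : ℕ) :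
    ∃ c ∈ gm V 1, (v * v') ^ n = v ^ n * v' ^ n * c := by
  have hle : gm V 1 ≤ V := gm_le V 1
  have hnor : ((gm V 1).subgroupOf V).Normal := by
    refine ⟨fun x hx g => ?_⟩
    rw [Subgroup.mem_subgroupOf] at hx ⊢
    have h1 := gm_norm V 1 (V.inv_mem g.2) hx
    rw [inv_inv] at h1
    exact h1
  obtain ⟨x, hx⟩ : ∃ x : V, x = ⟨v, hv⟩ := ⟨_, rfl⟩
  obtain ⟨y, hy⟩ : ∃ y : V, y = ⟨v', hv'⟩ := ⟨_, rfl⟩
  have hcom : Commute (x : V ⧸ (gm V 1).subgroupOf V) (y : V ⧸ (gm V 1).subgroupOf V) := by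
    show (x : V ⧸ (gm V 1).subgroupOf V) * y = y * x
    rw [← QuotientGroup.mk_mul, ← QuotientGroup.mk_mul, eq_comm, QuotientGroup.eq,
      Subgroup.mem_subgroupOf]
    have h2 : v⁻¹ * v'⁻¹ * v * v' ∈ gm V 1 := gm_com 0 hv hv'
    have h3 : (((y * x)⁻¹ * (x * y) : V) : X) = v⁻¹ * v'⁻¹ * v * v' := by
      rw [Subgroup.coe_mul, Subgroup.coe_inv, Subgroup.coe_mul, Subgroup.coe_mul, hx, hy,
        mul_inv_rev]
      simp only [mul_assoc]
    rw [h3]
    exact h2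
  have h4 := hcom.mul_pow n
  rw [← QuotientGroup.mk_mul, ← QuotientGroup.mk_pow, ← QuotientGroup.mk_pow,
    ← QuotientGroup.mk_pow, ← QuotientGroup.mk_mul, eq_comm, QuotientGroup.eq,
    Subgroup.mem_subgroupOf] at h4
  have h5 : (((x ^ n * y ^ n)⁻¹ * (x * y) ^ n : V) : X) = (v ^ n * v' ^ n)⁻¹ * (v * v') ^ n := by
    rw [Subgroup.coe_mul, Subgroup.coe_inv, Subgroup.coe_mul, Subgroup.coe_pow, Subgroup.coe_pow,
      Subgroup.coe_pow, Subgroup.coe_mul, hx, hy]
  rw [h5] at h4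
  exact ⟨_, h4, (mul_inv_cancel_left _ _).symm⟩

theorem pow_sub {w u v : X} (hv : v ∈ Cj w u) : v ^ r ∈ Cj (w ^ r) u ⊔ gm (Cj w u) 1 := by
  have h0 : Cj w u ≤ Cj w u := le_rfl
  have key : ∀ v ∈ Subgroup.closure {x : X | ∃ t : ℤ, x = u ^ (-t) * w * u ^ t},
      v ^ r ∈ Cj (w ^ r) u ⊔ gm (Cj w u) 1 := by
    intro v hv
    induction hv using Subgroup.closure_induction with
    | mem x hx =>
      obtain ⟨t, rfl⟩ := hx
      have h1 := cj_mem (w ^ r) u t
      have h2 : (u ^ (-t) * w * u ^ t) ^ r = u ^ (-t) * w ^ r * u ^ t := by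
        have h3 : u ^ t = (u ^ (-t))⁻¹ := by rw [← zpow_neg, neg_neg]
        rw [h3, conj_pow]
      rw [h2]
      exact Subgroup.mem_sup_left h1
    | one =>
      rw [one_pow]
      exact Subgroup.one_mem _
    | mul x y hx hy hx' hy' =>
      obtain ⟨c, hc, hxy⟩ := mul_pow_gm (V := Cj w u) hx hy r
      rw [hxy]
      exact Subgroup.mul_mem _ (Subgroup.mul_mem _ hx' hy') (Subgroup.mem_sup_right hc)
    | inv x _ hx' =>
      rw [inv_pow]
      exact Subgroup.inv_mem _ hx'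
  exact key v hv

theorem fr_sub (w u : X) : Fr r (Cj w u) ≤ Cj (w ^ r) u ⊔ gm (Cj w u) 1 := by
  unfold Fr
  rw [Subgroup.closure_le]
  rintro x (⟨v, hv, rfl⟩ | ⟨v, hv, v', hv', rfl⟩)
  · exact pow_sub hv
  · exact Subgroup.mem_sup_right (gm_com 0 hv hv')

end Pool.Agent.FRS
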