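import Pool.Agent.FRS.JC
import Pool.Agent.FRS.JI

/-!
# FRS/JD: the J-lemma

`jd`: strong induction on `Nat.card (Cj w u)` (all other data fixed, `w` varies over the elements of degree `q`).
`w = 1`: clear.  Let `Str q 1 w u n e` (`str_exists`), `V = Cj w u`.  `n ≤ b`: `e (b+1)` would have degree `p`
(`eig_triv`, `Str.ne`).  If `n < b` then `V` is generated by the `e l` of degrees `q + l`, `2 ≤ q + l ≤ p - 2`, all of
which commute with `c`.  Let `n = b`.  `gm V 1` commutes with `c` (`jc`).  `Cj (w^r) u ≤ Fr r V` (`cj_sub`, `fr_pow`,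
`fr_conj`) is properly contained in `V` (`fr_lt`), so its cardinality is smaller and by induction it commutes with `c`
(`w^r` has degree `q`).  So `Fr r V` commutes with `c` (`fr_sub`).  `U = V ⊓ centralizer {c}` contains `Fr r V` and `e l`,
`l < b`, so `V ≤ zpowers (e b) ⊔ U`.  Let `c_t = u^(-t) c u^t`, `U_t = V ⊓ centralizer {c_t}`, which is the conjugate
`u^(-t) U u^t`; `Fr r V ≤ U_t`, `V ≤ zpowers (u^(-t) (e b) u^t) ⊔ U_t`, so `U_t.relIndex V ≤ r` (`idx_cyc`).  Let `N` be the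
set of elements of `V` commuting with `Cj c u`, a subgroup, `Fr r V ≤ N` (as `Fr r V` is normalised by `u`), normalised
by `u`.  By `hgen`, `x ∈ V` is in `N` as soon as it is in all `U_t`, `t ≤ m`.  So `N.relIndex V ≤ r^(m+1)` (`idx_inf`) and
`e b ∈ N` by `Str.idx` (`m < b`).  So `e b` commutes with `c`, and `V` commutes with `c` (`Str.gen`).
-/

set_option autoImplicit false

namespace Pool.Agent.FRS

open Pool.Agent.FRB (Inv Eig LF SS Lam)

universe u

variable {p r k : ℕ} {X : Type u} [Group X] {a : MulAut X}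

private theorem fr_c1 {w u : X} {x : X} (hx : x ∈ Fr r (Cj w u)) : u⁻¹ * x * u ∈ Fr r (Cj w u) :=
  fr_conj (fun v hv => cj_conj1 w u hv) hx

private theorem fr_c2 {w u : X} {x : X} (hx : x ∈ Fr r (Cj w u)) : u * x * u⁻¹ ∈ Fr r (Cj w u) := by
  have h1 := fr_conj (g := u⁻¹) (V := Cj w u) (r := r) (fun v hv => by
    rw [inv_inv]
    exact cj_conj2 w u hv) hx
  rwa [inv_inv] at h1

private theorem fr_ct {w u : X} {x : X} (hx : x ∈ Fr r (Cj w u)) (t : ℤ) :
    u ^ t * x * u ^ (-t) ∈ Fr r (Cj w u) := by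
  have h1 := fr_conj (g := u ^ (-t)) (V := Cj w u) (r := r) (fun v hv => by
    have h2 := cj_conj w u (-t) hv
    rw [neg_neg] at h2
    rwa [← zpow_neg, neg_neg]) hx
  rwa [← zpow_neg, neg_neg] at h1

/-- transport of commutation by conjugation -/
private theorem com_tr {c u x : X} (t : ℤ) (h : Commute c (u ^ t * x * u ^ (-t))) :
    Commute (u ^ (-t) * c * u ^ t) x := by
  have h1 : c * (u ^ t * x * u ^ (-t)) = u ^ t * x * u ^ (-t) * c := h
  have e1 : u ^ (-t) * c * u ^ t * x = u ^ (-t) * (c * (u ^ t * x * u ^ (-t))) * u ^ t := by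
    group
  have e2 : u ^ (-t) * (u ^ t * x * u ^ (-t) * c) * u ^ t = x * (u ^ (-t) * c * u ^ t) := by
    group
  show u ^ (-t) * c * u ^ t * x = x * (u ^ (-t) * c * u ^ t)
  rw [e1, h1, e2]

private theorem com_tr' {c u x : X} (t : ℤ) (h : Commute c x) :
    Commute (u ^ (-t) * c * u ^ t) (u ^ (-t) * x * u ^ t) := by
  apply com_tr
  have e1 : u ^ t * (u ^ (-t) * x * u ^ t) * u ^ (-t) = x := by group
  rw [e1]
  exact h

private theorem card_lt {A B : Subgroup X} (hf : (B : Set X).Finite) (h1 : A ≤ B) (h2 : ¬ B ≤ A) :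
    Nat.card A < Nat.card B := by
  have h3 : (A : Set X) ⊂ (B : Set X) := ⟨h1, h2⟩
  exact Set.ncard_lt_ncard h3 hf

theorem jd (h : Root p r k) (H : Hyp p r a) {c u : X} (hca : ∀ x : X, Commute c x → Commute c (a x))
    (hcK : ∀ s, 2 ≤ s → s + 2 ≤ p → ∀ x : X, Eig r k a s x → Commute c x) (hu : Eig r k a 1 u) {m : ℕ}
    (hgen : Cj c u ≤ Subgroup.closure {x | ∃ t : ℕ, t ≤ m ∧ x = u ^ (-(t : ℤ)) * c * u ^ (t : ℤ)}) {q b : ℕ}
    (hq : 2 ≤ q) (hqb : q + b + 1 = p) (hb : m + 1 ≤ b) (n : ℕ) :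
    ∀ w : X, Eig r k a q w → Nat.card (Cj w u) = n → ∀ x ∈ Cj w u, Commute c x := by
  induction n using Nat.strong_induction_on with
  | _ n ih =>
  intro w hw hn
  -- it is enough to see that `Cj w u` is contained in the centraliser
  suffices hs : Cj w u ≤ Subgroup.centralizer ({c} : Set X) by
    intro x hx
    exact Subgroup.mem_centralizer_iff.1 (hs hx) c rfl
  have hmem : ∀ {x : X}, Commute c x → x ∈ Subgroup.centralizer ({c} : Set X) := by
    intro x hx
    rw [Subgroup.mem_centralizer_iff]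
    intro y hy
    rw [Set.mem_singleton_iff.1 hy]
    exact hx
  have hmem' : ∀ {x : X}, x ∈ Subgroup.centralizer ({c} : Set X) → Commute c x := by
    intro x hx
    exact Subgroup.mem_centralizer_iff.1 hx c rfl
  by_cases hw1 : w = 1
  · unfold Cj
    rw [Subgroup.closure_le]
    rintro x ⟨t, rfl⟩
    rw [hw1, mul_one, ← zpow_add, neg_add_cancel, zpow_zero]
    exact one_mem _
  obtain ⟨n', e, hS⟩ := str_exists h H hw hu
  have hn' : n' ≤ b := by
    by_contra hlt
    have h1 : b + 1 ≤ n' := by omega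
    have h2 := hS.eig (b + 1) h1
    have h3 : q + (b + 1) * 1 = p := by omega
    rw [h3] at h2
    exact hS.ne (b + 1) h1 (by omega) (eig_triv h H (dvd_refl p) h2)
  have hlow : ∀ l, l ≤ n' → l < b → Commute c (e l) := by
    intro l hl hlb
    refine hcK (q + l * 1) (by omega) (by omega) _ (hS.eig l hl)
  rcases Nat.lt_or_ge n' b with hlt | hge
  · rw [hS.gen, Subgroup.closure_le]
    rintro x ⟨l, hl, rfl⟩
    exact hmem (hlow l hl (by omega))
  have hnb : n' = b := le_antisymm hn' hge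
  subst hnb
  have hb1 : 1 ≤ n' := by omega
  have hfin := cj_fin H w u
  have hjc := jc h H hca hcK hu hw hq hqb hb1 hS
  -- the subgroup generated by the conjugates of `w ^ r`
  have hsub : Cj (w ^ r) u ≤ Fr r (Cj w u) :=
    cj_sub (fr_pow (cj_self w u)) (fun x hx => fr_c1 hx) (fun x hx => fr_c2 hx)
  have hne : Cj w u ≠ ⊥ := by
    intro h1
    have h2 := cj_self w u
    rw [h1, Subgroup.mem_bot] at h2
    exact hw1 h2
  have hnlt := fr_lt h.prime hfin (fun x _ => H.tors x) hne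
  have hcard : Nat.card (Cj (w ^ r) u) < n := by
    rw [← hn]
    exact card_lt hfin (hsub.trans (fr_le r _)) fun h1 => hnlt (h1.trans hsub)
  have hih := ih _ hcard (w ^ r) (eig_pow h hw r) rfl
  have hFrZ : Fr r (Cj w u) ≤ Subgroup.centralizer ({c} : Set X) :=
    (fr_sub w u).trans (sup_le (fun x hx => hmem (hih x hx)) fun x hx => hmem (hjc x hx))
  have hFrc : ∀ x ∈ Fr r (Cj w u), ∀ t : ℤ, Commute (u ^ (-t) * c * u ^ t) x := fun x hx t =>
    com_tr t (hmem' (hFrZ (fr_ct hx t)))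
  -- the subgroups `U t`
  have hUmem : ∀ (t : ℕ) (x : X), x ∈ Cj w u ⊓
      Subgroup.centralizer ({u ^ (-(t : ℤ)) * c * u ^ (t : ℤ)} : Set X) ↔
      x ∈ Cj w u ∧ Commute (u ^ (-(t : ℤ)) * c * u ^ (t : ℤ)) x := by
    intro t x
    rw [Subgroup.mem_inf, Subgroup.mem_centralizer_iff]
    constructor
    · rintro ⟨h1, h2⟩
      exact ⟨h1, h2 _ rfl⟩
    · rintro ⟨h1, h2⟩
      refine ⟨h1, fun y hy => ?_⟩
      rw [Set.mem_singleton_iff.1 hy]
      exact h2
  have hU : ∀ t : ℕ, (Cj w u ⊓ Subgroup.centralizer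
      ({u ^ (-(t : ℤ)) * c * u ^ (t : ℤ)} : Set X)).relIndex (Cj w u) ≤ r := by
    intro t
    have hebV : u ^ (-(t : ℤ)) * e n' * u ^ (t : ℤ) ∈ Cj w u := cj_conj w u t (hS.mem n' le_rfl)
    refine idx_cyc h.prime (x := u ^ (-(t : ℤ)) * e n' * u ^ (t : ℤ)) ?_ inf_le_left hebV ?_
    · intro x hx
      exact (hUmem t x).2 ⟨fr_le r _ hx, hFrc x hx t⟩
    · have key : ∀ y ∈ Cj w u, u ^ (-(t : ℤ)) * y * u ^ (t : ℤ) ∈
          Subgroup.zpowers (u ^ (-(t : ℤ)) * e n' * u ^ (t : ℤ)) ⊔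
          (Cj w u ⊓ Subgroup.centralizer ({u ^ (-(t : ℤ)) * c * u ^ (t : ℤ)} : Set X)) := by
        intro y hy
        rw [hS.gen] at hy
        induction hy using Subgroup.closure_induction with
        | mem y hy =>
          obtain ⟨l, hl, rfl⟩ := hy
          rcases Nat.lt_or_ge l n' with hl1 | hl1
          · apply Subgroup.mem_sup_right
            refine (hUmem t _).2 ⟨cj_conj w u t (hS.mem l hl), com_tr' t (hlow l hl hl1)⟩
          · have hl2 : l = n' := le_antisymm hl hl1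
            rw [hl2]
            exact Subgroup.mem_sup_left (Subgroup.mem_zpowers _)
        | one =>
          rw [mul_one, ← zpow_add, neg_add_cancel, zpow_zero]
          exact one_mem _
        | mul y z _ _ hy hz =>
          have e1 : u ^ (-(t : ℤ)) * (y * z) * u ^ (t : ℤ) = (u ^ (-(t : ℤ)) * y * u ^ (t : ℤ)) *
              (u ^ (-(t : ℤ)) * z * u ^ (t : ℤ)) := by group
          rw [e1]
          exact mul_mem hy hz
        | inv y _ hy =>
          have e1 : u ^ (-(t : ℤ)) * y⁻¹ * u ^ (t : ℤ) = (u ^ (-(t : ℤ)) * y * u ^ (t : ℤ))⁻¹ := by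
            group
          rw [e1]
          exact inv_mem hy
      intro v hv
      have h1 := key _ (cj_conj w u (-(t : ℤ)) hv)
      have e1 : u ^ (-(t : ℤ)) * (u ^ (-(-(t : ℤ))) * v * u ^ (-(t : ℤ))) * u ^ (t : ℤ) = v := by
        group
      rwa [e1] at h1
  -- the subgroup of the elements of `V` that commute with `Cj c u`
  have hNmem : ∀ x : X, x ∈ Cj w u ⊓ Subgroup.centralizer (Cj c u : Set X) ↔
      x ∈ Cj w u ∧ ∀ y ∈ Cj c u, Commute y x := by
    intro x
    rw [Subgroup.mem_inf, Subgroup.mem_centralizer_iff]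
    rfl
  have hcl : ∀ (x : X) (T : Set X), (∀ y ∈ T, Commute y x) → ∀ y ∈ Subgroup.closure T, Commute y x := by
    intro x T hT y hy
    have h1 : Subgroup.closure T ≤ Subgroup.centralizer ({x} : Set X) := by
      rw [Subgroup.closure_le]
      intro z hz
      rw [SetLike.mem_coe, Subgroup.mem_centralizer_iff]
      intro y hy
      rw [Set.mem_singleton_iff.1 hy]
      exact (hT z hz).symm
    exact (Subgroup.mem_centralizer_iff.1 (h1 hy) x rfl).symm
  have hNi : (Cj w u ⊓ Subgroup.centralizer (Cj c u : Set X)).relIndex (Cj w u) ≤ r ^ (m + 1) := by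
    refine idx_inf h.prime hfin (fun t => Cj w u ⊓ Subgroup.centralizer
      ({u ^ (-(t : ℤ)) * c * u ^ (t : ℤ)} : Set X)) m (fun t _ => hU t) ?_
    intro x hx hxU
    refine (hNmem x).2 ⟨hx, fun y hy => ?_⟩
    refine hcl x _ ?_ y (hgen hy)
    rintro z ⟨t, ht, rfl⟩
    exact ((hUmem t x).1 (hxU t ht)).2
  have heb : e n' ∈ Cj w u ⊓ Subgroup.centralizer (Cj c u : Set X) := by
    refine hS.idx _ ?_ inf_le_left ?_ m (by omega) hNi
    · intro x hx
      refine (hNmem x).2 ⟨fr_le r _ hx, fun y hy => hcl x _ ?_ y hy⟩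
      rintro z ⟨t, rfl⟩
      exact hFrc x hx t
    · intro x hx
      obtain ⟨h1, h2⟩ := (hNmem x).1 hx
      refine (hNmem _).2 ⟨cj_conj1 w u h1, fun y hy => ?_⟩
      have h3 : u * y * u⁻¹ * x = x * (u * y * u⁻¹) := h2 _ (cj_conj2 c u hy)
      show y * (u⁻¹ * x * u) = u⁻¹ * x * u * y
      have e1 : y * (u⁻¹ * x * u) = u⁻¹ * (u * y * u⁻¹ * x) * u := by group
      have e2 : u⁻¹ * (x * (u * y * u⁻¹)) * u = u⁻¹ * x * u * y := by group
      rw [e1, h3, e2]
  have hebc : Commute c (e n') := ((hNmem _).1 heb).2 c (cj_self c u)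
  rw [hS.gen, Subgroup.closure_le]
  rintro x ⟨l, hl, rfl⟩
  rcases Nat.lt_or_ge l n' with hl1 | hl1
  · exact hmem (hlow l hl hl1)
  · have hl2 : l = n' := le_antisymm hl hl1
    rw [hl2]
    exact hmem hebc

end Pool.Agent.FRS
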