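import Pool.Agent.FRS.Quo

/-! # FRS/Lift: eigen-elements lift through central extensions -/

set_option autoImplicit false

namespace Pool.Agent.FRS

open Pool.Agent.FRB (Inv Eig LF SS Lam)

variable {p r k : ℕ} {X : Type*} [Group X] {a : MulAut X}

/-- `s` is congruent to `x ^ j` modulo `N` -/
private def PrL (N : Subgroup X) (x : X) (j : ℕ) (s : X) : Prop := ∃ n ∈ N, s = x ^ j * n

private theorem PrL.mul {N : Subgroup X} {x : X} (hcx : ∀ n ∈ N, Commute n x) {j l : ℕ} {s t : X}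
    (hs : PrL N x j s) (ht : PrL N x l t) : PrL N x (j + l) (s * t) := by
  obtain ⟨n, hn, rfl⟩ := hs
  obtain ⟨m, hm, rfl⟩ := ht
  refine ⟨n * m, N.mul_mem hn hm, ?_⟩
  have h1 : n * x ^ l = x ^ l * n := ((hcx n hn).pow_right l).eq
  calc x ^ j * n * (x ^ l * m) = x ^ j * (n * x ^ l) * m := by simp only [mul_assoc]
    _ = x ^ j * (x ^ l * n) * m := by rw [h1]
    _ = x ^ (j + l) * (n * m) := by rw [pow_add]; simp only [mul_assoc]

private theorem PrL.comm {N : Subgroup X} {x : X} (hcx : ∀ n ∈ N, Commute n x)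
    (hcN : ∀ n ∈ N, ∀ m ∈ N, Commute n m) {j l : ℕ} {s t : X}
    (hs : PrL N x j s) (ht : PrL N x l t) : Commute s t := by
  obtain ⟨n, hn, rfl⟩ := hs
  obtain ⟨m, hm, rfl⟩ := ht
  refine Commute.mul_left (Commute.mul_right (Commute.pow_pow_self x j l) ?_)
    (Commute.mul_right ((hcx n hn).pow_right l) (hcN n hn m hm))
  exact (hcx m hm).symm.pow_left j

private theorem PrL.pow {N : Subgroup X} {x : X} (hcx : ∀ n ∈ N, Commute n x) {j : ℕ} {s : X}
    (hs : PrL N x j s) (l : ℕ) : PrL N x (j * l) (s ^ l) := by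
  obtain ⟨n, hn, rfl⟩ := hs
  refine ⟨n ^ l, N.pow_mem hn l, ?_⟩
  rw [((hcx n hn).symm.pow_left j).mul_pow, ← pow_mul]

private theorem PrL.app {N : Subgroup X} (hN : Inv a N) {x : X} (hcx : ∀ n ∈ N, Commute n x)
    {K : ℕ} (h1 : PrL N x K (a x)) {j : ℕ} {s : X} (hs : PrL N x j s) :
    PrL N x (K * j) (a s) := by
  obtain ⟨n, hn, rfl⟩ := hs
  rw [map_mul, map_pow]
  have h2 := (h1.pow hcx j).mul hcx (l := 0) (t := a n) ⟨a n, hN n hn, by rw [pow_zero, one_mul]⟩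
  exact h2

private theorem PrL.iter {N : Subgroup X} (hN : Inv a N) {x : X} (hcx : ∀ n ∈ N, Commute n x)
    {K : ℕ} (h1 : PrL N x K (a x)) (t : ℕ) : PrL N x (K ^ t) ((a ^ t) x) := by
  induction t with
  | zero => exact ⟨1, N.one_mem, by rw [pow_zero, pow_zero, pow_one, mul_one, MulAut.one_apply]⟩
  | succ t ih =>
    rw [pow_succ' a t, MulAut.mul_apply, pow_succ']
    exact h1.app hN hcx ih

/-- the factors -/
private def yyL (a : MulAut X) (x : X) (p K t : ℕ) : X := ((a ^ t) x) ^ (K ^ (p - t))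

/-- the product of the first `n` factors -/
private def wwL (a : MulAut X) (x : X) (p K : ℕ) : ℕ → X
  | 0 => 1
  | n + 1 => wwL a x p K n * yyL a x p K n

private theorem yyL_pr {N : Subgroup X} (hN : Inv a N) {x : X} (hcx : ∀ n ∈ N, Commute n x)
    {K : ℕ} (h1 : PrL N x K (a x)) {t : ℕ} (ht : t ≤ p) : PrL N x (K ^ p) (yyL a x p K t) := by
  have h2 := (h1.iter hN hcx t).pow hcx (K ^ (p - t))
  rw [← pow_add, Nat.add_sub_of_le ht] at h2
  exact h2

private theorem wwL_pr {N : Subgroup X} (hN : Inv a N) {x : X} (hcx : ∀ n ∈ N, Commute n x)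
    {K : ℕ} (h1 : PrL N x K (a x)) (n : ℕ) (hn : n ≤ p + 1) :
    PrL N x (n * K ^ p) (wwL a x p K n) := by
  induction n with
  | zero =>
    rw [Nat.zero_mul]
    exact ⟨1, N.one_mem, by rw [pow_zero, mul_one]; rfl⟩
  | succ n ih =>
    have h2 := (ih (by omega)).mul hcx (yyL_pr (p := p) (t := n) hN hcx h1 (by omega))
    rw [Nat.succ_mul]
    exact h2

private theorem yyL_a {x : X} {K t : ℕ} (ht : t < p) :
    a (yyL a x p K t) = yyL a x p K (t + 1) ^ K := by
  unfold yyL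
  rw [map_pow, ← MulAut.mul_apply, ← pow_succ' a t, ← pow_mul, ← pow_succ]
  congr 2
  omega

private theorem wwL_a {N : Subgroup X} (hN : Inv a N) {x : X} (hcx : ∀ n ∈ N, Commute n x)
    (hcN : ∀ n ∈ N, ∀ m ∈ N, Commute n m) {K : ℕ} (h1 : PrL N x K (a x)) (n : ℕ) (hn : n ≤ p) :
    yyL a x p K 0 ^ K * a (wwL a x p K n) = wwL a x p K (n + 1) ^ K := by
  induction n with
  | zero =>
    show yyL a x p K 0 ^ K * a 1 = (1 * yyL a x p K 0) ^ K
    rw [map_one, mul_one, one_mul]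
  | succ n ih =>
    have e1 : wwL a x p K (n + 1) = wwL a x p K n * yyL a x p K n := rfl
    have e2 : wwL a x p K (n + 1 + 1) = wwL a x p K (n + 1) * yyL a x p K (n + 1) := rfl
    have c := (wwL_pr (p := p) hN hcx h1 (n + 1) (by omega)).comm hcx hcN (yyL_pr hN hcx h1 hn)
    have ea : a (yyL a x p K n) = yyL a x p K (n + 1) ^ K := yyL_a (by omega)
    rw [e2, c.mul_pow, ← ih (by omega), e1, map_mul, ea, mul_assoc]

private theorem wwL_tor {N : Subgroup X} (hN : Inv a N) {x : X} (hcx : ∀ n ∈ N, Commute n x)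
    (hcN : ∀ n ∈ N, ∀ m ∈ N, Commute n m) {K : ℕ} (h1 : PrL N x K (a x)) {q : ℕ} (hx : x ^ q = 1)
    (n : ℕ) (hn : n ≤ p + 1) : wwL a x p K n ^ q = 1 := by
  induction n with
  | zero => exact one_pow q
  | succ n ih =>
    have e1 : wwL a x p K (n + 1) = wwL a x p K n * yyL a x p K n := rfl
    have c := (wwL_pr (p := p) hN hcx h1 n (by omega)).comm hcx hcN
      (yyL_pr (p := p) (t := n) hN hcx h1 (by omega))
    have e2 : yyL a x p K n ^ q = 1 := by
      unfold yyL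
      rw [← pow_mul, mul_comm, pow_mul, ← map_pow, hx, map_one, one_pow]
    rw [e1, c.mul_pow, ih (by omega), e2, mul_one]

private theorem lift_congr {x : X} {m i j : ℕ} (hx : x ^ m = 1) (hij : i ≡ j [MOD m]) :
    x ^ i = x ^ j :=
  pow_eq_pow_iff_modEq.2 (hij.of_dvd (orderOf_dvd_of_pow_eq_one hx))

theorem lift_central (h : Root p r k) (H : Hyp p r a) {N : Subgroup X} (hN : Inv a N) {i M : ℕ} {x : X}
    (hcx : ∀ n ∈ N, Commute n x) (hcN : ∀ n ∈ N, ∀ m ∈ N, Commute n m) (hx : x ^ (r ^ M) = 1)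
    (hax : (x ^ (k ^ (i * r ^ M)))⁻¹ * a x ∈ N) : ∃ n ∈ N, Eig r k a i (x * n) := by
  obtain ⟨K, hK⟩ : ∃ K : ℕ, K = k ^ (i * r ^ M) := ⟨_, rfl⟩
  rw [← hK] at hax
  have hKp : K ^ p ≡ 1 [MOD r ^ M] := by
    have h1 := (h.pow_lift M).pow i
    rw [one_pow, ← pow_mul] at h1
    have h2 : K ^ p = k ^ (p * r ^ M * i) := by
      rw [hK, ← pow_mul]
      congr 1
      ring
    rw [h2]
    exact h1.of_dvd (pow_dvd_pow r (Nat.le_succ M))
  have hxK : x ^ K ^ p = x := by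
    rw [lift_congr hx hKp, pow_one]
  have p1 : PrL N x K (a x) := ⟨_, hax, by rw [mul_inv_cancel_left]⟩
  have y0 : yyL a x p K 0 = x := by
    unfold yyL
    rw [pow_zero, MulAut.one_apply, Nat.sub_zero, hxK]
  have yp : yyL a x p K p = x := by
    unfold yyL
    rw [H.powp, MulAut.one_apply, Nat.sub_self, pow_zero, pow_one]
  obtain ⟨w, hw⟩ : ∃ w, w = wwL a x p K p := ⟨_, rfl⟩
  have haw : a w = w ^ K := by
    have h2 := wwL_a hN hcx hcN p1 p le_rfl
    have e2 : wwL a x p K (p + 1) = wwL a x p K p * yyL a x p K p := rfl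
    have c := (wwL_pr hN hcx p1 p (Nat.le_succ p)).comm hcx hcN (yyL_pr hN hcx p1 (le_refl p))
    rw [e2, c.mul_pow, (c.pow_pow K K).eq, yp, y0, ← hw] at h2
    exact mul_left_cancel h2
  have hwt : w ^ (r ^ M) = 1 := by
    rw [hw]
    exact wwL_tor hN hcx hcN p1 hx p (Nat.le_succ p)
  obtain ⟨e, he⟩ := h.inv_p M
  have hwP : PrL N x (p * K ^ p * e) (w ^ e) := by
    rw [hw]
    exact (wwL_pr hN hcx p1 p (Nat.le_succ p)).pow hcx e
  obtain ⟨n, hn, hwn⟩ := hwP
  have h1 : x ^ (p * K ^ p * e) = x := by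
    have h2 : p * K ^ p * e ≡ 1 [MOD r ^ M] := by
      have h3 := he.mul hKp
      have h4 : p * e * K ^ p = p * K ^ p * e := by ring
      rw [h4, mul_one] at h3
      exact h3
    rw [lift_congr hx h2, pow_one]
  rw [h1] at hwn
  refine ⟨n, hn, ?_⟩
  rw [← hwn]
  refine ⟨M, ?_, ?_⟩
  · rw [← pow_mul, mul_comm, pow_mul, hwt, one_pow]
  · rw [map_pow, haw, ← hK, ← pow_mul, ← pow_mul, mul_comm]

end Pool.Agent.FRS
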