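import Pool.Agent.FRS.Defs

/-! # FRS/Num: `p`-th roots of unity modulo powers of `r` -/

set_option autoImplicit false

namespace Pool.Agent.FRS

variable {p r k : ℕ}

theorem Root.cop_k (h : Root p r k) : Nat.Coprime k r := by
  have h1 := h.powp.gcd_eq
  have h2 : Nat.Coprime (k ^ p) r := by
    rw [Nat.Coprime, h1, Nat.gcd_one_left]
  exact h2.coprime_dvd_left (dvd_pow_self k h.pp.ne_zero)

theorem Root.cop_p (h : Root p r k) : Nat.Coprime p r := by
  rw [Nat.Prime.coprime_iff_not_dvd h.pp]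
  intro hd
  have h1 := h.modp
  rw [Nat.mod_eq_zero_of_dvd hd] at h1
  omega

theorem Root.lt (h : Root p r k) : p < r := by
  have h1 := h.modp
  have h2 := h.prime.two_le
  by_contra hc
  rw [not_lt] at hc
  rcases Nat.lt_or_eq_of_le hc with h3 | h3
  · rw [Nat.mod_eq_of_lt h3] at h1
    omega
  · rw [h3, Nat.mod_self] at h1
    omega

theorem Root.pow_lift (h : Root p r k) (N : ℕ) : k ^ (p * r ^ N) ≡ 1 [MOD r ^ (N + 1)] := by
  have h1 : (r : ℤ) ∣ (k : ℤ) ^ p - 1 := by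
    have := (Nat.modEq_iff_dvd.1 h.powp.symm)
    push_cast at this
    exact this
  have h2 := dvd_sub_pow_of_dvd_sub (p := r) h1 N
  rw [one_pow, ← pow_mul] at h2
  apply Nat.ModEq.symm
  rw [Nat.modEq_iff_dvd]
  push_cast
  exact h2

theorem Root.stable (h : Root p r k) {N M : ℕ} (hNM : N ≤ M) (i : ℕ) :
    k ^ (i * r ^ M) ≡ k ^ (i * r ^ N) [MOD r ^ (N + 1)] := by
  have hkr : (r : ℤ) ∣ (k : ℤ) ^ r - k := by
    have : Fact r.Prime := ⟨h.prime⟩
    have h1 : (((k : ℤ) ^ r - k : ℤ) : ZMod r) = 0 := by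
      push_cast
      rw [ZMod.pow_card, sub_self]
    exact (ZMod.intCast_zmod_eq_zero_iff_dvd _ _).1 h1
  have main : k ^ (r ^ M) ≡ k ^ (r ^ N) [MOD r ^ (N + 1)] := by
    induction M, hNM using Nat.le_induction with
    | base => exact Nat.ModEq.refl _
    | succ M hM ih =>
      refine Nat.ModEq.trans ?_ ih
      have h2 := dvd_sub_pow_of_dvd_sub (p := r) hkr M
      rw [← pow_mul, ← pow_succ'] at h2
      apply Nat.ModEq.symm
      rw [Nat.modEq_iff_dvd]
      push_cast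
      exact (pow_dvd_pow (r : ℤ) (by omega)).trans h2
  have := main.pow i
  rwa [← pow_mul, ← pow_mul, mul_comm (r ^ M), mul_comm (r ^ N)] at this

/-- exponents depend on the degree modulo `p` only -/
theorem Root.congr_p (h : Root p r k) {i j : ℕ} (hij : i ≡ j [MOD p]) (N : ℕ) :
    k ^ (i * r ^ N) ≡ k ^ (j * r ^ N) [MOD r ^ (N + 1)] := by
  have key : ∀ i t : ℕ, k ^ ((i + p * t) * r ^ N) ≡ k ^ (i * r ^ N) [MOD r ^ (N + 1)] := by
    intro i t
    have h1 : k ^ ((i + p * t) * r ^ N) = k ^ (i * r ^ N) * (k ^ (p * r ^ N)) ^ t := by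
      rw [← pow_mul, ← pow_add]
      congr 1
      ring
    rw [h1]
    have h2 := ((h.pow_lift N).pow t).mul_left (k ^ (i * r ^ N))
    rwa [one_pow, mul_one] at h2
  rcases le_total i j with hle | hle
  · obtain ⟨t, ht⟩ := (Nat.modEq_iff_dvd' hle).1 hij
    have h4 : j = i + p * t := by omega
    rw [h4]
    exact (key i t).symm
  · obtain ⟨t, ht⟩ := (Nat.modEq_iff_dvd' hle).1 hij.symm
    have h4 : i = j + p * t := by omega
    rw [h4]
    exact key j t

theorem Root.ne_pow (h : Root p r k) {i : ℕ} (hi : ¬ p ∣ i) : ¬ k ^ i ≡ 1 [MOD r] := by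
  intro hk
  have : Fact (Nat.Prime p) := ⟨h.pp⟩
  have h1 : (k : ZMod r) ^ p = 1 := by
    have := (ZMod.natCast_eq_natCast_iff _ _ _).2 h.powp
    push_cast at this
    exact this
  have h2 : (k : ZMod r) ≠ 1 := by
    intro h3
    apply h.ne1
    rw [← ZMod.natCast_eq_natCast_iff]
    rw [h3, Nat.cast_one]
  have h3 : orderOf (k : ZMod r) = p := orderOf_eq_prime h1 h2
  have h4 : (k : ZMod r) ^ i = 1 := by
    have := (ZMod.natCast_eq_natCast_iff _ _ _).2 hk
    push_cast at this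
    exact this
  have h5 := orderOf_dvd_of_pow_eq_one h4
  rw [h3] at h5
  exact hi h5

theorem Root.pow (h : Root p r k) {j : ℕ} (hj : ¬ p ∣ j) : Root p r (k ^ j) := by
  refine ⟨h.pp, h.five, h.prime, h.modp, ?_, h.ne_pow hj⟩
  have := h.powp.pow j
  rwa [one_pow, ← pow_mul, mul_comm, pow_mul] at this

theorem Root.cop (h : Root p r k) {i j : ℕ} (hij : ¬ i ≡ j [MOD p]) (N : ℕ) :
    IsCoprime ((k : ℤ) ^ (i * r ^ N) - (k : ℤ) ^ (j * r ^ N)) (r : ℤ) := by
  have hp : Prime (r : ℤ) := Nat.prime_iff_prime_int.1 h.prime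
  refine ((Irreducible.coprime_iff_not_dvd hp.irreducible).2 ?_).symm
  intro hdvd
  apply hij
  have : Fact (Nat.Prime p) := ⟨h.pp⟩
  have : Fact r.Prime := ⟨h.prime⟩
  set u : (ZMod r)ˣ := ZMod.unitOfCoprime k h.cop_k with hu
  have huk : (u : ZMod r) = k := ZMod.coe_unitOfCoprime k h.cop_k
  have h1 : u ^ p = 1 := by
    apply Units.ext
    rw [Units.val_pow_eq_pow_val, huk, Units.val_one]
    have := (ZMod.natCast_eq_natCast_iff _ _ _).2 h.powp
    push_cast at this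
    exact this
  have h2 : u ≠ 1 := by
    intro h3
    apply h.ne1
    rw [← ZMod.natCast_eq_natCast_iff, ← huk, h3, Units.val_one, Nat.cast_one]
  have h3 : orderOf u = p := orderOf_eq_prime h1 h2
  have h4 : u ^ (i * r ^ N) = u ^ (j * r ^ N) := by
    apply Units.ext
    rw [Units.val_pow_eq_pow_val, Units.val_pow_eq_pow_val, huk]
    have := (ZMod.intCast_zmod_eq_zero_iff_dvd _ _).2 hdvd
    push_cast at this
    exact sub_eq_zero.1 this
  have h5 : i * r ^ N ≡ j * r ^ N [MOD p] := by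
    have := pow_eq_pow_iff_modEq.1 h4
    rwa [h3] at this
  have h6 : r ^ N ≡ 1 [MOD p] := by
    have h7 : r ≡ 1 [MOD p] := by
      have h8 : 1 % p = 1 := Nat.mod_eq_of_lt h.pp.one_lt
      exact h.modp.trans h8.symm
    have := h7.pow N
    rwa [one_pow] at this
  calc i = i * 1 := (mul_one i).symm
    _ ≡ i * r ^ N [MOD p] := (h6.mul_left i).symm
    _ ≡ j * r ^ N [MOD p] := h5
    _ ≡ j * 1 [MOD p] := h6.mul_left j
    _ = j := mul_one j

theorem Root.inv_p (h : Root p r k) (M : ℕ) : ∃ e : ℕ, p * e ≡ 1 [MOD r ^ M] := by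
  have h1 : Nat.Coprime p (r ^ M) := Nat.Coprime.pow_right M h.cop_p
  rcases Nat.eq_zero_or_pos M with hM | hM
  · subst hM
    refine ⟨0, ?_⟩
    rw [pow_zero]
    exact Nat.modEq_one
  · have h2 : 1 < r ^ M := Nat.one_lt_pow hM.ne' h.prime.one_lt
    obtain ⟨e, he⟩ := Nat.exists_mul_mod_eq_one_of_coprime h1 h2
    refine ⟨e, ?_⟩
    have h3 : 1 % (r ^ M) = 1 := Nat.mod_eq_of_lt h2
    exact he.2.trans h3.symm

theorem sum_root (h : Root p r k) (M : ℕ) {m : ℕ} (hm : ¬ p ∣ m) :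
    ∑ t ∈ Finset.range p, k ^ (m * t * r ^ M) ≡ 0 [MOD r ^ M] := by
  have h1 : IsCoprime ((k : ℤ) ^ (m * r ^ M) - 1) (r : ℤ) := by
    have h2 := h.cop (i := m) (j := 0) (by
      intro h3
      exact hm ((Nat.modEq_zero_iff_dvd).1 h3)) M
    rwa [Nat.zero_mul, pow_zero] at h2
  have h2 : IsCoprime ((r : ℤ) ^ M) ((k : ℤ) ^ (m * r ^ M) - 1) := h1.symm.pow_left
  have h3 : k ^ (m * p * r ^ M) ≡ 1 [MOD r ^ M] := by
    have h4 := (h.pow_lift M).pow m
    rw [← pow_mul, one_pow] at h4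
    have h5 : p * r ^ M * m = m * p * r ^ M := by ring
    rw [h5] at h4
    exact h4.of_dvd (pow_dvd_pow r (Nat.le_succ M))
  have h4 : ((r ^ M : ℕ) : ℤ) ∣ (k : ℤ) ^ (m * p * r ^ M) - 1 := by
    have h5 := (Nat.modEq_iff_dvd.1 h3.symm)
    push_cast at h5 ⊢
    exact h5
  set q : ℤ := (k : ℤ) ^ (m * r ^ M) with hq
  have e : ∀ j : ℕ, (k : ℤ) ^ (m * j * r ^ M) = q ^ j := by
    intro j
    rw [hq, ← pow_mul]
    congr 1
    ring
  rw [e] at h4
  have h5 : q ^ p - 1 = (∑ t ∈ Finset.range p, q ^ t) * (q - 1) := (geom_sum_mul q p).symm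
  rw [h5] at h4
  have h6 : ((r ^ M : ℕ) : ℤ) ∣ ∑ t ∈ Finset.range p, q ^ t := by
    refine IsCoprime.dvd_of_dvd_mul_right ?_ h4
    push_cast
    exact h2
  rw [Nat.modEq_zero_iff_dvd]
  have h7 : (((∑ t ∈ Finset.range p, k ^ (m * t * r ^ M) : ℕ)) : ℤ) =
      ∑ t ∈ Finset.range p, q ^ t := by
    push_cast
    exact Finset.sum_congr rfl fun t _ => e t
  rw [← h7] at h6
  exact_mod_cast h6

theorem exists_root {p r : ℕ} (hp : p.Prime) (h5 : 5 ≤ p) (hr : r.Prime) (hrp : r % p = 1) : ∃ k, Root p r k := by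
  have : Fact (Nat.Prime p) := ⟨hp⟩
  have : Fact r.Prime := ⟨hr⟩
  have hcard : p ∣ Fintype.card (ZMod r)ˣ := by
    rw [ZMod.card_units_eq_totient, Nat.totient_prime hr]
    have h8 : 1 % p = 1 := Nat.mod_eq_of_lt hp.one_lt
    have h9 : 1 ≡ r [MOD p] := h8.trans hrp.symm
    exact (Nat.modEq_iff_dvd' hr.one_lt.le).1 h9
  obtain ⟨u, hu⟩ := exists_prime_orderOf_dvd_card p hcard
  refine ⟨(u : ZMod r).val, hp, h5, hr, hrp, ?_, ?_⟩
  · rw [← ZMod.natCast_eq_natCast_iff]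
    push_cast
    rw [ZMod.natCast_zmod_val, ← Units.val_pow_eq_pow_val, ← hu, pow_orderOf_eq_one, Units.val_one]
  · intro h
    rw [← ZMod.natCast_eq_natCast_iff] at h
    rw [ZMod.natCast_zmod_val, Nat.cast_one] at h
    have h2 : u = 1 := Units.ext h
    rw [h2, orderOf_one] at hu
    omega

end Pool.Agent.FRS
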