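import Pool.Agent.FRS.RulS

/-!
# FRS/Z7b: zero sets of degrees, p = 7 (generated)
-/

set_option autoImplicit false

namespace Pool.Agent.FRS

open Pool.Agent.FRB (Inv Eig LF SS Lam)

universe u

variable {r k : ℕ} {X : Type u} [Group X] {a : MulAut X}

theorem z7_125 (C : Ct 7 r k a) (t1 : Tr r k a ∅ 1) (t2 : Tr r k a ∅ 2) (t5 : Tr r k a ∅ 5)
    (n3 : Nt r k a ∅ 3) (n4 : Nt r k a ∅ 4) (n6 : Nt r k a ∅ 6) : False := by
  have f0 : Tr r k a {6} 1 := tr_mono C.root C.hyp t1 (by decide) (by decide)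
  have f1 : Tr r k a {5} 2 := tr_mono C.root C.hyp t2 (by decide) (by decide)
  have f2 : Tr r k a {2} 5 := tr_mono C.root C.hyp t5 (by decide) (by decide)
  have f3 : Nt r k a {4} 3 := nt_up C.root C.hyp n3 (by decide) (by decide)
  have f4 : Cm r k a {4} 3 1 := cm_lj C.root C.hyp f0 (by decide) (by decide)
  have f5 : Cm r k a {1, 4} 3 2 := cm_lj C.root C.hyp f1 (by decide) (by decide)
  have f6 : Len r k a ∅ 1 3 1 := len_top C.root C.hyp (by decide)
  have f7 : VC r k a {1, 2, 4} 3 3 1 := vc_str C.root C.hyp f6 (by decide)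
  have f8 : Len r k a ∅ 2 3 0 := len_z C.root C.hyp (N := ∅) (t := 5) sn f2 (by decide) (by decide) (by decide)
  have f9 : VC r k a {1, 2, 4} 3 3 2 := vc_str C.root C.hyp f8 (by decide)
  have f11 : Len r k a ∅ 4 3 0 := len_top C.root C.hyp (by decide)
  have f12 : VC r k a {1, 2, 4} 3 3 4 := vc_str C.root C.hyp f11 (by decide)
  have f15 : VC r k a {1, 2, 4} 6 3 1 := vc_str C.root C.hyp f6 (by decide)
  have f16 : VC r k a {1, 2, 4} 6 3 2 := vc_str C.root C.hyp f8 (by decide)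
  have f17 : VC r k a {1, 2, 4} 6 3 4 := vc_str C.root C.hyp f11 (by decide)
  have f18 : Tr r k a {1, 2, 4, 5} 2 := tr_mono C.root C.hyp f1 (by decide) (by decide)
  have f19 : Len r k a {1, 2, 4} 6 3 0 := len_z C.root C.hyp (N := {1, 2, 4}) (t := 2) (si f15 (si f16 (s1 f17))) f18 (by decide) (by decide) (by decide)
  have f20 : Cm r k a {1, 2, 4} 6 3 := cm_len C.root C.hyp f19
  have f21 : Cm r k a {1, 2, 3, 4} 6 5 := cm_lj C.root C.hyp f2 (by decide) (by decide)
  have f22 : Len r k a ∅ 1 6 0 := len_top C.root C.hyp (by decide)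
  have f23 : VC r k a {1, 2, 3, 4, 5} 6 6 1 := vc_str C.root C.hyp f22 (by decide)
  have f24 : Len r k a ∅ 2 6 0 := len_z C.root C.hyp (N := ∅) (t := 1) sn f0 (by decide) (by decide) (by decide)
  have f25 : VC r k a {1, 2, 3, 4, 5} 6 6 2 := vc_str C.root C.hyp f24 (by decide)
  have f26 : Len r k a ∅ 3 6 0 := len_z C.root C.hyp (N := ∅) (t := 2) sn f1 (by decide) (by decide) (by decide)
  have f27 : VC r k a {1, 2, 3, 4, 5} 6 6 3 := vc_str C.root C.hyp f26 (by decide)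
  have f28 : Len r k a ∅ 4 6 1 := len_z C.root C.hyp (N := ∅) (t := 2) sn f1 (by decide) (by decide) (by decide)
  have f29 : VC r k a {1, 2, 3, 4, 5} 6 6 4 := vc_str C.root C.hyp f28 (by decide)
  have f30 : Len r k a ∅ 5 6 2 := len_z C.root C.hyp (N := ∅) (t := 2) sn f1 (by decide) (by decide) (by decide)
  have f31 : VC r k a {1, 2, 3, 4, 5} 6 6 5 := vc_str C.root C.hyp f30 (by decide)
  have f33 : Tr r k a {1, 2, 3, 4, 5} 5 := tr_mono C.root C.hyp f2 (by decide) (by decide)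
  have f34 : Len r k a {1, 2, 3, 4, 5} 6 6 0 := len_z C.root C.hyp (N := {1, 2, 3, 4, 5}) (t := 5) (si f23 (si f25 (si f27 (si f29 (s1 f31))))) f33 (by decide) (by decide) (by decide)
  have f35 : Cm r k a {1, 2, 3, 4, 5} 6 6 := cm_len C.root C.hyp f34
  have f36 : Tr r k a {1, 2, 3, 4, 5, 6} 6 := tr_center C.root C.hyp C.prm.ss (by decide) (by decide)
  have f37 : Tr r k a {1, 2, 3, 4, 5} 6 := tr_cl C.root C.hyp f35 f36 (by decide) (by decide)
  have f38 : Tr r k a {1, 2, 3, 4} 6 := tr_cl C.root C.hyp f21 f37 (by decide) (by decide)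
  have f39 : Tr r k a {1, 2, 4} 6 := tr_cl C.root C.hyp f20 f38 (by decide) (by decide)
  have f40 : Len r k a {1, 2, 4} 3 3 0 := len_z C.root C.hyp (N := {1, 2, 4}) (t := 6) (si f7 (si f9 (s1 f12))) f39 (by decide) (by decide) (by decide)
  have f41 : Cm r k a {1, 2, 4} 3 3 := cm_len C.root C.hyp f40
  have f42 : Cm r k a {1, 2, 3, 4} 3 5 := cm_lj C.root C.hyp f2 (by decide) (by decide)
  have f43 : VC r k a {1, 2, 3, 4, 5} 3 6 1 := vc_str C.root C.hyp f22 (by decide)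
  have f44 : VC r k a {1, 2, 3, 4, 5} 3 6 2 := vc_str C.root C.hyp f24 (by decide)
  have f45 : VC r k a {1, 2, 3, 4, 5} 3 6 3 := vc_str C.root C.hyp f26 (by decide)
  have f46 : VC r k a {1, 2, 3, 4, 5} 3 6 4 := vc_str C.root C.hyp f28 (by decide)
  have f47 : VC r k a {1, 2, 3, 4, 5} 3 6 5 := vc_str C.root C.hyp f30 (by decide)
  have f48 : Tr r k a {1, 2, 3, 4, 5} 2 := tr_mono C.root C.hyp f1 (by decide) (by decide)
  have f49 : Len r k a {1, 2, 3, 4, 5} 3 6 0 := len_z C.root C.hyp (N := {1, 2, 3, 4, 5}) (t := 2) (si f43 (si f44 (si f45 (si f46 (s1 f47))))) f48 (by decide) (by decide) (by decide)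
  have f50 : Cm r k a {1, 2, 3, 4, 5} 3 6 := cm_len C.root C.hyp f49
  have f51 : Tr r k a {1, 2, 3, 4, 5, 6} 3 := tr_center C.root C.hyp C.prm.ss (by decide) (by decide)
  have f52 : Tr r k a {1, 2, 3, 4, 5} 3 := tr_cl C.root C.hyp f50 f51 (by decide) (by decide)
  have f53 : Tr r k a {1, 2, 3, 4} 3 := tr_cl C.root C.hyp f42 f52 (by decide) (by decide)
  have f54 : Tr r k a {1, 2, 4} 3 := tr_cl C.root C.hyp f41 f53 (by decide) (by decide)
  have f55 : Tr r k a {1, 4} 3 := tr_cl C.root C.hyp f5 f54 (by decide) (by decide)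
  have f56 : Tr r k a {4} 3 := tr_cl C.root C.hyp f4 f55 (by decide) (by decide)
  exact nt_tr C.root C.hyp f3 f56 (by decide) (by decide)

theorem z7_126 (C : Ct 7 r k a) (t1 : Tr r k a ∅ 1) (t2 : Tr r k a ∅ 2) (t6 : Tr r k a ∅ 6)
    (n3 : Nt r k a ∅ 3) (n4 : Nt r k a ∅ 4) (n5 : Nt r k a ∅ 5) : False := by
  have f0 : Tr r k a {6} 1 := tr_mono C.root C.hyp t1 (by decide) (by decide)
  have f1 : Tr r k a {5} 2 := tr_mono C.root C.hyp t2 (by decide) (by decide)
  have f2 : Tr r k a {1} 6 := tr_mono C.root C.hyp t6 (by decide) (by decide)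
  have f3 : Nt r k a {4} 3 := nt_up C.root C.hyp n3 (by decide) (by decide)
  have f4 : Cm r k a {4} 3 1 := cm_lj C.root C.hyp f0 (by decide) (by decide)
  have f5 : Cm r k a {1, 4} 3 2 := cm_lj C.root C.hyp f1 (by decide) (by decide)
  have f6 : Len r k a ∅ 1 3 1 := len_top C.root C.hyp (by decide)
  have f7 : VC r k a {1, 2, 4} 3 3 1 := vc_str C.root C.hyp f6 (by decide)
  have f10 : Len r k a ∅ 4 3 0 := len_top C.root C.hyp (by decide)
  have f11 : VC r k a {1, 2, 4} 3 3 4 := vc_str C.root C.hyp f10 (by decide)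
  have f14 : Tr r k a {1, 4} 6 := tr_mono C.root C.hyp f2 (by decide) (by decide)
  have f15 : Len r k a {1, 2, 4} 3 3 0 := len_z C.root C.hyp (N := {1, 4}) (t := 6) (si f7 (s1 f11)) f14 (by decide) (by decide) (by decide)
  have f16 : Cm r k a {1, 2, 4} 3 3 := cm_len C.root C.hyp f15
  have f17 : Len r k a ∅ 1 5 0 := len_z C.root C.hyp (N := ∅) (t := 6) sn f2 (by decide) (by decide) (by decide)
  have f18 : VC r k a {1, 2, 3, 4} 3 5 1 := vc_str C.root C.hyp f17 (by decide)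
  have f19 : Len r k a ∅ 2 5 0 := len_top C.root C.hyp (by decide)
  have f20 : VC r k a {1, 2, 3, 4} 3 5 2 := vc_str C.root C.hyp f19 (by decide)
  have f21 : Len r k a ∅ 3 5 0 := len_z C.root C.hyp (N := ∅) (t := 1) sn f0 (by decide) (by decide) (by decide)
  have f22 : VC r k a {1, 2, 3, 4} 3 5 3 := vc_str C.root C.hyp f21 (by decide)
  have f23 : Len r k a ∅ 4 5 0 := len_z C.root C.hyp (N := ∅) (t := 2) sn f1 (by decide) (by decide) (by decide)
  have f24 : VC r k a {1, 2, 3, 4} 3 5 4 := vc_str C.root C.hyp f23 (by decide)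
  have f27 : Tr r k a {1, 2, 3, 4, 6} 1 := tr_mono C.root C.hyp f0 (by decide) (by decide)
  have f28 : Len r k a {1, 2, 3, 4} 3 5 0 := len_z C.root C.hyp (N := {1, 2, 3, 4}) (t := 1) (si f18 (si f20 (si f22 (s1 f24)))) f27 (by decide) (by decide) (by decide)
  have f29 : Cm r k a {1, 2, 3, 4} 3 5 := cm_len C.root C.hyp f28
  have f30 : Cm r k a {1, 2, 3, 4, 5} 3 6 := cm_lj C.root C.hyp f2 (by decide) (by decide)
  have f31 : Tr r k a {1, 2, 3, 4, 5, 6} 3 := tr_center C.root C.hyp C.prm.ss (by decide) (by decide)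
  have f32 : Tr r k a {1, 2, 3, 4, 5} 3 := tr_cl C.root C.hyp f30 f31 (by decide) (by decide)
  have f33 : Tr r k a {1, 2, 3, 4} 3 := tr_cl C.root C.hyp f29 f32 (by decide) (by decide)
  have f34 : Tr r k a {1, 2, 4} 3 := tr_cl C.root C.hyp f16 f33 (by decide) (by decide)
  have f35 : Tr r k a {1, 4} 3 := tr_cl C.root C.hyp f5 f34 (by decide) (by decide)
  have f36 : Tr r k a {4} 3 := tr_cl C.root C.hyp f4 f35 (by decide) (by decide)
  exact nt_tr C.root C.hyp f3 f36 (by decide) (by decide)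

theorem z7_1234 (C : Ct 7 r k a) (t1 : Tr r k a ∅ 1) (t2 : Tr r k a ∅ 2) (t3 : Tr r k a ∅ 3) (t4 : Tr r k a ∅ 4)
    (n5 : Nt r k a ∅ 5) (n6 : Nt r k a ∅ 6) : False := by
  have f0 : Tr r k a {6} 1 := tr_mono C.root C.hyp t1 (by decide) (by decide)
  have f1 : Tr r k a {5} 2 := tr_mono C.root C.hyp t2 (by decide) (by decide)
  have f2 : Tr r k a {4} 3 := tr_mono C.root C.hyp t3 (by decide) (by decide)
  have f3 : Tr r k a {3} 4 := tr_mono C.root C.hyp t4 (by decide) (by decide)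
  have f4 : Nt r k a {2} 5 := nt_up C.root C.hyp n5 (by decide) (by decide)
  have f5 : Cm r k a {2} 5 1 := cm_lj C.root C.hyp f0 (by decide) (by decide)
  have f6 : Cm r k a {1, 2} 5 3 := cm_lj C.root C.hyp f2 (by decide) (by decide)
  have f7 : Cm r k a {1, 2, 3} 5 4 := cm_lj C.root C.hyp f3 (by decide) (by decide)
  have f9 : Len r k a ∅ 2 5 0 := len_top C.root C.hyp (by decide)
  have f10 : VC r k a {1, 2, 3, 4} 5 5 2 := vc_str C.root C.hyp f9 (by decide)
  have f11 : Len r k a ∅ 3 5 0 := len_z C.root C.hyp (N := ∅) (t := 1) sn f0 (by decide) (by decide) (by decide)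
  have f12 : VC r k a {1, 2, 3, 4} 5 5 3 := vc_str C.root C.hyp f11 (by decide)
  have f13 : Len r k a ∅ 4 5 0 := len_z C.root C.hyp (N := ∅) (t := 2) sn f1 (by decide) (by decide) (by decide)
  have f14 : VC r k a {1, 2, 3, 4} 5 5 4 := vc_str C.root C.hyp f13 (by decide)
  have f17 : Tr r k a {2, 3, 4} 3 := tr_mono C.root C.hyp f2 (by decide) (by decide)
  have f18 : Len r k a {1, 2, 3, 4} 5 5 0 := len_z C.root C.hyp (N := {2, 3, 4}) (t := 3) (si f10 (si f12 (s1 f14))) f17 (by decide) (by decide) (by decide)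
  have f19 : Cm r k a {1, 2, 3, 4} 5 5 := cm_len C.root C.hyp f18
  have f20 : Len r k a ∅ 1 6 0 := len_top C.root C.hyp (by decide)
  have f21 : VC r k a {1, 2, 3, 4, 5} 5 6 1 := vc_str C.root C.hyp f20 (by decide)
  have f22 : Len r k a ∅ 2 6 0 := len_z C.root C.hyp (N := ∅) (t := 1) sn f0 (by decide) (by decide) (by decide)
  have f23 : VC r k a {1, 2, 3, 4, 5} 5 6 2 := vc_str C.root C.hyp f22 (by decide)
  have f24 : Len r k a ∅ 3 6 0 := len_z C.root C.hyp (N := ∅) (t := 2) sn f1 (by decide) (by decide) (by decide)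
  have f25 : VC r k a {1, 2, 3, 4, 5} 5 6 3 := vc_str C.root C.hyp f24 (by decide)
  have f26 : Len r k a ∅ 4 6 0 := len_z C.root C.hyp (N := ∅) (t := 3) sn f2 (by decide) (by decide) (by decide)
  have f27 : VC r k a {1, 2, 3, 4, 5} 5 6 4 := vc_str C.root C.hyp f26 (by decide)
  have f28 : Len r k a ∅ 5 6 0 := len_z C.root C.hyp (N := ∅) (t := 4) sn f3 (by decide) (by decide) (by decide)
  have f29 : VC r k a {1, 2, 3, 4, 5} 5 6 5 := vc_str C.root C.hyp f28 (by decide)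
  have f31 : Tr r k a {1, 2, 3, 4, 5} 4 := tr_mono C.root C.hyp f3 (by decide) (by decide)
  have f32 : Len r k a {1, 2, 3, 4, 5} 5 6 0 := len_z C.root C.hyp (N := {1, 2, 3, 4, 5}) (t := 4) (si f21 (si f23 (si f25 (si f27 (s1 f29))))) f31 (by decide) (by decide) (by decide)
  have f33 : Cm r k a {1, 2, 3, 4, 5} 5 6 := cm_len C.root C.hyp f32
  have f34 : Tr r k a {1, 2, 3, 4, 5, 6} 5 := tr_center C.root C.hyp C.prm.ss (by decide) (by decide)
  have f35 : Tr r k a {1, 2, 3, 4, 5} 5 := tr_cl C.root C.hyp f33 f34 (by decide) (by decide)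
  have f36 : Tr r k a {1, 2, 3, 4} 5 := tr_cl C.root C.hyp f19 f35 (by decide) (by decide)
  have f37 : Tr r k a {1, 2, 3} 5 := tr_cl C.root C.hyp f7 f36 (by decide) (by decide)
  have f38 : Tr r k a {1, 2} 5 := tr_cl C.root C.hyp f6 f37 (by decide) (by decide)
  have f39 : Tr r k a {2} 5 := tr_cl C.root C.hyp f5 f38 (by decide) (by decide)
  exact nt_tr C.root C.hyp f4 f39 (by decide) (by decide)

theorem z7_1235 (C : Ct 7 r k a) (t1 : Tr r k a ∅ 1) (t2 : Tr r k a ∅ 2) (t3 : Tr r k a ∅ 3) (t5 : Tr r k a ∅ 5)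
    (n4 : Nt r k a ∅ 4) (n6 : Nt r k a ∅ 6) : False := by
  have f0 : Tr r k a {6} 1 := tr_mono C.root C.hyp t1 (by decide) (by decide)
  have f1 : Tr r k a {5} 2 := tr_mono C.root C.hyp t2 (by decide) (by decide)
  have f2 : Tr r k a {4} 3 := tr_mono C.root C.hyp t3 (by decide) (by decide)
  have f3 : Tr r k a {2} 5 := tr_mono C.root C.hyp t5 (by decide) (by decide)
  have f4 : Nt r k a {3} 4 := nt_up C.root C.hyp n4 (by decide) (by decide)
  have f5 : Cm r k a {3} 4 1 := cm_lj C.root C.hyp f0 (by decide) (by decide)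
  have f6 : Cm r k a {1, 3} 4 2 := cm_lj C.root C.hyp f1 (by decide) (by decide)
  have f7 : Len r k a ∅ 1 4 0 := len_z C.root C.hyp (N := ∅) (t := 5) sn f3 (by decide) (by decide) (by decide)
  have f8 : VC r k a {1, 2, 3} 4 4 1 := vc_str C.root C.hyp f7 (by decide)
  have f10 : Len r k a ∅ 3 4 0 := len_top C.root C.hyp (by decide)
  have f11 : VC r k a {1, 2, 3} 4 4 3 := vc_str C.root C.hyp f10 (by decide)
  have f15 : Tr r k a {1, 3, 6} 1 := tr_mono C.root C.hyp f0 (by decide) (by decide)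
  have f16 : Len r k a {1, 2, 3} 4 4 0 := len_z C.root C.hyp (N := {1, 3}) (t := 1) (si f8 (s1 f11)) f15 (by decide) (by decide) (by decide)
  have f17 : Cm r k a {1, 2, 3} 4 4 := cm_len C.root C.hyp f16
  have f18 : Cm r k a {1, 2, 3, 4} 4 5 := cm_lj C.root C.hyp f3 (by decide) (by decide)
  have f19 : Len r k a ∅ 1 6 0 := len_top C.root C.hyp (by decide)
  have f20 : VC r k a {1, 2, 3, 4, 5} 4 6 1 := vc_str C.root C.hyp f19 (by decide)
  have f21 : Len r k a ∅ 2 6 0 := len_z C.root C.hyp (N := ∅) (t := 1) sn f0 (by decide) (by decide) (by decide)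
  have f22 : VC r k a {1, 2, 3, 4, 5} 4 6 2 := vc_str C.root C.hyp f21 (by decide)
  have f23 : Len r k a ∅ 3 6 0 := len_z C.root C.hyp (N := ∅) (t := 2) sn f1 (by decide) (by decide) (by decide)
  have f24 : VC r k a {1, 2, 3, 4, 5} 4 6 3 := vc_str C.root C.hyp f23 (by decide)
  have f25 : Len r k a ∅ 4 6 0 := len_z C.root C.hyp (N := ∅) (t := 3) sn f2 (by decide) (by decide) (by decide)
  have f26 : VC r k a {1, 2, 3, 4, 5} 4 6 4 := vc_str C.root C.hyp f25 (by decide)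
  have f27 : Len r k a ∅ 5 6 1 := len_z C.root C.hyp (N := ∅) (t := 3) sn f2 (by decide) (by decide) (by decide)
  have f28 : VC r k a {1, 2, 3, 4, 5} 4 6 5 := vc_str C.root C.hyp f27 (by decide)
  have f30 : Tr r k a {1, 2, 3, 4, 5} 3 := tr_mono C.root C.hyp f2 (by decide) (by decide)
  have f31 : Len r k a {1, 2, 3, 4, 5} 4 6 0 := len_z C.root C.hyp (N := {1, 2, 3, 4, 5}) (t := 3) (si f20 (si f22 (si f24 (si f26 (s1 f28))))) f30 (by decide) (by decide) (by decide)
  have f32 : Cm r k a {1, 2, 3, 4, 5} 4 6 := cm_len C.root C.hyp f31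
  have f33 : Tr r k a {1, 2, 3, 4, 5, 6} 4 := tr_center C.root C.hyp C.prm.ss (by decide) (by decide)
  have f34 : Tr r k a {1, 2, 3, 4, 5} 4 := tr_cl C.root C.hyp f32 f33 (by decide) (by decide)
  have f35 : Tr r k a {1, 2, 3, 4} 4 := tr_cl C.root C.hyp f18 f34 (by decide) (by decide)
  have f36 : Tr r k a {1, 2, 3} 4 := tr_cl C.root C.hyp f17 f35 (by decide) (by decide)
  have f37 : Tr r k a {1, 3} 4 := tr_cl C.root C.hyp f6 f36 (by decide) (by decide)
  have f38 : Tr r k a {3} 4 := tr_cl C.root C.hyp f5 f37 (by decide) (by decide)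
  exact nt_tr C.root C.hyp f4 f38 (by decide) (by decide)

theorem z7_1256 (C : Ct 7 r k a) (t1 : Tr r k a ∅ 1) (t2 : Tr r k a ∅ 2) (t5 : Tr r k a ∅ 5) (t6 : Tr r k a ∅ 6)
    (n3 : Nt r k a ∅ 3) (n4 : Nt r k a ∅ 4) : False := by
  have f0 : Tr r k a {6} 1 := tr_mono C.root C.hyp t1 (by decide) (by decide)
  have f1 : Tr r k a {5} 2 := tr_mono C.root C.hyp t2 (by decide) (by decide)
  have f2 : Tr r k a {2} 5 := tr_mono C.root C.hyp t5 (by decide) (by decide)
  have f3 : Tr r k a {1} 6 := tr_mono C.root C.hyp t6 (by decide) (by decide)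
  have f4 : Nt r k a {4} 3 := nt_up C.root C.hyp n3 (by decide) (by decide)
  have f5 : Cm r k a {4} 3 1 := cm_lj C.root C.hyp f0 (by decide) (by decide)
  have f6 : Cm r k a {1, 4} 3 2 := cm_lj C.root C.hyp f1 (by decide) (by decide)
  have f7 : Len r k a ∅ 1 3 1 := len_top C.root C.hyp (by decide)
  have f8 : VC r k a {1, 2, 4} 3 3 1 := vc_str C.root C.hyp f7 (by decide)
  have f9 : Len r k a ∅ 2 3 0 := len_z C.root C.hyp (N := ∅) (t := 5) sn f2 (by decide) (by decide) (by decide)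
  have f10 : VC r k a {1, 2, 4} 3 3 2 := vc_str C.root C.hyp f9 (by decide)
  have f12 : Len r k a ∅ 4 3 0 := len_top C.root C.hyp (by decide)
  have f13 : VC r k a {1, 2, 4} 3 3 4 := vc_str C.root C.hyp f12 (by decide)
  have f16 : Tr r k a {1, 2, 4} 6 := tr_mono C.root C.hyp f3 (by decide) (by decide)
  have f17 : Len r k a {1, 2, 4} 3 3 0 := len_z C.root C.hyp (N := {1, 2, 4}) (t := 6) (si f8 (si f10 (s1 f13))) f16 (by decide) (by decide) (by decide)
  have f18 : Cm r k a {1, 2, 4} 3 3 := cm_len C.root C.hyp f17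
  have f19 : Cm r k a {1, 2, 3, 4} 3 5 := cm_lj C.root C.hyp f2 (by decide) (by decide)
  have f20 : Cm r k a {1, 2, 3, 4, 5} 3 6 := cm_lj C.root C.hyp f3 (by decide) (by decide)
  have f21 : Tr r k a {1, 2, 3, 4, 5, 6} 3 := tr_center C.root C.hyp C.prm.ss (by decide) (by decide)
  have f22 : Tr r k a {1, 2, 3, 4, 5} 3 := tr_cl C.root C.hyp f20 f21 (by decide) (by decide)
  have f23 : Tr r k a {1, 2, 3, 4} 3 := tr_cl C.root C.hyp f19 f22 (by decide) (by decide)
  have f24 : Tr r k a {1, 2, 4} 3 := tr_cl C.root C.hyp f18 f23 (by decide) (by decide)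
  have f25 : Tr r k a {1, 4} 3 := tr_cl C.root C.hyp f6 f24 (by decide) (by decide)
  have f26 : Tr r k a {4} 3 := tr_cl C.root C.hyp f5 f25 (by decide) (by decide)
  exact nt_tr C.root C.hyp f4 f26 (by decide) (by decide)

theorem z7_12345 (C : Ct 7 r k a) (t1 : Tr r k a ∅ 1) (t2 : Tr r k a ∅ 2) (t3 : Tr r k a ∅ 3) (t4 : Tr r k a ∅ 4) (t5 : Tr r k a ∅ 5)
    (n6 : Nt r k a ∅ 6) : False := by
  have f0 : Tr r k a {6} 1 := tr_mono C.root C.hyp t1 (by decide) (by decide)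
  have f1 : Tr r k a {5} 2 := tr_mono C.root C.hyp t2 (by decide) (by decide)
  have f2 : Tr r k a {4} 3 := tr_mono C.root C.hyp t3 (by decide) (by decide)
  have f3 : Tr r k a {3} 4 := tr_mono C.root C.hyp t4 (by decide) (by decide)
  have f4 : Tr r k a {2} 5 := tr_mono C.root C.hyp t5 (by decide) (by decide)
  have f5 : Nt r k a {1} 6 := nt_up C.root C.hyp n6 (by decide) (by decide)
  have f6 : Cm r k a {1} 6 2 := cm_lj C.root C.hyp f1 (by decide) (by decide)
  have f7 : Cm r k a {1, 2} 6 3 := cm_lj C.root C.hyp f2 (by decide) (by decide)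
  have f8 : Cm r k a {1, 2, 3} 6 4 := cm_lj C.root C.hyp f3 (by decide) (by decide)
  have f9 : Cm r k a {1, 2, 3, 4} 6 5 := cm_lj C.root C.hyp f4 (by decide) (by decide)
  have f10 : Len r k a ∅ 1 6 0 := len_top C.root C.hyp (by decide)
  have f11 : VC r k a {1, 2, 3, 4, 5} 6 6 1 := vc_str C.root C.hyp f10 (by decide)
  have f12 : Len r k a ∅ 2 6 0 := len_z C.root C.hyp (N := ∅) (t := 1) sn f0 (by decide) (by decide) (by decide)
  have f13 : VC r k a {1, 2, 3, 4, 5} 6 6 2 := vc_str C.root C.hyp f12 (by decide)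
  have f14 : Len r k a ∅ 3 6 0 := len_z C.root C.hyp (N := ∅) (t := 2) sn f1 (by decide) (by decide) (by decide)
  have f15 : VC r k a {1, 2, 3, 4, 5} 6 6 3 := vc_str C.root C.hyp f14 (by decide)
  have f16 : Len r k a ∅ 4 6 0 := len_z C.root C.hyp (N := ∅) (t := 3) sn f2 (by decide) (by decide) (by decide)
  have f17 : VC r k a {1, 2, 3, 4, 5} 6 6 4 := vc_str C.root C.hyp f16 (by decide)
  have f18 : Len r k a ∅ 5 6 0 := len_z C.root C.hyp (N := ∅) (t := 4) sn f3 (by decide) (by decide) (by decide)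
  have f19 : VC r k a {1, 2, 3, 4, 5} 6 6 5 := vc_str C.root C.hyp f18 (by decide)
  have f21 : Tr r k a {1, 2, 3, 4, 5} 5 := tr_mono C.root C.hyp f4 (by decide) (by decide)
  have f22 : Len r k a {1, 2, 3, 4, 5} 6 6 0 := len_z C.root C.hyp (N := {1, 2, 3, 4, 5}) (t := 5) (si f11 (si f13 (si f15 (si f17 (s1 f19))))) f21 (by decide) (by decide) (by decide)
  have f23 : Cm r k a {1, 2, 3, 4, 5} 6 6 := cm_len C.root C.hyp f22
  have f24 : Tr r k a {1, 2, 3, 4, 5, 6} 6 := tr_center C.root C.hyp C.prm.ss (by decide) (by decide)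
  have f25 : Tr r k a {1, 2, 3, 4, 5} 6 := tr_cl C.root C.hyp f23 f24 (by decide) (by decide)
  have f26 : Tr r k a {1, 2, 3, 4} 6 := tr_cl C.root C.hyp f9 f25 (by decide) (by decide)
  have f27 : Tr r k a {1, 2, 3} 6 := tr_cl C.root C.hyp f8 f26 (by decide) (by decide)
  have f28 : Tr r k a {1, 2} 6 := tr_cl C.root C.hyp f7 f27 (by decide) (by decide)
  have f29 : Tr r k a {1} 6 := tr_cl C.root C.hyp f6 f28 (by decide) (by decide)
  exact nt_tr C.root C.hyp f5 f29 (by decide) (by decide)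

end Pool.Agent.FRS
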