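import Pool.Agent.FRS.Z7a
import Pool.Agent.FRS.Z7b

/-!
# FRS/Nz7: in a nontrivial prime group all degrees occur, p = 7
-/

set_option autoImplicit false

namespace Pool.Agent.FRS

open Pool.Agent.FRB (Inv Eig LF SS Lam)

universe u

variable {r k : ℕ} {X : Type u} [Group X] {a : MulAut X}

/-- representatives of the sets of degrees up to scaling -/
def reps7 : List (Finset ℕ) := [{1}, {1, 2}, {1, 3}, {1, 6}, {1, 2, 3}, {1, 2, 4}, {1, 2, 5}, {1, 2, 6}, {1, 2, 3, 4}, {1, 2, 3, 5}, {1, 2, 5, 6}, {1, 2, 3, 4, 5}]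

theorem comb7 : ∀ Z ∈ (Finset.Icc 1 6 : Finset ℕ).powerset, Z ≠ ∅ → Z ≠ Finset.Icc 1 6 →
    ∃ t ∈ (Finset.Icc 1 6 : Finset ℕ), (Finset.Icc 1 6).filter (fun i => t * i % 7 ∈ Z) ∈ reps7 := by
  decide +kernel

/-- the contradiction for a representative -/
theorem zall7 (C : Ct 7 r k a) {Z : Finset ℕ} (hZ : Z ∈ reps7) (h1 : ∀ i ∈ Z, Tr r k a ∅ i)
    (h2 : ∀ i ∈ Finset.Icc 1 6, i ∉ Z → Nt r k a ∅ i) : False := by
  unfold reps7 at hZ
  rcases List.mem_cons.1 hZ with rfl | hZ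
  · exact z7_1 C (h1 1 (by decide)) (h2 2 (by decide) (by decide)) (h2 3 (by decide) (by decide)) (h2 4 (by decide) (by decide)) (h2 5 (by decide) (by decide)) (h2 6 (by decide) (by decide))
  rcases List.mem_cons.1 hZ with rfl | hZ
  · exact z7_12 C (h1 1 (by decide)) (h1 2 (by decide)) (h2 3 (by decide) (by decide)) (h2 4 (by decide) (by decide)) (h2 5 (by decide) (by decide)) (h2 6 (by decide) (by decide))
  rcases List.mem_cons.1 hZ with rfl | hZ
  · exact z7_13 C (h1 1 (by decide)) (h1 3 (by decide)) (h2 2 (by decide) (by decide)) (h2 4 (by decide) (by decide)) (h2 5 (by decide) (by decide)) (h2 6 (by decide) (by decide))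
  rcases List.mem_cons.1 hZ with rfl | hZ
  · exact z7_16 C (h1 1 (by decide)) (h1 6 (by decide)) (h2 2 (by decide) (by decide)) (h2 3 (by decide) (by decide)) (h2 4 (by decide) (by decide)) (h2 5 (by decide) (by decide))
  rcases List.mem_cons.1 hZ with rfl | hZ
  · exact z7_123 C (h1 1 (by decide)) (h1 2 (by decide)) (h1 3 (by decide)) (h2 4 (by decide) (by decide)) (h2 5 (by decide) (by decide)) (h2 6 (by decide) (by decide))
  rcases List.mem_cons.1 hZ with rfl | hZ
  · exact z7_124 C (h1 1 (by decide)) (h1 2 (by decide)) (h1 4 (by decide)) (h2 3 (by decide) (by decide)) (h2 5 (by decide) (by decide)) (h2 6 (by decide) (by decide))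
  rcases List.mem_cons.1 hZ with rfl | hZ
  · exact z7_125 C (h1 1 (by decide)) (h1 2 (by decide)) (h1 5 (by decide)) (h2 3 (by decide) (by decide)) (h2 4 (by decide) (by decide)) (h2 6 (by decide) (by decide))
  rcases List.mem_cons.1 hZ with rfl | hZ
  · exact z7_126 C (h1 1 (by decide)) (h1 2 (by decide)) (h1 6 (by decide)) (h2 3 (by decide) (by decide)) (h2 4 (by decide) (by decide)) (h2 5 (by decide) (by decide))
  rcases List.mem_cons.1 hZ with rfl | hZ
  · exact z7_1234 C (h1 1 (by decide)) (h1 2 (by decide)) (h1 3 (by decide)) (h1 4 (by decide)) (h2 5 (by decide) (by decide)) (h2 6 (by decide) (by decide))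
  rcases List.mem_cons.1 hZ with rfl | hZ
  · exact z7_1235 C (h1 1 (by decide)) (h1 2 (by decide)) (h1 3 (by decide)) (h1 5 (by decide)) (h2 4 (by decide) (by decide)) (h2 6 (by decide) (by decide))
  rcases List.mem_cons.1 hZ with rfl | hZ
  · exact z7_1256 C (h1 1 (by decide)) (h1 2 (by decide)) (h1 5 (by decide)) (h1 6 (by decide)) (h2 3 (by decide) (by decide)) (h2 4 (by decide) (by decide))
  rcases List.mem_cons.1 hZ with rfl | hZ
  · exact z7_12345 C (h1 1 (by decide)) (h1 2 (by decide)) (h1 3 (by decide)) (h1 4 (by decide)) (h1 5 (by decide)) (h2 6 (by decide) (by decide))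
  · exact absurd hZ (by simp)

theorem tr_pow {t q : ℕ} (h : Root 7 r k) (ht : Tr r k a ∅ (t * q % 7)) : Tr r (k ^ t) a ∅ q := by
  intro x hx
  refine ht x ⟨?_, fun l hl => absurd hl (Finset.notMem_empty l)⟩
  have h1 := hx.1
  rw [FRB.eig_root] at h1
  exact eig_congr h (Nat.mod_modEq _ _).symm h1

theorem nz7 (C : Ct 7 r k a) {g : X} (hg : g ≠ 1) : ∀ q, 1 ≤ q → q < 7 → Nt r k a ∅ q := by
  classical
  by_contra hcon
  push Not at hcon
  obtain ⟨q, hq1, hq2, hq⟩ := hcon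
  set Z : Finset ℕ := (Finset.Icc 1 6).filter fun i => Tr r k a ∅ i with hZ
  have hmem : ∀ i, i ∈ Z ↔ (1 ≤ i ∧ i ≤ 6) ∧ Tr r k a ∅ i := by
    intro i
    rw [hZ, Finset.mem_filter, Finset.mem_Icc]
  have hqZ : q ∈ Z := by
    refine (hmem q).2 ⟨⟨hq1, by omega⟩, ?_⟩
    by_contra hT
    exact hq (nt_of_not hT)
  have hZ1 : Z ≠ ∅ := Finset.ne_empty_of_mem hqZ
  have hZ2 : Z ≠ Finset.Icc 1 6 := by
    intro hfull
    apply hg
    have h1 := gen C.root C.hyp (S := (⊤ : Subgroup X)) (fun _ _ => Subgroup.mem_top _) (Subgroup.mem_top g)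
    have h2 : Subgroup.closure {e : X | e ∈ (⊤ : Subgroup X) ∧ ∃ i, 1 ≤ i ∧ i < 7 ∧ Eig r k a i e} ≤ ⊥ := by
      rw [Subgroup.closure_le]
      rintro e ⟨_, i, hi1, hi2, he⟩
      have h3 : i ∈ Z := by
        rw [hfull, Finset.mem_Icc]
        omega
      exact Subgroup.mem_bot.2 (((hmem i).1 h3).2 e ⟨he, fun l hl => absurd hl (Finset.notMem_empty l)⟩)
    exact Subgroup.mem_bot.1 (h2 h1)
  obtain ⟨t, ht, hrep⟩ := comb7 Z (Finset.mem_powerset.2 (by rw [hZ]; exact Finset.filter_subset _ _)) hZ1 hZ2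
  rw [Finset.mem_Icc] at ht
  have ht7 : ¬ 7 ∣ t := by
    intro hd
    have := Nat.le_of_dvd ht.1 hd
    omega
  have C' : Ct 7 r (k ^ t) a := ⟨C.root.pow ht7, C.hyp, C.prm⟩
  refine zall7 C' hrep ?_ ?_
  · intro i hi
    rw [Finset.mem_filter] at hi
    exact tr_pow C.root ((hmem _).1 hi.2).2
  · intro i hi hi'
    refine nt_pow C.root (nt_of_not fun hT => hi' (Finset.mem_filter.2 ⟨hi, (hmem _).2 ⟨⟨?_, ?_⟩, hT⟩⟩))
    · rw [Finset.mem_Icc] at hi
      rw [Nat.one_le_iff_ne_zero]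
      intro h0
      rcases (Nat.Prime.dvd_mul C.root.pp).1 (Nat.dvd_of_mod_eq_zero h0) with h | h
      · exact ht7 h
      · have := Nat.le_of_dvd (by omega) h
        omega
    · have := Nat.mod_lt (t * i) (show 0 < 7 by norm_num)
      omega

end Pool.Agent.FRS
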