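import Pool.Agent.FRS.RulS

/-!
# FRS/P7a: basic facts, p = 7 (generated)
-/

set_option autoImplicit false

namespace Pool.Agent.FRS

open Pool.Agent.FRB (Inv Eig LF SS Lam)

universe u

variable {r k : ℕ} {X : Type u} [Group X] {a : MulAut X}

theorem w6 (C : C7 7 r k a) : Len r k a ∅ 1 5 3 :=
  len_top C.ct.root C.ct.hyp (by decide)

theorem w7 (C : C7 7 r k a) : Tr r k a {1, 2, 3, 4, 6} 1 :=
  r10 C.ct (L1 := []) (D1 := [5]) (D2 := []) (L2 := [1, 2, 3, 4, 6]) (K := ∅) (i := 1)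
      (A := [(1, ∅), (2, ∅), (4, ∅), (6, ∅)]) (B := [(1, {1, 2, 3, 4, 6})])
      (C.nz 1 (by decide) (by decide)) (by decide)
      ln
      (lc (cm_in (by decide)) (lc (cm_in (by decide)) (lc (cm_in (by decide)) (lc (cm_in (by decide)) (lc (cm_in (by decide)) ln)))))
      (show Chn r k a [(1, ∅)] [5] [(1, ∅), (2, ∅), (4, ∅), (6, ∅)] from ⟨[(1, ∅), (2, ∅), (4, ∅), (6, ∅)], (lc (stp_str C.ct.root C.ct.hyp (w6 C) sn (by decide) (by decide)) ln), rfl⟩)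
      rfl (lc (lc (cc_r (cm_in (by decide))) ln) (lc (lc (cc_r (cm_in (by decide))) ln) (lc (lc (cc_r (cm_in (by decide))) ln) (lc (lc (cc_r (cm_in (by decide))) ln) ln))))

theorem w13 (C : C7 7 r k a) : Len r k a ∅ 1 4 4 :=
  len_top C.ct.root C.ct.hyp (by decide)

theorem w14 (C : C7 7 r k a) : Tr r k a {1, 2, 3, 5, 6} 1 :=
  r10 C.ct (L1 := []) (D1 := [4]) (D2 := []) (L2 := [1, 2, 3, 5, 6]) (K := ∅) (i := 1)
      (A := [(1, ∅), (2, ∅), (3, ∅), (5, ∅), (6, ∅)]) (B := [(1, {1, 2, 3, 5, 6})])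
      (C.nz 1 (by decide) (by decide)) (by decide)
      ln
      (lc (cm_in (by decide)) (lc (cm_in (by decide)) (lc (cm_in (by decide)) (lc (cm_in (by decide)) (lc (cm_in (by decide)) ln)))))
      (show Chn r k a [(1, ∅)] [4] [(1, ∅), (2, ∅), (3, ∅), (5, ∅), (6, ∅)] from ⟨[(1, ∅), (2, ∅), (3, ∅), (5, ∅), (6, ∅)], (lc (stp_str C.ct.root C.ct.hyp (w13 C) sn (by decide) (by decide)) ln), rfl⟩)
      rfl (lc (lc (cc_r (cm_in (by decide))) ln) (lc (lc (cc_r (cm_in (by decide))) ln) (lc (lc (cc_r (cm_in (by decide))) ln) (lc (lc (cc_r (cm_in (by decide))) ln) (lc (lc (cc_r (cm_in (by decide))) ln) ln)))))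

theorem w19 (C : C7 7 r k a) : Tr r k a {1, 2, 4, 5, 6} 6 :=
  tr_scale C.ct.root (t := 6) (w14 (C.pow (t := 6) (by decide))) (by decide)

theorem w20 (C : C7 7 r k a) : Len r k a ∅ 1 3 1 :=
  len_top C.ct.root C.ct.hyp (by decide)

theorem w21 (C : C7 7 r k a) : Tr r k a {1, 2, 4, 5, 6} 1 :=
  r10 C.ct (L1 := []) (D1 := [3]) (D2 := []) (L2 := [1, 2, 4, 5, 6]) (K := ∅) (i := 1)
      (A := [(1, ∅), (4, ∅)]) (B := [(1, {1, 2, 4, 5, 6})])
      (C.nz 1 (by decide) (by decide)) (by decide)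
      ln
      (lc (cm_in (by decide)) (lc (cm_in (by decide)) (lc (cm_in (by decide)) (lc (cm_in (by decide)) (lc (cm_in (by decide)) ln)))))
      (show Chn r k a [(1, ∅)] [3] [(1, ∅), (4, ∅)] from ⟨[(1, ∅), (4, ∅)], (lc (stp_str C.ct.root C.ct.hyp (w20 C) sn (by decide) (by decide)) ln), rfl⟩)
      rfl (lc (lc (cc_r (cm_in (by decide))) ln) (lc (lc (cc_r (cm_in (by decide))) ln) ln))

theorem w24 (C : C7 7 r k a) : Tr r k a {1, 2, 3, 4, 6} 4 :=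
  tr_scale C.ct.root (t := 4) (w21 (C.pow (t := 4) (by decide))) (by decide)

theorem w27 (C : C7 7 r k a) : Len r k a ∅ 1 2 2 :=
  len_top C.ct.root C.ct.hyp (by decide)

theorem w28 (C : C7 7 r k a) : Tr r k a {1, 3, 4, 5, 6} 1 :=
  r10 C.ct (L1 := []) (D1 := [2]) (D2 := []) (L2 := [1, 3, 4, 5, 6]) (K := ∅) (i := 1)
      (A := [(1, ∅), (3, ∅), (5, ∅)]) (B := [(1, {1, 3, 4, 5, 6})])
      (C.nz 1 (by decide) (by decide)) (by decide)
      ln
      (lc (cm_in (by decide)) (lc (cm_in (by decide)) (lc (cm_in (by decide)) (lc (cm_in (by decide)) (lc (cm_in (by decide)) ln)))))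
      (show Chn r k a [(1, ∅)] [2] [(1, ∅), (3, ∅), (5, ∅)] from ⟨[(1, ∅), (3, ∅), (5, ∅)], (lc (stp_str C.ct.root C.ct.hyp (w27 C) sn (by decide) (by decide)) ln), rfl⟩)
      rfl (lc (lc (cc_r (cm_in (by decide))) ln) (lc (lc (cc_r (cm_in (by decide))) ln) (lc (lc (cc_r (cm_in (by decide))) ln) ln)))

theorem w31 (C : C7 7 r k a) : Tr r k a {2, 3, 4, 5, 6} 4 :=
  tr_scale C.ct.root (t := 4) (w28 (C.pow (t := 4) (by decide))) (by decide)

theorem w34 (C : C7 7 r k a) : Len r k a ∅ 2 1 4 :=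
  len_top C.ct.root C.ct.hyp (by decide)

theorem w35 (C : C7 7 r k a) : Tr r k a {2, 3, 4, 5, 6} 1 :=
  r10 C.ct (L1 := []) (D1 := [1]) (D2 := []) (L2 := [2, 3, 4, 5, 6]) (K := ∅) (i := 2)
      (A := [(2, ∅), (3, ∅), (4, ∅), (5, ∅), (6, ∅)]) (B := [(1, {2, 3, 4, 5, 6})])
      (C.nz 2 (by decide) (by decide)) (by decide)
      ln
      (lc (cm_in (by decide)) (lc (cm_in (by decide)) (lc (cm_in (by decide)) (lc (cm_in (by decide)) (lc (cm_in (by decide)) ln)))))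
      (show Chn r k a [(2, ∅)] [1] [(2, ∅), (3, ∅), (4, ∅), (5, ∅), (6, ∅)] from ⟨[(2, ∅), (3, ∅), (4, ∅), (5, ∅), (6, ∅)], (lc (stp_str C.ct.root C.ct.hyp (w34 C) sn (by decide) (by decide)) ln), rfl⟩)
      rfl (lc (lc (cc_r (cm_in (by decide))) ln) (lc (lc (cc_r (cm_in (by decide))) ln) (lc (lc (cc_r (cm_in (by decide))) ln) (lc (lc (cc_r (cm_in (by decide))) ln) (lc (lc (cc_r (cm_in (by decide))) ln) ln)))))

theorem w41 (C : C7 7 r k a) : Len r k a ∅ 2 4 2 :=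
  len_top C.ct.root C.ct.hyp (by decide)

theorem w42 (C : C7 7 r k a) : Len r k a ∅ 2 5 0 :=
  len_top C.ct.root C.ct.hyp (by decide)

theorem w44 (C : C7 7 r k a) : Len r k a ∅ 6 5 2 :=
  len_top C.ct.root C.ct.hyp (by decide)

theorem w51 (C : C7 7 r k a) : Len r k a ∅ 4 5 1 :=
  len_top C.ct.root C.ct.hyp (by decide)

theorem w52 (C : C7 7 r k a) : Tr r k a {1, 2, 4, 6} 1 :=
  r10 C.ct (L1 := []) (D1 := [3, 5]) (D2 := []) (L2 := [1, 2, 4, 6]) (K := ∅) (i := 1)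
      (A := [(1, ∅), (2, ∅), (4, ∅), (6, ∅)]) (B := [(1, {1, 2, 4, 6})])
      (C.nz 1 (by decide) (by decide)) (by decide)
      ln
      (lc (cm_in (by decide)) (lc (cm_in (by decide)) (lc (cm_in (by decide)) (lc (cm_in (by decide)) ln))))
      (show Chn r k a [(1, ∅)] [3, 5] [(1, ∅), (2, ∅), (4, ∅), (6, ∅)] from ⟨[(1, ∅), (4, ∅)], (lc (stp_str C.ct.root C.ct.hyp (w20 C) sn (by decide) (by decide)) ln), ⟨[(1, ∅), (2, ∅), (4, ∅), (6, ∅)], (lc (stp_str C.ct.root C.ct.hyp (w6 C) sn (by decide) (by decide)) (lc (stp_str C.ct.root C.ct.hyp (w51 C) sn (by decide) (by decide)) ln)), rfl⟩⟩)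
      rfl (lc (lc (cc_r (cm_in (by decide))) ln) (lc (lc (cc_r (cm_in (by decide))) ln) (lc (lc (cc_r (cm_in (by decide))) ln) (lc (lc (cc_r (cm_in (by decide))) ln) ln))))

theorem w56 (C : C7 7 r k a) : Tr r k a {2, 3, 5, 6} 5 :=
  tr_scale C.ct.root (t := 5) (w52 (C.pow (t := 5) (by decide))) (by decide)

theorem w59 (C : C7 7 r k a) : Len r k a ∅ 5 3 2 :=
  len_top C.ct.root C.ct.hyp (by decide)

theorem w60 (C : C7 7 r k a) : Len r k a ∅ 5 4 3 :=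
  len_top C.ct.root C.ct.hyp (by decide)

theorem w62 (C : C7 7 r k a) : Len r k a ∅ 6 4 1 :=
  len_top C.ct.root C.ct.hyp (by decide)

theorem w64 (C : C7 7 r k a) : Len r k a ∅ 4 3 0 :=
  len_top C.ct.root C.ct.hyp (by decide)

theorem w67 (C : C7 7 r k a) : Len r k a ∅ 4 1 2 :=
  len_top C.ct.root C.ct.hyp (by decide)

theorem w68 (C : C7 7 r k a) : Len r k a ∅ 5 1 1 :=
  len_top C.ct.root C.ct.hyp (by decide)

theorem w69 (C : C7 7 r k a) : Len r k a ∅ 6 1 0 :=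
  len_top C.ct.root C.ct.hyp (by decide)

theorem w72 (C : C7 7 r k a) : Len r k a ∅ 3 4 0 :=
  len_top C.ct.root C.ct.hyp (by decide)

theorem w86 (C : C7 7 r k a) : Len r k a ∅ 3 2 1 :=
  len_top C.ct.root C.ct.hyp (by decide)

theorem w88 (C : C7 7 r k a) : Len r k a ∅ 5 2 0 :=
  len_top C.ct.root C.ct.hyp (by decide)

theorem w114 (C : C7 7 r k a) : VC r k a {3, 6} 1 4 3 :=
  vc_str C.ct.root C.ct.hyp (w72 C) (by decide)

theorem w115 (C : C7 7 r k a) : VC r k a {3, 6} 1 4 6 :=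
  vc_str C.ct.root C.ct.hyp (w62 C) (by decide)

theorem w125 (C : C7 7 r k a) : VC r k a {3, 5} 2 2 3 :=
  vc_str C.ct.root C.ct.hyp (w86 C) (by decide)

theorem w126 (C : C7 7 r k a) : VC r k a {3, 5} 2 2 5 :=
  vc_str C.ct.root C.ct.hyp (w88 C) (by decide)

theorem w150 (C : C7 7 r k a) : Len r k a {1, 2, 5, 6} 1 3 1 :=
  len_top C.ct.root C.ct.hyp (by decide)

theorem w151 (C : C7 7 r k a) : VC r k a {1, 2, 5, 6} 1 3 2 :=
  vc_j C.ct.root C.ct.hyp (b := 3) (by decide) (by decide) (by decide) (w150 C) (by decide) (by decide) (by decide)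

theorem w152 (C : C7 7 r k a) : VC r k a {1, 2, 5, 6} 1 3 5 :=
  vc_j C.ct.root C.ct.hyp (b := 2) (by decide) (by decide) (by decide) (w150 C) (by decide) (by decide) (by decide)

theorem w153 (C : C7 7 r k a) : VC r k a {1, 2, 5, 6} 1 3 6 :=
  vc_j C.ct.root C.ct.hyp (b := 4) (by decide) (by decide) (by decide) (w150 C) (by decide) (by decide) (by decide)

theorem w166 (C : C7 7 r k a) : VC r k a {2, 3, 5, 6} 4 4 2 :=
  vc_str C.ct.root C.ct.hyp (w41 C) (by decide)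

theorem w167 (C : C7 7 r k a) : VC r k a {2, 3, 5, 6} 4 4 3 :=
  vc_str C.ct.root C.ct.hyp (w72 C) (by decide)

theorem w168 (C : C7 7 r k a) : VC r k a {2, 3, 5, 6} 4 4 5 :=
  vc_str C.ct.root C.ct.hyp (w60 C) (by decide)

theorem w169 (C : C7 7 r k a) : VC r k a {2, 3, 5, 6} 4 4 6 :=
  vc_str C.ct.root C.ct.hyp (w62 C) (by decide)

theorem w173 (C : C7 7 r k a) : VC r k a {2, 3, 5, 6} 1 4 2 :=
  vc_str C.ct.root C.ct.hyp (w41 C) (by decide)

theorem w174 (C : C7 7 r k a) : VC r k a {2, 3, 5, 6} 1 4 3 :=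
  vc_str C.ct.root C.ct.hyp (w72 C) (by decide)

theorem w175 (C : C7 7 r k a) : VC r k a {2, 3, 5, 6} 1 4 5 :=
  vc_str C.ct.root C.ct.hyp (w60 C) (by decide)

theorem w176 (C : C7 7 r k a) : VC r k a {2, 3, 5, 6} 1 4 6 :=
  vc_str C.ct.root C.ct.hyp (w62 C) (by decide)

theorem w177 (C : C7 7 r k a) : Len r k a {2, 3, 5, 6} 1 4 0 :=
  len_z C.ct.root C.ct.hyp (N := {2, 3, 5, 6}) (t := 5) (si (w173 C) (si (w174 C) (si (w175 C) (s1 (w176 C))))) (w56 C) (by decide) (by decide) (by decide)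

theorem w178 (C : C7 7 r k a) : Cm r k a {2, 3, 5, 6} 1 4 :=
  cm_len C.ct.root C.ct.hyp (w177 C)

theorem w179 (C : C7 7 r k a) : Tr r k a {2, 3, 5, 6} 1 :=
  tr_cl C.ct.root C.ct.hyp (w178 C) (w35 C) (by decide) (by decide)

theorem w180 (C : C7 7 r k a) : Len r k a {2, 3, 5, 6} 4 4 0 :=
  len_z C.ct.root C.ct.hyp (N := {2, 3, 5, 6}) (t := 1) (si (w166 C) (si (w167 C) (si (w168 C) (s1 (w169 C))))) (w179 C) (by decide) (by decide) (by decide)

theorem w181 (C : C7 7 r k a) : Cm r k a {2, 3, 5, 6} 4 4 :=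
  cm_len C.ct.root C.ct.hyp (w180 C)

theorem w182 (C : C7 7 r k a) : Tr r k a {2, 3, 5, 6} 4 :=
  tr_cl C.ct.root C.ct.hyp (w181 C) (w31 C) (by decide) (by decide)

theorem w183 (C : C7 7 r k a) : Len r k a {1, 2, 5, 6} 1 3 0 :=
  len_z C.ct.root C.ct.hyp (N := {2, 5, 6}) (t := 4) (si (w151 C) (si (w152 C) (s1 (w153 C)))) (w182 C) (by decide) (by decide) (by decide)

theorem w184 (C : C7 7 r k a) : Cm r k a {1, 2, 5, 6} 1 3 :=
  cm_len C.ct.root C.ct.hyp (w183 C)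

theorem w185 (C : C7 7 r k a) : Tr r k a {1, 2, 5, 6} 1 :=
  tr_cl C.ct.root C.ct.hyp (w184 C) (w14 C) (by decide) (by decide)

theorem w192 (C : C7 7 r k a) : VC r k a {1, 4} 6 3 1 :=
  vc_str C.ct.root C.ct.hyp (w20 C) (by decide)

theorem w193 (C : C7 7 r k a) : VC r k a {1, 4} 6 3 4 :=
  vc_str C.ct.root C.ct.hyp (w64 C) (by decide)

theorem w211 (C : C7 7 r k a) : VC r k a {4, 6} 1 1 6 :=
  vc_str C.ct.root C.ct.hyp (w69 C) (by decide)

theorem w221 (C : C7 7 r k a) : Len r k a {1, 3, 4, 6} 1 2 2 :=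
  len_top C.ct.root C.ct.hyp (by decide)

theorem w222 (C : C7 7 r k a) : VC r k a {1, 3, 4, 6} 1 2 4 :=
  vc_j C.ct.root C.ct.hyp (b := 4) (by decide) (by decide) (by decide) (w221 C) (by decide) (by decide) (by decide)

theorem w223 (C : C7 7 r k a) : VC r k a {1, 3, 4, 6} 1 2 6 :=
  vc_j C.ct.root C.ct.hyp (b := 3) (by decide) (by decide) (by decide) (w221 C) (by decide) (by decide) (by decide)

theorem w266 (C : C7 7 r k a) : VC r k a {2, 4, 6} 1 5 2 :=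
  vc_str C.ct.root C.ct.hyp (w42 C) (by decide)

theorem w267 (C : C7 7 r k a) : VC r k a {2, 4, 6} 1 5 4 :=
  vc_str C.ct.root C.ct.hyp (w51 C) (by decide)

theorem w268 (C : C7 7 r k a) : VC r k a {2, 4, 6} 1 5 6 :=
  vc_str C.ct.root C.ct.hyp (w44 C) (by decide)

theorem w273 (C : C7 7 r k a) : VC r k a {1, 2, 4, 6} 6 5 1 :=
  vc_str C.ct.root C.ct.hyp (w6 C) (by decide)

theorem w274 (C : C7 7 r k a) : VC r k a {1, 2, 4, 6} 6 5 2 :=
  vc_str C.ct.root C.ct.hyp (w42 C) (by decide)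

theorem w275 (C : C7 7 r k a) : VC r k a {1, 2, 4, 6} 6 5 4 :=
  vc_str C.ct.root C.ct.hyp (w51 C) (by decide)

theorem w276 (C : C7 7 r k a) : VC r k a {1, 2, 4, 6} 6 5 6 :=
  vc_str C.ct.root C.ct.hyp (w44 C) (by decide)

theorem w277 (C : C7 7 r k a) : Len r k a {1, 2, 4, 6} 6 5 0 :=
  len_z C.ct.root C.ct.hyp (N := {1, 2, 4, 6}) (t := 4) (si (w273 C) (si (w274 C) (si (w275 C) (s1 (w276 C))))) (w24 C) (by decide) (by decide) (by decide)

theorem w278 (C : C7 7 r k a) : Cm r k a {1, 2, 4, 6} 6 5 :=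
  cm_len C.ct.root C.ct.hyp (w277 C)

theorem w279 (C : C7 7 r k a) : Tr r k a {1, 2, 4, 6} 6 :=
  tr_cl C.ct.root C.ct.hyp (w278 C) (w19 C) (by decide) (by decide)

theorem w281 (C : C7 7 r k a) : Len r k a {1, 3, 4, 6} 1 5 3 :=
  len_top C.ct.root C.ct.hyp (by decide)

theorem w282 (C : C7 7 r k a) : VC r k a {1, 3, 4, 6} 1 5 3 :=
  vc_j C.ct.root C.ct.hyp (b := 4) (by decide) (by decide) (by decide) (w281 C) (by decide) (by decide) (by decide)

theorem w314 (C : C7 7 r k a) : VC r k a {3, 5} 4 2 3 :=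
  vc_str C.ct.root C.ct.hyp (w86 C) (by decide)

theorem w315 (C : C7 7 r k a) : VC r k a {3, 5} 4 2 5 :=
  vc_str C.ct.root C.ct.hyp (w88 C) (by decide)

theorem w346 (C : C7 7 r k a) : Tr r k a {1, 3, 5, 6} 1 :=
  r10 C.ct (L1 := []) (D1 := [4, 2]) (D2 := []) (L2 := [1, 3, 5, 6]) (K := ∅) (i := 3)
      (A := [(3, ∅), (5, ∅)]) (B := [(1, {1, 3, 5, 6})])
      (C.nz 3 (by decide) (by decide)) (by decide)
      ln
      (lc (cm_in (by decide)) (lc (cm_in (by decide)) (lc (cm_in (by decide)) (lc (cm_in (by decide)) ln))))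
      (show Chn r k a [(3, ∅)] [4, 2] [(3, ∅), (5, ∅)] from ⟨[(3, ∅)], (lc (stp_str C.ct.root C.ct.hyp (w72 C) sn (by decide) (by decide)) ln), ⟨[(3, ∅), (5, ∅)], (lc (stp_str C.ct.root C.ct.hyp (w86 C) sn (by decide) (by decide)) ln), rfl⟩⟩)
      rfl (lc (lc (cc_r (cm_in (by decide))) ln) (lc (lc (cc_r (cm_in (by decide))) ln) ln))

theorem w347 (C : C7 7 r k a) : Tr r k a {2, 3, 5, 6} 2 :=
  tr_scale C.ct.root (t := 2) (w346 (C.pow (t := 2) (by decide))) (by decide)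

theorem w349 (C : C7 7 r k a) : Tr r k a {3, 4, 5, 6} 4 :=
  tr_scale C.ct.root (t := 4) (w346 (C.pow (t := 4) (by decide))) (by decide)

theorem w351 (C : C7 7 r k a) : Tr r k a {1, 4, 5, 6} 1 :=
  r10 C.ct (L1 := []) (D1 := [2, 3]) (D2 := []) (L2 := [1, 4, 5, 6]) (K := ∅) (i := 5)
      (A := [(1, ∅), (4, ∅), (5, ∅)]) (B := [(1, {1, 4, 5, 6})])
      (C.nz 5 (by decide) (by decide)) (by decide)
      ln
      (lc (cm_in (by decide)) (lc (cm_in (by decide)) (lc (cm_in (by decide)) (lc (cm_in (by decide)) ln))))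
      (show Chn r k a [(5, ∅)] [2, 3] [(1, ∅), (4, ∅), (5, ∅)] from ⟨[(5, ∅)], (lc (stp_str C.ct.root C.ct.hyp (w88 C) sn (by decide) (by decide)) ln), ⟨[(1, ∅), (4, ∅), (5, ∅)], (lc (stp_str C.ct.root C.ct.hyp (w59 C) sn (by decide) (by decide)) ln), rfl⟩⟩)
      rfl (lc (lc (cc_r (cm_in (by decide))) ln) (lc (lc (cc_r (cm_in (by decide))) ln) (lc (lc (cc_r (cm_in (by decide))) ln) ln)))

theorem w357 (C : C7 7 r k a) : Tr r k a {2, 3, 4, 6} 1 :=
  r10 C.ct (L1 := []) (D1 := [1, 5]) (D2 := []) (L2 := [2, 3, 4, 6]) (K := ∅) (i := 6)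
      (A := [(2, ∅), (4, ∅), (6, ∅)]) (B := [(1, {2, 3, 4, 6})])
      (C.nz 6 (by decide) (by decide)) (by decide)
      ln
      (lc (cm_in (by decide)) (lc (cm_in (by decide)) (lc (cm_in (by decide)) (lc (cm_in (by decide)) ln))))
      (show Chn r k a [(6, ∅)] [1, 5] [(2, ∅), (4, ∅), (6, ∅)] from ⟨[(6, ∅)], (lc (stp_str C.ct.root C.ct.hyp (w69 C) sn (by decide) (by decide)) ln), ⟨[(2, ∅), (4, ∅), (6, ∅)], (lc (stp_str C.ct.root C.ct.hyp (w44 C) sn (by decide) (by decide)) ln), rfl⟩⟩)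
      rfl (lc (lc (cc_r (cm_in (by decide))) ln) (lc (lc (cc_r (cm_in (by decide))) ln) (lc (lc (cc_r (cm_in (by decide))) ln) ln)))

theorem w368 (C : C7 7 r k a) : Tr r k a {2, 4, 5, 6} 1 :=
  r10 C.ct (L1 := []) (D1 := [3, 1]) (D2 := []) (L2 := [2, 4, 5, 6]) (K := ∅) (i := 4)
      (A := [(4, ∅), (5, ∅), (6, ∅)]) (B := [(1, {2, 4, 5, 6})])
      (C.nz 4 (by decide) (by decide)) (by decide)
      ln
      (lc (cm_in (by decide)) (lc (cm_in (by decide)) (lc (cm_in (by decide)) (lc (cm_in (by decide)) ln))))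
      (show Chn r k a [(4, ∅)] [3, 1] [(4, ∅), (5, ∅), (6, ∅)] from ⟨[(4, ∅)], (lc (stp_str C.ct.root C.ct.hyp (w64 C) sn (by decide) (by decide)) ln), ⟨[(4, ∅), (5, ∅), (6, ∅)], (lc (stp_str C.ct.root C.ct.hyp (w67 C) sn (by decide) (by decide)) ln), rfl⟩⟩)
      rfl (lc (lc (cc_r (cm_in (by decide))) ln) (lc (lc (cc_r (cm_in (by decide))) ln) (lc (lc (cc_r (cm_in (by decide))) ln) ln)))

theorem w370 (C : C7 7 r k a) : Tr r k a {1, 4, 5, 6} 3 :=
  tr_scale C.ct.root (t := 3) (w368 (C.pow (t := 3) (by decide))) (by decide)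

theorem w372 (C : C7 7 r k a) : Tr r k a {2, 3, 4, 6} 5 :=
  tr_scale C.ct.root (t := 5) (w368 (C.pow (t := 5) (by decide))) (by decide)

theorem w379 (C : C7 7 r k a) : Len r k a {1, 2, 6} 1 3 1 :=
  len_top C.ct.root C.ct.hyp (by decide)

theorem w381 (C : C7 7 r k a) : VC r k a {1, 2, 6} 1 5 2 :=
  vc_str C.ct.root C.ct.hyp (w42 C) (by decide)

theorem w384 (C : C7 7 r k a) : VC r k a {1, 2} 6 5 2 :=
  vc_str C.ct.root C.ct.hyp (w42 C) (by decide)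

theorem w386 (C : C7 7 r k a) : VC r k a {2, 3} 4 4 3 :=
  vc_str C.ct.root C.ct.hyp (w72 C) (by decide)

theorem w415 (C : C7 7 r k a) : VC r k a {2, 3, 6} 5 4 2 :=
  vc_str C.ct.root C.ct.hyp (w41 C) (by decide)

theorem w416 (C : C7 7 r k a) : VC r k a {2, 3, 6} 5 4 3 :=
  vc_str C.ct.root C.ct.hyp (w72 C) (by decide)

theorem w417 (C : C7 7 r k a) : VC r k a {2, 3, 6} 5 4 6 :=
  vc_str C.ct.root C.ct.hyp (w62 C) (by decide)

theorem w418 (C : C7 7 r k a) : Len r k a {2, 3, 6} 5 4 0 :=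
  len_z C.ct.root C.ct.hyp (N := {2, 3, 6}) (t := 2) (si (w415 C) (si (w416 C) (s1 (w417 C)))) (w347 C) (by decide) (by decide) (by decide)

theorem w419 (C : C7 7 r k a) : Cm r k a {2, 3, 6} 5 4 :=
  cm_len C.ct.root C.ct.hyp (w418 C)

theorem w420 (C : C7 7 r k a) : Tr r k a {2, 3, 6} 5 :=
  tr_cl C.ct.root C.ct.hyp (w419 C) (w372 C) (by decide) (by decide)

theorem w425 (C : C7 7 r k a) : Len r k a {2, 4, 6} 1 5 0 :=
  len_z C.ct.root C.ct.hyp (N := {2, 4, 6}) (t := 6) (si (w266 C) (si (w267 C) (s1 (w268 C)))) (w279 C) (by decide) (by decide) (by decide)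

theorem w426 (C : C7 7 r k a) : Cm r k a {2, 4, 6} 1 5 :=
  cm_len C.ct.root C.ct.hyp (w425 C)

theorem w427 (C : C7 7 r k a) : Tr r k a {2, 4, 6} 1 :=
  tr_cl C.ct.root C.ct.hyp (w426 C) (w368 C) (by decide) (by decide)

theorem w430 (C : C7 7 r k a) : VC r k a {1, 4, 6} 1 3 1 :=
  vc_str C.ct.root C.ct.hyp (w20 C) (by decide)

theorem w431 (C : C7 7 r k a) : VC r k a {1, 4, 6} 1 3 4 :=
  vc_str C.ct.root C.ct.hyp (w64 C) (by decide)

theorem w438 (C : C7 7 r k a) : VC r k a {1, 5, 6} 1 2 5 :=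
  vc_str C.ct.root C.ct.hyp (w88 C) (by decide)

theorem w446 (C : C7 7 r k a) : VC r k a {4, 5} 3 3 4 :=
  vc_str C.ct.root C.ct.hyp (w64 C) (by decide)

theorem w453 (C : C7 7 r k a) : VC r k a {5, 6} 2 1 5 :=
  vc_str C.ct.root C.ct.hyp (w68 C) (by decide)

theorem w454 (C : C7 7 r k a) : VC r k a {5, 6} 2 1 6 :=
  vc_str C.ct.root C.ct.hyp (w69 C) (by decide)

theorem w455 (C : C7 7 r k a) : VC r k a {4, 5, 6} 3 1 4 :=
  vc_str C.ct.root C.ct.hyp (w67 C) (by decide)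

theorem w456 (C : C7 7 r k a) : VC r k a {4, 5, 6} 3 1 5 :=
  vc_str C.ct.root C.ct.hyp (w68 C) (by decide)

theorem w457 (C : C7 7 r k a) : VC r k a {4, 5, 6} 3 1 6 :=
  vc_str C.ct.root C.ct.hyp (w69 C) (by decide)

theorem w458 (C : C7 7 r k a) : Len r k a {4, 5, 6} 3 1 0 :=
  len_z C.ct.root C.ct.hyp (N := {4, 5, 6}) (t := 4) (si (w455 C) (si (w456 C) (s1 (w457 C)))) (w349 C) (by decide) (by decide) (by decide)

theorem w459 (C : C7 7 r k a) : Cm r k a {4, 5, 6} 3 1 :=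
  cm_len C.ct.root C.ct.hyp (w458 C)

theorem w460 (C : C7 7 r k a) : Tr r k a {4, 5, 6} 3 :=
  tr_cl C.ct.root C.ct.hyp (w459 C) (w370 C) (by decide) (by decide)

theorem w461 (C : C7 7 r k a) : Len r k a {5, 6} 2 1 0 :=
  len_z C.ct.root C.ct.hyp (N := {5, 6}) (t := 3) (si (w453 C) (s1 (w454 C))) (w460 C) (by decide) (by decide) (by decide)

theorem w462 (C : C7 7 r k a) : Cm r k a {5, 6} 2 1 :=
  cm_len C.ct.root C.ct.hyp (w461 C)

theorem w463 (C : C7 7 r k a) : VC r k a {1, 5, 6} 2 2 5 :=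
  vc_str C.ct.root C.ct.hyp (w88 C) (by decide)

theorem w470 (C : C7 7 r k a) : VC r k a {5, 6} 1 1 5 :=
  vc_str C.ct.root C.ct.hyp (w68 C) (by decide)

theorem w471 (C : C7 7 r k a) : VC r k a {5, 6} 1 1 6 :=
  vc_str C.ct.root C.ct.hyp (w69 C) (by decide)

theorem w481 (C : C7 7 r k a) : VC r k a {2, 3, 6} 1 4 2 :=
  vc_str C.ct.root C.ct.hyp (w41 C) (by decide)

theorem w482 (C : C7 7 r k a) : VC r k a {2, 3, 6} 1 4 3 :=
  vc_str C.ct.root C.ct.hyp (w72 C) (by decide)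

theorem w483 (C : C7 7 r k a) : VC r k a {2, 3, 6} 1 4 6 :=
  vc_str C.ct.root C.ct.hyp (w62 C) (by decide)

theorem w484 (C : C7 7 r k a) : Len r k a {2, 3, 6} 1 4 0 :=
  len_z C.ct.root C.ct.hyp (N := {2, 3, 6}) (t := 5) (si (w481 C) (si (w482 C) (s1 (w483 C)))) (w420 C) (by decide) (by decide) (by decide)

theorem w485 (C : C7 7 r k a) : Cm r k a {2, 3, 6} 1 4 :=
  cm_len C.ct.root C.ct.hyp (w484 C)

theorem w486 (C : C7 7 r k a) : Tr r k a {2, 3, 6} 1 :=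
  tr_cl C.ct.root C.ct.hyp (w485 C) (w357 C) (by decide) (by decide)

theorem w487 (C : C7 7 r k a) : Tr r k a {4, 5, 6} 2 :=
  tr_scale C.ct.root (t := 2) (w486 (C.pow (t := 2) (by decide))) (by decide)

theorem w494 (C : C7 7 r k a) : Tr r k a {1, 4, 5} 2 :=
  tr_scale C.ct.root (t := 2) (w427 (C.pow (t := 2) (by decide))) (by decide)

theorem w495 (C : C7 7 r k a) : Tr r k a {1, 3, 5} 6 :=
  tr_scale C.ct.root (t := 6) (w427 (C.pow (t := 6) (by decide))) (by decide)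

theorem w496 (C : C7 7 r k a) : VC r k a {2, 5, 6} 1 1 5 :=
  vc_str C.ct.root C.ct.hyp (w68 C) (by decide)

theorem w497 (C : C7 7 r k a) : VC r k a {2, 5, 6} 1 1 6 :=
  vc_str C.ct.root C.ct.hyp (w69 C) (by decide)

theorem w498 (C : C7 7 r k a) : Len r k a {3, 5} 4 2 0 :=
  len_z C.ct.root C.ct.hyp (N := {3, 5}) (t := 6) (si (w314 C) (s1 (w315 C))) (w495 C) (by decide) (by decide) (by decide)

theorem w499 (C : C7 7 r k a) : Cm r k a {3, 5} 4 2 :=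
  cm_len C.ct.root C.ct.hyp (w498 C)

theorem w504 (C : C7 7 r k a) : Len r k a {1, 5, 6} 2 2 1 :=
  len_c C.ct.root C.ct.hyp (N := {5}) (t := 4) (s1 (w463 C)) (w499 C) (by decide) (by decide) (by decide)

theorem w509 (C : C7 7 r k a) : VC r k a {3, 4, 6} 1 1 6 :=
  vc_str C.ct.root C.ct.hyp (w69 C) (by decide)

theorem w522 (C : C7 7 r k a) : VC r k a {4, 5, 6} 1 1 4 :=
  vc_str C.ct.root C.ct.hyp (w67 C) (by decide)

theorem w523 (C : C7 7 r k a) : VC r k a {4, 5, 6} 1 1 5 :=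
  vc_str C.ct.root C.ct.hyp (w68 C) (by decide)

theorem w524 (C : C7 7 r k a) : VC r k a {4, 5, 6} 1 1 6 :=
  vc_str C.ct.root C.ct.hyp (w69 C) (by decide)

theorem w525 (C : C7 7 r k a) : Len r k a {4, 5, 6} 1 1 0 :=
  len_z C.ct.root C.ct.hyp (N := {4, 5, 6}) (t := 2) (si (w522 C) (si (w523 C) (s1 (w524 C)))) (w487 C) (by decide) (by decide) (by decide)

theorem w526 (C : C7 7 r k a) : Cm r k a {4, 5, 6} 1 1 :=
  cm_len C.ct.root C.ct.hyp (w525 C)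

theorem w527 (C : C7 7 r k a) : Tr r k a {4, 5, 6} 1 :=
  tr_cl C.ct.root C.ct.hyp (w526 C) (w351 C) (by decide) (by decide)

theorem w531 (C : C7 7 r k a) : Tr r k a {2, 4, 6} 5 :=
  tr_scale C.ct.root (t := 5) (w527 (C.pow (t := 5) (by decide))) (by decide)

theorem w533 (C : C7 7 r k a) : Len r k a {1, 4} 6 3 0 :=
  len_z C.ct.root C.ct.hyp (N := {1, 4}) (t := 2) (si (w192 C) (s1 (w193 C))) (w494 C) (by decide) (by decide) (by decide)

theorem w534 (C : C7 7 r k a) : Cm r k a {1, 4} 6 3 :=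
  cm_len C.ct.root C.ct.hyp (w533 C)

theorem w540 (C : C7 7 r k a) : VC r k a {2, 6} 1 1 6 :=
  vc_str C.ct.root C.ct.hyp (w69 C) (by decide)

theorem w553 (C : C7 7 r k a) : Len r k a {3, 6} 1 4 0 :=
  len_z C.ct.root C.ct.hyp (N := {3, 6}) (t := 5) (si (w114 C) (s1 (w115 C))) (w420 C) (by decide) (by decide) (by decide)

theorem w554 (C : C7 7 r k a) : Cm r k a {3, 6} 1 4 :=
  cm_len C.ct.root C.ct.hyp (w553 C)

theorem w559 (C : C7 7 r k a) : Len r k a {1, 3, 4, 6} 1 2 1 :=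
  len_z C.ct.root C.ct.hyp (N := {4, 6}) (t := 5) (si (w222 C) (s1 (w223 C))) (w531 C) (by decide) (by decide) (by decide)

theorem w560 (C : C7 7 r k a) : VC r k a {1, 3, 4, 6} 1 2 1 :=
  vc_j C.ct.root C.ct.hyp (b := 2) (by decide) (by decide) (by decide) (w559 C) (by decide) (by decide) (by decide)

theorem br0 (C : C7 7 r k a) : Tr r k a {1, 3, 4, 6} 1 := by
  by_contra hcon
  have f570 : Nt r k a {1, 3, 4, 6} 1 := nt_of_not hcon
  have f571 : Cm r k a {1, 3, 4, 6} 1 1 := cm_in (by decide)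
  have f572 : Cm r k a {1, 3, 4, 6} 1 3 := cm_in (by decide)
  have f573 : Cm r k a {1, 3, 4, 6} 1 4 := cm_in (by decide)
  have f574 : Cm r k a {1, 3, 4, 6} 1 6 := cm_in (by decide)
  have f578 : Tr r k a {2, 3, 5} 4 := r10 C.ct (L1 := [1, 3, 4, 6]) (D1 := []) (D2 := []) (L2 := [2, 5]) (K := {1, 3, 4, 6}) (i := 1)
      (A := [(1, {1, 3, 4, 6})]) (B := [(4, {2, 3, 5})])
      f570 (by decide)
      (lc f571 (lc f572 (lc f573 (lc f574 ln))))
      (lc (cm_in (by decide)) (lc (cm_in (by decide)) ln))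
      rfl rfl (lc (lc (cc_l f573) ln) ln)
  have f581 : Tr r k a {3, 5} 4 := tr_cl C.ct.root C.ct.hyp (w499 C) f578 (by decide) (by decide)
  have f582 : Len r k a {3, 5} 2 2 0 := len_z C.ct.root C.ct.hyp (N := {3, 5}) (t := 4) (si (w125 C) (s1 (w126 C))) f581 (by decide) (by decide) (by decide)
  have f583 : Cm r k a {3, 5} 2 2 := cm_len C.ct.root C.ct.hyp f582
  have f752 : Nt r k a {1, 4, 6} 3 := nt_exact C.ct.root C.ct.hyp (N := {1, 4, 6}) (j := 2) f570 (w7 C) (by decide) (by decide) (si (w560 C) (si (w222 C) (s1 (w223 C)))) (by decide) (by decide) (by decide)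
  have f754 : Cm r k a {1, 4, 6} 3 1 := cm_in (by decide)
  have f755 : Cm r k a {1, 4, 6} 3 4 := cm_in (by decide)
  have f756 : Cm r k a {1, 4, 6} 3 6 := cm_in (by decide)
  have f757 : Tr r k a {2, 3, 5} 2 := r10 C.ct (L1 := [1, 4, 6]) (D1 := []) (D2 := []) (L2 := [2, 3, 5]) (K := {1, 4, 6}) (i := 3)
      (A := [(3, {1, 4, 6})]) (B := [(2, {2, 3, 5})])
      f752 (by decide)
      (lc f754 (lc f755 (lc f756 ln)))
      (lc (cm_in (by decide)) (lc (cm_in (by decide)) (lc (cm_in (by decide)) ln)))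
      rfl rfl (lc (lc (cc_r (cm_in (by decide))) ln) ln)
  have f761 : Tr r k a {3, 5} 2 := tr_cl C.ct.root C.ct.hyp f583 f757 (by decide) (by decide)
  have f762 : Len r k a {1, 3, 4, 6} 1 5 2 := len_z C.ct.root C.ct.hyp (N := {3}) (t := 2) (s1 (w282 C)) f761 (by decide) (by decide) (by decide)
  have f763 : VC r k a {1, 3, 4, 6} 1 5 1 := vc_j C.ct.root C.ct.hyp (b := 3) (by decide) (by decide) (by decide) f762 (by decide) (by decide) (by decide)
  have f772 : Tr r k a {1, 3, 4, 6} 1 := r10 C.ct (L1 := [1, 3, 4, 6]) (D1 := [2]) (D2 := [5]) (L2 := [1, 3, 4, 6]) (K := {1, 3, 4, 6}) (i := 1)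
      (A := [(1, {1, 3, 4, 6}), (3, {1, 4, 6})]) (B := [(1, {1, 3, 4, 6}), (6, {1, 3}), (4, {1, 3})])
      f570 (by decide)
      (lc f571 (lc f572 (lc f573 (lc f574 ln))))
      (lc f571 (lc f572 (lc f573 (lc f574 ln))))
      (show Chn r k a [(1, {1, 3, 4, 6})] [2] [(1, {1, 3, 4, 6}), (3, {1, 4, 6})] from ⟨[(1, {1, 3, 4, 6}), (3, {1, 4, 6})], (lc (stp_str C.ct.root C.ct.hyp (N := {1, 4, 6}) (w559 C) (si (w560 C) (si (w222 C) (s1 (w223 C)))) (by decide) (by decide)) ln), rfl⟩)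
      (show Chn r k a [(1, {1, 3, 4, 6})] [5] [(1, {1, 3, 4, 6}), (6, {1, 3}), (4, {1, 3})] from ⟨[(1, {1, 3, 4, 6}), (6, {1, 3}), (4, {1, 3})], (lc (stp_str C.ct.root C.ct.hyp (N := {1, 3}) f762 (si f763 (s1 (w282 C))) (by decide) (by decide)) ln), rfl⟩)
      (lc (lc (cc_l f571) (lc (cc_l f574) (lc (cc_l f573) ln))) (lc (lc (cc_l f754) (lc (cc_l f756) (lc (cc_l f755) ln))) ln))
  exact nt_tr C.ct.root C.ct.hyp f570 f772 (by decide) (by decide)

end Pool.Agent.FRS
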