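import Pool.Agent.FRS.P7a

/-!
# FRS/P7b: basic facts, p = 7 (generated)
-/

set_option autoImplicit false

namespace Pool.Agent.FRS

open Pool.Agent.FRB (Inv Eig LF SS Lam)

universe u

variable {r k : ℕ} {X : Type u} [Group X] {a : MulAut X}

theorem w570 (C : C7 7 r k a) : Tr r k a {1, 3, 4, 6} 1 :=
  br0 C

theorem w573 (C : C7 7 r k a) : Tr r k a {2, 3, 4, 5} 4 :=
  tr_scale C.ct.root (t := 4) (w570 (C.pow (t := 4) (by decide))) (by decide)

theorem br1 (C : C7 7 r k a) : Tr r k a {3, 4, 6} 1 := by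
  by_contra hcon
  have f585 : Nt r k a {3, 4, 6} 1 := nt_of_not hcon
  have f586 : Cm r k a {3, 4, 6} 1 3 := cm_in (by decide)
  have f587 : Cm r k a {3, 4, 6} 1 4 := cm_in (by decide)
  have f588 : Cm r k a {3, 4, 6} 1 6 := cm_in (by decide)
  have f702 : Cm r k a {1, 5, 6} 2 1 := cm_in (by decide)
  have f703 : Cm r k a {1, 5, 6} 2 5 := cm_in (by decide)
  have f704 : Cm r k a {1, 5, 6} 2 6 := cm_in (by decide)
  have f705 : Tr r k a {1, 5, 6} 2 := r10 C.ct (L1 := [3, 4, 6]) (D1 := []) (D2 := [2]) (L2 := [1, 5, 6]) (K := {3, 4, 6}) (i := 1)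
      (A := [(1, {3, 4, 6})]) (B := [(2, {1, 5, 6}), (4, {3, 5})])
      f585 (by decide)
      (lc f586 (lc f587 (lc f588 ln)))
      (lc f702 (lc f703 (lc f704 ln)))
      (show Chn r k a [(1, {3, 4, 6})] [] [(1, {3, 4, 6})] from rfl)
      (show Chn r k a [(2, {1, 5, 6})] [2] [(2, {1, 5, 6}), (4, {3, 5})] from ⟨[(2, {1, 5, 6}), (4, {3, 5})], (lc (stp_str C.ct.root C.ct.hyp (N := {5}) (w504 C) (s1 (w463 C)) (by decide) (by decide)) ln), rfl⟩)
      (lc (lc (cc_r f702) (lc (cc_l f587) ln)) ln)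
  have f706 : Tr r k a {5, 6} 2 := tr_cl C.ct.root C.ct.hyp (w462 C) f705 (by decide) (by decide)
  have f707 : Len r k a {3, 4, 6} 1 1 0 := len_z C.ct.root C.ct.hyp (N := {6}) (t := 2) (s1 (w509 C)) f706 (by decide) (by decide) (by decide)
  have f708 : Cm r k a {3, 4, 6} 1 1 := cm_len C.ct.root C.ct.hyp f707
  have f709 : Cm r k a {1, 3, 4, 6} 1 2 := cm_tr C.ct.root C.ct.hyp (w570 C) (by decide) (by decide)
  have f710 : Cm r k a {3, 4, 6} 1 2 := cm_cl C.ct.root C.ct.hyp f708 f709 (by decide) (by decide)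
  have f711 : Cm r k a {1, 2, 3, 4, 6} 1 5 := cm_tr C.ct.root C.ct.hyp (w7 C) (by decide) (by decide)
  have f712 : Cm r k a {1, 3, 4, 6} 1 5 := cm_cl C.ct.root C.ct.hyp f709 f711 (by decide) (by decide)
  have f713 : Cm r k a {3, 4, 6} 1 5 := cm_cl C.ct.root C.ct.hyp f708 f712 (by decide) (by decide)
  have f714 : Tr r k a {6} 1 := r10 C.ct (L1 := [1, 2, 3, 4, 5, 6]) (D1 := []) (D2 := []) (L2 := []) (K := {3, 4, 6}) (i := 1)
      (A := [(1, {3, 4, 6})]) (B := [(1, {6})])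
      f585 (by decide)
      (lc f708 (lc f710 (lc f586 (lc f587 (lc f713 (lc f588 ln))))))
      ln
      rfl rfl (lc (lc (cc_l f708) ln) ln)
  have f761 : Tr r k a {3, 4, 6} 1 := tr_mono C.ct.root C.ct.hyp f714 (by decide) (by decide)
  exact nt_tr C.ct.root C.ct.hyp f585 f761 (by decide) (by decide)

end Pool.Agent.FRS
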