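import Pool.Agent.FRS.P7b

/-!
# FRS/P7c: basic facts, p = 7 (generated)
-/

set_option autoImplicit false

namespace Pool.Agent.FRS

open Pool.Agent.FRB (Inv Eig LF SS Lam)

universe u

variable {r k : ℕ} {X : Type u} [Group X] {a : MulAut X}

theorem w585 (C : C7 7 r k a) : Tr r k a {3, 4, 6} 1 :=
  br1 C

theorem w586 (C : C7 7 r k a) : Tr r k a {1, 5, 6} 2 :=
  tr_scale C.ct.root (t := 2) (w585 (C.pow (t := 2) (by decide))) (by decide)

theorem w590 (C : C7 7 r k a) : Tr r k a {1, 3, 4} 6 :=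
  tr_scale C.ct.root (t := 6) (w585 (C.pow (t := 6) (by decide))) (by decide)

theorem w591 (C : C7 7 r k a) : Tr r k a {3, 6} 1 :=
  tr_cl C.ct.root C.ct.hyp (w554 C) (w585 C) (by decide) (by decide)

theorem w601 (C : C7 7 r k a) : Tr r k a {1, 4} 6 :=
  tr_cl C.ct.root C.ct.hyp (w534 C) (w590 C) (by decide) (by decide)

theorem w602 (C : C7 7 r k a) : Len r k a {4, 5} 3 3 0 :=
  len_z C.ct.root C.ct.hyp (N := {4}) (t := 6) (s1 (w446 C)) (w601 C) (by decide) (by decide) (by decide)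

theorem w603 (C : C7 7 r k a) : Cm r k a {4, 5} 3 3 :=
  cm_len C.ct.root C.ct.hyp (w602 C)

theorem w604 (C : C7 7 r k a) : Tr r k a {5, 6} 2 :=
  tr_cl C.ct.root C.ct.hyp (w462 C) (w586 C) (by decide) (by decide)

theorem w605 (C : C7 7 r k a) : Len r k a {2, 5, 6} 1 1 0 :=
  len_z C.ct.root C.ct.hyp (N := {5, 6}) (t := 2) (si (w496 C) (s1 (w497 C))) (w604 C) (by decide) (by decide) (by decide)

theorem w606 (C : C7 7 r k a) : Cm r k a {2, 5, 6} 1 1 :=
  cm_len C.ct.root C.ct.hyp (w605 C)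

theorem w607 (C : C7 7 r k a) : Tr r k a {2, 5, 6} 1 :=
  tr_cl C.ct.root C.ct.hyp (w606 C) (w185 C) (by decide) (by decide)

theorem w612 (C : C7 7 r k a) : Tr r k a {1, 2, 5} 6 :=
  tr_scale C.ct.root (t := 6) (w607 (C.pow (t := 6) (by decide))) (by decide)

theorem w615 (C : C7 7 r k a) : Len r k a {2, 6} 1 1 0 :=
  len_z C.ct.root C.ct.hyp (N := {6}) (t := 2) (s1 (w540 C)) (w604 C) (by decide) (by decide) (by decide)

theorem w616 (C : C7 7 r k a) : Cm r k a {2, 6} 1 1 :=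
  cm_len C.ct.root C.ct.hyp (w615 C)

theorem w621 (C : C7 7 r k a) : Len r k a {4, 6} 1 1 0 :=
  len_z C.ct.root C.ct.hyp (N := {6}) (t := 2) (s1 (w211 C)) (w604 C) (by decide) (by decide) (by decide)

theorem w622 (C : C7 7 r k a) : Cm r k a {4, 6} 1 1 :=
  cm_len C.ct.root C.ct.hyp (w621 C)

theorem w644 (C : C7 7 r k a) : Len r k a {5, 6} 1 1 0 :=
  len_z C.ct.root C.ct.hyp (N := {5, 6}) (t := 2) (si (w470 C) (s1 (w471 C))) (w604 C) (by decide) (by decide) (by decide)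

theorem w645 (C : C7 7 r k a) : Cm r k a {5, 6} 1 1 :=
  cm_len C.ct.root C.ct.hyp (w644 C)

theorem w646 (C : C7 7 r k a) : Len r k a {2, 3} 4 4 0 :=
  len_z C.ct.root C.ct.hyp (N := {3}) (t := 1) (s1 (w386 C)) (w591 C) (by decide) (by decide) (by decide)

theorem w647 (C : C7 7 r k a) : Cm r k a {2, 3} 4 4 :=
  cm_len C.ct.root C.ct.hyp (w646 C)

theorem w648 (C : C7 7 r k a) : VC r k a {2, 3, 4} 4 5 2 :=
  vc_str C.ct.root C.ct.hyp (w42 C) (by decide)

theorem w649 (C : C7 7 r k a) : VC r k a {2, 3, 4} 4 5 4 :=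
  vc_str C.ct.root C.ct.hyp (w51 C) (by decide)

theorem br2 (C : C7 7 r k a) : Tr r k a {1, 2, 6} 1 := by
  by_contra hcon
  have f653 : Nt r k a {1, 2, 6} 1 := nt_of_not hcon
  have f654 : Cm r k a {1, 2, 6} 1 1 := cm_in (by decide)
  have f655 : Cm r k a {1, 2, 6} 1 2 := cm_in (by decide)
  have f656 : Cm r k a {1, 2, 6} 1 6 := cm_in (by decide)
  have f756 : Cm r k a {2, 4, 5} 2 2 := cm_in (by decide)
  have f757 : Cm r k a {2, 4, 5} 2 4 := cm_in (by decide)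
  have f758 : Cm r k a {2, 4, 5} 2 5 := cm_in (by decide)
  have f761 : Tr r k a {2, 4, 5} 2 := r10 C.ct (L1 := [1, 2, 6]) (D1 := [3]) (D2 := []) (L2 := [2, 4, 5]) (K := {1, 2, 6}) (i := 1)
      (A := [(1, {1, 2, 6}), (4, {3})]) (B := [(2, {2, 4, 5})])
      f653 (by decide)
      (lc f654 (lc f655 (lc f656 ln)))
      (lc f756 (lc f757 (lc f758 ln)))
      (show Chn r k a [(1, {1, 2, 6})] [3] [(1, {1, 2, 6}), (4, {3})] from ⟨[(1, {1, 2, 6}), (4, {3})], (lc (stp_str C.ct.root C.ct.hyp (N := ∅) (w379 C) sn (by decide) (by decide)) ln), rfl⟩)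
      (show Chn r k a [(2, {2, 4, 5})] [] [(2, {2, 4, 5})] from rfl)
      (lc (lc (cc_l f655) ln) (lc (lc (cc_r f757) ln) ln))
  have f762 : Len r k a {2, 3, 4} 4 5 0 := len_z C.ct.root C.ct.hyp (N := {2, 4}) (t := 2) (si (w648 C) (s1 (w649 C))) f761 (by decide) (by decide) (by decide)
  have f763 : Cm r k a {2, 3, 4} 4 5 := cm_len C.ct.root C.ct.hyp f762
  have f764 : Tr r k a {2, 3, 4} 4 := tr_cl C.ct.root C.ct.hyp f763 (w573 C) (by decide) (by decide)
  have f765 : Tr r k a {2, 3} 4 := tr_cl C.ct.root C.ct.hyp (w647 C) f764 (by decide) (by decide)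
  have f766 : Len r k a {1, 2} 6 5 0 := len_z C.ct.root C.ct.hyp (N := {2}) (t := 4) (s1 (w384 C)) f765 (by decide) (by decide) (by decide)
  have f767 : Cm r k a {1, 2} 6 5 := cm_len C.ct.root C.ct.hyp f766
  have f768 : Tr r k a {1, 2} 6 := tr_cl C.ct.root C.ct.hyp f767 (w612 C) (by decide) (by decide)
  have f769 : Len r k a {1, 2, 6} 1 5 0 := len_z C.ct.root C.ct.hyp (N := {2}) (t := 6) (s1 (w381 C)) f768 (by decide) (by decide) (by decide)
  have f770 : Cm r k a {1, 2, 6} 1 5 := cm_len C.ct.root C.ct.hyp f769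
  have f771 : Cm r k a {1, 2, 6} 1 3 := cm_cl C.ct.root C.ct.hyp f770 (w184 C) (by decide) (by decide)
  have f772 : Cm r k a {1, 2, 3, 5, 6} 1 4 := cm_tr C.ct.root C.ct.hyp (w14 C) (by decide) (by decide)
  have f773 : Cm r k a {1, 2, 5, 6} 1 4 := cm_cl C.ct.root C.ct.hyp (w184 C) f772 (by decide) (by decide)
  have f774 : Cm r k a {1, 2, 6} 1 4 := cm_cl C.ct.root C.ct.hyp f770 f773 (by decide) (by decide)
  have f775 : Tr r k a {6} 1 := r10 C.ct (L1 := [1, 2, 3, 4, 5, 6]) (D1 := []) (D2 := []) (L2 := []) (K := {1, 2, 6}) (i := 1)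
      (A := [(1, {1, 2, 6})]) (B := [(1, {6})])
      f653 (by decide)
      (lc f654 (lc f655 (lc f771 (lc f774 (lc f770 (lc f656 ln))))))
      ln
      rfl rfl (lc (lc (cc_l f654) ln) ln)
  have f815 : Tr r k a {1, 2, 6} 1 := tr_mono C.ct.root C.ct.hyp f775 (by decide) (by decide)
  exact nt_tr C.ct.root C.ct.hyp f653 f815 (by decide) (by decide)

end Pool.Agent.FRS
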