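import Pool.Agent.FRS.P7c

/-!
# FRS/P7d: basic facts, p = 7 (generated)
-/

set_option autoImplicit false

namespace Pool.Agent.FRS

open Pool.Agent.FRB (Inv Eig LF SS Lam)

universe u

variable {r k : ℕ} {X : Type u} [Group X] {a : MulAut X}

theorem w653 (C : C7 7 r k a) : Tr r k a {1, 2, 6} 1 :=
  br2 C

theorem w656 (C : C7 7 r k a) : Tr r k a {1, 3, 4} 4 :=
  tr_scale C.ct.root (t := 4) (w653 (C.pow (t := 4) (by decide))) (by decide)

theorem w659 (C : C7 7 r k a) : Len r k a {1, 4, 6} 1 3 0 :=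
  len_z C.ct.root C.ct.hyp (N := {1, 4}) (t := 4) (si (w430 C) (s1 (w431 C))) (w656 C) (by decide) (by decide) (by decide)

theorem w660 (C : C7 7 r k a) : Cm r k a {1, 4, 6} 1 3 :=
  cm_len C.ct.root C.ct.hyp (w659 C)

theorem w661 (C : C7 7 r k a) : Tr r k a {1, 4, 6} 1 :=
  tr_cl C.ct.root C.ct.hyp (w660 C) (w570 C) (by decide) (by decide)

theorem w663 (C : C7 7 r k a) : Tr r k a {3, 4, 5} 3 :=
  tr_scale C.ct.root (t := 3) (w661 (C.pow (t := 3) (by decide))) (by decide)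

theorem w667 (C : C7 7 r k a) : Tr r k a {4, 5} 3 :=
  tr_cl C.ct.root C.ct.hyp (w603 C) (w663 C) (by decide) (by decide)

theorem w668 (C : C7 7 r k a) : Len r k a {1, 5, 6} 1 2 0 :=
  len_z C.ct.root C.ct.hyp (N := {5}) (t := 3) (s1 (w438 C)) (w667 C) (by decide) (by decide) (by decide)

theorem w669 (C : C7 7 r k a) : Cm r k a {1, 5, 6} 1 2 :=
  cm_len C.ct.root C.ct.hyp (w668 C)

theorem w670 (C : C7 7 r k a) : Tr r k a {1, 5, 6} 1 :=
  tr_cl C.ct.root C.ct.hyp (w669 C) (w185 C) (by decide) (by decide)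

theorem w676 (C : C7 7 r k a) : Tr r k a {2, 6} 1 :=
  tr_cl C.ct.root C.ct.hyp (w616 C) (w653 C) (by decide) (by decide)

theorem w682 (C : C7 7 r k a) : Tr r k a {4, 6} 1 :=
  tr_cl C.ct.root C.ct.hyp (w622 C) (w661 C) (by decide) (by decide)

theorem w687 (C : C7 7 r k a) : Tr r k a {5, 6} 1 :=
  tr_cl C.ct.root C.ct.hyp (w645 C) (w670 C) (by decide) (by decide)

end Pool.Agent.FRS
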