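import Pool.Agent.FRS.Gen

/-!
# FRS/Prod: every element is a product of eigen-elements in any prescribed order of the degrees
-/

set_option autoImplicit false

namespace Pool.Agent.FRS

open Pool.Agent.FRB (Inv Eig LF SS Lam)

universe u

variable {p r k : ℕ} {X : Type u} [Group X] {a : MulAut X}

theorem pr_one {S : Subgroup X} (l : List ℕ) : Pr r k a S l 1 := by
  induction l with
  | nil => rfl
  | cons i l ih => exact ⟨1, 1, S.one_mem, eig_one r k a i, ih, (mul_one 1).symm⟩

theorem pr_append {S : Subgroup X} {l l' : List ℕ} {g : X} :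
    Pr r k a S (l ++ l') g ↔ ∃ y z : X, Pr r k a S l y ∧ Pr r k a S l' z ∧ g = y * z := by
  induction l generalizing g with
  | nil =>
    constructor
    · intro h
      exact ⟨1, g, rfl, h, (one_mul g).symm⟩
    · rintro ⟨y, z, hy, hz, rfl⟩
      have hy1 : y = 1 := hy
      rw [hy1, one_mul]
      exact hz
  | cons i l ih =>
    constructor
    · rintro ⟨x, y, hx, hxi, hy, rfl⟩
      obtain ⟨y1, z, h1, h2, rfl⟩ := ih.1 hy
      exact ⟨x * y1, z, ⟨x, y1, hx, hxi, h1, rfl⟩, h2, (mul_assoc _ _ _).symm⟩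
    · rintro ⟨y, z, ⟨x, y1, hx, hxi, h1, rfl⟩, h2, rfl⟩
      exact ⟨x, y1 * z, hx, hxi, ih.2 ⟨y1, z, h1, h2, rfl⟩, mul_assoc _ _ _⟩

theorem pr_mono {S T : Subgroup X} (hST : S ≤ T) {l : List ℕ} {g : X} (hg : Pr r k a S l g) : Pr r k a T l g := by
  induction l generalizing g with
  | nil => exact hg
  | cons i l ih =>
    obtain ⟨x, y, hx, hxi, hy, rfl⟩ := hg
    exact ⟨x, y, hST hx, hxi, ih hy, rfl⟩

theorem pr_rev (h : Root p r k) {S : Subgroup X} {l : List ℕ} {g : X} (hg : Pr r k a S l g) :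
    Pr r k a S l.reverse g⁻¹ := by
  induction l generalizing g with
  | nil =>
    have hg1 : g = 1 := hg
    rw [hg1, inv_one]
    rfl
  | cons i l ih =>
    obtain ⟨x, y, hx, hxi, hy, rfl⟩ := hg
    rw [List.reverse_cons]
    exact pr_append.2 ⟨y⁻¹, x⁻¹, ih hy, ⟨x⁻¹, 1, S.inv_mem hx, eig_inv h hxi, rfl,
      (mul_one _).symm⟩, mul_inv_rev x y⟩

theorem pr_comm {S : Subgroup X} {l : List ℕ} {g c : X} (hg : Pr r k a S l g)
    (hc : ∀ j ∈ l, ∀ y : X, Eig r k a j y → Commute c y) : Commute c g := by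
  induction l generalizing g with
  | nil =>
    have hg1 : g = 1 := hg
    rw [hg1]
    exact Commute.one_right c
  | cons i l ih =>
    obtain ⟨x, y, hx, hxi, hy, rfl⟩ := hg
    exact (hc i List.mem_cons_self x hxi).mul_right
      (ih hy fun j hj => hc j (List.mem_cons_of_mem i hj))

private theorem pr_mem {S : Subgroup X} {l : List ℕ} {g : X} (hg : Pr r k a S l g) : g ∈ S := by
  induction l generalizing g with
  | nil =>
    have hg1 : g = 1 := hg
    rw [hg1]
    exact S.one_mem
  | cons i l ih =>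
    obtain ⟨x, y, hx, hxi, hy, rfl⟩ := hg
    exact S.mul_mem hx (ih hy)

theorem pr_ins (h : Root p r k) {S : Subgroup X} {l : List ℕ} {g e : X} {i : ℕ} (hg : Pr r k a S l g) (he : e ∈ S)
    (hei : Eig r k a i e) (hc : ∀ x ∈ S, Commute x e) (hi : i ∈ l) : Pr r k a S l (g * e) := by
  induction l generalizing g with
  | nil => exact absurd hi List.not_mem_nil
  | cons j l ih =>
    obtain ⟨x, y, hx, hxi, hy, rfl⟩ := hg
    by_cases hij : i = j
    · subst hij
      refine ⟨x * e, y, S.mul_mem hx he, eig_mul h hxi hei (hc x hx), hy, ?_⟩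
      rw [mul_assoc, mul_assoc, (hc y (pr_mem hy)).eq]
    · have hil : i ∈ l := (List.mem_cons.1 hi).resolve_left hij
      exact ⟨x, y * e, hx, hxi, ih hy hil, mul_assoc _ _ _⟩

private theorem pr_lift (h : Root p r k) (H : Hyp p r a) (N : Subgroup X) [N.Normal] (hN : Inv a N)
    {l : List ℕ} {q : X ⧸ N} (hq : Pr r k (qt H N hN) (⊤ : Subgroup (X ⧸ N)) l q) :
    ∃ g : X, (g : X ⧸ N) = q ∧ Pr r k a (⊤ : Subgroup X) l g := by
  induction l generalizing q with
  | nil =>
    have hq1 : q = 1 := hq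
    exact ⟨1, by rw [hq1]; rfl, rfl⟩
  | cons i l ih =>
    obtain ⟨x, y, -, hxi, hy, rfl⟩ := hq
    obtain ⟨x', hx', hxi'⟩ := lift_quo h H N hN hxi
    obtain ⟨y', hy', hyl⟩ := ih hy
    refine ⟨x' * y', ?_, x', y', Subgroup.mem_top x', hxi', hyl, rfl⟩
    rw [QuotientGroup.mk_mul, hx', hy']

private theorem pr_center (h : Root p r k) (H : Hyp p r a) {l : List ℕ}
    (hl : ∀ i, 1 ≤ i → i < p → i ∈ l) {z : X}
    (hz : z ∈ Subgroup.closure {e : X | e ∈ Subgroup.center X ∧ ∃ i, 1 ≤ i ∧ i < p ∧ Eig r k a i e}) :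
    ∀ g : X, Pr r k a (⊤ : Subgroup X) l g → Pr r k a (⊤ : Subgroup X) l (g * z) := by
  induction hz using Subgroup.closure_induction with
  | mem e he =>
    obtain ⟨heZ, i, h1, h2, hei⟩ := he
    intro g hg
    exact pr_ins h hg (Subgroup.mem_top e) hei (fun x _ => Subgroup.mem_center_iff.1 heZ x)
      (hl i h1 h2)
  | one =>
    intro g hg
    rwa [mul_one]
  | mul x y _ _ hx hy =>
    intro g hg
    rw [← mul_assoc]
    exact hy _ (hx g hg)
  | inv x _ hx =>
    have hpow : ∀ (m : ℕ) (g : X), Pr r k a (⊤ : Subgroup X) l g →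
        Pr r k a (⊤ : Subgroup X) l (g * x ^ m) := by
      intro m
      induction m with
      | zero => intro g hg; rwa [pow_zero, mul_one]
      | succ m ih =>
        intro g hg
        rw [pow_succ, ← mul_assoc]
        exact hx _ (ih g hg)
    obtain ⟨N, hN⟩ := H.tors x
    have h3 : x⁻¹ = x ^ (r ^ N - 1) := by
      have h4 : x ^ (r ^ N - 1) * x = 1 := by
        rw [pow_sub_one_mul (pow_ne_zero N h.prime.ne_zero), hN]
      exact (eq_inv_of_mul_eq_one_left h4).symm
    intro g hg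
    rw [h3]
    exact hpow _ g hg

private theorem pr_rs (H : Hyp p r a) (O : Subgroup X) (hO : Inv a O) {l : List ℕ} {z : O}
    (hz : Pr r k (rs H O hO) (⊤ : Subgroup O) l z) : Pr r k a O l (z : X) := by
  induction l generalizing z with
  | nil =>
    have hz1 : z = 1 := hz
    rw [hz1]
    rfl
  | cons i l ih =>
    obtain ⟨x, y, -, hxi, hy, rfl⟩ := hz
    exact ⟨x, y, x.2, (rs_eig H O hO).1 hxi, ih hy, rfl⟩

theorem prod_fin (h : Root p r k) {l : List ℕ} (hl : ∀ i, 1 ≤ i → i < p → i ∈ l) (n : ℕ) :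
    ∀ (X : Type u) [Group X] [Finite X] (a : MulAut X), Hyp p r a → Nat.card X = n →
      ∀ x : X, Pr r k a (⊤ : Subgroup X) l x := by
  induction n using Nat.strong_induction_on with
  | _ n ih =>
    intro X _ _ a H hn x
    rcases subsingleton_or_nontrivial X with hs | hs
    · rw [Subsingleton.elim x 1]
      exact pr_one l
    have hp : Fact r.Prime := ⟨h.prime⟩
    have hP : IsPGroup r X := H.tors
    have hZ : Nontrivial (Subgroup.center X) := hP.center_nontrivial
    have hcard : Nat.card (X ⧸ Subgroup.center X) < n := by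
      have h1 := Subgroup.card_eq_card_quotient_mul_card_subgroup (Subgroup.center X)
      have h2 : 1 < Nat.card (Subgroup.center X) := Finite.one_lt_card
      have h3 : 0 < Nat.card (X ⧸ Subgroup.center X) := Nat.card_pos
      rw [hn] at h1
      nlinarith
    have hZi : Inv a (Subgroup.center X) := Pool.Agent.FRB.inv_center a
    have hq := ih _ hcard (X ⧸ Subgroup.center X) (qt H (Subgroup.center X) hZi)
      (qt_hyp H _ hZi) rfl (x : X ⧸ Subgroup.center X)
    obtain ⟨g, hgx, hg⟩ := pr_lift h H (Subgroup.center X) hZi hq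
    have h2 : g⁻¹ * x ∈ Subgroup.center X := QuotientGroup.eq.1 hgx
    have h3 := pr_center h H hl (gen h H hZi h2) g hg
    rwa [mul_inv_cancel_left] at h3

theorem prod_dec (h : Root p r k) (H : Hyp p r a) {S : Subgroup X} (hS : Inv a S) {x : X} (hx : x ∈ S) {l : List ℕ}
    (hl : ∀ i, 1 ≤ i → i < p → i ∈ l) : Pr r k a S l x := by
  have hOf : Finite (Subgroup.closure (Set.range fun n : ℕ => (a ^ n) x)) := (H.orb x).to_subtype
  have hOi := inv_orb a x
  have h1 := prod_fin h hl _ (Subgroup.closure (Set.range fun n : ℕ => (a ^ n) x))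
    (rs H _ hOi) (rs_hyp H _ hOi) rfl ⟨x, mem_orb a x⟩
  exact pr_mono (orb_le hS hx) (pr_rs H _ hOi h1)

end Pool.Agent.FRS
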