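import Pool.Agent.FRS.RulA
import Pool.Agent.FRS.Prod

/-!
# FRS/R10: the rule for pairs of types in prime groups
-/

set_option autoImplicit false

namespace Pool.Agent.FRS

open Pool.Agent.FRB (Inv Eig LF SS Lam)

universe u

variable {p r k : ℕ} {X : Type u} [Group X] {a : MulAut X}

theorem prm_comm (P : Prm a) {i i' : ℕ} {c w : X} (hc : Eig r k a i c) (hw : Eig r k a i' w)
    (hcw : ∀ g : X, Commute (g⁻¹ * c * g) w) : c = 1 ∨ w = 1 := by
  have hinv : ∀ {j : ℕ} {x : X}, Eig r k a j x → Inv a (Subgroup.normalClosure ({x} : Set X)) := by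
    intro j x hx
    have h1 : Subgroup.normalClosure ({x} : Set X) ≤
        (Subgroup.normalClosure ({x} : Set X)).comap (a : X →* X) := by
      apply Subgroup.normalClosure_le_normal
      rw [Set.singleton_subset_iff]
      show a x ∈ Subgroup.normalClosure ({x} : Set X)
      have h2 : Subgroup.zpowers x ≤ Subgroup.normalClosure ({x} : Set X) := by
        rw [Subgroup.zpowers_le]
        exact Subgroup.subset_normalClosure rfl
      exact h2 (eig_mem hx)
    intro y hy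
    exact h1 hy
  have hw1 : w ∈ Subgroup.centralizer (Subgroup.normalClosure ({c} : Set X) : Set X) := by
    have h1 : Subgroup.normalClosure ({c} : Set X) ≤ Subgroup.centralizer ({w} : Set X) := by
      rw [Subgroup.normalClosure, Subgroup.closure_le]
      intro x hx
      obtain ⟨y, hy, hxy⟩ := Group.mem_conjugatesOfSet_iff.1 hx
      rw [Set.mem_singleton_iff] at hy
      subst hy
      obtain ⟨g, rfl⟩ := isConj_iff.1 hxy
      rw [SetLike.mem_coe, Subgroup.mem_centralizer_singleton_iff]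
      have h2 := hcw g⁻¹
      rw [inv_inv] at h2
      exact h2.eq
    rw [Subgroup.mem_centralizer_iff]
    intro x hx
    have h2 := h1 hx
    rw [Subgroup.mem_centralizer_singleton_iff] at h2
    exact h2
  have hN : Subgroup.normalClosure ({w} : Set X) ≤
      Subgroup.centralizer (Subgroup.normalClosure ({c} : Set X) : Set X) := by
    apply Subgroup.normalClosure_le_normal
    rw [Set.singleton_subset_iff]
    exact hw1
  rcases P.prime (Subgroup.normalClosure ({c} : Set X)) (Subgroup.normalClosure ({w} : Set X))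
    inferInstance inferInstance (hinv hc) (hinv hw) (by
      intro x hx y hy
      exact (Subgroup.mem_centralizer_iff.1 (hN hy)) x hx) with h1 | h1
  · left
    have h2 : c ∈ Subgroup.normalClosure ({c} : Set X) := Subgroup.subset_normalClosure rfl
    rw [h1, Subgroup.mem_bot] at h2
    exact h2
  · right
    have h2 : w ∈ Subgroup.normalClosure ({w} : Set X) := Subgroup.subset_normalClosure rfl
    rw [h1, Subgroup.mem_bot] at h2
    exact h2

theorem cov_self {K : Finset ℕ} {i : ℕ} {c : X} (hc : Ty r k a K i c) : Cov r k a [(i, K)] c := by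
  exact Subgroup.subset_closure ⟨(i, K), List.mem_singleton.2 rfl, hc⟩

theorem cov_step {A B : List (ℕ × Finset ℕ)} {d : ℕ} (hS : Stp r k a A d B) {g u : X} (hg : Cov r k a A g)
    (hu : Eig r k a d u) : Cov r k a B (u⁻¹ * g * u) := by
  unfold Cov at hg
  induction hg using Subgroup.closure_induction with
  | mem x hx =>
    obtain ⟨σ, hσ, hxσ⟩ := hx
    exact hS σ hσ x hxσ u hu
  | one =>
    rw [mul_one, inv_mul_cancel]
    exact Subgroup.one_mem _
  | mul x y _ _ hx hy =>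
    have h1 : u⁻¹ * (x * y) * u = (u⁻¹ * x * u) * (u⁻¹ * y * u) := by group
    rw [h1]
    exact Subgroup.mul_mem _ hx hy
  | inv x _ hx =>
    have h1 : u⁻¹ * x⁻¹ * u = (u⁻¹ * x * u)⁻¹ := by group
    rw [h1]
    exact Subgroup.inv_mem _ hx

theorem cov_chain {D : List ℕ} {S : Subgroup X} : ∀ {A B : List (ℕ × Finset ℕ)}, Chn r k a A D B →
    ∀ {g y : X}, Cov r k a A g → Pr r k a S D y → Cov r k a B (y⁻¹ * g * y) := by
  induction D with
  | nil =>
    intro A B hAB g y hg hy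
    have h1 : A = B := hAB
    have h2 : y = 1 := hy
    rw [h2, inv_one, one_mul, mul_one, ← h1]
    exact hg
  | cons d D ih =>
    intro A B hAB g y hg hy
    obtain ⟨A', hA', hD⟩ := hAB
    obtain ⟨x, y', hx, hxd, hy', rfl⟩ := hy
    have h1 := ih hD (cov_step hA' hg hxd) hy'
    have h2 : (x * y')⁻¹ * g * (x * y') = y'⁻¹ * (x⁻¹ * g * x) * y' := by group
    rw [h2]
    exact h1

theorem cov_comm {A B : List (ℕ × Finset ℕ)} (hAB : ∀ σ ∈ A, ∀ τ ∈ B, Cc r k a σ τ) {g f : X}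
    (hg : Cov r k a A g) (hf : Cov r k a B f) : Commute g f := by
  have h1 : ∀ σ ∈ A, ∀ x : X, Ty r k a σ.2 σ.1 x → Commute x f := by
    intro σ hσ x hx
    unfold Cov at hf
    induction hf using Subgroup.closure_induction with
    | mem y hy =>
      obtain ⟨τ, hτ, hyτ⟩ := hy
      exact hAB σ hσ τ hτ x y hx hyτ
    | one => exact Commute.one_right x
    | mul y z _ _ hy hz => exact hy.mul_right hz
    | inv y _ hy => exact hy.inv_right
  unfold Cov at hg
  induction hg using Subgroup.closure_induction with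
  | mem x hx =>
    obtain ⟨σ, hσ, hxσ⟩ := hx
    exact h1 σ hσ x hxσ
  | one => exact Commute.one_left f
  | mul y z _ _ hy hz => exact hy.mul_left hz
  | inv y _ hy => exact hy.inv_left

theorem r10 (C : Ct p r k a) {i i' : ℕ} {K K' : Finset ℕ} {L1 D1 D2 L2 : List ℕ} {A B : List (ℕ × Finset ℕ)}
    (hn : Nt r k a K i) (hcov : ∀ q ∈ Finset.range p, 1 ≤ q → q ∈ L1 ++ (D1 ++ (D2 ++ L2)))
    (h1 : ∀ j ∈ L1, Cm r k a K i j) (h2 : ∀ j ∈ L2, Cm r k a K' i' j) (hA : Chn r k a [(i, K)] D1 A)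
    (hB : Chn r k a [(i', K')] D2.reverse B) (hAB : ∀ σ ∈ A, ∀ τ ∈ B, Cc r k a σ τ) : Tr r k a K' i' := by
  obtain ⟨c, hc1, hc⟩ := hn
  intro w hw
  refine (prm_comm C.prm hc.1 hw.1 fun g => ?_).resolve_left hc1
  have hg := prod_dec C.root C.hyp (S := ⊤) (fun y _ => Subgroup.mem_top _) (Subgroup.mem_top g)
    (l := L1 ++ (D1 ++ (D2 ++ L2))) (fun j h3 h4 => hcov j (Finset.mem_range.2 h4) h3)
  obtain ⟨x₁, g₁, hx₁, hg₁, rfl⟩ := pr_append.1 hg
  obtain ⟨y, g₂, hy, hg₂, rfl⟩ := pr_append.1 hg₁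
  obtain ⟨z, x₂, hz, hx₂, rfl⟩ := pr_append.1 hg₂
  have e1 : Commute c x₁ := pr_comm hx₁ fun j hj u hu => h1 j hj c hc u hu
  have e2 : Commute w x₂ := pr_comm hx₂ fun j hj u hu => h2 j hj w hw u hu
  have e3 : Cov r k a A (y⁻¹ * c * y) := cov_chain hA (cov_self hc) hy
  have e4 : Cov r k a B ((z⁻¹)⁻¹ * w * z⁻¹) := cov_chain hB (cov_self hw) (pr_rev C.root hz)
  rw [inv_inv] at e4
  have e5 := (cov_comm hAB e3 e4).eq
  have e6 : x₁⁻¹ * c * x₁ = c := by
    rw [mul_assoc, e1.eq, inv_mul_cancel_left]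
  have e7 : x₂ * w * x₂⁻¹ = w := by
    rw [← e2.eq, mul_inv_cancel_right]
  have e8 : (x₁ * (y * (z * x₂)))⁻¹ * c * (x₁ * (y * (z * x₂))) =
      x₂⁻¹ * (z⁻¹ * (y⁻¹ * (x₁⁻¹ * c * x₁) * y) * z) * x₂ := by group
  show (x₁ * (y * (z * x₂)))⁻¹ * c * (x₁ * (y * (z * x₂))) * w =
    w * ((x₁ * (y * (z * x₂)))⁻¹ * c * (x₁ * (y * (z * x₂))))
  rw [e8, e6]
  calc x₂⁻¹ * (z⁻¹ * (y⁻¹ * c * y) * z) * x₂ * w
      = x₂⁻¹ * z⁻¹ * ((y⁻¹ * c * y) * (z * (x₂ * w * x₂⁻¹) * z⁻¹)) * z * x₂ := by group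
    _ = x₂⁻¹ * z⁻¹ * ((y⁻¹ * c * y) * (z * w * z⁻¹)) * z * x₂ := by rw [e7]
    _ = x₂⁻¹ * z⁻¹ * ((z * w * z⁻¹) * (y⁻¹ * c * y)) * z * x₂ := by rw [e5]
    _ = x₂⁻¹ * w * x₂ * (x₂⁻¹ * (z⁻¹ * (y⁻¹ * c * y) * z) * x₂) := by group
    _ = x₂⁻¹ * (x₂ * w * x₂⁻¹) * x₂ * (x₂⁻¹ * (z⁻¹ * (y⁻¹ * c * y) * z) * x₂) := by rw [e7]
    _ = w * (x₂⁻¹ * (z⁻¹ * (y⁻¹ * c * y) * z) * x₂) := by group

/-- a step in which the elements of a type commute with `L_d` -/
theorem stp_cm {K : Finset ℕ} {i d : ℕ} {B : List (ℕ × Finset ℕ)} (hc : Cm r k a K i d) (hB : (i, K) ∈ B) :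
    Stp1 r k a (i, K) d B := by
  intro c hcc u hu
  have h1 : Commute c u := hc c hcc u hu
  have h2 : u⁻¹ * c * u = c := by
    rw [mul_assoc, h1.eq, inv_mul_cancel_left]
  rw [h2]
  exact Subgroup.subset_closure ⟨(i, K), hB, hcc⟩

/-- a step with strings of length at most `m`; `N` a set of degrees `q` with `VC K i d q`.  By `str_exists` the element
`u⁻¹ c u` of `Cj c u` is in the closure of the `e l`, `l ≤ n ≤ m`; `e 0 = c` has type `(K, i)`, and `e l` has degree
`i + l d`, commutes with `L_q`, `q ∈ N`, and with the opposite degree (`comm_opp`). -/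
theorem stp_str (h : Root p r k) (H : Hyp p r a) {K N : Finset ℕ} {i d m : ℕ} {B : List (ℕ × Finset ℕ)}
    (hl : Len r k a K i d m) (hN : ∀ q ∈ N, VC r k a K i d q) (hB : (i, K) ∈ B)
    (hm : ∀ l ∈ Finset.range (m + 1), 1 ≤ l → ∃ τ ∈ B, τ.1 = (i + l * d) % p ∧ τ.2 ⊆ insert (p - τ.1) N) :
    Stp1 r k a (i, K) d B := by
  intro c hc u hu
  obtain ⟨n, e, hS⟩ := str_exists h H hc.1 hu
  have hn : n ≤ m := hl c hc u hu n e hS
  have h1 : Cj c u ≤ Subgroup.closure {x : X | ∃ σ ∈ B, Ty r k a σ.2 σ.1 x} := by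
    rw [hS.gen, Subgroup.closure_le]
    rintro x ⟨l, hl', rfl⟩
    rcases Nat.eq_zero_or_pos l with h0 | h0
    · rw [h0, hS.zero]
      exact Subgroup.subset_closure ⟨(i, K), hB, hc⟩
    · obtain ⟨τ, hτ, h3, h4⟩ := hm l (Finset.mem_range.2 (by omega)) h0
      refine Subgroup.subset_closure ⟨τ, hτ, ?_⟩
      have hlt : τ.1 < p := by
        rw [h3]
        exact Nat.mod_lt _ h.pp.pos
      refine ty_mono h H hlt.le h4 ⟨?_, fun q hq y hy => ?_⟩
      · rw [h3]
        exact eig_congr h (Nat.mod_modEq _ _).symm (hS.eig l hl')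
      · exact hN q hq c hc u hu y hy _ (hS.mem l hl')
  exact h1 (cj_conj1 c u (cj_self c u))

theorem cc_l {K K' : Finset ℕ} {i i' : ℕ} (hc : Cm r k a K i i') : Cc r k a (i, K) (i', K') := by
  intro x y hx hy
  exact hc x hx y hy.1

theorem cc_r {K K' : Finset ℕ} {i i' : ℕ} (hc : Cm r k a K' i' i) : Cc r k a (i, K) (i', K') := by
  intro x y hx hy
  exact (hc y hy x hx.1).symm

end Pool.Agent.FRS
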