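import Pool.Agent.FRS.LiftN

/-!
# FRS/Red: reduction to prime groups
-/

set_option autoImplicit false

namespace Pool.Agent.FRS

open Pool.Agent.FRB (Inv Eig LF SS Lam)

universe u

variable {p r k : ℕ} {X : Type u} [Group X] {a : MulAut X}

/-- the family of subgroups of the proof -/
def RedC (a : MulAut X) (S : Subgroup X) : Set (Subgroup X) := {N | N.Normal ∧ Inv a N ∧ N.relIndex S = 0}

private theorem rd_fg (s : Finset X) {M : Subgroup X}
    (h : M.relIndex (Subgroup.closure (s : Set X)) ≠ 0) :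
    ∃ t : Finset X, Subgroup.closure (t : Set X) = M ⊓ Subgroup.closure (s : Set X) := by
  classical
  have hfg : Group.FG (Subgroup.closure (s : Set X)) := (Group.fg_iff_subgroup_fg _).2 ⟨s, rfl⟩
  have hfi : (M.subgroupOf (Subgroup.closure (s : Set X))).FiniteIndex := ⟨h⟩
  have hfg2 : Group.FG (M.subgroupOf (Subgroup.closure (s : Set X))) := inferInstance
  obtain ⟨t, ht⟩ := (Group.fg_iff_subgroup_fg _).1 hfg2
  refine ⟨t.image (Subgroup.closure (s : Set X)).subtype, ?_⟩
  rw [Finset.coe_image, ← MonoidHom.map_closure, ht, Subgroup.subgroupOf_map_subtype]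

private theorem rd_ne_fin {S : Subgroup X} (hs : ¬ (S : Set X).Finite) : (⊥ : Subgroup X).relIndex S = 0 := by
  rw [Subgroup.relIndex_bot_left]
  have h1 : Infinite S := Set.infinite_coe_iff.2 hs
  exact Nat.card_eq_zero_of_infinite

theorem red_zorn (a : MulAut X) (s : Finset X)
    (hs : ¬ ((Subgroup.closure (s : Set X) : Subgroup X) : Set X).Finite) :
    ∃ N : Subgroup X, Maximal (fun M => M ∈ RedC a (Subgroup.closure (s : Set X))) N := by
  have h0 : (⊥ : Subgroup X) ∈ RedC a (Subgroup.closure (s : Set X)) := by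
    refine ⟨inferInstance, ?_, rd_ne_fin hs⟩
    intro x hx
    rw [Subgroup.mem_bot] at hx ⊢
    rw [hx, map_one]
  obtain ⟨m, -, hm⟩ := zorn_le_nonempty₀ (RedC a (Subgroup.closure (s : Set X))) (by
    intro c hc hch y hy
    have hdir : DirectedOn (· ≤ ·) c := hch.directedOn
    have hmem : ∀ x : X, x ∈ sSup c ↔ ∃ N ∈ c, x ∈ N := fun x =>
      Subgroup.mem_sSup_of_directedOn ⟨y, hy⟩ hdir
    refine ⟨sSup c, ⟨?_, ?_, ?_⟩, fun z hz => le_sSup hz⟩
    · exact ⟨fun x hx g => by
        obtain ⟨N, hN, hxN⟩ := (hmem x).1 hx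
        exact (hmem _).2 ⟨N, hN, (hc hN).1.conj_mem x hxN g⟩⟩
    · intro x hx
      obtain ⟨N, hN, hxN⟩ := (hmem x).1 hx
      exact (hmem _).2 ⟨N, hN, (hc hN).2.1 x hxN⟩
    · by_contra hne
      obtain ⟨t, ht⟩ := rd_fg s hne
      -- a finite subset of the union of the chain lies in a member
      have hfin : ∀ t : Finset X, (t : Set X) ⊆ (sSup c : Subgroup X) → ∃ N ∈ c, (t : Set X) ⊆ N := by
        classical
        intro t
        induction t using Finset.induction_on with
        | empty =>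
          intro _
          exact ⟨y, hy, by simp⟩
        | insert b t hb ih =>
          intro hsub
          rw [Finset.coe_insert, Set.insert_subset_iff] at hsub
          obtain ⟨N₁, hN₁, h1⟩ := ih hsub.2
          obtain ⟨N₂, hN₂, h2⟩ := (hmem b).1 hsub.1
          obtain ⟨N₃, hN₃, h3, h4⟩ := hdir N₁ hN₁ N₂ hN₂
          refine ⟨N₃, hN₃, ?_⟩
          rw [Finset.coe_insert, Set.insert_subset_iff]
          exact ⟨h4 h2, fun x hx => h3 (h1 hx)⟩
      have hts : (t : Set X) ⊆ (sSup c : Subgroup X) := by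
        intro x hx
        have h1 : x ∈ Subgroup.closure (t : Set X) := Subgroup.subset_closure hx
        rw [ht] at h1
        exact h1.1
      obtain ⟨N, hN, htN⟩ := hfin t hts
      have hle : sSup c ⊓ Subgroup.closure (s : Set X) ≤ N := by
        rw [← ht, Subgroup.closure_le]
        exact htN
      have h1 := Subgroup.relIndex_dvd_of_le_left (Subgroup.closure (s : Set X)) hle
      rw [Subgroup.inf_relIndex_right, (hc hN).2.2] at h1
      exact hne (Nat.eq_zero_of_zero_dvd h1)) ⊥ h0
  exact ⟨m, hm⟩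

private theorem rd_big {S N M : Subgroup X}
    (hmax : Maximal (fun M => M ∈ RedC a S) N) (hM : M.Normal) (hMi : Inv a M) (hle : N ≤ M)
    (hne : ¬ M ≤ N) : M.relIndex S ≠ 0 := by
  intro h0
  exact hne (hmax.2 ⟨hM, hMi, h0⟩ hle)

private theorem rd_comap_le {N : Subgroup X} [N.Normal] {L : Subgroup (X ⧸ N)}
    (h : L.comap (QuotientGroup.mk' N) ≤ N) : L = ⊥ := by
  rw [eq_bot_iff]
  intro q hq
  obtain ⟨x, rfl⟩ := QuotientGroup.mk_surjective q
  rw [Subgroup.mem_bot, QuotientGroup.eq_one_iff]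
  exact h hq

private theorem rd_le_comap {N : Subgroup X} [N.Normal] (L : Subgroup (X ⧸ N)) :
    N ≤ L.comap (QuotientGroup.mk' N) := by
  intro x hx
  rw [Subgroup.mem_comap]
  have h1 : QuotientGroup.mk' N x = 1 := (QuotientGroup.eq_one_iff x).2 hx
  rw [h1]
  exact L.one_mem

private theorem rd_ss (H : Hyp p r a) (s : Finset X) {N : Subgroup X} [N.Normal] (hN : Inv a N)
    (hmax : Maximal (fun M => M ∈ RedC a (Subgroup.closure (s : Set X))) N) :
    SS (qt H N hN) (⊤ : Subgroup (X ⧸ N)) := by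
  classical
  intro L _ hLi hLn hLF
  by_contra hL
  have hLnorm : L.Normal := ⟨fun x hx g => by
    have h1 := hLn g⁻¹ (Subgroup.mem_top _) x hx
    simpa using h1⟩
  have hM : (L.comap (QuotientGroup.mk' N)).Normal := hLnorm.comap _
  have hMi := qt_inv_comap H N hN hLi
  have hle := rd_le_comap L
  have hne : ¬ L.comap (QuotientGroup.mk' N) ≤ N := fun h => hL (rd_comap_le h)
  have h1 := rd_big hmax hM hMi hle hne
  obtain ⟨t, ht⟩ := rd_fg s h1
  -- the image is finite
  have hfin : (((L.comap (QuotientGroup.mk' N) ⊓ Subgroup.closure (s : Set X)).map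
      (QuotientGroup.mk' N) : Subgroup (X ⧸ N)) : Set (X ⧸ N)).Finite := by
    rw [← ht, MonoidHom.map_closure, ← Finset.coe_image]
    apply hLF
    intro q hq
    rw [Finset.coe_image] at hq
    obtain ⟨x, hx, rfl⟩ := hq
    have h2 : x ∈ Subgroup.closure (t : Set X) := Subgroup.subset_closure hx
    rw [ht] at h2
    exact h2.1
  have h3 : N.relIndex (L.comap (QuotientGroup.mk' N) ⊓ Subgroup.closure (s : Set X)) ≠ 0 := by
    have h4 := Subgroup.relIndex_ker (K := L.comap (QuotientGroup.mk' N) ⊓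
      Subgroup.closure (s : Set X)) (QuotientGroup.mk' N)
    rw [QuotientGroup.ker_mk'] at h4
    rw [h4]
    have h5 : Finite ((L.comap (QuotientGroup.mk' N) ⊓ Subgroup.closure (s : Set X)).map
      (QuotientGroup.mk' N)) := hfin
    exact Nat.card_pos.ne'
  have h6 : (L.comap (QuotientGroup.mk' N) ⊓ Subgroup.closure (s : Set X)).relIndex
      (Subgroup.closure (s : Set X)) ≠ 0 := by
    rw [Subgroup.inf_relIndex_right]
    exact h1
  exact Subgroup.relIndex_ne_zero_trans h3 h6 hmax.1.2.2

theorem red_prm (H : Hyp p r a) (s : Finset X) {N : Subgroup X} [N.Normal] (hN : Inv a N)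
    (hmax : Maximal (fun M => M ∈ RedC a (Subgroup.closure (s : Set X))) N) : Prm (qt H N hN) := by
  have hss := rd_ss H s hN hmax
  refine ⟨hss, ?_⟩
  intro M₁ M₂ hM₁ hM₂ hi₁ hi₂ hcomm
  by_contra hcon
  push Not at hcon
  obtain ⟨c1, c2⟩ := hcon
  have hQ := qt_hyp H N hN
  -- the intersection is trivial
  have hK : M₁ ⊓ M₂ = ⊥ := by
    apply hss _ le_top
    · intro x hx
      exact ⟨hi₁ x hx.1, hi₂ x hx.2⟩
    · intro y _ x hx
      refine ⟨?_, ?_⟩
      · have h1 := hM₁.conj_mem x hx.1 y⁻¹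
        simpa using h1
      · have h1 := hM₂.conj_mem x hx.2 y⁻¹
        simpa using h1
    · apply Pool.Agent.FRB.lf_comm
      · intro x hx y hy
        exact hcomm x hx.1 y hy.2
      · intro x hx
        have h1 := hQ.two x x
        have h2 : Finite (Subgroup.zpowers x) := by
          apply Set.Finite.subset h1
          intro y hy
          have h3 : Subgroup.zpowers x ≤ Subgroup.closure ({x, x} : Set (X ⧸ N)) := by
            rw [Subgroup.zpowers_le]
            exact Subgroup.subset_closure (by simp)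
          exact h3 hy
        have h3 : IsOfFinOrder x := finite_zpowers.1 h2
        exact isOfFinOrder_iff_pow_eq_one.1 h3
  have n1 : ¬ M₁.comap (QuotientGroup.mk' N) ≤ N := fun h => c1 (rd_comap_le h)
  have n2 : ¬ M₂.comap (QuotientGroup.mk' N) ≤ N := fun h => c2 (rd_comap_le h)
  have r1 := rd_big hmax (hM₁.comap _) (qt_inv_comap H N hN hi₁) (rd_le_comap M₁) n1
  have r2 := rd_big hmax (hM₂.comap _) (qt_inv_comap H N hN hi₂) (rd_le_comap M₂) n2
  have r3 := Subgroup.relIndex_inf_ne_zero r1 r2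
  rw [← Subgroup.comap_inf, hK] at r3
  apply r3
  have h4 : (⊥ : Subgroup (X ⧸ N)).comap (QuotientGroup.mk' N) = N := by
    rw [MonoidHom.comap_bot, QuotientGroup.ker_mk']
  rw [h4]
  exact hmax.1.2.2

theorem red (H : Hyp p r a) (hSS : SS a (⊤ : Subgroup X)) {x : X} (hx : x ≠ 1) :
    ∃ (N : Subgroup X) (_ : N.Normal) (hN : Inv a N), x ∉ N ∧ Prm (qt H N hN) := by
  obtain ⟨T, hT⟩ : ∃ T : Set X, T = Set.range fun n : ℕ => (a ^ n) x := ⟨_, rfl⟩
  have hxT : x ∈ T := by
    rw [hT]
    exact ⟨0, by simp⟩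
  have hTa : ∀ y ∈ T, a y ∈ T := by
    intro y hy
    rw [hT] at hy ⊢
    obtain ⟨n, rfl⟩ := hy
    refine ⟨n + 1, ?_⟩
    show (a ^ (n + 1)) x = a ((a ^ n) x)
    rw [pow_succ', MulAut.mul_apply]
  have hDi : Inv a (Subgroup.normalClosure T) := by
    have h1 : Subgroup.normalClosure T ≤ (Subgroup.normalClosure T).comap (a : X →* X) := by
      apply Subgroup.normalClosure_le_normal
      intro y hy
      exact Subgroup.subset_normalClosure (hTa y hy)
    intro y hy
    exact h1 hy
  have hnLF : ¬ LF (Subgroup.normalClosure T) := by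
    intro hLF
    have h1 := hSS (Subgroup.normalClosure T) le_top hDi (by
      intro y _ z hz
      have h2 := (Subgroup.normalClosure_normal (s := T)).conj_mem z hz y⁻¹
      simpa using h2) hLF
    have h2 : x ∈ Subgroup.normalClosure T := Subgroup.subset_normalClosure hxT
    rw [h1, Subgroup.mem_bot] at h2
    exact hx h2
  unfold LF at hnLF
  push Not at hnLF
  obtain ⟨s, hsD, hsinf⟩ := hnLF
  have hsinf' : ¬ ((Subgroup.closure (s : Set X) : Subgroup X) : Set X).Finite := hsinf
  obtain ⟨N, hmax⟩ := red_zorn a s hsinf'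
  have hNn : N.Normal := hmax.1.1
  have hN : Inv a N := hmax.1.2.1
  refine ⟨N, hNn, hN, ?_, red_prm H s hN hmax⟩
  intro hxN
  have h1 : ∀ n : ℕ, (a ^ n) x ∈ N := by
    intro n
    induction n with
    | zero => simpa using hxN
    | succ n ih =>
      rw [pow_succ', MulAut.mul_apply]
      exact hN _ ih
  have h2 : Subgroup.normalClosure T ≤ N := by
    apply Subgroup.normalClosure_le_normal
    intro y hy
    rw [hT] at hy
    obtain ⟨n, rfl⟩ := hy
    exact h1 n
  have h3 : Subgroup.closure (s : Set X) ≤ N := by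
    rw [Subgroup.closure_le]
    exact fun y hy => h2 (hsD hy)
  have h4 := Subgroup.relIndex_eq_one.2 h3
  have h5 : N.relIndex (Subgroup.closure (s : Set X)) = 0 := hmax.1.2.2
  omega

/-- A statement `Tr K 1` for prime groups implies the same statement for semisimple groups. -/
theorem tr_of_prm (p : ℕ) {K : Finset ℕ} {i : ℕ}
    (hP : ∀ (r k : ℕ) (X : Type u) [Group X] (a : MulAut X), Root p r k → Hyp p r a → Prm a → Tr r k a K i) :
    ∀ (r k : ℕ) (X : Type u) [Group X] (a : MulAut X), Root p r k → Hyp p r a → SS a (⊤ : Subgroup X) →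
      Tr r k a K i := by
  intro r k X _ a h H hSS x hx
  by_contra hne
  obtain ⟨N, hNn, hN, hxN, hprm⟩ := red H hSS hne
  apply hxN
  rw [← QuotientGroup.eq_one_iff]
  refine hP r k (X ⧸ N) (qt H N hN) h (qt_hyp H N hN) hprm _ ⟨qt_eig H N hN hx.1, fun l hl y hy => ?_⟩
  obtain ⟨z, rfl, hz⟩ := lift_quo h H N hN hy
  have h1 := hx.2 l hl z hz
  exact congrArg (QuotientGroup.mk (s := N)) h1

end Pool.Agent.FRS
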