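import Pool.Agent.FRS.JD
import Pool.Agent.FRS.RulA

/-!
# FRS/RulJ: the J-rule
-/

set_option autoImplicit false

namespace Pool.Agent.FRS

open Pool.Agent.FRB (Inv Eig LF SS Lam)

universe u

variable {p r k : ℕ} {X : Type u} [Group X] {a : MulAut X}

theorem vc_j (h : Root p r k) (H : Hyp p r a) {K : Finset ℕ} {i j q m b : ℕ} (hj1 : 1 ≤ j) (hj2 : j < p)
    (hK : ∀ s ∈ Finset.range p, 1 ≤ s → s ≠ j → s ≠ p - j → s ∈ K) (hl : Len r k a K i j m)
    (hb : p ∣ q + (b + 1) * j) (hmb : m + 1 ≤ b) (hbp : b + 3 ≤ p) : VC r k a K i j q := by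
  intro c hc u hu w hw x hx
  have hp0 : 0 < p := h.pp.pos
  have hpj : ¬ p ∣ j := fun h1 => absurd (Nat.le_of_dvd hj1 h1) (by omega)
  have h' := h.pow hpj
  have hu' : Eig r (k ^ j) a 1 u := by
    rw [Pool.Agent.FRB.eig_root, mul_one]
    exact hu
  have hw' : Eig r (k ^ j) a (p - (b + 1)) w := by
    rw [Pool.Agent.FRB.eig_root]
    refine eig_congr h ?_ hw
    have e1 : q + (b + 1) * j ≡ j * (p - (b + 1)) + (b + 1) * j [MOD p] := by
      have e2 : j * (p - (b + 1)) + (b + 1) * j = j * p := by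
        obtain ⟨d, hd⟩ : ∃ d, p = (b + 1) + d := ⟨p - (b + 1), by omega⟩
        have e3 : p - (b + 1) = d := by omega
        rw [e3, hd]
        ring
      rw [e2]
      exact ((Nat.modEq_zero_iff_dvd).2 hb).trans ((Nat.modEq_zero_iff_dvd).2 (dvd_mul_left p j)).symm
    exact Nat.ModEq.add_right_cancel' _ e1
  have hcK : ∀ s, 2 ≤ s → s + 2 ≤ p → ∀ x : X, Eig r (k ^ j) a s x → Commute c x := by
    intro s hs1 hs2 y hy
    rw [Pool.Agent.FRB.eig_root] at hy
    have f0 : ∀ {t : ℕ}, p ∣ j * t → p ∣ t := fun {t} ht => (h.pp.dvd_mul.1 ht).resolve_left hpj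
    have h1 : 1 ≤ (j * s) % p := by
      rw [Nat.one_le_iff_ne_zero]
      intro h2
      have h3 := f0 (Nat.dvd_of_mod_eq_zero h2)
      exact absurd (Nat.le_of_dvd (by omega) h3) (by omega)
    have h2 : (j * s) % p ≠ j := by
      intro h2
      have h3 : j * s ≡ j * 1 [MOD p] := by
        rw [mul_one]
        show (j * s) % p = j % p
        rw [h2, Nat.mod_eq_of_lt hj2]
      have h4 : p ∣ j * (s - 1) := by
        have h5 := (Nat.modEq_iff_dvd' (Nat.mul_le_mul_left j (by omega : 1 ≤ s))).1 h3.symm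
        rwa [← Nat.mul_sub] at h5
      have h5 := f0 h4
      exact absurd (Nat.le_of_dvd (by omega) h5) (by omega)
    have h3 : (j * s) % p ≠ p - j := by
      intro h3
      have h4 : p ∣ j * (s + 1) := by
        have h5 : j * s + j ≡ (p - j) + j [MOD p] := by
          refine Nat.ModEq.add_right j ?_
          show (j * s) % p = (p - j) % p
          rw [h3, Nat.mod_eq_of_lt (by omega)]
        rw [Nat.sub_add_cancel hj2.le] at h5
        have h6 : j * s + j ≡ 0 [MOD p] := h5.trans ((Nat.modEq_zero_iff_dvd).2 (dvd_refl p))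
        have h7 := (Nat.modEq_zero_iff_dvd).1 h6
        rwa [← Nat.mul_succ] at h7
      have h5 := f0 h4
      exact absurd (Nat.le_of_dvd (by omega) h5) (by omega)
    exact hc.2 _ (hK _ (Finset.mem_range.2 (Nat.mod_lt _ hp0)) h1 h2 h3) y
      (eig_congr h (Nat.mod_modEq _ _).symm hy)
  obtain ⟨n, e, hS⟩ := str_exists h H hc.1 hu
  have hn : n ≤ m := hl c hc u hu n e hS
  have hgen : Cj c u ≤ Subgroup.closure {x | ∃ t : ℕ, t ≤ m ∧ x = u ^ (-(t : ℤ)) * c * u ^ (t : ℤ)} := by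
    rw [hS.gent]
    refine Subgroup.closure_mono ?_
    rintro y ⟨t, ht, rfl⟩
    exact ⟨t, ht.trans hn, rfl⟩
  have hjd := jd h' H (fun y hy => cent_app h hc.1 hy) hcK hu' hgen (q := p - (b + 1)) (b := b) (by omega) (by omega)
    hmb _ w hw' rfl
  have h3 : ∀ t : ℤ, Commute (u ^ (-t) * c * u ^ t) w := by
    intro t
    have h4 : c * (u ^ (-(-t)) * w * u ^ (-t)) = (u ^ (-(-t)) * w * u ^ (-t)) * c := hjd _ (cj_mem w u (-t))
    rw [neg_neg] at h4
    change u ^ (-t) * c * u ^ t * w = w * (u ^ (-t) * c * u ^ t)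
    calc u ^ (-t) * c * u ^ t * w = u ^ (-t) * (c * (u ^ t * w * u ^ (-t))) * u ^ t := by group
      _ = u ^ (-t) * ((u ^ t * w * u ^ (-t)) * c) * u ^ t := by rw [h4]
      _ = w * (u ^ (-t) * c * u ^ t) := by group
  unfold Cj at hx
  induction hx using Subgroup.closure_induction with
  | mem x hx =>
    obtain ⟨t, rfl⟩ := hx
    exact h3 t
  | one => exact Commute.one_left w
  | mul x y _ _ hx hy => exact hx.mul_left hy
  | inv x _ hx => exact hx.inv_left

end Pool.Agent.FRS
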