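import Pool.Agent.FRS.RulJ
import Pool.Agent.FRS.R10

/-!
# FRS/RulS: auxiliary lemmas for the scripts with `p = 7`
-/

set_option autoImplicit false

namespace Pool.Agent.FRS

open Pool.Agent.FRB (Inv Eig LF SS Lam)

universe u v

variable {p r k : ℕ} {X : Type u} [Group X] {a : MulAut X}

theorem ln {α : Type v} {P : α → Prop} : ∀ x ∈ ([] : List α), P x := by
  simp

theorem lc {α : Type v} {P : α → Prop} {x : α} {l : List α} (hx : P x) (hl : ∀ y ∈ l, P y) : ∀ y ∈ x :: l, P y := by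
  intro y hy
  rcases List.mem_cons.1 hy with rfl | hy
  · exact hx
  · exact hl y hy

theorem sn {P : ℕ → Prop} : ∀ x ∈ (∅ : Finset ℕ), P x := by
  simp

theorem s1 {P : ℕ → Prop} {x : ℕ} (hx : P x) : ∀ y ∈ ({x} : Finset ℕ), P y := by
  intro y hy
  rw [Finset.mem_singleton.1 hy]
  exact hx

theorem si {P : ℕ → Prop} {x : ℕ} {s : Finset ℕ} (hx : P x) (hs : ∀ y ∈ s, P y) : ∀ y ∈ insert x s, P y := by
  intro y hy
  rcases Finset.mem_insert.1 hy with rfl | hy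
  · exact hx
  · exact hs y hy

theorem nt_up (h : Root p r k) (H : Hyp p r a) {K K' : Finset ℕ} {i : ℕ} (hn : Nt r k a K i) (hi : i ≤ p)
    (hK : K' ⊆ insert (p - i) K) : Nt r k a K' i := by
  obtain ⟨x, hx, hx'⟩ := hn
  exact ⟨x, hx, ty_mono h H hi hK hx'⟩

theorem nt_of_not {K : Finset ℕ} {i : ℕ} (hn : ¬ Tr r k a K i) : Nt r k a K i := by
  unfold Tr at hn
  push Not at hn
  obtain ⟨x, hx, hx'⟩ := hn
  exact ⟨x, hx', hx⟩

/-- the context of the scripts: a prime group in which all degrees occur -/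
structure C7 (p r k : ℕ) {X : Type*} [Group X] (a : MulAut X) : Prop where
  ct : Ct p r k a
  nz : ∀ q, 1 ≤ q → q < p → Nt r k a ∅ q

theorem nt_pow {t q : ℕ} (h : Root p r k) (hn : Nt r k a ∅ (t * q % p)) : Nt r (k ^ t) a ∅ q := by
  obtain ⟨x, hx, hx', _⟩ := hn
  refine ⟨x, hx, ?_, fun l hl => absurd hl (Finset.notMem_empty l)⟩
  rw [FRB.eig_root]
  exact eig_congr h (Nat.mod_modEq _ _) hx'

theorem C7.pow (C : C7 p r k a) {t : ℕ} (ht : ¬ p ∣ t) : C7 p r (k ^ t) a := by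
  refine ⟨⟨C.ct.root.pow ht, C.ct.hyp, C.ct.prm⟩, fun q h1 h2 => nt_pow C.ct.root (C.nz _ ?_ ?_)⟩
  · rw [Nat.one_le_iff_ne_zero]
    intro h0
    rcases (Nat.Prime.dvd_mul C.ct.root.pp).1 (Nat.dvd_of_mod_eq_zero h0) with h | h
    · exact ht h
    · exact absurd (Nat.le_of_dvd h1 h) (by omega)
  · exact Nat.mod_lt _ C.ct.root.pp.pos

end Pool.Agent.FRS
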