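import Pool.Agent.FRS.Nz7
import Pool.Agent.FRS.P7d
import Pool.Agent.FRS.Red

/-!
# FRS/S27: the statement `S2 7`
-/

set_option autoImplicit false

namespace Pool.Agent.FRS

open Pool.Agent.FRB (Inv Eig LF SS Lam)

universe u

variable {r k : ℕ} {X : Type u} [Group X] {a : MulAut X}

theorem s2_prm (h : Root 7 r k) (H : Hyp 7 r a) (P : Prm a) {j : ℕ} (h1 : 2 ≤ j) (h2 : j + 2 ≤ 7) :
    Tr r k a {j} 1 := by
  intro x hx
  by_contra hne
  have C : C7 7 r k a := ⟨⟨h, H, P⟩, nz7 ⟨h, H, P⟩ hne⟩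
  have h3 : j = 2 ∨ j = 3 ∨ j = 4 ∨ j = 5 := by omega
  rcases h3 with rfl | rfl | rfl | rfl
  · exact hne (tr_mono h H (w676 C) (by decide) (by decide) x hx)
  · exact hne (tr_mono h H (w591 C) (by decide) (by decide) x hx)
  · exact hne (tr_mono h H (w682 C) (by decide) (by decide) x hx)
  · exact hne (tr_mono h H (w687 C) (by decide) (by decide) x hx)

theorem s2_seven : S2.{u} 7 := by
  intro r k X _ a h H hSS j h1 h2
  exact tr_of_prm 7 (K := {j}) (i := 1) (fun r k X _ a h H P => s2_prm h H P h1 h2) r k X a h H hSS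

end Pool.Agent.FRS
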