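import Pool.Agent.FRS.RulS

/-!
# FRS/Z7a: zero sets of degrees, p = 7 (generated)
-/

set_option autoImplicit false

namespace Pool.Agent.FRS

open Pool.Agent.FRB (Inv Eig LF SS Lam)

universe u

variable {r k : ℕ} {X : Type u} [Group X] {a : MulAut X}

theorem z7_1 (C : Ct 7 r k a) (t1 : Tr r k a ∅ 1)
    (n2 : Nt r k a ∅ 2) (n3 : Nt r k a ∅ 3) (n4 : Nt r k a ∅ 4) (n5 : Nt r k a ∅ 5) (n6 : Nt r k a ∅ 6) : False := by
  have f0 : Tr r k a {6} 1 := tr_mono C.root C.hyp t1 (by decide) (by decide)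
  have f1 : Nt r k a {5} 2 := nt_up C.root C.hyp n2 (by decide) (by decide)
  have f2 : Cm r k a {5} 2 1 := cm_lj C.root C.hyp f0 (by decide) (by decide)
  have f22 : Len r k a ∅ 3 4 0 := len_top C.root C.hyp (by decide)
  have f28 : Len r k a ∅ 1 6 0 := len_top C.root C.hyp (by decide)
  have f30 : Len r k a ∅ 2 6 0 := len_z C.root C.hyp (N := ∅) (t := 1) sn f0 (by decide) (by decide) (by decide)
  have f32 : Len r k a ∅ 3 6 1 := len_z C.root C.hyp (N := ∅) (t := 1) sn f0 (by decide) (by decide) (by decide)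
  have f41 : Tr r k a {3, 6} 1 := tr_mono C.root C.hyp f0 (by decide) (by decide)
  have f57 : Len r k a ∅ 2 5 0 := len_top C.root C.hyp (by decide)
  have f58 : Len r k a ∅ 3 5 0 := len_z C.root C.hyp (N := ∅) (t := 1) sn f0 (by decide) (by decide) (by decide)
  have f62 : Len r k a {1, 4} 3 5 0 := len_z C.root C.hyp (N := ∅) (t := 1) sn f0 (by decide) (by decide) (by decide)
  have f63 : Cm r k a {1, 4} 3 5 := cm_len C.root C.hyp f62
  have f65 : Tr r k a {1, 6} 1 := tr_mono C.root C.hyp f0 (by decide) (by decide)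
  have f80 : VC r k a {1, 5} 2 6 1 := vc_str C.root C.hyp f28 (by decide)
  have f81 : Len r k a {1, 5} 2 6 0 := len_z C.root C.hyp (N := {1}) (t := 1) (s1 f80) f65 (by decide) (by decide) (by decide)
  have f82 : Cm r k a {1, 5} 2 6 := cm_len C.root C.hyp f81
  have f130 : VC r k a {1, 2, 3, 5} 5 6 1 := vc_str C.root C.hyp f28 (by decide)
  have f131 : VC r k a {1, 2, 3, 5} 5 6 2 := vc_str C.root C.hyp f30 (by decide)
  have f132 : VC r k a {1, 2, 3, 5} 5 6 3 := vc_str C.root C.hyp f32 (by decide)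
  have f139 : Cm r k a {4} 3 1 := cm_lj C.root C.hyp f0 (by decide) (by decide)
  have f143 : Len r k a {1, 2} 5 3 0 := len_z C.root C.hyp (N := ∅) (t := 1) sn f0 (by decide) (by decide) (by decide)
  have f144 : Cm r k a {1, 2} 5 3 := cm_len C.root C.hyp f143
  have f147 : VC r k a {1, 2, 3} 5 5 2 := vc_str C.root C.hyp f57 (by decide)
  have f148 : VC r k a {1, 2, 3} 5 5 3 := vc_str C.root C.hyp f58 (by decide)
  have f158 : VC r k a {1, 2, 3} 4 4 3 := vc_str C.root C.hyp f22 (by decide)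
  have f159 : Len r k a {1, 2, 3} 4 4 0 := len_z C.root C.hyp (N := {3}) (t := 1) (s1 f158) f41 (by decide) (by decide) (by decide)
  have f160 : Cm r k a {1, 2, 3} 4 4 := cm_len C.root C.hyp f159
  have f197 : Nt r k a {4} 3 := nt_up C.root C.hyp n3 (by decide) (by decide)
  have f204 : Cm r k a {2} 5 1 := cm_lj C.root C.hyp f0 (by decide) (by decide)
  have f205 : Len r k a {2} 5 3 0 := len_z C.root C.hyp (N := ∅) (t := 1) sn f0 (by decide) (by decide) (by decide)
  have f206 : Cm r k a {2} 5 3 := cm_len C.root C.hyp f205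
  have f324 : Nt r k a {2} 5 := nt_up C.root C.hyp n5 (by decide) (by decide)
  have f326 : Cm r k a {5} 2 5 := cm_in (by decide)
  have f327 : Cm r k a {5} 2 6 := cm_cl C.root C.hyp f2 f82 (by decide) (by decide)
  have f329 : Tr r k a {2, 3, 4} 3 := r10 C (L1 := [1, 5, 6]) (D1 := []) (D2 := []) (L2 := [2, 3, 4]) (K := {5}) (i := 2)
      (A := [(2, {5})]) (B := [(3, {2, 3, 4})])
      f1 (by decide)
      (lc f2 (lc f326 (lc f327 ln)))
      (lc (cm_in (by decide)) (lc (cm_in (by decide)) (lc (cm_in (by decide)) ln)))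
      rfl rfl (lc (lc (cc_r (cm_in (by decide))) ln) ln)
  have f330 : Tr r k a {2, 3, 4} 4 := r10 C (L1 := [1, 5, 6]) (D1 := []) (D2 := []) (L2 := [2, 3, 4]) (K := {5}) (i := 2)
      (A := [(2, {5})]) (B := [(4, {2, 3, 4})])
      f1 (by decide)
      (lc f2 (lc f326 (lc f327 ln)))
      (lc (cm_in (by decide)) (lc (cm_in (by decide)) (lc (cm_in (by decide)) ln)))
      rfl rfl (lc (lc (cc_r (cm_in (by decide))) ln) ln)
  have f333 : Cm r k a {4} 3 4 := cm_in (by decide)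
  have f338 : Len r k a {1, 2, 3} 5 5 0 := len_z C.root C.hyp (N := {2, 3}) (t := 3) (si f147 (s1 f148)) f329 (by decide) (by decide) (by decide)
  have f339 : Cm r k a {1, 2, 3} 5 5 := cm_len C.root C.hyp f338
  have f340 : Tr r k a {1, 2, 3, 4} 4 := tr_mono C.root C.hyp f330 (by decide) (by decide)
  have f341 : Tr r k a {1, 2, 3} 4 := tr_cl C.root C.hyp f160 f340 (by decide) (by decide)
  have f342 : Len r k a {1, 2, 3, 5} 5 6 0 := len_z C.root C.hyp (N := {1, 2, 3}) (t := 4) (si f130 (si f131 (s1 f132))) f341 (by decide) (by decide) (by decide)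
  have f343 : Cm r k a {1, 2, 3, 5} 5 6 := cm_len C.root C.hyp f342
  have f429 : Cm r k a {4} 3 5 := cm_cl C.root C.hyp f139 f63 (by decide) (by decide)
  have f451 : Tr r k a {2, 3, 6} 5 := r10 C (L1 := [1, 4, 5]) (D1 := []) (D2 := []) (L2 := [2, 3, 6]) (K := {4}) (i := 3)
      (A := [(3, {4})]) (B := [(5, {2, 3, 6})])
      f197 (by decide)
      (lc f139 (lc f333 (lc f429 ln)))
      (lc (cm_in (by decide)) (lc (cm_in (by decide)) (lc (cm_in (by decide)) ln)))
      rfl rfl (lc (lc (cc_l f429) ln) ln)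
  have f484 : Cm r k a {2} 5 2 := cm_in (by decide)
  have f485 : Cm r k a {1, 2} 5 5 := cm_cl C.root C.hyp f144 f339 (by decide) (by decide)
  have f486 : Cm r k a {2} 5 5 := cm_cl C.root C.hyp f204 f485 (by decide) (by decide)
  have f487 : Cm r k a {1, 2, 3} 5 6 := cm_cl C.root C.hyp f339 f343 (by decide) (by decide)
  have f488 : Cm r k a {1, 2} 5 6 := cm_cl C.root C.hyp f144 f487 (by decide) (by decide)
  have f489 : Cm r k a {2} 5 6 := cm_cl C.root C.hyp f204 f488 (by decide) (by decide)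
  have f490 : Tr r k a {1, 2, 3, 5, 6} 5 := tr_mono C.root C.hyp f451 (by decide) (by decide)
  have f491 : Cm r k a {1, 2, 3, 5, 6} 5 4 := cm_tr C.root C.hyp f490 (by decide) (by decide)
  have f492 : Cm r k a {1, 2, 3, 5} 5 4 := cm_cl C.root C.hyp f343 f491 (by decide) (by decide)
  have f493 : Cm r k a {1, 2, 3} 5 4 := cm_cl C.root C.hyp f339 f492 (by decide) (by decide)
  have f494 : Cm r k a {1, 2} 5 4 := cm_cl C.root C.hyp f144 f493 (by decide) (by decide)
  have f495 : Cm r k a {2} 5 4 := cm_cl C.root C.hyp f204 f494 (by decide) (by decide)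
  have f496 : Tr r k a {5} 2 := r10 C (L1 := [1, 2, 3, 4, 5, 6]) (D1 := []) (D2 := []) (L2 := []) (K := {2}) (i := 5)
      (A := [(5, {2})]) (B := [(2, {5})])
      f324 (by decide)
      (lc f204 (lc f484 (lc f206 (lc f495 (lc f486 (lc f489 ln))))))
      ln
      rfl rfl (lc (lc (cc_l f484) ln) ln)
  exact nt_tr C.root C.hyp f1 f496 (by decide) (by decide)

theorem z7_12 (C : Ct 7 r k a) (t1 : Tr r k a ∅ 1) (t2 : Tr r k a ∅ 2)
    (n3 : Nt r k a ∅ 3) (n4 : Nt r k a ∅ 4) (n5 : Nt r k a ∅ 5) (n6 : Nt r k a ∅ 6) : False := by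
  have f0 : Tr r k a {6} 1 := tr_mono C.root C.hyp t1 (by decide) (by decide)
  have f1 : Tr r k a {5} 2 := tr_mono C.root C.hyp t2 (by decide) (by decide)
  have f2 : Nt r k a {4} 3 := nt_up C.root C.hyp n3 (by decide) (by decide)
  have f3 : Cm r k a {4} 3 1 := cm_lj C.root C.hyp f0 (by decide) (by decide)
  have f4 : Cm r k a {1, 4} 3 2 := cm_lj C.root C.hyp f1 (by decide) (by decide)
  have f5 : Len r k a ∅ 1 3 1 := len_top C.root C.hyp (by decide)
  have f7 : Len r k a ∅ 2 3 1 := len_z C.root C.hyp (N := ∅) (t := 1) sn f0 (by decide) (by decide) (by decide)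
  have f9 : Len r k a ∅ 4 3 0 := len_top C.root C.hyp (by decide)
  have f11 : Len r k a ∅ 5 3 0 := len_z C.root C.hyp (N := ∅) (t := 1) sn f0 (by decide) (by decide) (by decide)
  have f12 : Len r k a ∅ 6 3 0 := len_z C.root C.hyp (N := ∅) (t := 2) sn f1 (by decide) (by decide) (by decide)
  have f20 : Len r k a ∅ 2 5 0 := len_top C.root C.hyp (by decide)
  have f24 : Len r k a ∅ 4 5 0 := len_z C.root C.hyp (N := ∅) (t := 2) sn f1 (by decide) (by decide) (by decide)
  have f35 : Len r k a ∅ 1 6 0 := len_top C.root C.hyp (by decide)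
  have f37 : Len r k a ∅ 2 6 0 := len_z C.root C.hyp (N := ∅) (t := 1) sn f0 (by decide) (by decide) (by decide)
  have f85 : Tr r k a {1, 2, 3, 4, 5, 6} 3 := tr_center C.root C.hyp C.prm.ss (by decide) (by decide)
  have f94 : VC r k a {1, 2, 4} 3 5 2 := vc_str C.root C.hyp f20 (by decide)
  have f95 : VC r k a {1, 2, 4} 3 5 4 := vc_str C.root C.hyp f24 (by decide)
  have f96 : Tr r k a {2, 4, 6} 1 := tr_mono C.root C.hyp f0 (by decide) (by decide)
  have f97 : Len r k a {1, 2, 4} 3 5 0 := len_z C.root C.hyp (N := {2, 4}) (t := 1) (si f94 (s1 f95)) f96 (by decide) (by decide) (by decide)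
  have f98 : Cm r k a {1, 2, 4} 3 5 := cm_len C.root C.hyp f97
  have f99 : VC r k a {1, 2, 4, 5} 3 6 1 := vc_str C.root C.hyp f35 (by decide)
  have f100 : VC r k a {1, 2, 4, 5} 3 6 2 := vc_str C.root C.hyp f37 (by decide)
  have f101 : Tr r k a {1, 2, 5} 2 := tr_mono C.root C.hyp f1 (by decide) (by decide)
  have f102 : Len r k a {1, 2, 4, 5} 3 6 0 := len_z C.root C.hyp (N := {1, 2}) (t := 2) (si f99 (s1 f100)) f101 (by decide) (by decide) (by decide)
  have f103 : Cm r k a {1, 2, 4, 5} 3 6 := cm_len C.root C.hyp f102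
  have f104 : VC r k a {1, 2, 4, 5, 6} 3 3 1 := vc_str C.root C.hyp f5 (by decide)
  have f105 : VC r k a {1, 2, 4, 5, 6} 3 3 2 := vc_str C.root C.hyp f7 (by decide)
  have f106 : VC r k a {1, 2, 4, 5, 6} 3 3 4 := vc_str C.root C.hyp f9 (by decide)
  have f107 : VC r k a {1, 2, 4, 5, 6} 3 3 5 := vc_str C.root C.hyp f11 (by decide)
  have f108 : VC r k a {1, 2, 4, 5, 6} 3 3 6 := vc_str C.root C.hyp f12 (by decide)
  have f109 : VC r k a {1, 2, 4, 5, 6} 6 3 1 := vc_str C.root C.hyp f5 (by decide)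
  have f110 : VC r k a {1, 2, 4, 5, 6} 6 3 2 := vc_str C.root C.hyp f7 (by decide)
  have f111 : VC r k a {1, 2, 4, 5, 6} 6 3 4 := vc_str C.root C.hyp f9 (by decide)
  have f112 : VC r k a {1, 2, 4, 5, 6} 6 3 5 := vc_str C.root C.hyp f11 (by decide)
  have f113 : VC r k a {1, 2, 4, 5, 6} 6 3 6 := vc_str C.root C.hyp f12 (by decide)
  have f114 : Tr r k a {1, 2, 4, 5, 6} 2 := tr_mono C.root C.hyp f1 (by decide) (by decide)
  have f115 : Len r k a {1, 2, 4, 5, 6} 6 3 0 := len_z C.root C.hyp (N := {1, 2, 4, 5, 6}) (t := 2) (si f109 (si f110 (si f111 (si f112 (s1 f113))))) f114 (by decide) (by decide) (by decide)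
  have f116 : Cm r k a {1, 2, 4, 5, 6} 6 3 := cm_len C.root C.hyp f115
  have f117 : Tr r k a {1, 2, 3, 4, 5, 6} 6 := tr_center C.root C.hyp C.prm.ss (by decide) (by decide)
  have f118 : Tr r k a {1, 2, 4, 5, 6} 6 := tr_cl C.root C.hyp f116 f117 (by decide) (by decide)
  have f119 : Len r k a {1, 2, 4, 5, 6} 3 3 0 := len_z C.root C.hyp (N := {1, 2, 4, 5, 6}) (t := 6) (si f104 (si f105 (si f106 (si f107 (s1 f108))))) f118 (by decide) (by decide) (by decide)
  have f120 : Cm r k a {1, 2, 4, 5, 6} 3 3 := cm_len C.root C.hyp f119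
  have f121 : Tr r k a {1, 2, 4, 5, 6} 3 := tr_cl C.root C.hyp f120 f85 (by decide) (by decide)
  have f122 : Tr r k a {1, 2, 4, 5} 3 := tr_cl C.root C.hyp f103 f121 (by decide) (by decide)
  have f123 : Tr r k a {1, 2, 4} 3 := tr_cl C.root C.hyp f98 f122 (by decide) (by decide)
  have f124 : Tr r k a {1, 4} 3 := tr_cl C.root C.hyp f4 f123 (by decide) (by decide)
  have f125 : Tr r k a {4} 3 := tr_cl C.root C.hyp f3 f124 (by decide) (by decide)
  exact nt_tr C.root C.hyp f2 f125 (by decide) (by decide)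

theorem z7_13 (C : Ct 7 r k a) (t1 : Tr r k a ∅ 1) (t3 : Tr r k a ∅ 3)
    (n2 : Nt r k a ∅ 2) (n4 : Nt r k a ∅ 4) (n5 : Nt r k a ∅ 5) (n6 : Nt r k a ∅ 6) : False := by
  have f0 : Tr r k a {6} 1 := tr_mono C.root C.hyp t1 (by decide) (by decide)
  have f1 : Tr r k a {4} 3 := tr_mono C.root C.hyp t3 (by decide) (by decide)
  have f2 : Nt r k a {5} 2 := nt_up C.root C.hyp n2 (by decide) (by decide)
  have f3 : Cm r k a {5} 2 1 := cm_lj C.root C.hyp f0 (by decide) (by decide)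
  have f4 : Len r k a ∅ 1 2 0 := len_z C.root C.hyp (N := ∅) (t := 3) sn f1 (by decide) (by decide) (by decide)
  have f5 : VC r k a {1, 5} 2 2 1 := vc_str C.root C.hyp f4 (by decide)
  have f7 : Len r k a ∅ 3 2 1 := len_top C.root C.hyp (by decide)
  have f8 : Len r k a ∅ 4 2 1 := len_z C.root C.hyp (N := ∅) (t := 1) sn f0 (by decide) (by decide) (by decide)
  have f9 : Len r k a ∅ 5 2 0 := len_top C.root C.hyp (by decide)
  have f10 : VC r k a {1, 5} 2 2 5 := vc_str C.root C.hyp f9 (by decide)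
  have f11 : Len r k a ∅ 6 2 0 := len_z C.root C.hyp (N := ∅) (t := 1) sn f0 (by decide) (by decide) (by decide)
  have f21 : Len r k a ∅ 1 4 3 := len_z C.root C.hyp (N := ∅) (t := 3) sn f1 (by decide) (by decide) (by decide)
  have f22 : Len r k a ∅ 2 4 1 := len_z C.root C.hyp (N := ∅) (t := 3) sn f1 (by decide) (by decide) (by decide)
  have f23 : Len r k a ∅ 3 4 0 := len_top C.root C.hyp (by decide)
  have f26 : Len r k a ∅ 5 4 2 := len_z C.root C.hyp (N := ∅) (t := 3) sn f1 (by decide) (by decide) (by decide)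
  have f27 : Len r k a ∅ 6 4 0 := len_z C.root C.hyp (N := ∅) (t := 3) sn f1 (by decide) (by decide) (by decide)
  have f31 : Len r k a ∅ 1 6 0 := len_top C.root C.hyp (by decide)
  have f33 : Len r k a ∅ 2 6 0 := len_z C.root C.hyp (N := ∅) (t := 1) sn f0 (by decide) (by decide) (by decide)
  have f35 : Len r k a ∅ 3 6 1 := len_z C.root C.hyp (N := ∅) (t := 1) sn f0 (by decide) (by decide) (by decide)
  have f37 : Len r k a ∅ 4 6 0 := len_z C.root C.hyp (N := ∅) (t := 3) sn f1 (by decide) (by decide) (by decide)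
  have f39 : Len r k a ∅ 5 6 1 := len_z C.root C.hyp (N := ∅) (t := 3) sn f1 (by decide) (by decide) (by decide)
  have f45 : VC r k a {1, 3, 5} 4 4 3 := vc_str C.root C.hyp f23 (by decide)
  have f46 : Tr r k a {3, 6} 1 := tr_mono C.root C.hyp f0 (by decide) (by decide)
  have f47 : Len r k a {1, 3, 5} 4 4 0 := len_z C.root C.hyp (N := {3}) (t := 1) (s1 f45) f46 (by decide) (by decide) (by decide)
  have f48 : Cm r k a {1, 3, 5} 4 4 := cm_len C.root C.hyp f47
  have f49 : VC r k a {1, 3, 4, 5} 4 6 1 := vc_str C.root C.hyp f31 (by decide)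
  have f50 : VC r k a {1, 3, 4, 5} 4 6 4 := vc_str C.root C.hyp f37 (by decide)
  have f51 : VC r k a {1, 3, 4, 5} 4 6 5 := vc_str C.root C.hyp f39 (by decide)
  have f52 : Tr r k a {1, 4, 5} 3 := tr_mono C.root C.hyp f1 (by decide) (by decide)
  have f53 : Len r k a {1, 3, 4, 5} 4 6 0 := len_z C.root C.hyp (N := {1, 4, 5}) (t := 3) (si f49 (si f50 (s1 f51))) f52 (by decide) (by decide) (by decide)
  have f54 : Cm r k a {1, 3, 4, 5} 4 6 := cm_len C.root C.hyp f53
  have f55 : VC r k a {1, 3, 4, 5, 6} 4 2 1 := vc_str C.root C.hyp f4 (by decide)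
  have f56 : VC r k a {1, 3, 4, 5, 6} 4 2 3 := vc_str C.root C.hyp f7 (by decide)
  have f57 : VC r k a {1, 3, 4, 5, 6} 4 2 4 := vc_str C.root C.hyp f8 (by decide)
  have f58 : VC r k a {1, 3, 4, 5, 6} 4 2 5 := vc_str C.root C.hyp f9 (by decide)
  have f59 : VC r k a {1, 3, 4, 5, 6} 4 2 6 := vc_str C.root C.hyp f11 (by decide)
  have f60 : VC r k a {1, 3, 4, 5, 6} 6 2 1 := vc_str C.root C.hyp f4 (by decide)
  have f61 : VC r k a {1, 3, 4, 5, 6} 6 2 3 := vc_str C.root C.hyp f7 (by decide)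
  have f62 : VC r k a {1, 3, 4, 5, 6} 6 2 4 := vc_str C.root C.hyp f8 (by decide)
  have f63 : VC r k a {1, 3, 4, 5, 6} 6 2 5 := vc_str C.root C.hyp f9 (by decide)
  have f64 : VC r k a {1, 3, 4, 5, 6} 6 2 6 := vc_str C.root C.hyp f11 (by decide)
  have f65 : Tr r k a {1, 3, 4, 5, 6} 1 := tr_mono C.root C.hyp f0 (by decide) (by decide)
  have f66 : Len r k a {1, 3, 4, 5, 6} 6 2 0 := len_z C.root C.hyp (N := {1, 3, 4, 5, 6}) (t := 1) (si f60 (si f61 (si f62 (si f63 (s1 f64))))) f65 (by decide) (by decide) (by decide)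
  have f67 : Cm r k a {1, 3, 4, 5, 6} 6 2 := cm_len C.root C.hyp f66
  have f68 : Tr r k a {1, 2, 3, 4, 5, 6} 6 := tr_center C.root C.hyp C.prm.ss (by decide) (by decide)
  have f69 : Tr r k a {1, 3, 4, 5, 6} 6 := tr_cl C.root C.hyp f67 f68 (by decide) (by decide)
  have f70 : Len r k a {1, 3, 4, 5, 6} 4 2 0 := len_z C.root C.hyp (N := {1, 3, 4, 5, 6}) (t := 6) (si f55 (si f56 (si f57 (si f58 (s1 f59))))) f69 (by decide) (by decide) (by decide)
  have f71 : Cm r k a {1, 3, 4, 5, 6} 4 2 := cm_len C.root C.hyp f70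
  have f72 : Tr r k a {1, 2, 3, 4, 5, 6} 4 := tr_center C.root C.hyp C.prm.ss (by decide) (by decide)
  have f73 : Tr r k a {1, 3, 4, 5, 6} 4 := tr_cl C.root C.hyp f71 f72 (by decide) (by decide)
  have f74 : Tr r k a {1, 3, 4, 5} 4 := tr_cl C.root C.hyp f54 f73 (by decide) (by decide)
  have f75 : Tr r k a {1, 3, 5} 4 := tr_cl C.root C.hyp f48 f74 (by decide) (by decide)
  have f76 : Len r k a {1, 5} 2 2 0 := len_z C.root C.hyp (N := {1, 5}) (t := 4) (si f5 (s1 f10)) f75 (by decide) (by decide) (by decide)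
  have f77 : Cm r k a {1, 5} 2 2 := cm_len C.root C.hyp f76
  have f78 : Cm r k a {1, 2, 5} 2 3 := cm_lj C.root C.hyp f1 (by decide) (by decide)
  have f127 : Tr r k a {1, 2, 3, 4, 5, 6} 2 := tr_center C.root C.hyp C.prm.ss (by decide) (by decide)
  have f157 : VC r k a {1, 2, 3, 5} 2 6 1 := vc_str C.root C.hyp f31 (by decide)
  have f158 : VC r k a {1, 2, 3, 5} 2 6 2 := vc_str C.root C.hyp f33 (by decide)
  have f159 : VC r k a {1, 2, 3, 5} 2 6 3 := vc_str C.root C.hyp f35 (by decide)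
  have f160 : Tr r k a {1, 2, 3, 6} 1 := tr_mono C.root C.hyp f0 (by decide) (by decide)
  have f161 : Len r k a {1, 2, 3, 5} 2 6 0 := len_z C.root C.hyp (N := {1, 2, 3}) (t := 1) (si f157 (si f158 (s1 f159))) f160 (by decide) (by decide) (by decide)
  have f162 : Cm r k a {1, 2, 3, 5} 2 6 := cm_len C.root C.hyp f161
  have f163 : VC r k a {1, 2, 3, 5, 6} 2 4 1 := vc_str C.root C.hyp f21 (by decide)
  have f164 : VC r k a {1, 2, 3, 5, 6} 2 4 2 := vc_str C.root C.hyp f22 (by decide)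
  have f165 : VC r k a {1, 2, 3, 5, 6} 2 4 3 := vc_str C.root C.hyp f23 (by decide)
  have f166 : VC r k a {1, 2, 3, 5, 6} 2 4 5 := vc_str C.root C.hyp f26 (by decide)
  have f167 : VC r k a {1, 2, 3, 5, 6} 2 4 6 := vc_str C.root C.hyp f27 (by decide)
  have f168 : VC r k a {1, 2, 3, 5, 6} 6 4 1 := vc_str C.root C.hyp f21 (by decide)
  have f169 : VC r k a {1, 2, 3, 5, 6} 6 4 2 := vc_str C.root C.hyp f22 (by decide)
  have f170 : VC r k a {1, 2, 3, 5, 6} 6 4 3 := vc_str C.root C.hyp f23 (by decide)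
  have f171 : VC r k a {1, 2, 3, 5, 6} 6 4 5 := vc_str C.root C.hyp f26 (by decide)
  have f172 : VC r k a {1, 2, 3, 5, 6} 6 4 6 := vc_str C.root C.hyp f27 (by decide)
  have f173 : Tr r k a {1, 2, 3, 4, 5, 6} 3 := tr_mono C.root C.hyp f1 (by decide) (by decide)
  have f174 : Len r k a {1, 2, 3, 5, 6} 6 4 0 := len_z C.root C.hyp (N := {1, 2, 3, 5, 6}) (t := 3) (si f168 (si f169 (si f170 (si f171 (s1 f172))))) f173 (by decide) (by decide) (by decide)
  have f175 : Cm r k a {1, 2, 3, 5, 6} 6 4 := cm_len C.root C.hyp f174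
  have f176 : Tr r k a {1, 2, 3, 5, 6} 6 := tr_cl C.root C.hyp f175 f68 (by decide) (by decide)
  have f177 : Len r k a {1, 2, 3, 5, 6} 2 4 0 := len_z C.root C.hyp (N := {1, 2, 3, 5, 6}) (t := 6) (si f163 (si f164 (si f165 (si f166 (s1 f167))))) f176 (by decide) (by decide) (by decide)
  have f178 : Cm r k a {1, 2, 3, 5, 6} 2 4 := cm_len C.root C.hyp f177
  have f179 : Tr r k a {1, 2, 3, 5, 6} 2 := tr_cl C.root C.hyp f178 f127 (by decide) (by decide)
  have f180 : Tr r k a {1, 2, 3, 5} 2 := tr_cl C.root C.hyp f162 f179 (by decide) (by decide)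
  have f181 : Tr r k a {1, 2, 5} 2 := tr_cl C.root C.hyp f78 f180 (by decide) (by decide)
  have f182 : Tr r k a {1, 5} 2 := tr_cl C.root C.hyp f77 f181 (by decide) (by decide)
  have f183 : Tr r k a {5} 2 := tr_cl C.root C.hyp f3 f182 (by decide) (by decide)
  exact nt_tr C.root C.hyp f2 f183 (by decide) (by decide)

theorem z7_16 (C : Ct 7 r k a) (t1 : Tr r k a ∅ 1) (t6 : Tr r k a ∅ 6)
    (n2 : Nt r k a ∅ 2) (n3 : Nt r k a ∅ 3) (n4 : Nt r k a ∅ 4) (n5 : Nt r k a ∅ 5) : False := by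
  have f0 : Tr r k a {6} 1 := tr_mono C.root C.hyp t1 (by decide) (by decide)
  have f1 : Tr r k a {1} 6 := tr_mono C.root C.hyp t6 (by decide) (by decide)
  have f2 : Nt r k a {5} 2 := nt_up C.root C.hyp n2 (by decide) (by decide)
  have f3 : Cm r k a {5} 2 1 := cm_lj C.root C.hyp f0 (by decide) (by decide)
  have f4 : Len r k a ∅ 1 2 2 := len_top C.root C.hyp (by decide)
  have f6 : Len r k a ∅ 3 2 1 := len_top C.root C.hyp (by decide)
  have f8 : Len r k a ∅ 5 2 0 := len_top C.root C.hyp (by decide)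
  have f9 : VC r k a {1, 5} 2 2 5 := vc_str C.root C.hyp f8 (by decide)
  have f11 : Cm r k a {3, 5} 4 1 := cm_lj C.root C.hyp f0 (by decide) (by decide)
  have f12 : VC r k a {1, 3, 5} 4 2 1 := vc_str C.root C.hyp f4 (by decide)
  have f13 : VC r k a {1, 3, 5} 4 2 3 := vc_str C.root C.hyp f6 (by decide)
  have f14 : VC r k a {1, 3, 5} 4 2 5 := vc_str C.root C.hyp f8 (by decide)
  have f15 : Tr r k a {1, 3, 5} 6 := tr_mono C.root C.hyp f1 (by decide) (by decide)
  have f16 : Len r k a {1, 3, 5} 4 2 0 := len_z C.root C.hyp (N := {1, 3, 5}) (t := 6) (si f12 (si f13 (s1 f14))) f15 (by decide) (by decide) (by decide)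
  have f17 : Cm r k a {1, 3, 5} 4 2 := cm_len C.root C.hyp f16
  have f18 : Len r k a ∅ 1 4 2 := len_z C.root C.hyp (N := ∅) (t := 6) sn f1 (by decide) (by decide) (by decide)
  have f19 : VC r k a {1, 2, 3, 5} 4 4 1 := vc_str C.root C.hyp f18 (by decide)
  have f20 : Len r k a ∅ 2 4 0 := len_z C.root C.hyp (N := ∅) (t := 6) sn f1 (by decide) (by decide) (by decide)
  have f21 : VC r k a {1, 2, 3, 5} 4 4 2 := vc_str C.root C.hyp f20 (by decide)
  have f22 : Len r k a ∅ 3 4 0 := len_top C.root C.hyp (by decide)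
  have f23 : VC r k a {1, 2, 3, 5} 4 4 3 := vc_str C.root C.hyp f22 (by decide)
  have f25 : Len r k a ∅ 5 4 1 := len_z C.root C.hyp (N := ∅) (t := 6) sn f1 (by decide) (by decide) (by decide)
  have f26 : VC r k a {1, 2, 3, 5} 4 4 5 := vc_str C.root C.hyp f25 (by decide)
  have f28 : Tr r k a {1, 2, 3, 5, 6} 1 := tr_mono C.root C.hyp f0 (by decide) (by decide)
  have f29 : Len r k a {1, 2, 3, 5} 4 4 0 := len_z C.root C.hyp (N := {1, 2, 3, 5}) (t := 1) (si f19 (si f21 (si f23 (s1 f26)))) f28 (by decide) (by decide) (by decide)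
  have f30 : Cm r k a {1, 2, 3, 5} 4 4 := cm_len C.root C.hyp f29
  have f31 : Cm r k a {1, 2, 3, 4, 5} 4 6 := cm_lj C.root C.hyp f1 (by decide) (by decide)
  have f32 : Tr r k a {1, 2, 3, 4, 5, 6} 4 := tr_center C.root C.hyp C.prm.ss (by decide) (by decide)
  have f33 : Tr r k a {1, 2, 3, 4, 5} 4 := tr_cl C.root C.hyp f31 f32 (by decide) (by decide)
  have f34 : Tr r k a {1, 2, 3, 5} 4 := tr_cl C.root C.hyp f30 f33 (by decide) (by decide)
  have f35 : Tr r k a {1, 3, 5} 4 := tr_cl C.root C.hyp f17 f34 (by decide) (by decide)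
  have f36 : Tr r k a {3, 5} 4 := tr_cl C.root C.hyp f11 f35 (by decide) (by decide)
  have f37 : Len r k a {1, 5} 2 2 0 := len_z C.root C.hyp (N := {5}) (t := 4) (s1 f9) f36 (by decide) (by decide) (by decide)
  have f38 : Cm r k a {1, 5} 2 2 := cm_len C.root C.hyp f37
  have f40 : Len r k a ∅ 2 3 1 := len_z C.root C.hyp (N := ∅) (t := 1) sn f0 (by decide) (by decide) (by decide)
  have f41 : VC r k a {1, 2, 5} 2 3 2 := vc_str C.root C.hyp f40 (by decide)
  have f44 : Len r k a ∅ 5 3 0 := len_z C.root C.hyp (N := ∅) (t := 1) sn f0 (by decide) (by decide) (by decide)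
  have f45 : VC r k a {1, 2, 5} 2 3 5 := vc_str C.root C.hyp f44 (by decide)
  have f47 : Cm r k a {2, 5} 5 1 := cm_lj C.root C.hyp f0 (by decide) (by decide)
  have f48 : VC r k a {1, 2, 5} 5 3 2 := vc_str C.root C.hyp f40 (by decide)
  have f49 : VC r k a {1, 2, 5} 5 3 5 := vc_str C.root C.hyp f44 (by decide)
  have f50 : Tr r k a {2, 5, 6} 1 := tr_mono C.root C.hyp f0 (by decide) (by decide)
  have f51 : Len r k a {1, 2, 5} 5 3 0 := len_z C.root C.hyp (N := {2, 5}) (t := 1) (si f48 (s1 f49)) f50 (by decide) (by decide) (by decide)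
  have f52 : Cm r k a {1, 2, 5} 5 3 := cm_len C.root C.hyp f51
  have f53 : VC r k a {1, 2, 3, 5} 5 4 1 := vc_str C.root C.hyp f18 (by decide)
  have f54 : VC r k a {1, 2, 3, 5} 5 4 2 := vc_str C.root C.hyp f20 (by decide)
  have f55 : VC r k a {1, 2, 3, 5} 5 4 3 := vc_str C.root C.hyp f22 (by decide)
  have f56 : VC r k a {1, 2, 3, 5} 5 4 5 := vc_str C.root C.hyp f25 (by decide)
  have f57 : VC r k a {1, 2, 3, 5} 2 4 1 := vc_str C.root C.hyp f18 (by decide)
  have f58 : VC r k a {1, 2, 3, 5} 2 4 2 := vc_str C.root C.hyp f20 (by decide)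
  have f59 : VC r k a {1, 2, 3, 5} 2 4 3 := vc_str C.root C.hyp f22 (by decide)
  have f60 : VC r k a {1, 2, 3, 5} 2 4 5 := vc_str C.root C.hyp f25 (by decide)
  have f61 : Tr r k a {1, 2, 3, 5} 6 := tr_mono C.root C.hyp f1 (by decide) (by decide)
  have f62 : Len r k a {1, 2, 3, 5} 2 4 0 := len_z C.root C.hyp (N := {1, 2, 3, 5}) (t := 6) (si f57 (si f58 (si f59 (s1 f60)))) f61 (by decide) (by decide) (by decide)
  have f63 : Cm r k a {1, 2, 3, 5} 2 4 := cm_len C.root C.hyp f62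
  have f64 : Cm r k a {1, 2, 3, 4, 5} 2 6 := cm_lj C.root C.hyp f1 (by decide) (by decide)
  have f65 : Tr r k a {1, 2, 3, 4, 5, 6} 2 := tr_center C.root C.hyp C.prm.ss (by decide) (by decide)
  have f66 : Tr r k a {1, 2, 3, 4, 5} 2 := tr_cl C.root C.hyp f64 f65 (by decide) (by decide)
  have f67 : Tr r k a {1, 2, 3, 5} 2 := tr_cl C.root C.hyp f63 f66 (by decide) (by decide)
  have f68 : Len r k a {1, 2, 3, 5} 5 4 0 := len_z C.root C.hyp (N := {1, 2, 3, 5}) (t := 2) (si f53 (si f54 (si f55 (s1 f56)))) f67 (by decide) (by decide) (by decide)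
  have f69 : Cm r k a {1, 2, 3, 5} 5 4 := cm_len C.root C.hyp f68
  have f70 : Cm r k a {1, 2, 3, 4, 5} 5 6 := cm_lj C.root C.hyp f1 (by decide) (by decide)
  have f71 : Tr r k a {1, 2, 3, 4, 5, 6} 5 := tr_center C.root C.hyp C.prm.ss (by decide) (by decide)
  have f72 : Tr r k a {1, 2, 3, 4, 5} 5 := tr_cl C.root C.hyp f70 f71 (by decide) (by decide)
  have f73 : Tr r k a {1, 2, 3, 5} 5 := tr_cl C.root C.hyp f69 f72 (by decide) (by decide)
  have f74 : Tr r k a {1, 2, 5} 5 := tr_cl C.root C.hyp f52 f73 (by decide) (by decide)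
  have f75 : Tr r k a {2, 5} 5 := tr_cl C.root C.hyp f47 f74 (by decide) (by decide)
  have f76 : Len r k a {1, 2, 5} 2 3 0 := len_z C.root C.hyp (N := {2, 5}) (t := 5) (si f41 (s1 f45)) f75 (by decide) (by decide) (by decide)
  have f77 : Cm r k a {1, 2, 5} 2 3 := cm_len C.root C.hyp f76
  have f78 : Tr r k a {1, 2, 5} 2 := tr_cl C.root C.hyp f77 f67 (by decide) (by decide)
  have f79 : Tr r k a {1, 5} 2 := tr_cl C.root C.hyp f38 f78 (by decide) (by decide)
  have f80 : Tr r k a {5} 2 := tr_cl C.root C.hyp f3 f79 (by decide) (by decide)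
  exact nt_tr C.root C.hyp f2 f80 (by decide) (by decide)

theorem z7_123 (C : Ct 7 r k a) (t1 : Tr r k a ∅ 1) (t2 : Tr r k a ∅ 2) (t3 : Tr r k a ∅ 3)
    (n4 : Nt r k a ∅ 4) (n5 : Nt r k a ∅ 5) (n6 : Nt r k a ∅ 6) : False := by
  have f0 : Tr r k a {6} 1 := tr_mono C.root C.hyp t1 (by decide) (by decide)
  have f1 : Tr r k a {5} 2 := tr_mono C.root C.hyp t2 (by decide) (by decide)
  have f2 : Tr r k a {4} 3 := tr_mono C.root C.hyp t3 (by decide) (by decide)
  have f3 : Nt r k a {3} 4 := nt_up C.root C.hyp n4 (by decide) (by decide)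
  have f4 : Cm r k a {3} 4 1 := cm_lj C.root C.hyp f0 (by decide) (by decide)
  have f5 : Cm r k a {1, 3} 4 2 := cm_lj C.root C.hyp f1 (by decide) (by decide)
  have f8 : Len r k a ∅ 3 4 0 := len_top C.root C.hyp (by decide)
  have f9 : VC r k a {1, 2, 3} 4 4 3 := vc_str C.root C.hyp f8 (by decide)
  have f13 : Tr r k a {3, 6} 1 := tr_mono C.root C.hyp f0 (by decide) (by decide)
  have f14 : Len r k a {1, 2, 3} 4 4 0 := len_z C.root C.hyp (N := {3}) (t := 1) (s1 f9) f13 (by decide) (by decide) (by decide)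
  have f15 : Cm r k a {1, 2, 3} 4 4 := cm_len C.root C.hyp f14
  have f17 : Len r k a ∅ 2 5 0 := len_top C.root C.hyp (by decide)
  have f18 : VC r k a {1, 2, 3, 4} 4 5 2 := vc_str C.root C.hyp f17 (by decide)
  have f19 : Len r k a ∅ 3 5 0 := len_z C.root C.hyp (N := ∅) (t := 1) sn f0 (by decide) (by decide) (by decide)
  have f20 : VC r k a {1, 2, 3, 4} 4 5 3 := vc_str C.root C.hyp f19 (by decide)
  have f21 : Len r k a ∅ 4 5 0 := len_z C.root C.hyp (N := ∅) (t := 2) sn f1 (by decide) (by decide) (by decide)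
  have f22 : VC r k a {1, 2, 3, 4} 4 5 4 := vc_str C.root C.hyp f21 (by decide)
  have f25 : Tr r k a {2, 3, 4, 5} 2 := tr_mono C.root C.hyp f1 (by decide) (by decide)
  have f26 : Len r k a {1, 2, 3, 4} 4 5 0 := len_z C.root C.hyp (N := {2, 3, 4}) (t := 2) (si f18 (si f20 (s1 f22))) f25 (by decide) (by decide) (by decide)
  have f27 : Cm r k a {1, 2, 3, 4} 4 5 := cm_len C.root C.hyp f26
  have f28 : Len r k a ∅ 1 6 0 := len_top C.root C.hyp (by decide)
  have f29 : VC r k a {1, 2, 3, 4, 5} 4 6 1 := vc_str C.root C.hyp f28 (by decide)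
  have f30 : Len r k a ∅ 2 6 0 := len_z C.root C.hyp (N := ∅) (t := 1) sn f0 (by decide) (by decide) (by decide)
  have f31 : VC r k a {1, 2, 3, 4, 5} 4 6 2 := vc_str C.root C.hyp f30 (by decide)
  have f32 : Len r k a ∅ 3 6 0 := len_z C.root C.hyp (N := ∅) (t := 2) sn f1 (by decide) (by decide) (by decide)
  have f33 : VC r k a {1, 2, 3, 4, 5} 4 6 3 := vc_str C.root C.hyp f32 (by decide)
  have f34 : Len r k a ∅ 4 6 0 := len_z C.root C.hyp (N := ∅) (t := 3) sn f2 (by decide) (by decide) (by decide)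
  have f35 : VC r k a {1, 2, 3, 4, 5} 4 6 4 := vc_str C.root C.hyp f34 (by decide)
  have f36 : Len r k a ∅ 5 6 1 := len_z C.root C.hyp (N := ∅) (t := 3) sn f2 (by decide) (by decide) (by decide)
  have f37 : VC r k a {1, 2, 3, 4, 5} 4 6 5 := vc_str C.root C.hyp f36 (by decide)
  have f39 : Tr r k a {1, 2, 3, 4, 5} 3 := tr_mono C.root C.hyp f2 (by decide) (by decide)
  have f40 : Len r k a {1, 2, 3, 4, 5} 4 6 0 := len_z C.root C.hyp (N := {1, 2, 3, 4, 5}) (t := 3) (si f29 (si f31 (si f33 (si f35 (s1 f37))))) f39 (by decide) (by decide) (by decide)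
  have f41 : Cm r k a {1, 2, 3, 4, 5} 4 6 := cm_len C.root C.hyp f40
  have f42 : Tr r k a {1, 2, 3, 4, 5, 6} 4 := tr_center C.root C.hyp C.prm.ss (by decide) (by decide)
  have f43 : Tr r k a {1, 2, 3, 4, 5} 4 := tr_cl C.root C.hyp f41 f42 (by decide) (by decide)
  have f44 : Tr r k a {1, 2, 3, 4} 4 := tr_cl C.root C.hyp f27 f43 (by decide) (by decide)
  have f45 : Tr r k a {1, 2, 3} 4 := tr_cl C.root C.hyp f15 f44 (by decide) (by decide)
  have f46 : Tr r k a {1, 3} 4 := tr_cl C.root C.hyp f5 f45 (by decide) (by decide)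
  have f47 : Tr r k a {3} 4 := tr_cl C.root C.hyp f4 f46 (by decide) (by decide)
  exact nt_tr C.root C.hyp f3 f47 (by decide) (by decide)

theorem z7_124 (C : Ct 7 r k a) (t1 : Tr r k a ∅ 1) (t2 : Tr r k a ∅ 2) (t4 : Tr r k a ∅ 4)
    (n3 : Nt r k a ∅ 3) (n5 : Nt r k a ∅ 5) (n6 : Nt r k a ∅ 6) : False := by
  have f0 : Tr r k a {6} 1 := tr_mono C.root C.hyp t1 (by decide) (by decide)
  have f1 : Tr r k a {5} 2 := tr_mono C.root C.hyp t2 (by decide) (by decide)
  have f2 : Tr r k a {3} 4 := tr_mono C.root C.hyp t4 (by decide) (by decide)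
  have f3 : Nt r k a {4} 3 := nt_up C.root C.hyp n3 (by decide) (by decide)
  have f4 : Cm r k a {4} 3 1 := cm_lj C.root C.hyp f0 (by decide) (by decide)
  have f5 : Cm r k a {1, 4} 3 2 := cm_lj C.root C.hyp f1 (by decide) (by decide)
  have f6 : Len r k a ∅ 1 3 0 := len_z C.root C.hyp (N := ∅) (t := 4) sn f2 (by decide) (by decide) (by decide)
  have f7 : VC r k a {1, 2, 4} 3 3 1 := vc_str C.root C.hyp f6 (by decide)
  have f10 : Len r k a ∅ 4 3 0 := len_top C.root C.hyp (by decide)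
  have f11 : VC r k a {1, 2, 4} 3 3 4 := vc_str C.root C.hyp f10 (by decide)
  have f14 : Cm r k a {1, 4} 6 2 := cm_lj C.root C.hyp f1 (by decide) (by decide)
  have f15 : VC r k a {1, 2, 4} 6 3 1 := vc_str C.root C.hyp f6 (by decide)
  have f16 : VC r k a {1, 2, 4} 6 3 4 := vc_str C.root C.hyp f10 (by decide)
  have f17 : Tr r k a {1, 4, 5} 2 := tr_mono C.root C.hyp f1 (by decide) (by decide)
  have f18 : Len r k a {1, 2, 4} 6 3 0 := len_z C.root C.hyp (N := {1, 4}) (t := 2) (si f15 (s1 f16)) f17 (by decide) (by decide) (by decide)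
  have f19 : Cm r k a {1, 2, 4} 6 3 := cm_len C.root C.hyp f18
  have f21 : Len r k a ∅ 2 5 0 := len_top C.root C.hyp (by decide)
  have f22 : VC r k a {1, 2, 3, 4} 6 5 2 := vc_str C.root C.hyp f21 (by decide)
  have f23 : Len r k a ∅ 3 5 0 := len_z C.root C.hyp (N := ∅) (t := 1) sn f0 (by decide) (by decide) (by decide)
  have f24 : VC r k a {1, 2, 3, 4} 6 5 3 := vc_str C.root C.hyp f23 (by decide)
  have f25 : Len r k a ∅ 4 5 0 := len_z C.root C.hyp (N := ∅) (t := 2) sn f1 (by decide) (by decide) (by decide)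
  have f26 : VC r k a {1, 2, 3, 4} 6 5 4 := vc_str C.root C.hyp f25 (by decide)
  have f29 : Tr r k a {2, 3, 4} 4 := tr_mono C.root C.hyp f2 (by decide) (by decide)
  have f30 : Len r k a {1, 2, 3, 4} 6 5 0 := len_z C.root C.hyp (N := {2, 3, 4}) (t := 4) (si f22 (si f24 (s1 f26))) f29 (by decide) (by decide) (by decide)
  have f31 : Cm r k a {1, 2, 3, 4} 6 5 := cm_len C.root C.hyp f30
  have f32 : Len r k a ∅ 1 6 0 := len_top C.root C.hyp (by decide)
  have f33 : VC r k a {1, 2, 3, 4, 5} 6 6 1 := vc_str C.root C.hyp f32 (by decide)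
  have f34 : Len r k a ∅ 2 6 0 := len_z C.root C.hyp (N := ∅) (t := 1) sn f0 (by decide) (by decide) (by decide)
  have f35 : VC r k a {1, 2, 3, 4, 5} 6 6 2 := vc_str C.root C.hyp f34 (by decide)
  have f36 : Len r k a ∅ 3 6 0 := len_z C.root C.hyp (N := ∅) (t := 2) sn f1 (by decide) (by decide) (by decide)
  have f37 : VC r k a {1, 2, 3, 4, 5} 6 6 3 := vc_str C.root C.hyp f36 (by decide)
  have f38 : Len r k a ∅ 4 6 1 := len_z C.root C.hyp (N := ∅) (t := 2) sn f1 (by decide) (by decide) (by decide)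
  have f39 : VC r k a {1, 2, 3, 4, 5} 6 6 4 := vc_str C.root C.hyp f38 (by decide)
  have f40 : Len r k a ∅ 5 6 0 := len_z C.root C.hyp (N := ∅) (t := 4) sn f2 (by decide) (by decide) (by decide)
  have f41 : VC r k a {1, 2, 3, 4, 5} 6 6 5 := vc_str C.root C.hyp f40 (by decide)
  have f43 : VC r k a {1, 2, 3, 4, 5} 5 6 1 := vc_str C.root C.hyp f32 (by decide)
  have f44 : VC r k a {1, 2, 3, 4, 5} 5 6 2 := vc_str C.root C.hyp f34 (by decide)
  have f45 : VC r k a {1, 2, 3, 4, 5} 5 6 3 := vc_str C.root C.hyp f36 (by decide)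
  have f46 : VC r k a {1, 2, 3, 4, 5} 5 6 4 := vc_str C.root C.hyp f38 (by decide)
  have f47 : VC r k a {1, 2, 3, 4, 5} 5 6 5 := vc_str C.root C.hyp f40 (by decide)
  have f48 : Tr r k a {1, 2, 3, 4, 5} 4 := tr_mono C.root C.hyp f2 (by decide) (by decide)
  have f49 : Len r k a {1, 2, 3, 4, 5} 5 6 0 := len_z C.root C.hyp (N := {1, 2, 3, 4, 5}) (t := 4) (si f43 (si f44 (si f45 (si f46 (s1 f47))))) f48 (by decide) (by decide) (by decide)
  have f50 : Cm r k a {1, 2, 3, 4, 5} 5 6 := cm_len C.root C.hyp f49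
  have f51 : Tr r k a {1, 2, 3, 4, 5, 6} 5 := tr_center C.root C.hyp C.prm.ss (by decide) (by decide)
  have f52 : Tr r k a {1, 2, 3, 4, 5} 5 := tr_cl C.root C.hyp f50 f51 (by decide) (by decide)
  have f53 : Len r k a {1, 2, 3, 4, 5} 6 6 0 := len_z C.root C.hyp (N := {1, 2, 3, 4, 5}) (t := 5) (si f33 (si f35 (si f37 (si f39 (s1 f41))))) f52 (by decide) (by decide) (by decide)
  have f54 : Cm r k a {1, 2, 3, 4, 5} 6 6 := cm_len C.root C.hyp f53
  have f55 : Tr r k a {1, 2, 3, 4, 5, 6} 6 := tr_center C.root C.hyp C.prm.ss (by decide) (by decide)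
  have f56 : Tr r k a {1, 2, 3, 4, 5} 6 := tr_cl C.root C.hyp f54 f55 (by decide) (by decide)
  have f57 : Tr r k a {1, 2, 3, 4} 6 := tr_cl C.root C.hyp f31 f56 (by decide) (by decide)
  have f58 : Tr r k a {1, 2, 4} 6 := tr_cl C.root C.hyp f19 f57 (by decide) (by decide)
  have f59 : Tr r k a {1, 4} 6 := tr_cl C.root C.hyp f14 f58 (by decide) (by decide)
  have f60 : Len r k a {1, 2, 4} 3 3 0 := len_z C.root C.hyp (N := {1, 4}) (t := 6) (si f7 (s1 f11)) f59 (by decide) (by decide) (by decide)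
  have f61 : Cm r k a {1, 2, 4} 3 3 := cm_len C.root C.hyp f60
  have f62 : VC r k a {1, 2, 3, 4} 3 5 2 := vc_str C.root C.hyp f21 (by decide)
  have f63 : VC r k a {1, 2, 3, 4} 3 5 3 := vc_str C.root C.hyp f23 (by decide)
  have f64 : VC r k a {1, 2, 3, 4} 3 5 4 := vc_str C.root C.hyp f25 (by decide)
  have f65 : Tr r k a {2, 3, 4, 6} 1 := tr_mono C.root C.hyp f0 (by decide) (by decide)
  have f66 : Len r k a {1, 2, 3, 4} 3 5 0 := len_z C.root C.hyp (N := {2, 3, 4}) (t := 1) (si f62 (si f63 (s1 f64))) f65 (by decide) (by decide) (by decide)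
  have f67 : Cm r k a {1, 2, 3, 4} 3 5 := cm_len C.root C.hyp f66
  have f68 : VC r k a {1, 2, 3, 4, 5} 3 6 1 := vc_str C.root C.hyp f32 (by decide)
  have f69 : VC r k a {1, 2, 3, 4, 5} 3 6 2 := vc_str C.root C.hyp f34 (by decide)
  have f70 : VC r k a {1, 2, 3, 4, 5} 3 6 3 := vc_str C.root C.hyp f36 (by decide)
  have f71 : VC r k a {1, 2, 3, 4, 5} 3 6 4 := vc_str C.root C.hyp f38 (by decide)
  have f72 : VC r k a {1, 2, 3, 4, 5} 3 6 5 := vc_str C.root C.hyp f40 (by decide)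
  have f73 : Tr r k a {1, 2, 3, 4, 5} 2 := tr_mono C.root C.hyp f1 (by decide) (by decide)
  have f74 : Len r k a {1, 2, 3, 4, 5} 3 6 0 := len_z C.root C.hyp (N := {1, 2, 3, 4, 5}) (t := 2) (si f68 (si f69 (si f70 (si f71 (s1 f72))))) f73 (by decide) (by decide) (by decide)
  have f75 : Cm r k a {1, 2, 3, 4, 5} 3 6 := cm_len C.root C.hyp f74
  have f76 : Tr r k a {1, 2, 3, 4, 5, 6} 3 := tr_center C.root C.hyp C.prm.ss (by decide) (by decide)
  have f77 : Tr r k a {1, 2, 3, 4, 5} 3 := tr_cl C.root C.hyp f75 f76 (by decide) (by decide)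
  have f78 : Tr r k a {1, 2, 3, 4} 3 := tr_cl C.root C.hyp f67 f77 (by decide) (by decide)
  have f79 : Tr r k a {1, 2, 4} 3 := tr_cl C.root C.hyp f61 f78 (by decide) (by decide)
  have f80 : Tr r k a {1, 4} 3 := tr_cl C.root C.hyp f5 f79 (by decide) (by decide)
  have f81 : Tr r k a {4} 3 := tr_cl C.root C.hyp f4 f80 (by decide) (by decide)
  exact nt_tr C.root C.hyp f3 f81 (by decide) (by decide)

end Pool.Agent.FRS
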